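import Pool.Agent.Lib.MP_ec866f_lc.Defs

/-! calculus of arithmetical predicates -/

set_option autoImplicit false

namespace FR

open Filter Encodable

theorem rich_of_set (A : Set ℕ) : ∀ᶠ G in rich, ∃ j, col G j = A := by
  refine ⟨{n | n.unpair.2 ∈ A}, fun G hG => ?_⟩
  obtain ⟨j, hj⟩ := hG 0
  refine ⟨j, hj.trans ?_⟩
  ext n; simp [col]

theorem rich_neBot : rich.NeBot := by
  refine ⟨fun h => ?_⟩
  have : (∅ : Set (Set ℕ)) ∈ rich := by rw [h]; trivial
  obtain ⟨A, hA⟩ := this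
  exact hA A (fun i => ⟨i, rfl⟩)

theorem rich_countable {ι : Type} [Countable ι] {p : ι → Set ℕ → Prop}
    (h : ∀ i, ∀ᶠ G in rich, p i G) : ∀ᶠ G in rich, ∀ i, p i G := by
  classical
  choose A hA using h
  obtain ⟨e, he⟩ := exists_injective_nat ι
  refine ⟨{n | ∃ i : ι, e i = n.unpair.1.unpair.1 ∧ Nat.pair n.unpair.1.unpair.2 n.unpair.2 ∈ A i}, fun G hG => ?_⟩
  intro i
  refine hA i G fun k => ?_
  obtain ⟨j, hj⟩ := hG (Nat.pair (e i) k)
  refine ⟨j, hj.trans ?_⟩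
  ext n
  simp only [mem_col, Set.mem_ofPred_eq, Nat.unpair_pair]
  constructor
  · rintro ⟨i', hi', h⟩
    rw [he hi'] at h; exact h
  · intro h; exact ⟨i, rfl, h⟩

theorem ACA.ev_mem {M : Set (Set ℕ)} (hM : ACA M) {S : Set ℕ} (hS : S ∈ M) (c : Code) :
    {a | c.ev S a} ∈ M := by
  induction c with
  | mem => exact hS
  | neg c ih => exact hM.compl_mem ih
  | and c d ih1 ih2 => exact hM.inter_mem ih1 ih2
  | ex c ih => exact hM.proj_mem ih
  | sub t c ih => exact hM.tm_mem t ih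

theorem jn_col_zero (A B : Set ℕ) : col (jn A B) 0 = A := by
  ext n; simp [col, jn]

theorem jn_col_one (A B : Set ℕ) : col (jn A B) 1 = B := by
  ext n; simp [col, jn]

theorem ACA.col_mem {M : Set (Set ℕ)} (hM : ACA M) {S : Set ℕ} (hS : S ∈ M) (i : ℕ) :
    col S i ∈ M := by
  have := hM.tm_mem (.pr (.cst i) .id) hS
  exact this

variable {α β γ : Type} [Encodable α] [Encodable β] [Encodable γ]

/-- code for a column of `G` -/
def cG (j : ℕ) : Code := .sub (.pr (.cst 0) (.pr (.cst j) .id)) .mem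

theorem cG_ev (j : ℕ) (G S : Set ℕ) (a : ℕ) : (cG j).ev (jn G S) a ↔ a ∈ col G j := by
  simp [cG, Code.ev, Tm.ev, jn, col]

theorem Ar.congr {P Q : α → Set ℕ → Prop} (hP : Ar P) (h : ∀ x S, P x S ↔ Q x S) : Ar Q := by
  have : P = Q := by funext x S; exact propext (h x S)
  rwa [← this]

theorem Ar.free (p : α → Prop) : Ar (fun (x : α) (_ : Set ℕ) => p x) := by
  filter_upwards [rich_of_set (enS p)] with G ⟨j, hj⟩
  refine ⟨cG j, fun S x => ?_⟩
  rw [cG_ev, hj]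
  constructor
  · rintro ⟨y, hy, h⟩
    rwa [← encode_injective hy]
  · intro h; exact ⟨x, rfl, h⟩

theorem Ar.not {P : α → Set ℕ → Prop} (hP : Ar P) : Ar (fun x S => ¬ P x S) := by
  filter_upwards [hP] with G ⟨c, hc⟩
  exact ⟨.neg c, fun S x => not_congr (hc S x)⟩

theorem Ar.and {P Q : α → Set ℕ → Prop} (hP : Ar P) (hQ : Ar Q) : Ar (fun x S => P x S ∧ Q x S) := by
  filter_upwards [hP, hQ] with G ⟨c, hc⟩ ⟨d, hd⟩
  exact ⟨.and c d, fun S x => and_congr (hc S x) (hd S x)⟩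

theorem Ar.or {P Q : α → Set ℕ → Prop} (hP : Ar P) (hQ : Ar Q) : Ar (fun x S => P x S ∨ Q x S) := by
  refine (hP.not.and hQ.not).not.congr fun x S => ?_
  tauto

theorem Ar.imp {P Q : α → Set ℕ → Prop} (hP : Ar P) (hQ : Ar Q) : Ar (fun x S => P x S → Q x S) := by
  refine (hP.not.or hQ).congr fun x S => ?_
  tauto

theorem Ar.iff {P Q : α → Set ℕ → Prop} (hP : Ar P) (hQ : Ar Q) : Ar (fun x S => (P x S ↔ Q x S)) := by
  refine ((hP.imp hQ).and (hQ.imp hP)).congr fun x S => ?_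
  tauto

theorem Ar.ex {P : α × β → Set ℕ → Prop} (hP : Ar P) : Ar (fun x S => ∃ y : β, P (x, y) S) := by
  filter_upwards [hP, rich_of_set (Set.range (fun z : α × β => encode z))] with G ⟨c, hc⟩ ⟨j, hj⟩
  refine ⟨.ex (.and (cG j) c), fun S x => ?_⟩
  constructor
  · rintro ⟨b, h1, h2⟩
    rw [cG_ev, hj] at h1
    obtain ⟨⟨x', y⟩, hz⟩ := h1
    simp only [encode_prod_val, Nat.pair_eq_pair] at hz
    have hx : x' = x := encode_injective hz.1
    refine ⟨y, (hc S (x, y)).1 ?_⟩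
    rw [encode_prod_val, hz.2]; exact h2
  · rintro ⟨y, hy⟩
    refine ⟨encode y, ?_, ?_⟩
    · rw [cG_ev, hj]; exact ⟨(x, y), rfl⟩
    · exact (hc S (x, y)).2 hy

theorem Ar.all {P : α × β → Set ℕ → Prop} (hP : Ar P) : Ar (fun x S => ∀ y : β, P (x, y) S) := by
  refine (hP.not.ex).not.congr fun x S => ?_
  push Not
  rfl

theorem Ar.comp {P : α → Set ℕ → Prop} (hP : Ar P) (f : β → α) : Ar (fun y S => P (f y) S) := by
  filter_upwards [hP, rich_of_set (enS (fun z : β × α => z.2 = f z.1))] with G ⟨c, hc⟩ ⟨j, hj⟩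
  refine ⟨.ex (.and (cG j) (.sub (.snd .id) c)), fun S y => ?_⟩
  constructor
  · rintro ⟨b, h1, h2⟩
    rw [cG_ev, hj] at h1
    obtain ⟨⟨y', x⟩, hz, hx⟩ := h1
    simp only [encode_prod_val, Nat.pair_eq_pair] at hz
    have hy : y' = y := encode_injective hz.1
    subst hy
    simp only at hx
    subst hx
    simp only [Code.ev, Tm.ev, Nat.unpair_pair] at h2
    rw [← hz.2] at h2
    exact (hc S _).1 h2
  · intro h
    refine ⟨encode (f y), ?_, ?_⟩
    · rw [cG_ev, hj]; exact ⟨(y, f y), rfl, rfl⟩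
    · simp only [Code.ev, Tm.ev, Nat.unpair_pair]
      exact (hc S _).2 h

theorem Ar.mem_id : Ar (fun (n : ℕ) (S : Set ℕ) => n ∈ S) := by
  refine Eventually.of_forall fun G => ⟨.sub (.pr (.cst 1) .id) .mem, fun S x => ?_⟩
  simp [Code.ev, Tm.ev, jn]

theorem Ar.mem (f : α → ℕ) : Ar (fun (x : α) (S : Set ℕ) => f x ∈ S) := Ar.mem_id.comp f

theorem Ar.eqv {P : α → Set ℕ → Prop} {Q : β → Set ℕ → Prop} (hQ : Ar Q) (f : α → β)
    (h : ∀ x S, P x S ↔ Q (f x) S) : Ar P :=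
  (hQ.comp f).congr fun x S => (h x S).symm

/-- substitution of a definable set (which may depend on the number parameter) -/
theorem Ar.subst {P : α → Set ℕ → Prop} (hP : Ar P) {B : α → Set ℕ → Set ℕ}
    (hB : Ar (fun (p : α × ℕ) S => p.2 ∈ B p.1 S)) : Ar (fun x S => P x (B x S)) := by
  filter_upwards [hP, hB, rich_of_set {a | a.unpair.2.unpair.1 = 0}, rich_of_set {a | a.unpair.2.unpair.1 = 1}] with G ⟨c, hc⟩ ⟨b, hb⟩ ⟨j0, hj0⟩ ⟨j1, hj1⟩
  have key : ∀ c : Code, ∃ c' : Code, ∀ (S : Set ℕ) (x : α) (a : ℕ),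
      c'.ev (jn G S) (Nat.pair (encode x) a) ↔ c.ev (jn G (B x S)) a := by
    intro c
    induction c with
    | mem =>
        -- (a.1 = 0 and a.2 in G) or (a.1 = 1 and a.2 in B x S)
        refine ⟨.neg (.and (.neg (.and (cG j0) (.sub (.pr (.cst 0) (.snd (.snd .id))) .mem)))
          (.neg (.and (cG j1) (.sub (.pr (.fst .id) (.snd (.snd .id))) b)))), fun S x a => ?_⟩
        have e1 : (cG j0).ev (jn G S) (Nat.pair (encode x) a) ↔ a.unpair.1 = 0 := by
          rw [cG_ev, hj0]; simp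
        have e2 : (cG j1).ev (jn G S) (Nat.pair (encode x) a) ↔ a.unpair.1 = 1 := by
          rw [cG_ev, hj1]; simp
        have e3 : b.ev (jn G S) (Nat.pair (encode x) a.unpair.2) ↔ a.unpair.2 ∈ B x S := by
          have := hb S (x, a.unpair.2)
          simpa [encode_prod_val] using this
        have e4 : (Nat.pair 0 a.unpair.2 ∈ jn G S) ↔ a.unpair.2 ∈ G := by simp [jn]
        have e5 : a ∈ jn G (B x S) ↔ ((a.unpair.1 = 0 ∧ a.unpair.2 ∈ G) ∨
          (a.unpair.1 = 1 ∧ a.unpair.2 ∈ B x S)) := Iff.rfl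
        simp only [Code.ev, e1, e2, Tm.ev, Nat.unpair_pair, e3, e4, e5]
        by_cases h1 : a.unpair.1 = 0 <;> by_cases h2 : a.unpair.2 ∈ G <;>
          by_cases h3 : a.unpair.1 = 1 <;> by_cases h4 : a.unpair.2 ∈ B x S <;>
          simp [h1, h2, h3, h4]
    | neg c ih =>
        obtain ⟨c', h⟩ := ih
        exact ⟨.neg c', fun S x a => not_congr (h S x a)⟩
    | and c d ih1 ih2 =>
        obtain ⟨c', h⟩ := ih1
        obtain ⟨d', h'⟩ := ih2
        exact ⟨.and c' d', fun S x a => and_congr (h S x a) (h' S x a)⟩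
    | ex c ih =>
        obtain ⟨c', h⟩ := ih
        refine ⟨.ex (.sub (.pr (.fst (.fst .id)) (.pr (.snd (.fst .id)) (.snd .id))) c'), fun S x a => ?_⟩
        simp only [Code.ev, Tm.ev, Nat.unpair_pair]
        exact exists_congr fun b => h S x _
    | sub t c ih =>
        obtain ⟨c', h⟩ := ih
        -- need a term computing pair (fst) (t (snd))
        have ht : ∀ t : Tm, ∃ t' : Tm, ∀ x a : ℕ, t'.ev (Nat.pair x a) = t.ev a := by
          intro t
          induction t with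
          | id => exact ⟨.snd .id, fun x a => by simp [Tm.ev]⟩
          | cst n => exact ⟨.cst n, fun x a => by simp [Tm.ev]⟩
          | fst t ih => obtain ⟨t', h⟩ := ih; exact ⟨.fst t', fun x a => by simp [Tm.ev, h]⟩
          | snd t ih => obtain ⟨t', h⟩ := ih; exact ⟨.snd t', fun x a => by simp [Tm.ev, h]⟩
          | pr t u ih1 ih2 =>
              obtain ⟨t', h1⟩ := ih1; obtain ⟨u', h2⟩ := ih2
              exact ⟨.pr t' u', fun x a => by simp [Tm.ev, h1, h2]⟩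
        obtain ⟨t', ht'⟩ := ht t
        refine ⟨.sub (.pr (.fst .id) t') c', fun S x a => ?_⟩
        simp only [Code.ev, Tm.ev, Nat.unpair_pair, ht']
        exact h S x _
  obtain ⟨c', hc'⟩ := key c
  refine ⟨.sub (.pr .id .id) c', fun S x => ?_⟩
  simp only [Code.ev, Tm.ev]
  rw [hc' S x (encode x)]
  exact hc _ _

/-- codes whose oracle already contains `G` -/
theorem Ar.code_in {P : α → Set ℕ → Prop} (hP : Ar P) :
    ∀ᶠ G in rich, ∃ c : Code, ∀ (Y R : Set ℕ) (x : α),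
      c.ev (jn (jn G Y) R) (encode x) ↔ P x (jn (jn G Y) R) := by
  filter_upwards [hP, rich_of_set {a | a.unpair.1 = 0}, rich_of_set {a | a.unpair.1 = 1}]
    with G ⟨c, hc⟩ ⟨j0, hj0⟩ ⟨j1, hj1⟩
  have key : ∀ c : Code, ∃ c' : Code, ∀ (Y R : Set ℕ) (a : ℕ),
      c'.ev (jn (jn G Y) R) a ↔ c.ev (jn G (jn (jn G Y) R)) a := by
    intro c
    induction c with
    | mem =>
        refine ⟨.neg (.and (.neg (.and (.sub (.pr (.cst 0) (.pr (.cst 0) (.pr (.cst j0) .id))) .mem)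
            (.sub (.pr (.cst 0) (.pr (.cst 0) (.snd .id))) .mem)))
          (.neg (.and (.sub (.pr (.cst 0) (.pr (.cst 0) (.pr (.cst j1) .id))) .mem)
            (.sub (.snd .id) .mem)))), fun Y R a => ?_⟩
        have e0 : ∀ n, (Nat.pair 0 (Nat.pair 0 n) ∈ jn (jn G Y) R) ↔ n ∈ G := by
          intro n; simp [jn]
        have e1 : (Nat.pair j0 a ∈ G) ↔ a.unpair.1 = 0 := by
          have : a ∈ col G j0 ↔ a.unpair.1 = 0 := by rw [hj0]; rfl
          exact this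
        have e2 : (Nat.pair j1 a ∈ G) ↔ a.unpair.1 = 1 := by
          have : a ∈ col G j1 ↔ a.unpair.1 = 1 := by rw [hj1]; rfl
          exact this
        have e5 : a ∈ jn G (jn (jn G Y) R) ↔ ((a.unpair.1 = 0 ∧ a.unpair.2 ∈ G) ∨
          (a.unpair.1 = 1 ∧ a.unpair.2 ∈ jn (jn G Y) R)) := Iff.rfl
        simp only [Code.ev, Tm.ev, e0, e1, e2, e5]
        by_cases h1 : a.unpair.1 = 0 <;> by_cases h2 : a.unpair.2 ∈ G <;>
          by_cases h3 : a.unpair.1 = 1 <;> by_cases h4 : a.unpair.2 ∈ jn (jn G Y) R <;>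
          simp [h1, h2, h3, h4]
    | neg c ih => obtain ⟨c', h⟩ := ih; exact ⟨.neg c', fun Y R a => not_congr (h Y R a)⟩
    | and c d ih1 ih2 =>
        obtain ⟨c', h⟩ := ih1
        obtain ⟨d', h'⟩ := ih2
        exact ⟨.and c' d', fun Y R a => and_congr (h Y R a) (h' Y R a)⟩
    | ex c ih => obtain ⟨c', h⟩ := ih; exact ⟨.ex c', fun Y R a => exists_congr fun b => h Y R _⟩
    | sub t c ih => obtain ⟨c', h⟩ := ih; exact ⟨.sub t c', fun Y R a => h Y R _⟩
  obtain ⟨c', hc'⟩ := key c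
  exact ⟨c', fun Y R x => (hc' Y R _).trans (hc _ x)⟩

/-- predicates with finite use are arithmetical -/
theorem Ar.of_FU {P : α → Set ℕ → Prop} (h : ∀ x, FU (P x)) : Ar P := by
  choose b hb using h
  have h1 : Ar (fun (x : α) S => ∃ σ : Finset ℕ, (∀ n : ℕ, n < b x → (n ∈ S ↔ n ∈ σ)) ∧ P x (σ : Set ℕ)) := by
    refine Ar.ex (P := fun (p : α × Finset ℕ) S => (∀ n : ℕ, n < b p.1 → (n ∈ S ↔ n ∈ p.2)) ∧ P p.1 (p.2 : Set ℕ)) ?_
    refine Ar.and ?_ (Ar.free _)
    refine Ar.all (P := fun (p : (α × Finset ℕ) × ℕ) S => p.2 < b p.1.1 → (p.2 ∈ S ↔ p.2 ∈ p.1.2)) ?_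
    exact (Ar.free _).imp ((Ar.mem _).iff (Ar.free _))
  refine h1.congr fun x S => ?_
  classical
  constructor
  · rintro ⟨σ, h1, h2⟩
    have := hb x S σ (fun n hn => by simpa using h1 n hn)
    rw [this]; exact h2
  · intro h
    refine ⟨(Finset.range (b x)).filter (· ∈ S), ?_, ?_⟩
    · intro n hn; simp [hn]
    · have := hb x S (((Finset.range (b x)).filter (· ∈ S) : Finset ℕ) : Set ℕ) (fun n hn => by simp [hn])
      rw [← this]; exact h

/-- arithmetical predicates have their codes in every closed family -/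
theorem Ar.enS_mem {P : α → Set ℕ → Prop} (hP : Ar P) :
    ∀ᶠ G in rich, ∀ M : Set (Set ℕ), ACA M → G ∈ M → ∀ S ∈ M, enS (fun x => P x S) ∈ M := by
  filter_upwards [hP, rich_of_set (Set.range (fun z : α => encode z))] with G ⟨c, hc⟩ ⟨j, hj⟩ M hM hG S hS
  have h1 := hM.ev_mem (hM.jn_mem hG hS) (.and (cG j) c)
  convert h1 using 1
  ext a
  simp only [enS, Set.mem_ofPred_eq, Code.ev, cG_ev, hj]
  constructor
  · rintro ⟨x, rfl, h⟩
    exact ⟨⟨x, rfl⟩, (hc S x).2 h⟩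
  · rintro ⟨⟨x, rfl⟩, h⟩
    exact ⟨x, rfl, (hc S x).1 h⟩

theorem Ar.set_mem {P : ℕ → Set ℕ → Prop} (hP : Ar P) :
    ∀ᶠ G in rich, ∀ M : Set (Set ℕ), ACA M → G ∈ M → ∀ S ∈ M, {n | P n S} ∈ M := by
  filter_upwards [hP.enS_mem] with G h M hM hG S hS
  convert h M hM hG S hS using 1
  ext n; simp [enS]

theorem Ar.gr_mem {F : Set ℕ → ℕ → ℕ} (hF : Ar (fun (p : ℕ × ℕ) S => F S p.1 = p.2)) :
    ∀ᶠ G in rich, ∀ M : Set (Set ℕ), ACA M → G ∈ M → ∀ S ∈ M, gr (F S) ∈ M := by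
  have h : Ar (fun (n : ℕ) S => F S n.unpair.1 = n.unpair.2) := hF.comp (fun n : ℕ => n.unpair)
  exact h.set_mem

end FR
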