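import Pool.Agent.Lib.MP_ec866f_lc.Statement

/-!
# An omega-model of ATR_0 in which Fraisse's conjecture fails: definitions

`M : Set (Set ℕ)` is always the second-order part of an omega-model.
-/

set_option autoImplicit false

namespace FR

open Filter

/-! ### coding of sets and functions -/

/-- join of two sets -/
def jn (A B : Set ℕ) : Set ℕ :=
  {n | (n.unpair.1 = 0 ∧ n.unpair.2 ∈ A) ∨ (n.unpair.1 = 1 ∧ n.unpair.2 ∈ B)}

/-- the family of all columns -/
def cols (S : Set ℕ) : Set (Set ℕ) := Set.range (col S)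

/-- the set of codes of a predicate on an encodable type -/
def enS {α : Type} [Encodable α] (P : α → Prop) : Set ℕ := {n | ∃ x : α, Encodable.encode x = n ∧ P x}

@[simp] theorem mem_col (S : Set ℕ) (i n : ℕ) : n ∈ col S i ↔ Nat.pair i n ∈ S := Iff.rfl
@[simp] theorem mem_gr (f : ℕ → ℕ) (p : ℕ) : p ∈ gr f ↔ f p.unpair.1 = p.unpair.2 := Iff.rfl

/-! ### terms and codes for arithmetical operations -/

inductive Tm : Type
  | id : Tm
  | cst (n : ℕ) : Tm
  | fst (t : Tm) : Tm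
  | snd (t : Tm) : Tm
  | pr (t u : Tm) : Tm

def Tm.ev : Tm → ℕ → ℕ
  | .id, a => a
  | .cst n, _ => n
  | .fst t, a => (t.ev a).unpair.1
  | .snd t, a => (t.ev a).unpair.2
  | .pr t u, a => Nat.pair (t.ev a) (u.ev a)

inductive Code : Type
  | mem : Code
  | neg (c : Code) : Code
  | and (c d : Code) : Code
  | ex (c : Code) : Code
  | sub (t : Tm) (c : Code) : Code

def Code.ev (S : Set ℕ) : Code → ℕ → Prop
  | .mem, a => a ∈ S
  | .neg c, a => ¬ Code.ev S c a
  | .and c d, a => Code.ev S c a ∧ Code.ev S d a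
  | .ex c, a => ∃ b, Code.ev S c (Nat.pair a b)
  | .sub t c, a => Code.ev S c (t.ev a)

def Tm.enc : Tm → ℕ
  | .id => 0
  | .cst n => Nat.pair 1 n + 1
  | .fst t => Nat.pair 2 t.enc + 1
  | .snd t => Nat.pair 3 t.enc + 1
  | .pr t u => Nat.pair 4 (Nat.pair t.enc u.enc) + 1

def Code.enc : Code → ℕ
  | .mem => 0
  | .neg c => Nat.pair 1 c.enc + 1
  | .and c d => Nat.pair 2 (Nat.pair c.enc d.enc) + 1
  | .ex c => Nat.pair 3 c.enc + 1
  | .sub t c => Nat.pair 4 (Nat.pair t.enc c.enc) + 1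

theorem Tm.enc_inj : Function.Injective Tm.enc := by
  intro t
  induction t with
  | id => intro u h; cases u <;> simp [Tm.enc] at h ⊢
  | cst n => intro u h; cases u <;> simp [Tm.enc, Nat.pair_eq_pair] at h ⊢; exact h
  | fst t ih => intro u h; cases u <;> simp [Tm.enc, Nat.pair_eq_pair] at h ⊢; exact ih h
  | snd t ih => intro u h; cases u <;> simp [Tm.enc, Nat.pair_eq_pair] at h ⊢; exact ih h
  | pr t u ih1 ih2 =>
      intro w h; cases w <;> simp [Tm.enc, Nat.pair_eq_pair] at h ⊢; exact ⟨ih1 h.1, ih2 h.2⟩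

theorem Code.enc_inj : Function.Injective Code.enc := by
  intro t
  induction t with
  | mem => intro u h; cases u <;> simp [Code.enc] at h ⊢
  | neg t ih => intro u h; cases u <;> simp [Code.enc, Nat.pair_eq_pair] at h ⊢; exact ih h
  | and t u ih1 ih2 =>
      intro w h; cases w <;> simp [Code.enc, Nat.pair_eq_pair] at h ⊢; exact ⟨ih1 h.1, ih2 h.2⟩
  | ex t ih => intro u h; cases u <;> simp [Code.enc, Nat.pair_eq_pair] at h ⊢; exact ih h
  | sub t u ih =>
      intro w h; cases w <;> simp [Code.enc, Nat.pair_eq_pair] at h ⊢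
      exact ⟨Tm.enc_inj h.1, ih h.2⟩

noncomputable instance : Encodable Tm := Encodable.ofInj Tm.enc Tm.enc_inj
noncomputable instance : Encodable Code := Encodable.ofInj Code.enc Code.enc_inj

theorem encode_code (c : Code) : Encodable.encode c = c.enc := rfl
theorem encode_tm (c : Tm) : Encodable.encode c = c.enc := rfl

/-! ### closure under arithmetical comprehension, rich oracles, the class `Ar` -/

/-- closed under arithmetical comprehension (in terms of elementary operations) -/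
structure ACA (M : Set (Set ℕ)) : Prop where
  ne : M.Nonempty
  jn_mem : ∀ {A B : Set ℕ}, A ∈ M → B ∈ M → jn A B ∈ M
  compl_mem : ∀ {A : Set ℕ}, A ∈ M → Aᶜ ∈ M
  inter_mem : ∀ {A B : Set ℕ}, A ∈ M → B ∈ M → A ∩ B ∈ M
  proj_mem : ∀ {A : Set ℕ}, A ∈ M → {a | ∃ b, Nat.pair a b ∈ A} ∈ M
  tm_mem : ∀ {A : Set ℕ} (t : Tm), A ∈ M → {a | t.ev a ∈ A} ∈ M

/-- the filter of rich oracles: a property holds for all rich `G` if for some `A` it holds for
all `G` which have all columns of `A` among their columns -/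
def rich : Filter (Set ℕ) where
  sets := {U | ∃ A : Set ℕ, ∀ G : Set ℕ, (∀ i, ∃ j, col G j = col A i) → G ∈ U}
  univ_sets := ⟨∅, fun _ _ => trivial⟩
  sets_of_superset := by
    rintro U V ⟨A, hA⟩ hUV
    exact ⟨A, fun G hG => hUV (hA G hG)⟩
  inter_sets := by
    rintro U V ⟨A, hA⟩ ⟨B, hB⟩
    refine ⟨{n | (n.unpair.1 % 2 = 0 ∧ Nat.pair (n.unpair.1 / 2) n.unpair.2 ∈ A) ∨
      (n.unpair.1 % 2 = 1 ∧ Nat.pair (n.unpair.1 / 2) n.unpair.2 ∈ B)}, fun G hG => ⟨hA G ?_, hB G ?_⟩⟩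
    · intro i
      obtain ⟨j, hj⟩ := hG (2 * i)
      refine ⟨j, hj.trans ?_⟩
      ext n
      simp [col]
    · intro i
      obtain ⟨j, hj⟩ := hG (2 * i + 1)
      refine ⟨j, hj.trans ?_⟩
      ext n
      have h1 : (2 * i + 1) / 2 = i := by omega
      have h2 : (2 * i + 1) % 2 = 1 := by omega
      simp [col, h1, h2]

/-- `P x S` is arithmetical in `S`, boldface: parameter-free objects are allowed as oracles -/
def Ar {α : Type} [Encodable α] (P : α → Set ℕ → Prop) : Prop :=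
  ∀ᶠ G in rich, ∃ c : Code, ∀ (S : Set ℕ) (x : α), c.ev (jn G S) (Encodable.encode x) ↔ P x S

/-- finite use -/
def FU {β : Type} (F : Set ℕ → β) : Prop :=
  ∃ b : ℕ, ∀ S S' : Set ℕ, (∀ n < b, (n ∈ S ↔ n ∈ S')) → F S = F S'

/-! ### linear orders, ATR -/

/-- the part of `H` strictly below `q` -/
def low (W H : Set ℕ) (q : ℕ) : Set ℕ :=
  {x | Nat.pair x.unpair.1 q ∈ W ∧ x.unpair.1 ≠ q ∧ x ∈ H}

/-- `H` is the hierarchy along `W` with step `c` and parameter `Y` -/
def Hier (c : Code) (W Y H : Set ℕ) : Prop :=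
  ∀ x, x ∈ H ↔ (Nat.pair x.unpair.1 x.unpair.1 ∈ W ∧ c.ev (jn Y (low W H x.unpair.1)) x)

def ATR (M : Set (Set ℕ)) : Prop :=
  ∀ W ∈ M, IsLO W → NoDesc M W → ∀ Y ∈ M, ∀ c : Code, ∃ H ∈ M, Hier c W Y H

/-- truth set -/
def Sat (S : Set ℕ) : Set ℕ := {x | ∃ c : Code, c.enc = x.unpair.1 ∧ c.ev S x.unpair.2}

def SatC (M : Set (Set ℕ)) : Prop := ∀ S ∈ M, Sat S ∈ M

/-! ### finite and infinite sequences -/

/-- the first `n` values of `X` -/
def pre (X : ℕ → ℕ) (n : ℕ) : List ℕ := (List.range n).map X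

/-- tails -/
def shk (X : ℕ → ℕ) (k : ℕ) : ℕ → ℕ := fun n => X (n + k)

def LimIs {β : Type} (f : List ℕ → β) (X : ℕ → ℕ) (v : β) : Prop :=
  ∀ᶠ n in atTop, f (pre X n) = v

/-! ### part A: signs and nodes -/

/-- `t` is the longest proper prefix of `s` in `N` -/
def IsPar (N : List ℕ → Prop) (s t : List ℕ) : Prop :=
  t <+: s ∧ t ≠ s ∧ N t ∧ ∀ t', t' <+: s → t' ≠ s → N t' → t' <+: t

/-- nodes of length at most `k` -/
def Nd (lam : List ℕ → Bool) : ℕ → List ℕ → Prop
  | 0, _ => False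
  | k + 1, s => Nd lam k s ∨ (s.length = k + 1 ∧ (k = 0 ∨
      (Nd lam k s.tail ∧ ∃ t, IsPar (Nd lam k) s t ∧ lam t = lam s.tail)))

def node (lam : List ℕ → Bool) (s : List ℕ) : Prop := Nd lam s.length s

/-- `s'` is a child of `s` -/
def child (lam : List ℕ → Bool) (s s' : List ℕ) : Prop :=
  s'.Pairwise (· < ·) ∧ node lam s' ∧ IsPar (node lam) s' s

/-- the list coded by the second component -/
def dcl (b : ℕ) : List ℕ := (Encodable.decode (α := List ℕ) b.unpair.2).getD []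

/-- points of the linear order of the node `s` -/
def Pt (lam : List ℕ → Bool) : List ℕ → List ℕ → Prop
  | _, [] => False
  | _, [_] => True
  | s, b :: u => child lam s (dcl b) ∧ Pt lam (dcl b) u

/-- the order of the node `s` -/
def leL (lam : List ℕ → Bool) : List ℕ → List ℕ → List ℕ → Prop
  | _, [], _ => True
  | _, _ :: _, [] => False
  | s, b :: u, b' :: u' =>
      (b = b' ∧ leL lam (dcl b) u u') ∨ (lam s = true ∧ b < b') ∨ (lam s = false ∧ b' < b)

/-- `u` is an address of the node `s'` below the node `s` -/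
def Adr (lam : List ℕ → Bool) : List ℕ → List ℕ → List ℕ → Prop
  | s, [], s' => s' = s
  | s, b :: u, s' => child lam s (dcl b) ∧ Adr lam (dcl b) u s'

/-- the sign function coded by `S` -/
noncomputable def lamOf (S : Set ℕ) (s : List ℕ) : Bool :=
  @decide (Encodable.encode s ∈ S) (Classical.propDecidable _)

/-- *FRA: every sign function in `M` has a branch in `M` with infinitely many nodes -/
def SFRA (M : Set (Set ℕ)) : Prop :=
  ∀ S ∈ M, ∃ X : ℕ → ℕ, StrictMono X ∧ gr X ∈ M ∧ ∀ N, ∃ n ≥ N, node (lamOf S) (pre X n)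

/-! ### part B: three-colourings -/

open Classical in
/-- the three-colouring coded by `S` -/
noncomputable def col3 (S : Set ℕ) (s : List ℕ) : ℕ :=
  if Nat.pair (Encodable.encode s) 0 ∈ S then 0
  else if Nat.pair (Encodable.encode s) 1 ∈ S then 1 else 2

/-- there is no bad limit three-colouring in `M` -/
def NoBad (M : Set (Set ℕ)) : Prop :=
  ∀ S ∈ M, ¬ ∀ X : ℕ → ℕ, StrictMono X → gr X ∈ M →
    ∃ r r', r ≠ r' ∧ LimIs (col3 S) X r ∧ LimIs (col3 S) (shk X 1) r'

/-! ### part C: stability -/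

/-- the `i`-th attribute coded by `S` -/
noncomputable def atr (S : Set ℕ) (i : ℕ) (s : List ℕ) : Bool :=
  @decide (Nat.pair i (Encodable.encode s) ∈ S) (Classical.propDecidable _)

def Stab (M : Set (Set ℕ)) : Prop :=
  ∀ S ∈ M, (∀ i, ∀ X : ℕ → ℕ, StrictMono X → ∃ v, LimIs (atr S i) X v) →
    ∃ X : ℕ → ℕ, StrictMono X ∧ gr X ∈ M ∧
      ∀ i, ∃ v, ∀ᶠ k in atTop, LimIs (atr S i) (shk X k) v

/-! ### part D: relative leftmost paths -/

def Path (T : Set (List ℕ)) (f : ℕ → ℕ) : Prop := ∀ n, pre f n ∈ T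

def LexLe (f g : ℕ → ℕ) : Prop := f = g ∨ ∃ n, (∀ i < n, f i = g i) ∧ f n < g n

/-- the tree coded by `S` -/
def TrOf (S : Set ℕ) : Set (List ℕ) := {t | Encodable.encode t ∈ S}

def IsTree (T : Set (List ℕ)) : Prop := ∀ t ∈ T, ∀ s, s <+: t → s ∈ T

def RLP (M : Set (Set ℕ)) : Prop :=
  ∀ S ∈ M, ∀ Y ∈ M, IsTree (TrOf S) → (∃ P : ℕ → ℕ, (∀ n, P n ≤ 1) ∧ Path (TrOf S) P) →
    ∃ L : ℕ → ℕ, gr L ∈ M ∧ Path (TrOf S) L ∧
      ∃ A : Set (Set ℕ), ACA A ∧ Y ∈ A ∧ gr L ∈ A ∧
        ∀ L' : ℕ → ℕ, gr L' ∈ A → Path (TrOf S) L' → LexLe L L'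

/-- the property used for the diagonal argument -/
def QQ (G z : Set ℕ) : Prop := G ∈ cols z ∧ ACA (cols z) ∧ SatC (cols z) ∧ ATR (cols z)

end FR
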