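import Pool.Agent.Lib.MP_ec866f_lc.Fu

/-! second part of the definitions -/

set_option autoImplicit false

namespace FR

open Filter Encodable

/-! ### part A -/

/-- the code of the sequence of linear orders of a sign function -/
def LZ (lam : List ℕ → Bool) : Set ℕ :=
  {x | ∃ (n : ℕ) (u u' : List ℕ), x = Nat.pair n (Nat.pair (encode u) (encode u')) ∧
    Pt lam [n] u ∧ Pt lam [n] u' ∧ leL lam [n] u u'}

/-- for large `b`, `v` is a proper prefix of `E (u ++ [b])` -/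
def Land (E : List ℕ → List ℕ) (u v : List ℕ) : Prop :=
  ∃ B, ∀ b ≥ B, ∃ x w, E (u ++ [b]) = v ++ (x :: w)

/-- `E` embeds `L_m` into `L_n` -/
def EmbL (lam : List ℕ → Bool) (m n : ℕ) (E : List ℕ → List ℕ) : Prop :=
  ∀ u u', Pt lam [m] u → Pt lam [m] u' → Pt lam [n] (E u) ∧
    (leL lam [m] u u' ↔ leL lam [n] (E u) (E u'))

/-- the invariant of the chain construction -/
def Inv (lam : List ℕ → Bool) (m n : ℕ) (E : List ℕ → List ℕ) (u v : List ℕ) : Prop :=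
  ∃ t w, Adr lam [m] u (m :: t) ∧ Adr lam [n] v w ∧ t <+: w ∧ t ≠ w ∧ Land E u v

/-! ### part B -/

/-- the defining equations of the sign function of a three-colouring -/
def lamEq (f : List ℕ → ℕ) (lam : List ℕ → Bool) : Prop :=
  ∀ s, (f s = 0 → lam s = true) ∧ (f s = 1 → lam s = false) ∧
    (f s ≠ 0 → f s ≠ 1 → ∀ t, IsPar (node lam) s t → lam s = !lam t)

/-! ### part C -/

open Classical in
noncomputable def IL (a : ℕ → List ℕ → Bool) (s : List ℕ) : ℕ∞ :=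
  if h : ∃ i, i ≤ s.headD 0 ∧ a i s ≠ a i s.tail then ((Nat.find h : ℕ) : ℕ∞) else ⊤

def cC (I0 I1 I2 : ℕ∞) (a0 : ℕ → Bool) : Prop :=
  I0 ≠ ⊤ ∧ I0 = I1 ∧ I1 = I2 ∧ a0 I0.toNat = true

/-- markers -/
def Mk (I0 I1 I2 I3 : ℕ∞) (a0 a1 : ℕ → Bool) : Prop :=
  (I0 ≠ ⊤ ∧ I1 = ⊤) ∨ cC I0 I1 I2 a0 ∨
    (I0 ≠ ⊤ ∧ I1 < I0 ∧ I1 ≤ I2 ∧ I2 ≠ ⊤ ∧ ¬ cC I1 I2 I3 a1)

def MkL (a : ℕ → List ℕ → Bool) (s : List ℕ) : Prop :=
  Mk (IL a s) (IL a s.tail) (IL a s.tail.tail) (IL a s.tail.tail.tail)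
    (fun i => a i s) (fun i => a i s.tail)

open Classical in
/-- the three-colouring defined by the first marker -/
noncomputable def fmk (a : ℕ → List ℕ → Bool) (s : List ℕ) : ℕ :=
  if h : ∃ n, n < s.length ∧ MkL a (s.drop n) then (if Nat.find h = 0 then 2 else Nat.find h % 2)
  else 0

open Classical in
noncomputable def seqI (X : ℕ → ℕ) (av : ℕ → ℕ → Bool) (k : ℕ) : ℕ∞ :=
  if h : ∃ i, i ≤ X k ∧ av k i ≠ av (k + 1) i then ((Nat.find h : ℕ) : ℕ∞) else ⊤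

def MkS (I : ℕ → ℕ∞) (av : ℕ → ℕ → Bool) (k : ℕ) : Prop :=
  Mk (I k) (I (k + 1)) (I (k + 2)) (I (k + 3)) (av k) (av (k + 1))

/-! ### part D -/

def bnd (X L : ℕ → ℕ) : Prop := ∀ n, L n ≤ X n + 1

/-- leftmost path bounded by `X` -/
def LM (T : Set (List ℕ)) (X L : ℕ → ℕ) : Prop :=
  Path T L ∧ bnd X L ∧ ∀ L', Path T L' → bnd X L' → LexLe L L'

/-- admissible finite approximations -/
def Adm (T : Set (List ℕ)) (s t : List ℕ) : Prop :=
  t ∈ T ∧ t.length = s.length ∧ ∀ i < t.length, t.getD i 0 ≤ s.getD i 0 + 1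

/-- lexicographic comparison of lists of equal length -/
def LLe (t t' : List ℕ) : Prop :=
  t = t' ∨ ∃ n, (∀ i < n, t.getD i 0 = t'.getD i 0) ∧ t.getD n 0 < t'.getD n 0

open Classical in
/-- the leftmost admissible string -/
noncomputable def lmf (T : Set (List ℕ)) (s : List ℕ) : List ℕ :=
  if h : ∃ t, Adm T s t ∧ ∀ t', Adm T s t' → LLe t t' then h.choose else []

/-- longest common prefix -/
def cp : List ℕ → List ℕ → List ℕ
  | a :: u, b :: v => if a = b then a :: cp u v else []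
  | _, _ => []

open Classical in
/-- one jump step on strings -/
noncomputable def Jl (rho : ℕ → List ℕ → Prop) (t : List ℕ) : List ℕ :=
  (List.range t.length).map (fun n => if ∃ l, l ≤ t.length ∧ rho n (t.take l) then 1 else 0)

open Classical in
/-- one jump step on functions -/
noncomputable def Jf (rho : ℕ → List ℕ → Prop) (g : ℕ → ℕ) : ℕ → ℕ :=
  fun n => if ∃ l, rho n (pre g l) then 1 else 0

/-- levels, for finite strings; `ph` gives the approximation of the base -/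
noncomputable def Lv (rho : ℕ → List ℕ → Prop) (ph : List ℕ → List ℕ) : ℕ → List ℕ → List ℕ
  | 0, s => cp ((ph s).take (s.headD 0)) ((ph s.tail).take (s.tail.headD 0))
  | i + 1, s => cp (Jl rho (Lv rho ph i s)) (Jl rho (Lv rho ph i s.tail))

/-- levels, for the sequence of tails; `B k` is the base function of the `k`-th tail -/
noncomputable def Qv (rho : ℕ → List ℕ → Prop) (B : ℕ → ℕ → ℕ) (x : ℕ → ℕ) : ℕ → ℕ → List ℕ
  | 0, k => cp (pre (B k) (x k)) (pre (B (k + 1)) (x (k + 1)))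
  | i + 1, k => cp (Jl rho (Qv rho B x i k)) (Jl rho (Qv rho B x i (k + 1)))

/-- the limit functions -/
noncomputable def Gf (rho : ℕ → List ℕ → Prop) (g : ℕ → ℕ) : ℕ → ℕ → ℕ
  | 0 => g
  | i + 1 => Jf rho (Gf rho g i)

/-- the lists `P k` converge to the function `g` -/
def Conv (P : ℕ → List ℕ) (g : ℕ → ℕ) : Prop :=
  ∀ N, ∀ᶠ k in atTop, N ≤ (P k).length ∧ (P k).take N = pre g N

/-- the lists `Q k` are eventually strictly increasing initial segments of `g` -/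
def Grow (Q : ℕ → List ℕ) (g : ℕ → ℕ) : Prop :=
  ∃ K, ∀ k ≥ K, (Q k).length < (Q (k + 1)).length ∧ Q k = pre g (Q k).length

open Classical in
/-- how much of the function with graph the column `c` is visible in the string `t` -/
noncomputable def ec (c : ℕ) (t : List ℕ) : ℕ :=
  Nat.findGreatest (fun l => ∀ m < l, ∃ v, Nat.pair c (Nat.pair m v) < t.length ∧
    t.getD (Nat.pair c (Nat.pair m v)) 0 = 1) t.length

/-- operations on columns -/
inductive Op : Type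
  | gph : Op
  | yy : Op
  | neg (e : ℕ) : Op
  | inter (e e' : ℕ) : Op
  | join (e e' : ℕ) : Op
  | proj (e : ℕ) : Op
  | tm (t : Tm) (e : ℕ) : Op

def Op.enc : Op → ℕ
  | .gph => Nat.pair 0 0
  | .yy => Nat.pair 1 0
  | .neg e => Nat.pair 2 e
  | .inter e e' => Nat.pair 3 (Nat.pair e e')
  | .join e e' => Nat.pair 4 (Nat.pair e e')
  | .proj e => Nat.pair 5 e
  | .tm t e => Nat.pair 6 (Nat.pair t.enc e)

/-- the bit `1` of the string `t` at position `n` -/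
def bit1 (t : List ℕ) (n : ℕ) : Prop := n < t.length ∧ t.getD n 0 = 1

/-- the bit `0` of the string `t` at position `n` -/
def bit0 (t : List ℕ) (n : ℕ) : Prop := n < t.length ∧ t.getD n 0 ≠ 1

def Op.sem : Op → ℕ → List ℕ → Prop
  | .gph, a, t => a.unpair.1 < t.length ∧ (t.getD a.unpair.1 0).unpair.1 = a.unpair.2
  | .yy, a, t => a < t.length ∧ (t.getD a 0).unpair.2 = 1
  | .neg e, a, t => bit0 t (Nat.pair e a)
  | .inter e e', a, t => bit1 t (Nat.pair e a) ∧ bit1 t (Nat.pair e' a)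
  | .join e e', a, t => (a.unpair.1 = 0 ∧ bit1 t (Nat.pair e a.unpair.2)) ∨
      (a.unpair.1 = 1 ∧ bit1 t (Nat.pair e' a.unpair.2))
  | .proj e, a, t => ∃ b, bit1 t (Nat.pair e (Nat.pair a b))
  | .tm u e, a, t => bit1 t (Nat.pair e (u.ev a))

/-- the universal relation used for the jump -/
def rho0 (n : ℕ) (t : List ℕ) : Prop := ∃ o : Op, o.enc = n.unpair.1 ∧ o.sem n.unpair.2 t

open Classical in
/-- indicator function -/
noncomputable def ind (Y : Set ℕ) (n : ℕ) : ℕ := if n ∈ Y then 1 else 0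

/-- base function: a path together with the set `Y` -/
noncomputable def base (Y : Set ℕ) (L : ℕ → ℕ) : ℕ → ℕ := fun n => Nat.pair (L n) (ind Y n)

/-- base approximation -/
noncomputable def phb (T : Set (List ℕ)) (Y : Set ℕ) (s : List ℕ) : List ℕ :=
  (lmf T s).zipIdx.map (fun p => Nat.pair p.1 (ind Y p.2))

/-- attributes of finite strings -/
noncomputable def att (ph : List ℕ → List ℕ) (j : ℕ) (s : List ℕ) : Bool :=
  match j.unpair.2 with
  | 0 => decide ((Lv rho0 ph j.unpair.1 s).length < (Lv rho0 ph j.unpair.1 s.tail).length)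
  | c + 1 => decide (ec c (Lv rho0 ph j.unpair.1 s) < ec c (Lv rho0 ph j.unpair.1 s.tail))

/-! ### part E -/

/-- requirements -/
inductive Rq : Type
  | compl (w : ℕ) : Rq
  | inter (w w' : ℕ) : Rq
  | join (w w' : ℕ) : Rq
  | proj (w : ℕ) : Rq
  | tm (t : Tm) (w : ℕ) : Rq
  | graph (w : ℕ) : Rq
  | desc (w : ℕ) : Rq
  | hier (c : Code) (w w' p : ℕ) : Rq

def Rq.enc : Rq → ℕ
  | .compl w => Nat.pair 0 w
  | .inter w w' => Nat.pair 1 (Nat.pair w w')
  | .join w w' => Nat.pair 2 (Nat.pair w w')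
  | .proj w => Nat.pair 3 w
  | .tm t w => Nat.pair 4 (Nat.pair t.enc w)
  | .graph w => Nat.pair 5 w
  | .desc w => Nat.pair 6 w
  | .hier c w w' p => Nat.pair 7 (Nat.pair c.enc (Nat.pair w (Nat.pair w' p)))

/-- the largest column used by the requirement -/
def Rq.mx : Rq → ℕ
  | .compl w => w
  | .inter w w' => max w w'
  | .join w w' => max w w'
  | .proj w => w
  | .tm _ w => w
  | .graph w => w
  | .desc w => w
  | .hier _ w w' _ => max w w'

/-- the number of a requirement -/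
def Rq.ix (r : Rq) : ℕ := Nat.pair r.mx r.enc + 1

/-- Skolem conditions saying that `v c a` is the truth value of the code `c` at `a` -/
def Sk (O : Set ℕ) (v : Code → ℕ → ℕ) : Code → Prop
  | .mem => ∀ a, (v .mem a ≠ 0 ↔ a ∈ O)
  | .neg c => Sk O v c ∧ ∀ a, (v (.neg c) a ≠ 0 ↔ v c a = 0)
  | .and c d => Sk O v c ∧ Sk O v d ∧ ∀ a, (v (.and c d) a ≠ 0 ↔ (v c a ≠ 0 ∧ v d a ≠ 0))
  | .ex c => Sk O v c ∧ ∀ a, (v (.ex c) a = 0 → ∀ b, v c (Nat.pair a b) = 0) ∧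
      (∀ b, v (.ex c) a = b + 1 → v c (Nat.pair a b) ≠ 0)
  | .sub t c => Sk O v c ∧ ∀ a, (v (.sub t c) a ≠ 0 ↔ v c (t.ev a) ≠ 0)

/-- `q` belongs to the part of the order described by `p`: everything if `p = 0`, strictly below
`p'` if `p = p' + 1` -/
def dom (W : Set ℕ) (p q : ℕ) : Prop :=
  Nat.pair q q ∈ W ∧ ∀ p', p = p' + 1 → (Nat.pair q p' ∈ W ∧ q ≠ p')

/-- the hierarchy read off from the function `h` -/
def HS (c : Code) (W : Set ℕ) (p : ℕ) (h : ℕ → ℕ) : Set ℕ :=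
  {x | dom W p x.unpair.1 ∧ h (Nat.pair x.unpair.1 (Nat.pair c.enc x)) ≠ 0}

def sup (h : ℕ → ℕ) : Set ℕ := {n | h n ≠ 0}

/-- the condition of a requirement; `A w` is the function number `w`, `h` the function sought -/
def Cn (r : Rq) (A : ℕ → ℕ → ℕ) (h : ℕ → ℕ) : Prop :=
  match r with
  | .compl w => ∀ n, (h n ≠ 0 ↔ A w n = 0)
  | .inter w w' => ∀ n, (h n ≠ 0 ↔ (A w n ≠ 0 ∧ A w' n ≠ 0))
  | .join w w' => ∀ n, (h n ≠ 0 ↔ ((n.unpair.1 = 0 ∧ A w n.unpair.2 ≠ 0) ∨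
      (n.unpair.1 = 1 ∧ A w' n.unpair.2 ≠ 0)))
  | .proj w => ∀ n, (h n = 0 → ∀ b, A w (Nat.pair n b) = 0) ∧
      (∀ b, h n = b + 1 → A w (Nat.pair n b) ≠ 0)
  | .tm t w => ∀ n, (h n ≠ 0 ↔ A w (t.ev n) ≠ 0)
  | .graph w => ∀ n, (h n ≠ 0 ↔ A w n.unpair.1 = n.unpair.2)
  | .desc w => ∀ n, A w (Nat.pair (h (n + 1)) (h n)) ≠ 0 ∧ h (n + 1) ≠ h n
  | .hier c w w' p => ∀ q, dom (sup (A w)) p q →
      Sk (jn (sup (A w')) (low (sup (A w)) (HS c (sup (A w)) p h) q))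
        (fun c' a => h (Nat.pair q (Nat.pair c'.enc a))) c

/-- the functions coded by a path -/
def gg (L : ℕ → ℕ) : ℕ → ℕ → ℕ
  | 0, n => L (Nat.pair 0 n)
  | m + 1, n => L (Nat.pair (m + 1) (n + 1))

/-- requirement number `m` is rejected -/
def Rej (L : ℕ → ℕ) (m : ℕ) : Prop := L (Nat.pair m 0) = 1 ∧ ∀ n, L (Nat.pair m (n + 1)) = 0

/-- requirement number `m` is accepted -/
def Acc (L : ℕ → ℕ) (m : ℕ) : Prop :=
  L (Nat.pair m 0) = 0 ∧ ∃ r : Rq, r.ix = m ∧ Cn r (gg L) (gg L m)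

def FF : Set (ℕ → ℕ) := {L | ∀ m, 1 ≤ m → (Rej L m ∨ Acc L m)}

/-- the tree -/
def TT (G : Set ℕ) : Set (List ℕ) :=
  {t | (∃ L ∈ FF, pre L t.length = t) ∧
    ∀ n, Nat.pair 0 n < t.length → t.getD (Nat.pair 0 n) 0 = ind G n}

/-- the coded model -/
def zz (L : ℕ → ℕ) : Set ℕ := {x | gg L x.unpair.1 x.unpair.2 ≠ 0}

/-- the situation after the relative leftmost path principle has been applied -/
structure Situ (G : Set ℕ) (L : ℕ → ℕ) (A : Set (Set ℕ)) : Prop where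
  aca : ACA A
  gA : G ∈ A
  lA : gr L ∈ A
  ff : L ∈ FF
  base : ∀ n, L (Nat.pair 0 n) = ind G n
  left : ∀ L', gr L' ∈ A → L' ∈ FF → (∀ n, L' (Nat.pair 0 n) = ind G n) → LexLe L L'

/-! ### part G -/

/-- Tarski conditions -/
def IsSat (O T : Set ℕ) : Prop :=
  (∀ x ∈ T, ∃ c : Code, c.enc = x.unpair.1) ∧
  (∀ a, Nat.pair Code.mem.enc a ∈ T ↔ a ∈ O) ∧
  (∀ (c : Code) (a : ℕ), Nat.pair c.neg.enc a ∈ T ↔ Nat.pair c.enc a ∉ T) ∧
  (∀ (c d : Code) (a : ℕ), Nat.pair (c.and d).enc a ∈ T ↔ (Nat.pair c.enc a ∈ T ∧ Nat.pair d.enc a ∈ T)) ∧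
  (∀ (c : Code) (a : ℕ), Nat.pair c.ex.enc a ∈ T ↔ ∃ b, Nat.pair c.enc (Nat.pair a b) ∈ T) ∧
  (∀ (t : Tm) (c : Code) (a : ℕ), Nat.pair (Code.sub t c).enc a ∈ T ↔ Nat.pair c.enc (t.ev a) ∈ T)

end FR
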