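import Pool.Agent.Lib.MP_ec866f_lc.Stmts

set_option autoImplicit false

namespace FR

theorem A1_len {lam : List ℕ → Bool} : ∀ (k : ℕ) (s : List ℕ), Nd lam k s → s.length ≤ k ∧ 1 ≤ s.length := by
  intro k
  induction k with
  | zero => intro s h; exact absurd h (by simp [Nd])
  | succ k ih =>
    intro s h
    rcases h with h | ⟨h, _⟩
    · have := ih s h
      omega
    · omega

theorem A1_nd {lam : List ℕ → Bool} (s : List ℕ) (k : ℕ) (hk : s.length ≤ k) :
    Nd lam k s ↔ node lam s := by
  induction k, hk using Nat.le_induction with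
  | base => exact Iff.rfl
  | succ k hk ih =>
    rw [← ih]
    constructor
    · rintro (h | ⟨h, _⟩)
      · exact h
      · omega
    · exact Or.inl

theorem A1_par {N N' : List ℕ → Prop} (s t : List ℕ)
    (h : ∀ t', t' <+: s → t' ≠ s → (N t' ↔ N' t')) : IsPar N s t ↔ IsPar N' s t := by
  constructor
  · rintro ⟨h1, h2, h3, h4⟩
    exact ⟨h1, h2, (h t h1 h2).1 h3, fun t' a b c => h4 t' a b ((h t' a b).2 c)⟩
  · rintro ⟨h1, h2, h3, h4⟩
    exact ⟨h1, h2, (h t h1 h2).2 h3, fun t' a b c => h4 t' a b ((h t' a b).1 c)⟩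

theorem A1_lt {s t : List ℕ} (h : t <+: s) (h' : t ≠ s) : t.length < s.length := by
  rcases Nat.lt_or_ge t.length s.length with h1 | h1
  · exact h1
  · exact absurd (h.eq_of_length (le_antisymm h.length_le h1)) h'

theorem A1_rec (lam : List ℕ → Bool) (s : List ℕ) : node lam s ↔ (s.length = 1 ∨
    (2 ≤ s.length ∧ node lam s.tail ∧ ∃ t, IsPar (node lam) s t ∧ lam t = lam s.tail)) := by
  obtain ⟨l, hl⟩ : ∃ l, l = s.length := ⟨_, rfl⟩
  unfold node
  rw [← hl]
  cases l with
  | zero =>
    constructor
    · intro h; exact absurd h (by simp [Nd])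
    · rintro (h | ⟨h, _⟩) <;> omega
  | succ k =>
    have h1 : ¬ Nd lam k s := fun h => by
      have := (A1_len k s h).1
      omega
    have h2 : Nd lam (k + 1) s ↔ (s.length = k + 1 ∧ (k = 0 ∨
      (Nd lam k s.tail ∧ ∃ t, IsPar (Nd lam k) s t ∧ lam t = lam s.tail))) := by
      constructor
      · rintro (h | h)
        · exact absurd h h1
        · exact h
      · exact Or.inr
    have h3 : ∀ t, IsPar (Nd lam k) s t ↔ IsPar (fun u => Nd lam u.length u) s t := fun t =>
      A1_par s t fun t' a b => A1_nd t' k (by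
        have := A1_lt a b
        omega)
    have h4 : s.tail.length = k := by rw [List.length_tail]; omega
    rw [h2]
    simp only [h3, h4]
    constructor
    · rintro ⟨_, (h | h)⟩
      · left; omega
      · by_cases hk : k = 0
        · left; omega
        · right
          exact ⟨by omega, h⟩
    · rintro (h | ⟨h, h'⟩)
      · exact ⟨hl.symm, Or.inl (by omega)⟩
      · exact ⟨hl.symm, Or.inr h'⟩

theorem A1_ex (lam : List ℕ → Bool) (s : List ℕ) (hs : 2 ≤ s.length) :
    ∃ t, IsPar (node lam) s t := by
  classical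
  have h1 : node lam (s.take 1) := by
    rw [A1_rec]
    left
    rw [List.length_take]
    omega
  obtain ⟨j, hj⟩ : ∃ j, j = Nat.findGreatest (fun j => node lam (s.take j)) (s.length - 1) :=
    ⟨_, rfl⟩
  have hj1 : node lam (s.take j) := by
    rw [hj]
    exact Nat.findGreatest_spec (P := fun j => node lam (s.take j)) (m := 1) (by omega) h1
  have hj2 : j ≤ s.length - 1 := by
    rw [hj]
    exact Nat.findGreatest_le _
  refine ⟨s.take j, List.take_prefix _ _, ?_, hj1, ?_⟩
  · intro h
    have := congrArg List.length h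
    rw [List.length_take] at this
    omega
  · intro t' h2 h3 h4
    have h5 := A1_lt h2 h3
    have h6 : s.take t'.length = t' := (List.prefix_iff_eq_take.mp h2).symm
    have h7 : t'.length ≤ j := by
      rw [hj]
      exact Nat.le_findGreatest (by omega) (by rw [h6]; exact h4)
    rw [← h6]
    exact List.take_prefix_take_left h7

theorem A1 : A1S := ⟨A1_rec, A1_ex⟩

end FR
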