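import Pool.Agent.Lib.MP_ec866f_lc.Stmts

set_option autoImplicit false

namespace FR

open Encodable

theorem A2_refl (lam : List ℕ → Bool) : ∀ (u s : List ℕ), leL lam s u u := by
  intro u
  induction u with
  | nil => intro s; simp [leL]
  | cons b u ih => intro s; simp only [leL]; exact Or.inl ⟨trivial, ih _⟩

theorem A2_total (lam : List ℕ → Bool) : ∀ (u u' s : List ℕ), leL lam s u u' ∨ leL lam s u' u := by
  intro u
  induction u with
  | nil => intro u' s; left; simp [leL]
  | cons b u ih =>
    intro u' s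
    cases u' with
    | nil => right; simp [leL]
    | cons b' u' =>
      simp only [leL]
      rcases lt_trichotomy b b' with h | h | h
      · cases lam s with
        | true => left; right; left; exact ⟨rfl, h⟩
        | false => right; right; right; exact ⟨rfl, h⟩
      · subst h
        rcases ih u' (dcl b) with h1 | h1
        · left; left; exact ⟨rfl, h1⟩
        · right; left; exact ⟨rfl, h1⟩
      · cases lam s with
        | true => right; right; left; exact ⟨rfl, h⟩
        | false => left; right; right; exact ⟨rfl, h⟩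

theorem A2_antisymm (lam : List ℕ → Bool) : ∀ (u u' s : List ℕ), leL lam s u u' →
    leL lam s u' u → u = u' := by
  intro u
  induction u with
  | nil =>
    intro u' s _ h
    cases u' with
    | nil => rfl
    | cons b u' => simp [leL] at h
  | cons b u ih =>
    intro u' s h1 h2
    cases u' with
    | nil => simp [leL] at h1
    | cons b' u' =>
      simp only [leL] at h1 h2
      rcases h1 with ⟨rfl, h1⟩ | ⟨h3, h1⟩ | ⟨h3, h1⟩ <;>
      rcases h2 with ⟨h4, h2⟩ | ⟨h4, h2⟩ | ⟨h4, h2⟩
      · rw [ih u' _ h1 h2]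
      · omega
      · omega
      · omega
      · omega
      · rw [h3] at h4; exact absurd h4 (by simp)
      · omega
      · rw [h3] at h4; exact absurd h4 (by simp)
      · omega

theorem A2_trans (lam : List ℕ → Bool) : ∀ (u u' u'' s : List ℕ), leL lam s u u' →
    leL lam s u' u'' → leL lam s u u'' := by
  intro u
  induction u with
  | nil => intro u' u'' s _ _; simp [leL]
  | cons b u ih =>
    intro u' u'' s h1 h2
    cases u' with
    | nil => simp [leL] at h1
    | cons b' u' =>
      cases u'' with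
      | nil => simp [leL] at h2
      | cons b'' u'' =>
        simp only [leL] at h1 h2 ⊢
        rcases h1 with ⟨rfl, h1⟩ | ⟨h3, h1⟩ | ⟨h3, h1⟩ <;>
        rcases h2 with ⟨h4, h2⟩ | ⟨h4, h2⟩ | ⟨h4, h2⟩
        · left; exact ⟨h4, ih _ _ _ h1 h2⟩
        · right; left; exact ⟨h4, h2⟩
        · right; right; exact ⟨h4, h2⟩
        · right; left; exact ⟨h3, by omega⟩
        · right; left; exact ⟨h3, by omega⟩
        · rw [h3] at h4; exact absurd h4 (by simp)
        · right; right; exact ⟨h3, by omega⟩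
        · rw [h3] at h4; exact absurd h4 (by simp)
        · right; right; exact ⟨h3, by omega⟩

theorem A2_mem (lam : List ℕ → Bool) (n p q : ℕ) : Nat.pair p q ∈ col (LZ lam) n ↔
    ∃ u u' : List ℕ, p = encode u ∧ q = encode u' ∧ Pt lam [n] u ∧ Pt lam [n] u' ∧
      leL lam [n] u u' := by
  rw [mem_col]
  constructor
  · rintro ⟨n', u, u', h, h1, h2, h3⟩
    rw [Nat.pair_eq_pair, Nat.pair_eq_pair] at h
    obtain ⟨rfl, h4, h5⟩ := h
    exact ⟨u, u', h4, h5, h1, h2, h3⟩
  · rintro ⟨u, u', rfl, rfl, h1, h2, h3⟩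
    exact ⟨n, u, u', rfl, h1, h2, h3⟩

theorem A2 : A2S := by
  intro lam n
  refine ⟨?_, ?_, ?_, ?_⟩
  · intro p q h
    rw [A2_mem] at h
    obtain ⟨u, u', rfl, rfl, h1, h2, h3⟩ := h
    rw [A2_mem, A2_mem]
    exact ⟨⟨u, u, rfl, rfl, h1, h1, A2_refl lam u _⟩, ⟨u', u', rfl, rfl, h2, h2, A2_refl lam u' _⟩⟩
  · intro p q r h h'
    rw [A2_mem] at h h' ⊢
    obtain ⟨u, u', rfl, rfl, h1, h2, h3⟩ := h
    obtain ⟨v, v', h4, rfl, h5, h6, h7⟩ := h'
    have h8 : u' = v := encode_injective h4
    subst h8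
    exact ⟨u, v', rfl, rfl, h1, h6, A2_trans lam _ _ _ _ h3 h7⟩
  · intro p q h h'
    rw [A2_mem] at h h'
    obtain ⟨u, u', rfl, rfl, h1, h2, h3⟩ := h
    obtain ⟨v, v', h4, h5, h6, h7, h8⟩ := h'
    have h9 : u' = v := encode_injective h4
    have h10 : u = v' := encode_injective h5
    subst h9
    subst h10
    rw [A2_antisymm lam _ _ _ h3 h8]
  · intro p q h h'
    rw [A2_mem] at h h'
    obtain ⟨u, _, rfl, _, h1, _, _⟩ := h
    obtain ⟨v, _, rfl, _, h2, _, _⟩ := h'
    rw [A2_mem, A2_mem]
    rcases A2_total lam u v [n] with h3 | h3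
    · left; exact ⟨u, v, rfl, rfl, h1, h2, h3⟩
    · right; exact ⟨v, u, rfl, rfl, h2, h1, h3⟩

end FR
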