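import Pool.Agent.Lib.MP_ec866f_lc.Stmts

set_option autoImplicit false

namespace FR

open Encodable

theorem A3_lam (s : List ℕ) : FU (fun S => lamOf S s) :=
  (FU.mem (encode s)).map (fun p => @decide p (Classical.propDecidable p))

theorem A3_par {N N' : List ℕ → Prop} (s t : List ℕ)
    (h : ∀ t', t' <+: s → (N t' ↔ N' t')) : IsPar N s t ↔ IsPar N' s t := by
  constructor
  · rintro ⟨h1, h2, h3, h4⟩
    exact ⟨h1, h2, (h t h1).1 h3, fun t' a b c => h4 t' a b ((h t' a).2 c)⟩
  · rintro ⟨h1, h2, h3, h4⟩
    exact ⟨h1, h2, (h t h1).2 h3, fun t' a b c => h4 t' a b ((h t' a).1 c)⟩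

/-- the finite set of prefixes of `s` and the tail of `s` -/
def A3_fin (s : List ℕ) : Finset (List ℕ) :=
  insert s.tail (s.inits.toFinset)

theorem A3_mem_fin {s t : List ℕ} (h : t <+: s) : t ∈ A3_fin s := by
  unfold A3_fin
  rw [Finset.mem_insert, List.mem_toFinset, List.mem_inits]
  exact Or.inr h

theorem A3_tail_fin (s : List ℕ) : s.tail ∈ A3_fin s := by
  unfold A3_fin
  exact Finset.mem_insert_self _ _

theorem A3_nd_congr {lam lam' : List ℕ → Bool} {k : ℕ} {s : List ℕ}
    (h1 : ∀ t ∈ A3_fin s, (Nd lam k t ↔ Nd lam' k t)) (h2 : ∀ t ∈ A3_fin s, lam t = lam' t) :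
    Nd lam (k + 1) s ↔ Nd lam' (k + 1) s := by
  have h3 : ∀ t, IsPar (Nd lam k) s t ↔ IsPar (Nd lam' k) s t := fun t =>
    A3_par s t fun t' ht' => h1 t' (A3_mem_fin ht')
  have h4 : (∃ t, IsPar (Nd lam k) s t ∧ lam t = lam s.tail) ↔
      (∃ t, IsPar (Nd lam' k) s t ∧ lam' t = lam' s.tail) := by
    refine exists_congr fun t => ?_
    rw [h3 t]
    refine and_congr_right fun h5 => ?_
    rw [h2 t (A3_mem_fin h5.1), h2 _ (A3_tail_fin s)]
  simp only [Nd]
  rw [h1 s (A3_mem_fin (List.prefix_refl s)), h1 _ (A3_tail_fin s), h4]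

theorem A3_nd : ∀ (k : ℕ) (s : List ℕ), FU (fun S => Nd (lamOf S) k s) := by
  intro k
  induction k with
  | zero => intro s; exact FU.const False
  | succ k ih =>
    intro s
    obtain ⟨b, hb⟩ := FU.common (A3_fin s) (F := fun t S => Nd (lamOf S) k t) (fun t _ => ih t)
    obtain ⟨c, hc⟩ := FU.common (A3_fin s) (F := fun t S => lamOf S t) (fun t _ => A3_lam t)
    refine ⟨max b c, fun S S' h => propext ?_⟩
    refine A3_nd_congr (fun t ht => iff_of_eq (hb t ht S S' fun n hn =>
      h n (lt_of_lt_of_le hn (le_max_left _ _)))) (fun t ht => hc t ht S S' fun n hn =>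
      h n (lt_of_lt_of_le hn (le_max_right _ _)))

theorem A3_node (s : List ℕ) : FU (fun S => node (lamOf S) s) := A3_nd s.length s

theorem A3_ispar (s t : List ℕ) : FU (fun S => IsPar (node (lamOf S)) s t) := by
  obtain ⟨b, hb⟩ := FU.common (A3_fin s) (F := fun t S => node (lamOf S) t) (fun t _ => A3_node t)
  refine ⟨b, fun S S' h => propext ?_⟩
  exact A3_par s t fun t' ht' => iff_of_eq (hb t' (A3_mem_fin ht') S S' h)

theorem A3_child (s s' : List ℕ) : FU (fun S => child (lamOf S) s s') := by
  unfold child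
  exact (FU.const _).and ((A3_node s').and (A3_ispar s' s))

theorem A3_pt : ∀ (u s : List ℕ), FU (fun S => Pt (lamOf S) s u) := by
  intro u
  induction u with
  | nil => intro s; simp only [Pt]; exact FU.const _
  | cons b u ih =>
    intro s
    cases u with
    | nil => simp only [Pt]; exact FU.const _
    | cons c u =>
      simp only [Pt]
      exact (A3_child s (dcl b)).and (ih (dcl b))

theorem A3_adr : ∀ (u s s' : List ℕ), FU (fun S => Adr (lamOf S) s u s') := by
  intro u
  induction u with
  | nil => intro s s'; simp only [Adr]; exact FU.const _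
  | cons b u ih =>
    intro s s'
    simp only [Adr]
    exact (A3_child s (dcl b)).and (ih (dcl b) s')

theorem A3_leL : ∀ (u u' s : List ℕ), FU (fun S => leL (lamOf S) s u u') := by
  intro u
  induction u with
  | nil => intro u' s; simp only [leL]; exact FU.const _
  | cons b u ih =>
    intro u' s
    cases u' with
    | nil => simp only [leL]; exact FU.const _
    | cons b' u' =>
      simp only [leL]
      refine FU.or ((FU.const _).and (ih u' (dcl b))) (FU.or ?_ ?_)
      · exact ((A3_lam s).map (fun v => v = true)).and (FU.const _)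
      · exact ((A3_lam s).map (fun v => v = false)).and (FU.const _)

theorem A3 : A3S :=
  ⟨A3_node, A3_child, fun s u => A3_pt u s, fun s u u' => A3_leL u u' s,
    fun s u s' => A3_adr u s s'⟩

end FR
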