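import Pool.Agent.Lib.MP_ec866f_lc.Stmts

set_option autoImplicit false

namespace FR

open Filter Encodable

theorem A4 (h3 : A3S) : A4S := by
  obtain ⟨_, _, hPt, hle, _⟩ := h3
  have h1 : Ar (fun (x : ℕ) S => x ∈ LZ (lamOf S)) := by
    refine Ar.ex (P := fun (p : ℕ × ℕ) S => ∃ (u u' : List ℕ),
      p.1 = Nat.pair p.2 (Nat.pair (encode u) (encode u')) ∧
      Pt (lamOf S) [p.2] u ∧ Pt (lamOf S) [p.2] u' ∧ leL (lamOf S) [p.2] u u') ?_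
    refine Ar.ex (P := fun (p : (ℕ × ℕ) × List ℕ) S => ∃ (u' : List ℕ),
      p.1.1 = Nat.pair p.1.2 (Nat.pair (encode p.2) (encode u')) ∧
      Pt (lamOf S) [p.1.2] p.2 ∧ Pt (lamOf S) [p.1.2] u' ∧ leL (lamOf S) [p.1.2] p.2 u') ?_
    refine Ar.ex (P := fun (p : ((ℕ × ℕ) × List ℕ) × List ℕ) S =>
      p.1.1.1 = Nat.pair p.1.1.2 (Nat.pair (encode p.1.2) (encode p.2)) ∧
      Pt (lamOf S) [p.1.1.2] p.1.2 ∧ Pt (lamOf S) [p.1.1.2] p.2 ∧
      leL (lamOf S) [p.1.1.2] p.1.2 p.2) ?_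
    exact (Ar.free _).and ((Ar.of_FU fun p => hPt _ _).and ((Ar.of_FU fun p => hPt _ _).and
      (Ar.of_FU fun p => hle _ _ _)))
  filter_upwards [h1.set_mem] with G hG M hM hGM S hS
  exact hG M hM hGM S hS

end FR
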