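import Pool.Agent.Lib.MP_ec866f_lc.Stmts

/-! module A5 -/

set_option autoImplicit false

namespace FR

open Filter Encodable

theorem A5_leL {lam : List ℕ → Bool} : ∀ {v s w : List ℕ}, Adr lam s v w → ∀ y y' : List ℕ,
    (leL lam s (v ++ y) (v ++ y') ↔ leL lam w y y')
  | [], s, w, h, y, y' => by
    simp only [Adr] at h
    subst h
    rfl
  | b :: v, s, w, h, y, y' => by
    simp only [Adr] at h
    rw [List.cons_append, List.cons_append]
    simp only [leL]
    rw [← A5_leL h.2 y y']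
    constructor
    · rintro (h1 | h1 | h1)
      · exact h1.2
      · exact absurd h1.2 (lt_irrefl _)
      · exact absurd h1.2 (lt_irrefl _)
    · intro h1
      exact Or.inl ⟨by trivial, h1⟩

theorem A5_pt {lam : List ℕ → Bool} : ∀ {v s w : List ℕ}, Adr lam s v w → ∀ (x : ℕ) (y : List ℕ),
    (Pt lam s (v ++ x :: y) ↔ Pt lam w (x :: y))
  | [], s, w, h, x, y => by
    simp only [Adr] at h
    subst h
    rfl
  | b :: v, s, w, h, x, y => by
    simp only [Adr] at h
    rw [← A5_pt h.2 x y, List.cons_append]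
    cases v with
    | nil => simp only [List.nil_append, Pt]; exact ⟨fun h1 => h1.2, fun h1 => ⟨h.1, h1⟩⟩
    | cons c v => simp only [List.cons_append, Pt]; exact ⟨fun h1 => h1.2, fun h1 => ⟨h.1, h1⟩⟩

theorem A5_adr {lam : List ℕ → Bool} : ∀ {v s w : List ℕ}, Adr lam s v w → ∀ (β : ℕ),
    child lam w (dcl β) → Adr lam s (v ++ [β]) (dcl β)
  | [], s, w, h, β, hc => by
    simp only [Adr] at h
    subst h
    simp only [List.nil_append, Adr]
    exact ⟨hc, trivial⟩
  | b :: v, s, w, h, β, hc => by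
    simp only [Adr] at h
    rw [List.cons_append]
    simp only [Adr]
    exact ⟨h.1, A5_adr h.2 β hc⟩

/-- a nonincreasing sequence is eventually constant -/
theorem A5_const (x : ℕ → ℕ) (B : ℕ) (h : ∀ b b', B ≤ b → b < b' → x b' ≤ x b) :
    ∃ β, ∃ B' ≥ B, ∀ b ≥ B', x b = β := by
  classical
  have h1 : ∃ k, ∃ b ≥ B, x b = k := ⟨x B, B, le_refl _, rfl⟩
  obtain ⟨B', hB', he⟩ := Nat.find_spec h1
  refine ⟨Nat.find h1, B', hB', fun b hb => le_antisymm ?_ ?_⟩
  · rcases hb.eq_or_lt with h2 | h2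
    · rw [← h2, he]
    · exact (h B' b hB' h2).trans he.le
  · exact Nat.find_min' h1 ⟨b, hB'.trans hb, rfl⟩

theorem A5_point {lam : List ℕ → Bool} {m : ℕ} {u s : List ℕ} (hu : Adr lam [m] u s) (b : ℕ) :
    Pt lam [m] (u ++ [b]) := by
  rw [A5_pt hu b []]
  trivial

theorem A5_le_iff {lam : List ℕ → Bool} {m : ℕ} {u s : List ℕ} (hu : Adr lam [m] u s)
    (b b' : ℕ) : leL lam [m] (u ++ [b]) (u ++ [b']) ↔
      (b = b' ∨ (lam s = true ∧ b < b') ∨ (lam s = false ∧ b' < b)) := by
  rw [A5_leL hu [b] [b']]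
  simp only [leL, and_true]

/-- images of `u ++ [b]` with the same value have the same `b` -/
theorem A5_inj {lam : List ℕ → Bool} {m n : ℕ} {E : List ℕ → List ℕ} {u s : List ℕ}
    (hE : EmbL lam m n E) (hu : Adr lam [m] u s) {b b' : ℕ} (h : E (u ++ [b]) = E (u ++ [b'])) :
    b = b' := by
  have h0 := (hE (u ++ [b]) (u ++ [b]) (A5_point hu b) (A5_point hu b)).2.1
    ((A5_le_iff hu b b).2 (Or.inl rfl))
  have h1 := (hE (u ++ [b]) (u ++ [b']) (A5_point hu b) (A5_point hu b')).2
  have h2 := (hE (u ++ [b']) (u ++ [b]) (A5_point hu b') (A5_point hu b)).2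
  rw [A5_le_iff hu, ← h] at h1 h2
  have h3 := h1.2 h0
  have h4 := h2.2 h0
  cases hs : lam s <;> simp only [hs, true_and, false_and, Bool.false_eq_true,
    Bool.true_eq_false, or_false, false_or] at h3 h4 <;> omega

theorem A5 : A5S := by
  classical
  intro lam m n E u v s w hE hu hv hL hne
  obtain ⟨B, hB⟩ := hL
  choose! x z hxz using hB
  have key : ∀ b b', B ≤ b → b < b' → x b' ≤ x b := by
    intro b b' hb hbb
    have e1 := hxz b hb
    have e2 := hxz b' (hb.trans hbb.le)
    have h1 := (hE (u ++ [b]) (u ++ [b']) (A5_point hu b) (A5_point hu b')).2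
    have h2 := (hE (u ++ [b']) (u ++ [b]) (A5_point hu b') (A5_point hu b)).2
    rw [A5_le_iff hu, e1, e2, A5_leL hv] at h1 h2
    simp only [leL] at h1 h2
    cases hs : lam s with
    | true =>
      have hw : lam w = false := by
        cases hw : lam w with
        | true => exact absurd (hs.trans hw.symm) hne
        | false => rfl
      have h3 := h1.1 (Or.inr (Or.inl ⟨hs, hbb⟩))
      rcases h3 with h3 | h3 | h3
      · exact h3.1.ge
      · rw [hw] at h3; exact absurd h3.1 (by decide)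
      · exact h3.2.le
    | false =>
      have hw : lam w = true := by
        cases hw : lam w with
        | true => rfl
        | false => exact absurd (hs.trans hw.symm) hne
      have h3 := h2.1 (Or.inr (Or.inr ⟨hs, hbb⟩))
      rcases h3 with h3 | h3 | h3
      · exact h3.1.le
      · exact h3.2.le
      · rw [hw] at h3; exact absurd h3.1 (by decide)
  obtain ⟨β, B', hB', hβ⟩ := A5_const x B key
  obtain ⟨B'', hB'', hz⟩ : ∃ B'' ≥ B', ∀ b ≥ B'', z b ≠ [] := by
    by_cases h : ∃ b ≥ B', z b = []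
    · obtain ⟨b0, hb0, hz0⟩ := h
      refine ⟨b0 + 1, by omega, fun b hb hz => ?_⟩
      have h1 : E (u ++ [b0]) = E (u ++ [b]) := by
        rw [hxz b0 (by omega), hxz b (by omega), hz0, hz, hβ b0 hb0, hβ b (by omega)]
      have := A5_inj hE hu h1
      omega
    · exact ⟨B', le_refl _, fun b hb hz => h ⟨b, hb, hz⟩⟩
  have hform : ∀ b ≥ B'', ∃ y t, E (u ++ [b]) = v ++ (β :: y :: t) := by
    intro b hb
    obtain ⟨y, t, hyt⟩ := List.exists_cons_of_ne_nil (hz b hb)
    exact ⟨y, t, by rw [hxz b (by omega), hβ b (by omega), hyt]⟩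
  have hchild : child lam w (dcl β) := by
    obtain ⟨y, t, hyt⟩ := hform B'' (le_refl _)
    have h1 := (hE (u ++ [B'']) (u ++ [B'']) (A5_point hu B'') (A5_point hu B'')).1
    rw [hyt, A5_pt hv] at h1
    simp only [Pt] at h1
    exact h1.1
  refine ⟨β, dcl β, A5_adr hv β hchild, B'', fun b hb => ?_⟩
  obtain ⟨y, t, hyt⟩ := hform b hb
  exact ⟨y, t, by rw [hyt]; simp⟩

end FR
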