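import Pool.Agent.Lib.MP_ec866f_lc.Stmts

/-!
# A6 : the child step
-/

set_option autoImplicit false

namespace FR

open Filter Encodable

theorem A6_adr_app (lam : List ℕ → Bool) (u : List ℕ) : ∀ (s t : List ℕ) (b : ℕ),
    Adr lam s u t → child lam t (dcl b) → Adr lam s (u ++ [b]) (dcl b) := by
  induction u with
  | nil =>
    intro s t b h hc
    have h' : t = s := h
    subst h'
    exact ⟨hc, rfl⟩
  | cons c u ih =>
    intro s t b h hc
    exact ⟨h.1, ih _ _ _ h.2 hc⟩

theorem A6_pt_cons (lam : List ℕ → Bool) (s : List ℕ) (b : ℕ) (u : List ℕ) (hu : u ≠ []) :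
    Pt lam s (b :: u) ↔ (child lam s (dcl b) ∧ Pt lam (dcl b) u) := by
  cases u with
  | nil => exact absurd rfl hu
  | cons c u => exact Iff.rfl

theorem A6_pt_app (lam : List ℕ → Bool) (u y : List ℕ) (hy : y ≠ []) : ∀ (s t : List ℕ),
    Adr lam s u t → (Pt lam s (u ++ y) ↔ Pt lam t y) := by
  induction u with
  | nil =>
    intro s t h
    have h' : t = s := h
    subst h'
    exact Iff.rfl
  | cons c u ih =>
    intro s t h
    rw [List.cons_append, A6_pt_cons lam s c (u ++ y) (by simp [hy]), ih _ _ h.2]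
    exact ⟨fun h2 => h2.2, fun h2 => ⟨h.1, h2⟩⟩

theorem A6_le_cons (lam : List ℕ → Bool) (s : List ℕ) (b : ℕ) (u u' : List ℕ) :
    leL lam s (b :: u) (b :: u') ↔ leL lam (dcl b) u u' := by
  constructor
  · rintro (h | h | h)
    · exact h.2
    · exact absurd h.2 (lt_irrefl _)
    · exact absurd h.2 (lt_irrefl _)
  · intro h
    exact Or.inl ⟨rfl, h⟩

theorem A6_le_app (lam : List ℕ → Bool) (u y y' : List ℕ) : ∀ (s t : List ℕ),
    Adr lam s u t → (leL lam s (u ++ y) (u ++ y') ↔ leL lam t y y') := by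
  induction u with
  | nil =>
    intro s t h
    have h' : t = s := h
    subst h'
    exact Iff.rfl
  | cons c u ih =>
    intro s t h
    rw [List.cons_append, List.cons_append, A6_le_cons, ih _ _ h.2]

theorem A6_le_antisymm (lam : List ℕ → Bool) (u : List ℕ) : ∀ (s u' : List ℕ),
    leL lam s u u' → leL lam s u' u → u = u' := by
  induction u with
  | nil =>
    intro s u' _ h2
    cases u' with
    | nil => rfl
    | cons _ _ => exact absurd h2 (fun h => h)
  | cons b u ih =>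
    intro s u' h1 h2
    cases u' with
    | nil => exact absurd h1 (fun h => h)
    | cons b' u' =>
      rcases h1 with ⟨rfl, h⟩ | ⟨h, h'⟩ | ⟨h, h'⟩
      · rw [ih _ _ h ((A6_le_cons _ _ _ _ _).1 h2)]
      · rcases h2 with ⟨rfl, _⟩ | ⟨_, h3⟩ | ⟨h3, _⟩
        · exact absurd h' (lt_irrefl _)
        · exact absurd h' (not_lt.2 h3.le)
        · rw [h] at h3; cases h3
      · rcases h2 with ⟨rfl, _⟩ | ⟨h3, _⟩ | ⟨_, h3⟩
        · exact absurd h' (lt_irrefl _)
        · rw [h] at h3; cases h3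
        · exact absurd h' (not_lt.2 h3.le)

/-- the entries compare -/
theorem A6_head (lam : List ℕ → Bool) (s : List ℕ) (a b : ℕ) (u u' : List ℕ)
    (h : leL lam s (a :: u) (b :: u')) :
    (lam s = true → a ≤ b) ∧ (lam s = false → b ≤ a) := by
  rcases h with ⟨rfl, _⟩ | ⟨h, h'⟩ | ⟨h, h'⟩
  · exact ⟨fun _ => le_rfl, fun _ => le_rfl⟩
  · exact ⟨fun _ => h'.le, fun h2 => by rw [h] at h2; cases h2⟩
  · exact ⟨fun h2 => (by rw [h] at h2; cases h2), fun _ => h'.le⟩

/-- convexity of the set of proper extensions -/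
theorem A6_convex (lam : List ℕ → Bool) (v : List ℕ) : ∀ (s q : List ℕ) (x x' : ℕ) (y y' : List ℕ),
    leL lam s (v ++ x :: y) q → leL lam s q (v ++ x' :: y') → ∃ z z', q = v ++ z :: z' := by
  induction v with
  | nil =>
    intro s q x x' y y' h1 _
    cases q with
    | nil => exact absurd h1 (fun h => h)
    | cons z z' => exact ⟨z, z', rfl⟩
  | cons c v ih =>
    intro s q x x' y y' h1 h2
    cases q with
    | nil => exact absurd h1 (fun h => h)
    | cons d q =>
      rw [List.cons_append] at h1 h2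
      have h3 : c = d := by
        have e1 := A6_head _ _ _ _ _ _ h1
        have e2 := A6_head _ _ _ _ _ _ h2
        cases hl : lam s with
        | true => exact le_antisymm (e1.1 hl) (e2.1 hl)
        | false => exact le_antisymm (e2.2 hl) (e1.2 hl)
      subst h3
      rw [A6_le_cons] at h1 h2
      obtain ⟨z, z', rfl⟩ := ih _ _ _ _ _ _ h1 h2
      exact ⟨z, z', rfl⟩

theorem A6_evconst (f : ℕ → ℕ) (C : ℕ) (hC : ∀ x, f x ≤ C) (h : Monotone f ∨ Antitone f) :
    ∃ N, ∀ x ≥ N, f x = f N := by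
  classical
  rcases h with h | h
  · by_contra hcon
    push Not at hcon
    have key : ∀ k : ℕ, ∃ x, k ≤ f x := by
      intro k
      induction k with
      | zero => exact ⟨0, Nat.zero_le _⟩
      | succ k ih =>
        obtain ⟨x, hx⟩ := ih
        obtain ⟨x', hx', hne⟩ := hcon x
        have := h hx'
        exact ⟨x', by omega⟩
    obtain ⟨x, hx⟩ := key (C + 1)
    have := hC x
    omega
  · have hex : ∃ k x, f x = k := ⟨f 0, 0, rfl⟩
    obtain ⟨N, hN⟩ := Nat.find_spec hex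
    refine ⟨N, fun x hx => le_antisymm (h hx) ?_⟩
    rw [hN]
    exact Nat.find_min' hex ⟨x, rfl⟩

/-- common last step: the next entry is eventually constant -/
theorem A6_core (lam : List ℕ → Bool) (n : ℕ) (v w : List ℕ) (F : ℕ → List ℕ)
    (hv : Adr lam [n] v w) (hpt : ∀ x, Pt lam [n] (F x))
    (hinj : ∀ x x', F x = F x' → x = x') (β X : ℕ)
    (hF : ∀ x ≥ X, ∃ z, F x = v ++ β :: z) :
    Adr lam [n] (v ++ [β]) (dcl β) ∧ ∃ B, ∀ x ≥ B, ∃ a c, F x = (v ++ [β]) ++ (a :: c) := by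
  have h1 : ∃ B ≥ X, ∀ x ≥ B, ∃ a c, F x = (v ++ [β]) ++ (a :: c) := by
    by_cases h0 : ∃ x ≥ X, F x = v ++ [β]
    · obtain ⟨x0, hx0, hx0'⟩ := h0
      refine ⟨x0 + 1, by omega, fun x hx => ?_⟩
      obtain ⟨z, hz⟩ := hF x (by omega)
      cases z with
      | nil =>
        have := hinj x x0 (by rw [hz, hx0'])
        omega
      | cons a c => exact ⟨a, c, by rw [hz]; simp⟩
    · refine ⟨X, le_rfl, fun x hx => ?_⟩
      obtain ⟨z, hz⟩ := hF x hx
      cases z with
      | nil => exact absurd ⟨x, hx, hz⟩ h0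
      | cons a c => exact ⟨a, c, by rw [hz]; simp⟩
  obtain ⟨B, _, hB⟩ := h1
  refine ⟨?_, B, hB⟩
  obtain ⟨a, c, hac⟩ := hB B le_rfl
  have h2 := hpt B
  rw [hac, List.append_assoc, A6_pt_app lam v ([β] ++ (a :: c)) (by simp) _ _ hv] at h2
  exact A6_adr_app lam v _ _ _ hv h2.1

theorem A6_dcl (k : ℕ) (s : List ℕ) : dcl (Nat.pair k (encode s)) = s := by
  simp [dcl]

theorem A6 : A6S := by
  intro lam m n E u v s w s' hE hu hv hL hc
  obtain ⟨B, hB⟩ := hL
  set b : ℕ := Nat.pair (B + 1) (encode s') with hb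
  have hbB : B + 1 ≤ b := Nat.left_le_pair _ _
  have hdb : dcl b = s' := A6_dcl _ _
  -- points
  have hp1 : ∀ c, Pt lam [m] (u ++ [c]) := by
    intro c
    rw [A6_pt_app lam u [c] (by simp) _ _ hu]
    trivial
  have hp2 : ∀ x, Pt lam [m] (u ++ [b, x]) := by
    intro x
    rw [A6_pt_app lam u [b, x] (by simp) _ _ hu]
    refine ⟨?_, trivial⟩
    rw [hdb]
    exact hc
  -- a second bound
  obtain ⟨b2, hb2, hle2⟩ : ∃ b2 ≥ B, ∀ x, leL lam [m] (u ++ [b, x]) (u ++ [b2]) := by
    cases hl : lam s with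
    | true =>
      refine ⟨b + 1, by omega, fun x => ?_⟩
      rw [A6_le_app lam u _ _ _ _ hu]
      exact Or.inr (Or.inl ⟨hl, Nat.lt_succ_self b⟩)
    | false =>
      refine ⟨b - 1, by omega, fun x => ?_⟩
      rw [A6_le_app lam u _ _ _ _ hu]
      exact Or.inr (Or.inr ⟨hl, by omega⟩)
  have hle1 : ∀ x, leL lam [m] (u ++ [b]) (u ++ [b, x]) := by
    intro x
    rw [A6_le_app lam u _ _ _ _ hu]
    exact Or.inl ⟨rfl, trivial⟩
  obtain ⟨c1, r1, hE1⟩ := hB b (by omega)
  obtain ⟨c2, r2, hE2⟩ := hB b2 hb2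
  have hcv : ∀ x, ∃ z z', E (u ++ [b, x]) = v ++ z :: z' := by
    intro x
    have e1 := ((hE _ _ (hp1 b) (hp2 x)).2).1 (hle1 x)
    have e2 := ((hE _ _ (hp2 x) (hp1 b2)).2).1 (hle2 x)
    rw [hE1] at e1
    rw [hE2] at e2
    exact A6_convex lam v _ _ _ _ _ _ e1 e2
  choose y z hyz using hcv
  have hbd : ∀ x, y x ≤ max c1 c2 := by
    intro x
    have e1 := ((hE _ _ (hp1 b) (hp2 x)).2).1 (hle1 x)
    have e2 := ((hE _ _ (hp2 x) (hp1 b2)).2).1 (hle2 x)
    rw [hE1, hyz, A6_le_app lam v _ _ _ _ hv] at e1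
    rw [hE2, hyz, A6_le_app lam v _ _ _ _ hv] at e2
    have f1 := A6_head _ _ _ _ _ _ e1
    have f2 := A6_head _ _ _ _ _ _ e2
    cases hl : lam w with
    | true => exact (f2.1 hl).trans (le_max_right _ _)
    | false => exact (f1.2 hl).trans (le_max_left _ _)
  have hmon : Monotone y ∨ Antitone y := by
    have key : ∀ x x', leL lam [m] (u ++ [b, x]) (u ++ [b, x']) →
        (lam w = true → y x ≤ y x') ∧ (lam w = false → y x' ≤ y x) := by
      intro x x' h
      have e1 := ((hE _ _ (hp2 x) (hp2 x')).2).1 h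
      rw [hyz, hyz, A6_le_app lam v _ _ _ _ hv] at e1
      exact A6_head _ _ _ _ _ _ e1
    have ord : ∀ x x', x ≤ x' → (lam s' = true → leL lam [m] (u ++ [b, x]) (u ++ [b, x'])) ∧
        (lam s' = false → leL lam [m] (u ++ [b, x']) (u ++ [b, x])) := by
      intro x x' hxx
      rw [A6_le_app lam u _ _ _ _ hu, A6_le_app lam u _ _ _ _ hu, A6_le_cons, A6_le_cons, hdb]
      rcases Nat.eq_or_lt_of_le hxx with h | h
      · subst h
        exact ⟨fun _ => Or.inl ⟨rfl, trivial⟩, fun _ => Or.inl ⟨rfl, trivial⟩⟩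
      · exact ⟨fun h1 => Or.inr (Or.inl ⟨h1, h⟩), fun h1 => Or.inr (Or.inr ⟨h1, h⟩)⟩
    cases hs' : lam s' with
    | true =>
      cases hw : lam w with
      | true => exact Or.inl fun x x' hxx => (key _ _ ((ord _ _ hxx).1 hs')).1 hw
      | false => exact Or.inr fun x x' hxx => (key _ _ ((ord _ _ hxx).1 hs')).2 hw
    | false =>
      cases hw : lam w with
      | true => exact Or.inr fun x x' hxx => (key _ _ ((ord _ _ hxx).2 hs')).1 hw
      | false => exact Or.inl fun x x' hxx => (key _ _ ((ord _ _ hxx).2 hs')).2 hw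
  obtain ⟨N, hN⟩ := A6_evconst y (max c1 c2) hbd hmon
  have hcore := A6_core lam n v w (fun x => E (u ++ [b, x])) hv
    (fun x => (hE _ _ (hp2 x) (hp2 x)).1) (by
      intro x x' hxx
      have hxx : E (u ++ [b, x]) = E (u ++ [b, x']) := hxx
      have hr : leL lam [n] (E (u ++ [b, x])) (E (u ++ [b, x])) :=
        ((hE _ _ (hp2 x) (hp2 x)).2).1 (by
          rw [A6_le_app lam u _ _ _ _ hu]
          exact Or.inl ⟨rfl, Or.inl ⟨rfl, trivial⟩⟩)
      have e1 : leL lam [m] (u ++ [b, x]) (u ++ [b, x']) :=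
        ((hE _ _ (hp2 x) (hp2 x')).2).2 (by rw [← hxx]; exact hr)
      have e2 : leL lam [m] (u ++ [b, x']) (u ++ [b, x]) :=
        ((hE _ _ (hp2 x') (hp2 x)).2).2 (by rw [← hxx]; exact hr)
      have e3 := A6_le_antisymm lam _ _ _ e1 e2
      simpa using e3) (y N) N (by
      intro x hx
      exact ⟨z x, by rw [hyz, hN x hx]⟩)
  obtain ⟨h1, B', hB'⟩ := hcore
  refine ⟨b, y N, dcl (y N), ?_, h1, B', ?_⟩
  · have := A6_adr_app lam u [m] s b hu (by rw [hdb]; exact hc)
    rw [hdb] at this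
    exact this
  · intro x hx
    obtain ⟨a, c, hac⟩ := hB' x hx
    refine ⟨a, c, ?_⟩
    rw [List.append_assoc]
    exact hac

end FR
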