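import Pool.Agent.Lib.MP_ec866f_lc.Stmts

/-! module A7 -/

set_option autoImplicit false

namespace FR

open Filter Encodable

theorem A7_par_unique {N : List ℕ → Prop} {s t t' : List ℕ} (h : IsPar N s t) (h' : IsPar N s t') :
    t = t' := by
  have h1 := h.2.2.2 t' h'.1 h'.2.1 h'.2.2.1
  have h2 := h'.2.2.2 t h.1 h.2.1 h.2.2.1
  exact h2.eq_of_length_le h1.length_le

theorem A7_not_node_nil (lam : List ℕ → Bool) : ¬ node lam [] := fun h => h

theorem A7_lt {s t : List ℕ} (h : s <+: t) (hne : s ≠ t) : s.length < t.length := by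
  rcases h.length_le.lt_or_eq with h1 | h1
  · exact h1
  · exact absurd (h.eq_of_length h1) hne

theorem A7 (h1 : A1S) : A7S := by
  classical
  intro lam m t w hmt hw hpw hmw htw htne hlam
  have hP : ∃ k, ∃ t', t <+: t' ∧ t' ≠ t ∧ t' <+: w ∧ node lam t' ∧ lam t' = lam (m :: t) ∧
      t'.length = k := ⟨w.length, w, htw, fun h => htne h.symm, List.prefix_refl w, hw, hlam.symm, rfl⟩
  obtain ⟨t', h2, h3, h4, h5, h6, h7⟩ := Nat.find_spec hP
  have hmin := fun k => @Nat.find_min _ _ hP k
  rw [← h7] at hmin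
  -- every node proper prefix of `m :: t'` is a prefix of `m :: t`
  have key : ∀ r, r <+: m :: t' → r ≠ m :: t' → node lam r → r <+: m :: t := by
    by_contra hcon
    push Not at hcon
    have hQ : ∃ k, ∃ r, r <+: m :: t' ∧ r ≠ m :: t' ∧ node lam r ∧ ¬ r <+: m :: t ∧
        r.length = k := by
      obtain ⟨r, a, b, c, d⟩ := hcon
      exact ⟨r.length, r, a, b, c, d, rfl⟩
    obtain ⟨r, r1, r2, r3, r4, r5⟩ := Nat.find_spec hQ
    have hmin2 := fun k => @Nat.find_min _ _ hQ k
    rw [← r5] at hmin2
    cases r with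
    | nil => exact A7_not_node_nil lam r3
    | cons a t'' =>
      rw [List.cons_prefix_cons] at r1
      obtain ⟨rfl, r1⟩ := r1
      have r2' : t'' ≠ t' := fun h => r2 (by rw [h])
      have r4' : ¬ t'' <+: t := fun h => r4 (by rw [List.cons_prefix_cons]; exact ⟨rfl, h⟩)
      have h8 : t <+: t'' := by
        rcases List.prefix_or_prefix_of_prefix r1 h2 with h | h
        · exact absurd h r4'
        · exact h
      have h9 : t'' ≠ t := fun h => r4' (h ▸ List.prefix_refl _)
      have hlen := A7_lt r1 r2'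
      have hlen2 := A7_lt h8 (fun h => h9 h.symm)
      have hpar : IsPar (node lam) (a :: t'') (a :: t) := by
        refine ⟨by rw [List.cons_prefix_cons]; exact ⟨rfl, h8⟩, fun h => h9 (by
          rw [List.cons.injEq] at h; exact h.2.symm), hmt, fun r' p1 p2 p3 => ?_⟩
        by_contra p4
        have p5 : r' <+: a :: t' := p1.trans (by rw [List.cons_prefix_cons]; exact ⟨rfl, r1⟩)
        have p6 := A7_lt p1 p2
        refine hmin2 r'.length p6 ⟨r', p5, fun h => ?_, p3, p4, rfl⟩
        rw [h, List.length_cons, List.length_cons] at p6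
        omega
      rcases (h1.1 lam (a :: t'')).1 r3 with h10 | ⟨h10, h11, p, h12, h13⟩
      · rw [List.length_cons] at h10
        omega
      · have hp := A7_par_unique hpar h12
        subst hp
        rw [List.tail_cons] at h11 h13
        exact hmin t''.length hlen ⟨t'', h8, h9, r1.trans h4, h11, h13.symm, rfl⟩
  have hpar : IsPar (node lam) (m :: t') (m :: t) :=
    ⟨by rw [List.cons_prefix_cons]; exact ⟨rfl, h2⟩, fun h => h3 (by
      rw [List.cons.injEq] at h; exact h.2.symm), hmt, key⟩
  have hlen := A7_lt h2 (fun h => h3 h.symm)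
  refine ⟨t', h2, h3, h4, ?_, ?_, hpar⟩
  · rw [List.pairwise_cons]
    exact ⟨fun x hx => hmw x (h4.subset hx), hpw.sublist h4.sublist⟩
  · refine (h1.1 lam (m :: t')).2 (Or.inr ⟨?_, h5, m :: t, hpar, h6.symm⟩)
    rw [List.length_cons]
    omega

end FR
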