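import Pool.Agent.Lib.MP_ec866f_lc.Stmts

/-! module A8 -/

set_option autoImplicit false

namespace FR

open Filter Encodable

theorem A8_lt {s t : List ℕ} (h : s <+: t) (hne : s ≠ t) : s.length < t.length := by
  rcases h.length_le.lt_or_eq with h1 | h1
  · exact h1
  · exact absurd (h.eq_of_length h1) hne

theorem A8_adr_unique {lam : List ℕ → Bool} : ∀ {v s w w' : List ℕ}, Adr lam s v w →
    Adr lam s v w' → w = w'
  | [], s, w, w', h, h' => by
    simp only [Adr] at h h'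
    rw [h, h']
  | b :: v, s, w, w', h, h' => by
    simp only [Adr] at h h'
    exact A8_adr_unique h.2 h'.2

theorem A8_adr_snoc {lam : List ℕ → Bool} : ∀ {v s w' : List ℕ} {β : ℕ},
    Adr lam s (v ++ [β]) w' → ∃ w, Adr lam s v w ∧ child lam w w'
  | [], s, w', β, h => by
    simp only [List.nil_append, Adr] at h
    refine ⟨s, ?_, ?_⟩
    · simp only [Adr]
    · rw [h.2]; exact h.1
  | b :: v, s, w', β, h => by
    rw [List.cons_append] at h
    simp only [Adr] at h
    obtain ⟨w, h1, h2⟩ := A8_adr_snoc h.2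
    refine ⟨w, ?_, h2⟩
    simp only [Adr]
    exact ⟨h.1, h1⟩

/-- nodes below `s` -/
theorem A8_adr_node {lam : List ℕ → Bool} : ∀ {v s w : List ℕ}, Adr lam s v w →
    node lam s → s.Pairwise (· < ·) → node lam w ∧ w.Pairwise (· < ·) ∧ s <+: w
  | [], s, w, h, h1, h2 => by
    simp only [Adr] at h
    subst h
    exact ⟨h1, h2, List.prefix_refl _⟩
  | b :: v, s, w, h, h1, h2 => by
    simp only [Adr] at h
    obtain ⟨h3, h4, h5⟩ := A8_adr_node h.2 h.1.2.1 h.1.1
    exact ⟨h3, h4, h.1.2.2.1.trans h5⟩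

theorem A8_adr_root {lam : List ℕ → Bool} (h1 : A1S) {n : ℕ} {v w : List ℕ}
    (h : Adr lam [n] v w) : node lam w ∧ w.Pairwise (· < ·) ∧ [n] <+: w :=
  A8_adr_node h ((h1.1 lam [n]).2 (Or.inl rfl)) (List.pairwise_singleton _ _)

theorem A8 (h1 : A1S) (h5 : A5S) (h6 : A6S) (h7 : A7S) : A8S := by
  intro lam m n E u v hmn hE hI
  obtain ⟨t, w, hu, hv, htw, htne, hL⟩ := hI
  obtain ⟨nw, pw, prw⟩ := A8_adr_root h1 hv
  obtain ⟨nt, pt, prt⟩ := A8_adr_root h1 hu
  by_cases hlam : lam (m :: t) = lam w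
  · have hmw : ∀ x ∈ w, m < x := by
      obtain ⟨w0, rfl⟩ := prw
      intro x hx
      rw [List.singleton_append] at hx pw
      rw [List.pairwise_cons] at pw
      rcases List.mem_cons.mp hx with h | h
      · rw [h]; exact hmn
      · exact hmn.trans (pw.1 x h)
    obtain ⟨t', e1, e2, e3, e4⟩ := h7 lam m t w nt nw pw hmw htw htne hlam
    obtain ⟨b, β, w', f1, f2, f3⟩ := h6 lam m n E u v (m :: t) w (m :: t') hE hu hv hL e4
    obtain ⟨w0, g1, g2⟩ := A8_adr_snoc f2
    have hw0 := A8_adr_unique g1 hv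
    subst hw0
    refine ⟨u ++ [b], β, t', w', f1, f2, e3.trans g2.2.2.1, fun h => ?_, f3⟩
    have h8 := A8_lt g2.2.2.1 g2.2.2.2.1
    have h9 := e3.length_le
    rw [h] at h9
    omega
  · obtain ⟨β, w', f2, f3⟩ := h5 lam m n E u v (m :: t) w hE hu hv hL hlam
    obtain ⟨w0, g1, g2⟩ := A8_adr_snoc f2
    have hw0 := A8_adr_unique g1 hv
    subst hw0
    refine ⟨u, β, t, w', hu, f2, htw.trans g2.2.2.1, fun h => ?_, f3⟩
    have h8 := A8_lt g2.2.2.1 g2.2.2.2.1
    have h9 := htw.length_le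
    rw [h] at h9
    omega

end FR
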