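import Pool.Agent.Lib.MP_ec866f_lc.Stmts
import Pool.Agent.Lib.MP_ec866f_lc.M_A8

/-! module A9 -/

set_option autoImplicit false

namespace FR

open Filter Encodable

theorem A9_refl (lam : List ℕ → Bool) : ∀ (u s : List ℕ), leL lam s u u
  | [], s => by simp only [leL]
  | b :: u, s => by
    simp only [leL]
    exact Or.inl ⟨by trivial, A9_refl lam u (dcl b)⟩

theorem A9_LZ (lam : List ℕ → Bool) (n : ℕ) (u u' : List ℕ) :
    Nat.pair (encode u) (encode u') ∈ col (LZ lam) n ↔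
      Pt lam [n] u ∧ Pt lam [n] u' ∧ leL lam [n] u u' := by
  rw [mem_col]
  constructor
  · rintro ⟨n', v, v', h, h1, h2, h3⟩
    simp only [Nat.pair_eq_pair] at h
    obtain ⟨rfl, h4, h5⟩ := h
    rw [encode_injective h4, encode_injective h5]
    exact ⟨h1, h2, h3⟩
  · rintro ⟨h1, h2, h3⟩
    exact ⟨n, u, u', rfl, h1, h2, h3⟩

theorem A9_LZ' (lam : List ℕ → Bool) (n x y : ℕ) (h : Nat.pair x y ∈ col (LZ lam) n) :
    ∃ u u' : List ℕ, x = encode u ∧ y = encode u' ∧ Pt lam [n] u ∧ Pt lam [n] u' := by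
  rw [mem_col] at h
  obtain ⟨n', v, v', h, h1, h2, h3⟩ := h
  simp only [Nat.pair_eq_pair] at h
  obtain ⟨rfl, h4, h5⟩ := h
  exact ⟨v, v', h4, h5, h1, h2⟩

theorem A9_pt_snoc {lam : List ℕ → Bool} : ∀ {u s w : List ℕ}, Adr lam s u w → ∀ b : ℕ,
    Pt lam s (u ++ [b])
  | [], s, w, h, b => by simp only [List.nil_append, Pt]
  | [c], s, w, h, b => by
    simp only [Adr] at h
    simp only [List.cons_append, List.nil_append, Pt]
    exact ⟨h.1, trivial⟩
  | c :: d :: u, s, w, h, b => by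
    simp only [Adr] at h
    have h2 := @A9_pt_snoc lam (d :: u) (dcl c) w (by simp only [Adr]; exact h.2) b
    rw [List.cons_append, List.cons_append]
    simp only [Pt]
    rw [List.cons_append] at h2
    exact ⟨h.1, h2⟩

theorem A9_pt_ne {lam : List ℕ → Bool} {s u : List ℕ} (h : Pt lam s u) : ∃ x w, u = x :: w := by
  cases u with
  | nil => exact absurd h (by simp only [Pt]; exact fun h => h)
  | cons x w => exact ⟨x, w, rfl⟩

/-- the invariant as a predicate of one set -/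
def A9_I (m n : ℕ) (x : List ℕ × List ℕ) (T : Set ℕ) : Prop :=
  ∃ t w : List ℕ, (Adr (lamOf (col T 0)) [m] x.1 (m :: t) ∧ (Adr (lamOf (col T 0)) [n] x.2 w ∧
    ((t <+: w ∧ t ≠ w) ∧ ∃ B : ℕ, ∀ b : ℕ, B ≤ b → ∃ y : ℕ × List ℕ,
      Nat.pair 1 (Nat.pair (encode (x.1 ++ [b])) (encode (x.2 ++ y.1 :: y.2))) ∈ T)))

theorem A9_arAdr (h3 : A3S) : Ar (fun (p : List ℕ × List ℕ × List ℕ) T =>
    Adr (lamOf (col T 0)) p.1 p.2.1 p.2.2) := by
  have h4 : Ar (fun (p : List ℕ × List ℕ × List ℕ) S => Adr (lamOf S) p.1 p.2.1 p.2.2) :=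
    Ar.of_FU fun p => h3.2.2.2.2 p.1 p.2.1 p.2.2
  exact h4.subst (B := fun _ T => col T 0) (Ar.mem fun p : (List ℕ × List ℕ × List ℕ) × ℕ =>
    Nat.pair 0 p.2)

theorem A9_arI (h3 : A3S) (m n : ℕ) : Ar (A9_I m n) := by
  refine Ar.ex (P := fun (p : (List ℕ × List ℕ) × List ℕ) T => ∃ w : List ℕ,
    (Adr (lamOf (col T 0)) [m] p.1.1 (m :: p.2) ∧ (Adr (lamOf (col T 0)) [n] p.1.2 w ∧
    ((p.2 <+: w ∧ p.2 ≠ w) ∧ ∃ B : ℕ, ∀ b : ℕ, B ≤ b → ∃ y : ℕ × List ℕ,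
      Nat.pair 1 (Nat.pair (encode (p.1.1 ++ [b])) (encode (p.1.2 ++ y.1 :: y.2))) ∈ T)))) ?_
  refine Ar.ex (P := fun (p : ((List ℕ × List ℕ) × List ℕ) × List ℕ) T =>
    (Adr (lamOf (col T 0)) [m] p.1.1.1 (m :: p.1.2) ∧ (Adr (lamOf (col T 0)) [n] p.1.1.2 p.2 ∧
    ((p.1.2 <+: p.2 ∧ p.1.2 ≠ p.2) ∧ ∃ B : ℕ, ∀ b : ℕ, B ≤ b → ∃ y : ℕ × List ℕ,
      Nat.pair 1 (Nat.pair (encode (p.1.1.1 ++ [b])) (encode (p.1.1.2 ++ y.1 :: y.2))) ∈ T)))) ?_
  refine Ar.and ?_ (Ar.and ?_ (Ar.and (Ar.free _) ?_))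
  · exact (A9_arAdr h3).comp (fun p : ((List ℕ × List ℕ) × List ℕ) × List ℕ =>
      ([m], p.1.1.1, m :: p.1.2))
  · exact (A9_arAdr h3).comp (fun p : ((List ℕ × List ℕ) × List ℕ) × List ℕ =>
      ([n], p.1.1.2, p.2))
  · refine Ar.ex (P := fun (p : (((List ℕ × List ℕ) × List ℕ) × List ℕ) × ℕ) T =>
      ∀ b : ℕ, p.2 ≤ b → ∃ y : ℕ × List ℕ,
      Nat.pair 1 (Nat.pair (encode (p.1.1.1.1 ++ [b])) (encode (p.1.1.1.2 ++ y.1 :: y.2))) ∈ T) ?_
    refine Ar.all (P := fun (p : ((((List ℕ × List ℕ) × List ℕ) × List ℕ) × ℕ) × ℕ) T =>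
      p.1.2 ≤ p.2 → ∃ y : ℕ × List ℕ,
      Nat.pair 1 (Nat.pair (encode (p.1.1.1.1.1 ++ [p.2]))
        (encode (p.1.1.1.1.2 ++ y.1 :: y.2))) ∈ T) ?_
    refine (Ar.free _).imp ?_
    exact Ar.ex (P := fun (p : (((((List ℕ × List ℕ) × List ℕ) × List ℕ) × ℕ) × ℕ) × (ℕ × List ℕ))
      T => Nat.pair 1 (Nat.pair (encode (p.1.1.1.1.1.1 ++ [p.1.2]))
        (encode (p.1.1.1.1.1.2 ++ p.2.1 :: p.2.2))) ∈ T) (Ar.mem _)

/-- the branch as a predicate of one set -/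
def A9_X (n : ℕ) (p : ℕ) (T : Set ℕ) : Prop :=
  ∃ y : (List ℕ × List ℕ) × List ℕ, Nat.pair 1 (Nat.pair p.unpair.1 (encode y.1)) ∈ T ∧
    (Adr (lamOf (col T 0)) [n] y.1.2 y.2 ∧ y.2.getD p.unpair.1 0 = p.unpair.2)

theorem A9_arX (h3 : A3S) (n : ℕ) : Ar (A9_X n) := by
  refine Ar.ex (P := fun (p : ℕ × ((List ℕ × List ℕ) × List ℕ)) T =>
    Nat.pair 1 (Nat.pair p.1.unpair.1 (encode p.2.1)) ∈ T ∧
    (Adr (lamOf (col T 0)) [n] p.2.1.2 p.2.2 ∧ p.2.2.getD p.1.unpair.1 0 = p.1.unpair.2)) ?_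
  refine Ar.and (Ar.mem _) (Ar.and ?_ (Ar.free _))
  exact (A9_arAdr h3).comp (fun p : ℕ × ((List ℕ × List ℕ) × List ℕ) => ([n], p.2.1.2, p.2.2))

theorem A9_getD {w w' : List ℕ} (h : w <+: w') {i : ℕ} (hi : i < w.length) :
    w.getD i 0 = w'.getD i 0 := by
  obtain ⟨t, rfl⟩ := h
  rw [List.getD_append _ _ _ _ hi]

theorem A9 (h1 : A1S) (h2 : A2S) (h3 : A3S) (h4 : A4S) (h8 : A8S) : A9S := by
  classical
  have hs := rich_countable (ι := ℕ × ℕ) (fun p => seq_exists (A9_arI h3 p.1 p.2)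
    (R := fun (r : (List ℕ × List ℕ) × (List ℕ × List ℕ)) _ => ∃ β, r.2.2 = r.1.2 ++ [β])
    (Ar.free _))
  have hx := rich_countable (fun n : ℕ => (A9_arX h3 n).set_mem)
  filter_upwards [h4, hs, hx] with G g4 gs gx M hM hG hF S hS
  obtain ⟨m, n, hmn, f, hf, hemb⟩ := hF (LZ (lamOf S)) (g4 M hM hG S hS)
    (fun n => h2 (lamOf S) n)
  set lam := lamOf S with hlam
  -- the map on lists
  have hE0 : ∀ u, Pt lam [m] u → ∃ y, f (encode u) = encode y ∧ Pt lam [n] y := by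
    intro u hu
    have e1 := (A9_LZ lam m u u).2 ⟨hu, hu, A9_refl lam u [m]⟩
    have e2 := (hemb (encode u) (encode u) e1 e1).1 e1
    obtain ⟨y, y', e3, -, e4, -⟩ := A9_LZ' lam n _ _ e2
    exact ⟨y, e3, e4⟩
  let E : List ℕ → List ℕ := fun u => (decode (α := List ℕ) (f (encode u))).getD []
  have hE1 : ∀ u, Pt lam [m] u → f (encode u) = encode (E u) ∧ Pt lam [n] (E u) := by
    intro u hu
    obtain ⟨y, e1, e2⟩ := hE0 u hu
    have e3 : E u = y := by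
      simp only [E]
      rw [e1, encodek, Option.getD_some]
    rw [e3]
    exact ⟨e1, e2⟩
  have hE : EmbL lam m n E := by
    intro u u' hu hu'
    refine ⟨(hE1 u hu).2, ?_⟩
    have e1 := (A9_LZ lam m u u).2 ⟨hu, hu, A9_refl lam u [m]⟩
    have e2 := (A9_LZ lam m u' u').2 ⟨hu', hu', A9_refl lam u' [m]⟩
    have e3 := hemb (encode u) (encode u') e1 e2
    rw [A9_LZ, (hE1 u hu).1, (hE1 u' hu').1, A9_LZ] at e3
    constructor
    · intro h
      exact (e3.1 ⟨hu, hu', h⟩).2.2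
    · intro h
      exact (e3.2 ⟨(hE1 u hu).2, (hE1 u' hu').2, h⟩).2.2
  -- translation of the invariant
  have hcol0 : col (jn S (gr f)) 0 = S := jn_col_zero _ _
  have hmem1 : ∀ x, Nat.pair 1 x ∈ jn S (gr f) ↔ x ∈ gr f := by
    intro x
    rw [← mem_col, jn_col_one]
  have hI : ∀ x : List ℕ × List ℕ, A9_I m n x (jn S (gr f)) ↔ Inv lam m n E x.1 x.2 := by
    rintro ⟨u, v⟩
    unfold A9_I Inv Land
    rw [hcol0]
    constructor
    · rintro ⟨t, w, a1, a2, ⟨a3, a4⟩, B, a5⟩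
      refine ⟨t, w, a1, a2, a3, a4, B, fun b hb => ?_⟩
      obtain ⟨⟨y, w'⟩, hy⟩ := a5 b hb
      rw [hmem1, mem_gr, Nat.unpair_pair] at hy
      have hp := A9_pt_snoc a1 b
      simp only at hy
      rw [(hE1 _ hp).1] at hy
      exact ⟨y, w', encode_injective hy⟩
    · rintro ⟨t, w, a1, a2, a3, a4, B, a5⟩
      refine ⟨t, w, a1, a2, ⟨a3, a4⟩, B, fun b hb => ?_⟩
      obtain ⟨y, w', hy⟩ := a5 b hb
      refine ⟨(y, w'), ?_⟩
      rw [hmem1, mem_gr, Nat.unpair_pair]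
      have hp := A9_pt_snoc a1 b
      simp only
      rw [(hE1 _ hp).1, hy]
  have hI0 : A9_I m n ([], []) (jn S (gr f)) := by
    rw [hI]
    refine ⟨[], [n], ?_, ?_, List.nil_prefix, by simp, 0, fun b _ => ?_⟩
    · simp only [Adr]
    · simp only [Adr]
    · have hp : Pt lam [m] ([] ++ [b]) := by simp only [List.nil_append, Pt]
      obtain ⟨x, w, hxw⟩ := A9_pt_ne (hE1 _ hp).2
      exact ⟨x, w, by rw [hxw]; rfl⟩
  obtain ⟨q, q0, q1, q2, q3⟩ := gs (m, n) M hM hG (jn S (gr f)) (hM.jn_mem hS hf) ([], []) hI0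
    (by
      rintro ⟨u, v⟩ hx
      rw [hI] at hx
      obtain ⟨u', β, h⟩ := h8 lam m n E u v hmn hE hx
      exact ⟨(u', v ++ [β]), (hI _).2 h, β, rfl⟩)
  -- the nodes
  have hw : ∀ k, ∃ w, Adr lam [n] (q k).2 w := by
    intro k
    obtain ⟨t, w, a1, a2, -⟩ := (hI _).1 (q1 k)
    exact ⟨w, a2⟩
  choose w hw using hw
  have hstep : ∀ k, child lam (w k) (w (k + 1)) := by
    intro k
    obtain ⟨β, hβ⟩ := q2 k
    have h5 := hw (k + 1)
    rw [hβ] at h5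
    obtain ⟨w0, e1, e2⟩ := A8_adr_snoc h5
    rwa [A8_adr_unique e1 (hw k)] at e2
  have hpre : ∀ k, w k <+: w (k + 1) := fun k => (hstep k).2.2.1
  have hmono : ∀ i j, i ≤ j → w i <+: w j := by
    intro i j hij
    induction j, hij using Nat.le_induction with
    | base => exact List.prefix_refl _
    | succ j _ ih => exact ih.trans (hpre j)
  have hlen : ∀ k, k + 1 ≤ (w k).length := by
    intro k
    induction k with
    | zero =>
      have e1 := (A8_adr_root h1 (hw 0)).2.2.length_le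
      simpa using e1
    | succ k ih =>
      have e1 := A8_lt (hpre k) (hstep k).2.2.2.1
      omega
  let X : ℕ → ℕ := fun i => (w i).getD i 0
  have hX : ∀ i k, i < (w k).length → X i = (w k).getD i 0 := by
    intro i k hi
    rcases le_total i k with h | h
    · exact A9_getD (hmono i k h) (hlen i)
    · exact (A9_getD (hmono k i h) hi).symm
  have hpreX : ∀ k, pre X (w k).length = w k := by
    intro k
    apply List.ext_getElem
    · simp [pre]
    · intro i h5 h6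
      simp only [pre, List.getElem_map, List.getElem_range]
      rw [hX i k h6, List.getD_eq_getElem _ _ h6]
  refine ⟨X, strictMono_nat_of_lt_succ fun i => ?_, ?_, fun N => ⟨(w N).length, ?_, ?_⟩⟩
  · have e1 := (hstep i).1
    have e2 := hlen (i + 1)
    rw [hX i (i + 1) (by omega), hX (i + 1) (i + 1) (by omega),
      List.getD_eq_getElem _ _ (by omega), List.getD_eq_getElem _ _ (by omega)]
    exact List.pairwise_iff_getElem.mp e1 i (i + 1) (by omega) (by omega) (by omega)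
  · have h5 := gx n M hM hG (jn S (gr fun k => encode (q k))) (hM.jn_mem hS q3)
    convert h5 using 1
    ext p
    rw [mem_gr, Set.mem_ofPred_eq]
    unfold A9_X
    rw [jn_col_zero]
    constructor
    · intro h
      refine ⟨(q p.unpair.1, w p.unpair.1), ?_, hw _, h⟩
      rw [← mem_col, jn_col_one, mem_gr, Nat.unpair_pair]
    · rintro ⟨⟨y, w'⟩, h6, h7, h8⟩
      rw [← mem_col, jn_col_one, mem_gr, Nat.unpair_pair] at h6
      simp only at h6 h7 h8
      have h9 := encode_injective h6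
      rw [← h9] at h7
      rw [A8_adr_unique h7 (hw _)] at h8
      exact h8
  · have := hlen N
    omega
  · rw [hpreX]
    exact (A8_adr_root h1 (hw N)).1

end FR
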