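import Pool.Agent.Lib.MP_ec866f_lc.Stmts

set_option autoImplicit false

namespace FR

open Filter Encodable

theorem B2_len (X : ℕ → ℕ) (n : ℕ) : (pre X n).length = n := by
  simp [pre]

theorem B2_tail (X : ℕ → ℕ) (n : ℕ) : (pre X (n + 1)).tail = pre (shk X 1) n := by
  unfold pre shk
  rw [List.range_succ_eq_map, List.map_cons, List.tail_cons, List.map_map]
  rfl

theorem B2_shk (X : ℕ → ℕ) : shk (shk X 1) 1 = shk X 2 := by
  funext n
  simp [shk, Nat.add_assoc]

theorem B2_prefix {X : ℕ → ℕ} {n : ℕ} {t : List ℕ} (h : t <+: pre X n) : t = pre X t.length := by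
  have h1 := List.prefix_iff_eq_take.mp h
  have h2 : t.length ≤ n := by
    have := h.length_le
    rwa [B2_len] at this
  rw [h1]
  unfold pre
  rw [← List.map_take, List.take_range, List.length_map, List.length_range]

theorem B2_pre_inj {X : ℕ → ℕ} {n m : ℕ} (h : pre X n = pre X m) : n = m := by
  have := congrArg List.length h
  rwa [B2_len, B2_len] at this

theorem B2_pre_prefix (X : ℕ → ℕ) {n m : ℕ} (h : n ≤ m) : pre X n <+: pre X m := by
  unfold pre
  refine List.IsPrefix.map X ?_
  rw [List.prefix_iff_eq_take, List.take_range, List.length_range, min_eq_left h]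

/-- tails of nodes are nodes -/
theorem B2_inf (h1 : A1S) {lam : List ℕ → Bool} {X : ℕ → ℕ}
    (h : ∀ N, ∃ n ≥ N, node lam (pre X n)) : ∀ N, ∃ n ≥ N, node lam (pre (shk X 1) n) := by
  intro N
  obtain ⟨n, hn, hn2⟩ := h (N + 2)
  obtain ⟨m, rfl⟩ : ∃ m, n = m + 1 := ⟨n - 1, by omega⟩
  refine ⟨m, by omega, ?_⟩
  rw [(h1.1 lam _)] at hn2
  rcases hn2 with h2 | ⟨_, h2, _⟩
  · rw [B2_len] at h2
    omega
  · rwa [B2_tail] at h2

/-- if the tail sequence has limit colour 0 or 1 then the large nodes have the corresponding sign -/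
theorem B2_key (h1 : A1S) {f : List ℕ → ℕ} {lam : List ℕ → Bool} {X : ℕ → ℕ} {r r' : ℕ}
    (hf : lamEq f lam) (hinf : ∀ N, ∃ n ≥ N, node lam (pre X n))
    (hr : LimIs f X r) (hr' : LimIs f (shk X 1) r') (σ : Bool)
    (hσ : ∀ s, f s = r' → lam s = σ) (hne : r ≠ r') (h2 : r ≤ 2)
    (hinj : ∀ s, (f s = 0 ∨ f s = 1) → lam s = σ → f s = r') : False := by
  unfold LimIs at hr hr'
  rw [eventually_atTop] at hr hr'
  obtain ⟨N1, hN1⟩ := hr
  obtain ⟨N2, hN2⟩ := hr'
  -- all large nodes have the sign σ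
  have key : ∀ n, N1 + N2 + 1 ≤ n → node lam (pre X n) → lam (pre X n) = σ := by
    intro n hn hnode
    -- next node
    have hex : ∃ m, n < m ∧ node lam (pre X m) := by
      obtain ⟨m, hm, hm2⟩ := hinf (n + 1)
      exact ⟨m, by omega, hm2⟩
    classical
    obtain ⟨hm1, hm2⟩ := Nat.find_spec hex
    have hmin := fun k (hk : k < Nat.find hex) => Nat.find_min hex hk
    set m := Nat.find hex with hm
    have hpar : IsPar (node lam) (pre X m) (pre X n) := by
      refine ⟨B2_pre_prefix X hm1.le, fun h => by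
        have := B2_pre_inj h
        omega, hnode, fun t' h3 h4 h5 => ?_⟩
      have h6 := B2_prefix h3
      have h7 : t'.length ≤ m := by
        have := h3.length_le
        rwa [B2_len] at this
      have h8 : t'.length ≠ m := by
        intro h9
        rw [h9] at h6
        exact h4 h6
      have h9 : ¬ (n < t'.length ∧ node lam (pre X t'.length)) := hmin _ (by omega)
      rw [← h6] at h9
      have h10 : t'.length ≤ n := by
        by_contra h11
        exact h9 ⟨by omega, h5⟩
      rw [h6]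
      exact B2_pre_prefix X h10
    have h3 := hm2
    rw [h1.1 lam _] at h3
    rcases h3 with h3 | ⟨_, _, t, ht, ht2⟩
    · rw [B2_len] at h3
      omega
    · have h4 : t = pre X n := by
        have h5 := ht.2.2.2 _ hpar.1 hpar.2.1 hpar.2.2.1
        have h6 := hpar.2.2.2 _ ht.1 ht.2.1 ht.2.2.1
        exact (h5.eq_of_length (le_antisymm h5.length_le h6.length_le)).symm
      rw [← h4, ht2]
      obtain ⟨m', hm'⟩ : ∃ m', m = m' + 1 := ⟨m - 1, by omega⟩
      rw [hm', B2_tail]
      exact hσ _ (hN2 m' (by omega))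
  by_cases h3 : r = 2
  · -- colour 2
    obtain ⟨n, hn, hn2⟩ := hinf (N1 + N2 + 2)
    obtain ⟨m, hm, hm2⟩ := hinf (n + 1)
    obtain ⟨t, ht⟩ := h1.2 lam (pre X m) (by rw [B2_len]; omega)
    have h4 : f (pre X m) = 2 := by
      rw [← h3]
      exact hN1 m (by omega)
    have h5 := (hf (pre X m)).2.2 (by omega) (by omega) t ht
    have h6 := B2_prefix ht.1
    have h7 : pre X n <+: t := ht.2.2.2 _ (B2_pre_prefix X (by omega)) (fun h => by
      have := B2_pre_inj h
      omega) hn2
    have h8 : n ≤ t.length := by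
      have := h7.length_le
      rwa [B2_len] at this
    have h9 : lam t = σ := by
      rw [h6]
      refine key _ (by omega) ?_
      rw [← h6]
      exact ht.2.2.1
    have h10 := key m (by omega) hm2
    rw [h10, h9] at h5
    cases σ <;> simp at h5
  · obtain ⟨n, hn, hn2⟩ := hinf (N1 + N2 + 1)
    have h4 := hN1 n (by omega)
    have h5 := key n hn hn2
    have h6 := hinj (pre X n) (by omega) h5
    omega

theorem B2_two (h1 : A1S) {f : List ℕ → ℕ} {lam : List ℕ → Bool} {X : ℕ → ℕ} {r r' : ℕ}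
    (hf2 : ∀ s, f s ≤ 2)
    (hf : lamEq f lam) (hinf : ∀ N, ∃ n ≥ N, node lam (pre X n))
    (hr : LimIs f X r) (hr' : LimIs f (shk X 1) r') (hne : r ≠ r') (h2 : r' ≠ 2) : False := by
  have hr2 : r ≤ 2 := by
    have h3 := hr
    unfold LimIs at h3
    obtain ⟨n, hn⟩ := h3.exists
    rw [← hn]
    exact hf2 _
  have hr2' : r' ≤ 2 := by
    have h3 := hr'
    unfold LimIs at h3
    obtain ⟨n, hn⟩ := h3.exists
    rw [← hn]
    exact hf2 _
  have h3 : r' = 0 ∨ r' = 1 := by omega
  rcases h3 with rfl | rfl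
  · refine B2_key h1 hf hinf hr hr' true (fun s hs => (hf s).1 hs) hne hr2 fun s hs hs2 => ?_
    rcases hs with hs | hs
    · exact hs
    · have := (hf s).2.1 hs
      rw [this] at hs2
      exact absurd hs2 (by simp)
  · refine B2_key h1 hf hinf hr hr' false (fun s hs => (hf s).2.1 hs) hne hr2 fun s hs hs2 => ?_
    rcases hs with hs | hs
    · have := (hf s).1 hs
      rw [this] at hs2
      exact absurd hs2 (by simp)
    · exact hs

theorem B2 (h1 : A1S) : B2S := by
  intro f lam X r0 r1 r2 hf2 hf _ hinf h0 h1' h2' hne hne'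
  by_cases h : r1 = 2
  · have h3 : LimIs f (shk (shk X 1) 1) r2 := by rw [B2_shk]; exact h2'
    exact B2_two h1 hf2 hf (B2_inf h1 hinf) h1' h3 hne' (by omega)
  · exact B2_two h1 hf2 hf hinf h0 h1' hne h

end FR
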