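import Pool.Agent.Lib.MP_ec866f_lc.Stmts

/-! B3: from the branch principle to the absence of bad three-colourings -/

set_option autoImplicit false

namespace FR

open Filter Encodable

theorem B3_col3_le (S : Set ℕ) (s : List ℕ) : col3 S s ≤ 2 := by
  unfold col3
  split_ifs <;> omega

theorem B3_lamOf (f : List ℕ → Bool) : lamOf (enS (fun s : List ℕ => f s = true)) = f := by
  funext s
  unfold lamOf
  have h : encode s ∈ enS (fun s : List ℕ => f s = true) ↔ f s = true := by
    constructor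
    · rintro ⟨t, ht, h⟩
      rw [encode_injective ht] at h; exact h
    · intro h; exact ⟨s, rfl, h⟩
  by_cases hs : f s = true
  · rw [hs]
    exact @decide_eq_true _ (Classical.propDecidable _) (h.2 hs)
  · have hs' : f s = false := by simpa using hs
    rw [hs']
    exact @decide_eq_false _ (Classical.propDecidable _) (fun h' => hs (h.1 h'))

theorem B3_shk (X : ℕ → ℕ) :
    {p : ℕ | Nat.pair (p.unpair.1 + 1) p.unpair.2 ∈ gr X} = gr (shk X 1) := by
  ext p
  simp [shk]

theorem B3_uniq {f : List ℕ → ℕ} {X : ℕ → ℕ} {r r' : ℕ} (h : LimIs f X r) (h' : LimIs f X r') : r = r' := by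
  obtain ⟨n, hn1, hn2⟩ := (h.and h').exists
  exact hn1.symm.trans hn2

theorem B3 (h1 : B1S) (h2 : B2S) : B3S := by
  obtain ⟨La, hFU, hLa⟩ := h1
  have hAr : Ar (fun (s : List ℕ) S => La S s = true) :=
    (FU.ar_fun (F := fun (s : List ℕ) S => La S s) hFU).comp (fun s : List ℕ => (s, true))
  have hsh : Ar (fun (p : ℕ) (S : Set ℕ) => Nat.pair (p.unpair.1 + 1) p.unpair.2 ∈ S) := Ar.mem _
  filter_upwards [hAr.enS_mem, hsh.set_mem] with G g1 g2 M hM hGM hSF S hS hbad
  obtain ⟨X, hX, hXM, hnode⟩ := hSF _ (g1 M hM hGM S hS)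
  rw [B3_lamOf] at hnode
  have hX1 : gr (shk X 1) ∈ M := by
    have := g2 M hM hGM _ hXM
    rwa [B3_shk] at this
  have hm1 : StrictMono (shk X 1) := fun i j hij => hX (by omega)
  obtain ⟨r0, r1, h01, hr0, hr1⟩ := hbad X hX hXM
  obtain ⟨r1', r2, h12, hr1', hr2⟩ := hbad (shk X 1) hm1 hX1
  have e := B3_uniq hr1 hr1'
  subst e
  exact h2 (col3 S) (La S) X r0 r1 r2 (B3_col3_le S) (hLa S) hX hnode hr0 hr1 hr2 h01 h12

end FR
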