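import Pool.Agent.Lib.MP_ec866f_lc.Stmts

/-! C1: markers are never consecutive -/

set_option autoImplicit false

namespace FR

open Filter Encodable

theorem C1 : C1S := by
  intro I av hne k h0 h1
  unfold MkS Mk at h0 h1
  rcases h0 with ⟨_, h0⟩ | h0 | ⟨h0a, h0b, h0c, h0d, h0e⟩
  · rcases h1 with ⟨h1, _⟩ | ⟨h1, _⟩ | ⟨h1, _⟩ <;> exact h1 h0
  · obtain ⟨a1, a2, a3, a4⟩ := h0
    rcases h1 with ⟨_, h1⟩ | ⟨_, b2, b3, b4⟩ | ⟨_, b2, _⟩
    · have e : I (k + 2) = ⊤ := h1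
      exact a1 (by rw [a2, a3, e])
    · have hfin : I k = ((I k).toNat : ℕ∞) := (ENat.natCast_toNat a1).symm
      have h2 := hne k (I k).toNat hfin
      rw [← a2] at b4
      exact h2 (a4.trans b4.symm)
    · have e : I (k + 2) < I (k + 1) := b2
      rw [a3] at e
      exact lt_irrefl _ e
  · rcases h1 with ⟨_, h1⟩ | h1 | ⟨_, b2, _⟩
    · exact h0d h1
    · exact h0e h1
    · exact absurd b2 (not_lt.2 h0c)

end FR
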