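import Pool.Agent.Lib.MP_ec866f_lc.Stmts

/-! C2: markers recur -/

set_option autoImplicit false

namespace FR

open Filter Encodable

/-- a first change after `N` -/
theorem C2_step (p : ℕ → Prop) (N k2 : ℕ) (hN : p N) (hk : N ≤ k2) (h2 : ¬ p k2) :
    ∃ k, N ≤ k ∧ p k ∧ ¬ p (k + 1) := by
  by_contra hcon
  push Not at hcon
  have : ∀ j, p (N + j) := by
    intro j
    induction j with
    | zero => exact hN
    | succ j ih => exact hcon (N + j) (Nat.le_add_right _ _) ih
  obtain ⟨j, rfl⟩ := Nat.exists_eq_add_of_le hk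
  exact h2 (this j)

theorem C2 : C2S := by
  intro I av hne hfreq
  rw [frequently_atTop]
  intro N
  by_cases hA : ∃ᶠ k in atTop, I k = ⊤
  · obtain ⟨i, hi⟩ := hfreq
    rw [frequently_atTop] at hi hA
    obtain ⟨k1, hk1, h1⟩ := hi N
    obtain ⟨k2, hk2, h2⟩ := hA k1
    have hne1 : I k1 ≠ ⊤ := fun h => by
      rw [h] at h1
      exact absurd (top_le_iff.1 h1) (ENat.natCast_ne_top i)
    obtain ⟨k, hk, hp, hq⟩ := C2_step (fun k => I k ≠ ⊤) k1 k2 hne1 hk2 (by simpa using h2)
    refine ⟨k, le_trans hk1 hk, Or.inl ⟨hp, ?_⟩⟩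
    simpa using hq
  · rw [not_frequently] at hA
    classical
    have hs := Nat.find_spec hfreq
    have hm : ∀ j, j < Nat.find hfreq → ¬ ∃ᶠ k in atTop, I k ≤ (j : ℕ∞) := fun j hj => Nat.find_min hfreq hj
    set m := Nat.find hfreq with hmdef
    have hge : ∀ᶠ k in atTop, (m : ℕ∞) ≤ I k := by
      rcases Nat.eq_zero_or_pos m with h0 | h0
      · rw [h0]; simp
      · have := hm (m - 1) (by omega)
        rw [not_frequently] at this
        filter_upwards [this] with k hk
        have hk' : ((m - 1 : ℕ) : ℕ∞) < I k := not_le.1 hk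
        have := Order.add_one_le_of_lt hk'
        have e : ((m - 1 : ℕ) : ℕ∞) + 1 = (m : ℕ∞) := by
          have e' : m - 1 + 1 = m := Nat.sub_add_cancel h0
          exact_mod_cast congrArg (fun x : ℕ => (x : ℕ∞)) e'
        rwa [e] at this
    obtain ⟨K, hK⟩ := eventually_atTop.1 (hA.and hge)
    have hKtop : ∀ k, K ≤ k → I k ≠ ⊤ := fun k hk => (hK k hk).1
    have hKge : ∀ k, K ≤ k → (m : ℕ∞) ≤ I k := fun k hk => (hK k hk).2
    by_cases hB : ∀ᶠ k in atTop, I k = (m : ℕ∞)
    · obtain ⟨K', hK'⟩ := eventually_atTop.1 hB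
      set n := max N K' with hn
      have e0 : I n = m := hK' n (le_max_right _ _)
      have e1 : I (n + 1) = m := hK' _ (by omega)
      have e2 : I (n + 2) = m := hK' _ (by omega)
      have e3 : I (n + 3) = m := hK' _ (by omega)
      have hd := hne n m e0
      by_cases ht : av n m = true
      · refine ⟨n, le_max_left _ _, Or.inr (Or.inl ⟨?_, ?_, ?_, ?_⟩)⟩
        · rw [e0]; exact ENat.natCast_ne_top m
        · rw [e0, e1]
        · rw [e1, e2]
        · rw [e0]; simpa using ht
      · have ht' : av (n + 1) m = true := by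
          cases h1 : av n m
          · cases h2 : av (n + 1) m
            · exact absurd (h1.trans h2.symm) hd
            · rfl
          · exact absurd h1 ht
        refine ⟨n + 1, by omega, Or.inr (Or.inl ⟨?_, ?_, ?_, ?_⟩)⟩
        · rw [e1]; exact ENat.natCast_ne_top m
        · rw [e1]; exact e2.symm
        · exact e2.trans e3.symm
        · rw [e1]; simpa using ht'
    · rw [not_eventually, frequently_atTop] at hB
      rw [frequently_atTop] at hs
      obtain ⟨k1, hk1, h1⟩ := hB (max N K)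
      obtain ⟨k2, hk2, h2⟩ := hs k1
      obtain ⟨k, hk, hp, hq⟩ := C2_step (fun k => I k ≠ (m : ℕ∞)) k1 k2 h1 hk2
        (by simpa using le_antisymm h2 (hKge k2 (by omega)))
      have hp' : (m : ℕ∞) < I k := lt_of_le_of_ne (hKge k (by omega)) (Ne.symm hp)
      have hq' : I (k + 1) = m := by simpa using hq
      by_cases hc : cC (I (k + 1)) (I (k + 2)) (I (k + 3)) (av (k + 1))
      · exact ⟨k + 1, by omega, Or.inr (Or.inl hc)⟩
      · refine ⟨k, by omega, Or.inr (Or.inr ⟨hKtop k (by omega), ?_, ?_, hKtop _ (by omega), hc⟩)⟩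
        · rw [hq']; exact hp'
        · rw [hq']; exact hKge _ (by omega)

end FR
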