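import Pool.Agent.Lib.MP_ec866f_lc.Stmts

/-! C3: convergence of the finite approximations of the first marker -/

set_option autoImplicit false

namespace FR

open Filter Encodable

theorem C3_drop (X : ℕ → ℕ) (k n : ℕ) : (pre X n).drop k = pre (shk X k) (n - k) := by
  apply List.ext_getElem
  · simp [pre]
  · intro i h1 h2
    simp [pre, shk, Nat.add_comm]

theorem C3_head (X : ℕ → ℕ) (k n : ℕ) (h : k < n) : ((pre X n).drop k).headD 0 = X k := by
  rw [C3_drop]
  obtain ⟨m, hm⟩ : ∃ m, n - k = m + 1 := ⟨n - k - 1, by omega⟩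
  rw [hm]
  simp [pre, shk, List.range_succ_eq_map]

theorem C3_tail (s : List ℕ) (k : ℕ) : (s.drop k).tail = s.drop (k + 1) := by
  rw [List.tail_drop]

theorem C3_ev (a : ℕ → List ℕ → Bool) (X : ℕ → ℕ) (av : ℕ → ℕ → Bool)
    (h : ∀ k i, LimIs (a i) (shk X k) (av k i)) (k i : ℕ) :
    ∀ᶠ n in atTop, a i ((pre X n).drop k) = av k i := by
  have h1 := (tendsto_sub_atTop_nat k).eventually (h k i)
  filter_upwards [h1] with n hn
  rw [C3_drop]; exact hn

/-- all relevant attribute values have converged -/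
theorem C3_evs (a : ℕ → List ℕ → Bool) (X : ℕ → ℕ) (av : ℕ → ℕ → Bool)
    (h : ∀ k i, LimIs (a i) (shk X k) (av k i)) (K B : ℕ) :
    ∀ᶠ n in atTop, ∀ k ≤ K, ∀ i ≤ B, a i ((pre X n).drop k) = av k i := by
  have h1 : ∀ᶠ n in atTop, ∀ k ∈ Finset.range (K + 1), ∀ i ∈ Finset.range (B + 1),
      a i ((pre X n).drop k) = av k i := by
    rw [eventually_all_finset]
    intro k _
    rw [eventually_all_finset]
    intro i _
    exact C3_ev a X av h k i
  filter_upwards [h1] with n hn k hk i hi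
  exact hn k (by simpa using Nat.lt_succ_of_le hk) i (by simpa using Nat.lt_succ_of_le hi)

theorem C3_IL (a : ℕ → List ℕ → Bool) (X : ℕ → ℕ) (av : ℕ → ℕ → Bool) (n k : ℕ) (hk : k < n)
    (h : ∀ i ≤ X k, a i ((pre X n).drop k) = av k i ∧ a i ((pre X n).drop (k + 1)) = av (k + 1) i) :
    IL a ((pre X n).drop k) = seqI X av k := by
  classical
  have hp : ∀ i, (i ≤ ((pre X n).drop k).headD 0 ∧ a i ((pre X n).drop k) ≠ a i ((pre X n).drop k).tail) ↔
      (i ≤ X k ∧ av k i ≠ av (k + 1) i) := by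
    intro i
    rw [C3_head X k n hk, C3_tail]
    constructor
    · rintro ⟨h1, h2⟩
      refine ⟨h1, ?_⟩
      rw [← (h i h1).1, ← (h i h1).2]; exact h2
    · rintro ⟨h1, h2⟩
      refine ⟨h1, ?_⟩
      rw [(h i h1).1, (h i h1).2]; exact h2
  have hp' : (fun i => i ≤ ((pre X n).drop k).headD 0 ∧ a i ((pre X n).drop k) ≠ a i ((pre X n).drop k).tail) =
      (fun i => i ≤ X k ∧ av k i ≠ av (k + 1) i) := funext fun i => propext (hp i)
  unfold IL seqI
  by_cases hx : ∃ i, i ≤ X k ∧ av k i ≠ av (k + 1) i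
  · have hy : ∃ i, i ≤ ((pre X n).drop k).headD 0 ∧ a i ((pre X n).drop k) ≠ a i ((pre X n).drop k).tail := by
      obtain ⟨i, hi⟩ := hx
      exact ⟨i, (hp i).2 hi⟩
    rw [dif_pos hx, dif_pos hy]
    congr 1
    exact Nat.find_congr' (fun {i} => hp i)
  · have hy : ¬ ∃ i, i ≤ ((pre X n).drop k).headD 0 ∧ a i ((pre X n).drop k) ≠ a i ((pre X n).drop k).tail := by
      rintro ⟨i, hi⟩
      exact hx ⟨i, (hp i).1 hi⟩
    rw [dif_neg hx, dif_neg hy]

theorem C3_I_le (X : ℕ → ℕ) (av : ℕ → ℕ → Bool) (k : ℕ) : (seqI X av k).toNat ≤ X k := by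
  classical
  unfold seqI
  split_ifs with h
  · have := (Nat.find_spec h).1
    simpa using this
  · simp

theorem C3_Mk (a : ℕ → List ℕ → Bool) (X : ℕ → ℕ) (av : ℕ → ℕ → Bool) (n k B : ℕ) (hk : k + 3 < n)
    (hB : ∀ j ≤ k + 3, X j ≤ B)
    (h : ∀ j ≤ k + 4, ∀ i ≤ B, a i ((pre X n).drop j) = av j i) :
    MkL a ((pre X n).drop k) ↔ MkS (seqI X av) av k := by
  have hI : ∀ j ≤ k + 3, IL a ((pre X n).drop j) = seqI X av j := by
    intro j hj
    refine C3_IL a X av n j (by omega) (fun i hi => ⟨h j (by omega) i (hi.trans (hB j hj)),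
      h (j + 1) (by omega) i (hi.trans (hB j hj))⟩)
  unfold MkL MkS
  simp only [C3_tail]
  rw [hI k (by omega), hI (k + 1) (by omega), show k + 1 + 1 = k + 2 from rfl, hI (k + 2) (by omega),
    show k + 2 + 1 = k + 3 from rfl, hI (k + 3) le_rfl]
  have e0 : a (seqI X av k).toNat ((pre X n).drop k) = av k (seqI X av k).toNat :=
    h k (by omega) _ ((C3_I_le X av k).trans (hB k (by omega)))
  have e1 : a (seqI X av (k + 1)).toNat ((pre X n).drop (k + 1)) = av (k + 1) (seqI X av (k + 1)).toNat :=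
    h (k + 1) (by omega) _ ((C3_I_le X av (k + 1)).trans (hB (k + 1) (by omega)))
  unfold Mk cC
  simp only [e0, e1]

theorem C3 : C3S := by
  intro a X av N hX hlim hN hmin
  classical
  have hB : ∀ j ≤ N + 3, X j ≤ X (N + 3) := fun j hj => hX.monotone hj
  have h1 := C3_evs a X av hlim (N + 4) (X (N + 3))
  show ∀ᶠ n in atTop, fmk a (pre X n) = _
  filter_upwards [h1, eventually_gt_atTop (N + 3)] with n hn hnN
  have hMk : ∀ k ≤ N, (MkL a ((pre X n).drop k) ↔ MkS (seqI X av) av k) := by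
    intro k hk
    refine C3_Mk a X av n k (X (N + 3)) (by omega) (fun j hj => hB j (by omega))
      (fun j hj i hi => hn j (by omega) i hi)
  have hlen : (pre X n).length = n := by simp [pre]
  have hex : ∃ m, m < (pre X n).length ∧ MkL a ((pre X n).drop m) :=
    ⟨N, by rw [hlen]; omega, (hMk N le_rfl).2 hN⟩
  have hfind : Nat.find hex = N := by
    rw [Nat.find_eq_iff]
    refine ⟨⟨by rw [hlen]; omega, (hMk N le_rfl).2 hN⟩, ?_⟩
    rintro m hm ⟨_, h2⟩
    exact hmin m hm ((hMk m hm.le).1 h2)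
  unfold fmk
  rw [dif_pos hex, hfind]

end FR
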