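import Pool.Agent.Lib.MP_ec866f_lc.Stmts

/-! C4: the colouring of the first marker is in the closed family -/

set_option autoImplicit false

namespace FR

open Filter Encodable

theorem C4_atr (i : ℕ) (s : List ℕ) : FU (fun S => atr S i s) := by
  have h := (FU.mem (Nat.pair i (encode s))).map (fun p : Prop => @decide p (Classical.propDecidable _))
  exact h

theorem C4_IL (s : List ℕ) : FU (fun S => IL (atr S) s) := by
  classical
  obtain ⟨b, hb⟩ := FU.common (Finset.range (s.headD 0 + 1))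
    (F := fun i S => (atr S i s, atr S i s.tail)) (fun i _ => (C4_atr i s).map2 _ (C4_atr i s.tail))
  refine ⟨b, fun S S' hS => ?_⟩
  have hp : ∀ i, (i ≤ s.headD 0 ∧ atr S i s ≠ atr S i s.tail) ↔
      (i ≤ s.headD 0 ∧ atr S' i s ≠ atr S' i s.tail) := by
    intro i
    refine and_congr_right fun hi => ?_
    have h1 := hb i (Finset.mem_range.2 (Nat.lt_succ_of_le hi)) S S' hS
    have h2 := congrArg Prod.fst h1
    have h3 := congrArg Prod.snd h1
    simp only at h2 h3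
    rw [h2, h3]
  show IL (atr S) s = IL (atr S') s
  unfold IL
  by_cases hx : ∃ i, i ≤ s.headD 0 ∧ atr S i s ≠ atr S i s.tail
  · have hy : ∃ i, i ≤ s.headD 0 ∧ atr S' i s ≠ atr S' i s.tail := by
      obtain ⟨i, hi⟩ := hx
      exact ⟨i, (hp i).1 hi⟩
    rw [dif_pos hx, dif_pos hy]
    congr 1
    exact Nat.find_congr' (fun {i} => hp i)
  · have hy : ¬ ∃ i, i ≤ s.headD 0 ∧ atr S' i s ≠ atr S' i s.tail := by
      rintro ⟨i, hi⟩
      exact hx ⟨i, (hp i).2 hi⟩
    rw [dif_neg hx, dif_neg hy]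

theorem C4_bit (s t : List ℕ) : FU (fun S => atr S (IL (atr S) s).toNat t) :=
  FU.bind (H := fun (v : ℕ∞) S => atr S v.toNat t) (C4_IL s) (fun v => C4_atr v.toNat t)

/-- the marker condition in terms of four indices and two bits -/
def C4_M (I0 I1 I2 I3 : ℕ∞) (b0 b1 : Bool) : Prop :=
  (I0 ≠ ⊤ ∧ I1 = ⊤) ∨ (I0 ≠ ⊤ ∧ I0 = I1 ∧ I1 = I2 ∧ b0 = true) ∨
    (I0 ≠ ⊤ ∧ I1 < I0 ∧ I1 ≤ I2 ∧ I2 ≠ ⊤ ∧ ¬ (I1 ≠ ⊤ ∧ I1 = I2 ∧ I2 = I3 ∧ b1 = true))

theorem C4_MkL (s : List ℕ) : FU (fun S => MkL (atr S) s) := by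
  have h0 := C4_IL s
  have h1 := C4_IL s.tail
  have h2 := C4_IL s.tail.tail
  have h3 := C4_IL s.tail.tail.tail
  have b0 := C4_bit s s
  have b1 := C4_bit s.tail s.tail
  have h01 := h0.map2 (fun x y => (x, y)) h1
  have h23 := h2.map2 (fun x y => (x, y)) h3
  have hb := b0.map2 (fun x y => (x, y)) b1
  have hI := h01.map2 (fun x y => (x, y)) h23
  have hall := hI.map2 (fun (x : (ℕ∞ × ℕ∞) × (ℕ∞ × ℕ∞)) (y : Bool × Bool) =>
    C4_M x.1.1 x.1.2 x.2.1 x.2.2 y.1 y.2) hb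
  exact hall

theorem C4_fmk (s : List ℕ) : FU (fun S => fmk (atr S) s) := by
  classical
  obtain ⟨b, hb⟩ := FU.common (Finset.range s.length)
    (F := fun n S => MkL (atr S) (s.drop n)) (fun n _ => C4_MkL _)
  refine ⟨b, fun S S' hS => ?_⟩
  have hp : ∀ n, (n < s.length ∧ MkL (atr S) (s.drop n)) ↔ (n < s.length ∧ MkL (atr S') (s.drop n)) := by
    intro n
    refine and_congr_right fun hn => ?_
    exact (hb n (Finset.mem_range.2 hn) S S' hS).to_iff
  show fmk (atr S) s = fmk (atr S') s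
  unfold fmk
  by_cases hx : ∃ n, n < s.length ∧ MkL (atr S) (s.drop n)
  · have hy : ∃ n, n < s.length ∧ MkL (atr S') (s.drop n) := by
      obtain ⟨i, hi⟩ := hx
      exact ⟨i, (hp i).1 hi⟩
    have hf : Nat.find hx = Nat.find hy := Nat.find_congr' (fun {i} => hp i)
    rw [dif_pos hx, dif_pos hy, hf]
  · have hy : ¬ ∃ n, n < s.length ∧ MkL (atr S') (s.drop n) := by
      rintro ⟨i, hi⟩
      exact hx ⟨i, (hp i).2 hi⟩
    rw [dif_neg hx, dif_neg hy]

theorem C4_fmk_le (a : ℕ → List ℕ → Bool) (s : List ℕ) : fmk a s ≤ 2 := by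
  classical
  unfold fmk
  split_ifs with h h2
  · exact le_rfl
  · have := Nat.mod_lt (Nat.find h) (show 0 < 2 by norm_num); omega
  · omega

theorem C4 : C4S := by
  have h1 := FU.ar_fun (F := fun (s : List ℕ) S => fmk (atr S) s) (fun s => C4_fmk s)
  have h2 : Ar (fun (x : ℕ) S => ∃ s : List ℕ, encode s = x.unpair.1 ∧ fmk (atr S) s = x.unpair.2) := by
    refine Ar.ex (P := fun (p : ℕ × List ℕ) S => encode p.2 = p.1.unpair.1 ∧ fmk (atr S) p.2 = p.1.unpair.2) ?_
    refine (Ar.free _).and ?_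
    exact h1.comp (fun p : ℕ × List ℕ => (p.2, p.1.unpair.2))
  filter_upwards [h2.set_mem] with G hG M hM hGM S hS
  refine ⟨_, hG M hM hGM S hS, fun s => ?_⟩
  have key : ∀ v : ℕ, Nat.pair (encode s) v ∈ {x : ℕ | ∃ s : List ℕ, encode s = x.unpair.1 ∧
      fmk (atr S) s = x.unpair.2} ↔ fmk (atr S) s = v := by
    intro v
    simp only [Set.mem_ofPred_eq, Nat.unpair_pair]
    constructor
    · rintro ⟨t, ht, h⟩
      rw [encode_injective ht] at h; exact h
    · intro h; exact ⟨s, rfl, h⟩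
  unfold col3
  simp only [key]
  have := C4_fmk_le (atr S) s
  split_ifs with ha hb
  · exact ha.symm
  · exact hb.symm
  · omega

end FR
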