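import Pool.Agent.Lib.MP_ec866f_lc.Stmts

/-! Module C5 -/

set_option autoImplicit false

namespace FR

open Filter Encodable

theorem C5_spec (X : ℕ → ℕ) (av : ℕ → ℕ → Bool) (k i : ℕ) (h : seqI X av k = (i : ℕ∞)) :
    av k i ≠ av (k + 1) i := by
  classical
  unfold seqI at h
  split_ifs at h with h1
  · have h2 := (Nat.find_spec h1).2
    have h3 : Nat.find h1 = i := by exact_mod_cast h
    rw [h3] at h2
    exact h2
  · exact absurd h (by simp)

theorem C5_le (X : ℕ → ℕ) (av : ℕ → ℕ → Bool) (k i : ℕ) (h1 : i ≤ X k)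
    (h2 : av k i ≠ av (k + 1) i) : seqI X av k ≤ (i : ℕ∞) := by
  classical
  have h3 : ∃ i, i ≤ X k ∧ av k i ≠ av (k + 1) i := ⟨i, h1, h2⟩
  unfold seqI
  rw [dif_pos h3]
  exact_mod_cast Nat.find_min' h3 ⟨h1, h2⟩

theorem C5_shk_mono {X : ℕ → ℕ} (hX : StrictMono X) (k : ℕ) : StrictMono (shk X k) :=
  fun a b hab => hX (by omega)

/-- if a boolean sequence is not eventually constant then it changes infinitely often -/
theorem C5_change (v : ℕ → Bool) (h : ¬ ∃ b, ∀ᶠ k in atTop, v k = b) :
    ∃ᶠ k in atTop, v k ≠ v (k + 1) := by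
  intro h1
  apply h
  obtain ⟨K, hK⟩ := eventually_atTop.1 h1
  refine ⟨v K, eventually_atTop.2 ⟨K, fun k hk => ?_⟩⟩
  induction k, hk using Nat.le_induction with
  | base => rfl
  | succ k hk ih =>
    have h2 := hK k hk
    push Not at h2
    rw [← h2, ih]

theorem C5_lim_unique {β : Type} {f : List ℕ → β} {X : ℕ → ℕ} {v w : β} (h : LimIs f X v)
    (h' : LimIs f X w) : v = w := by
  obtain ⟨n, h1, h2⟩ := (h.and h').exists
  rw [← h1, ← h2]

theorem C5 (h1 : C1S) (h2 : C2S) (h3 : C3S) (h4 : C4S) : C5S := by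
  classical
  filter_upwards [h4] with G g4 M hM hG hNB S hS hlim
  obtain ⟨S', hS', hcol⟩ := g4 M hM hG S hS
  have hnb := hNB S' hS'
  push Not at hnb
  obtain ⟨X, hX, hXM, hbad⟩ := hnb
  refine ⟨X, hX, hXM, ?_⟩
  by_contra hcon
  push Not at hcon
  obtain ⟨i₀, hi₀⟩ := hcon
  choose av hav using fun (k i : ℕ) => hlim i (shk X k) (C5_shk_mono hX k)
  have hI := C5_spec X av
  -- not stable
  have hns : ¬ ∃ b, ∀ᶠ k in atTop, av k i₀ = b := by
    rintro ⟨b, hb⟩
    apply hi₀ b
    filter_upwards [hb] with k hk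
    rw [← hk]
    exact not_not.2 (hav k i₀)
  have hfreq : ∃ i : ℕ, ∃ᶠ k in atTop, seqI X av k ≤ (i : ℕ∞) := by
    refine ⟨i₀, ?_⟩
    have h5 := (C5_change _ hns).and_eventually (eventually_ge_atTop i₀)
    refine h5.mono fun k hk => ?_
    exact C5_le X av k i₀ (hk.2.trans (hX.le_apply)) hk.1
  have hmk := h2 (seqI X av) av hI hfreq
  have hex : ∃ n, MkS (seqI X av) av n := hmk.exists
  have hex' : ∃ n, MkS (seqI X av) av (n + 1) := by
    obtain ⟨n, hn1, hn2⟩ := (hmk.and_eventually (eventually_ge_atTop 1)).exists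
    exact ⟨n - 1, by rw [Nat.sub_add_cancel hn2]; exact hn1⟩
  have hne : (if Nat.find hex = 0 then 2 else Nat.find hex % 2) ≠
      (if Nat.find hex' = 0 then 2 else Nat.find hex' % 2) := by
    have s1 := Nat.find_spec hex
    have s2 := Nat.find_spec hex'
    rcases Nat.eq_zero_or_pos (Nat.find hex) with h0 | h0
    · rw [if_pos h0]
      have h6 : Nat.find hex' ≠ 0 := by
        intro h7
        rw [h7] at s2
        rw [h0] at s1
        exact h1 (seqI X av) av hI 0 s1 s2
      rw [if_neg h6]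
      omega
    · have h6 : Nat.find hex' = Nat.find hex - 1 := by
        apply le_antisymm
        · refine Nat.find_min' hex' ?_
          rw [Nat.sub_add_cancel h0]
          exact s1
        · have := Nat.find_min' hex s2
          omega
      rw [h6, if_neg (by omega)]
      split_ifs with h7
      · omega
      · omega
  refine hbad _ _ hne ?_ ?_
  · have h5 := h3 (atr S) X av (Nat.find hex) hX hav (Nat.find_spec hex)
      (fun m hm => Nat.find_min hex hm)
    filter_upwards [h5] with n hn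
    rw [hcol, hn]
  · have h5 := h3 (atr S) (shk X 1) (fun k i => av (k + 1) i) (Nat.find hex')
      (C5_shk_mono hX 1) (fun k i => hav (k + 1) i) (Nat.find_spec hex')
      (fun m hm => Nat.find_min hex' hm)
    filter_upwards [h5] with n hn
    rw [hcol, hn]

end FR
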