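import Pool.Agent.Lib.MP_ec866f_lc.Stmts

set_option autoImplicit false

namespace FR

open Filter Encodable

theorem D1_len (f : ℕ → ℕ) (l : ℕ) : (pre f l).length = l := by simp [pre]

theorem D1_getD (f : ℕ → ℕ) (l n : ℕ) (h : n < l) : (pre f l).getD n 0 = f n := by
  simp [pre, List.getD, h]

/-- there is always a least list -/
theorem D1_least : ∀ (n : ℕ) (S : Set (List ℕ)), S.Nonempty → (∀ t ∈ S, t.length = n) →
    ∃ t ∈ S, ∀ t' ∈ S, LLe t t'
  | 0, S, ⟨t, ht⟩, hl => ⟨t, ht, fun t' ht' => Or.inl (by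
      rw [List.length_eq_zero_iff.1 (hl t ht), List.length_eq_zero_iff.1 (hl t' ht')])⟩
  | n + 1, S, ⟨t, ht⟩, hl => by
      classical
      have hcons : ∀ t ∈ S, ∃ a u, t = a :: u ∧ u.length = n := by
        intro t ht
        cases t with
        | nil => have := hl [] ht; simp at this
        | cons a u => exact ⟨a, u, rfl, by have := hl _ ht; simpa using this⟩
      have hne : ∃ a, ∃ u, a :: u ∈ S := by
        obtain ⟨a, u, rfl, _⟩ := hcons t ht
        exact ⟨a, u, ht⟩
      set a := Nat.find hne with ha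
      obtain ⟨u0, hu0, hmin⟩ := D1_least n {u | a :: u ∈ S} (Nat.find_spec hne) (by
        intro u hu
        have := hl _ hu
        simpa using this)
      refine ⟨a :: u0, hu0, fun t' ht' => ?_⟩
      obtain ⟨b, v, rfl, hv⟩ := hcons t' ht'
      have hab : a ≤ b := Nat.find_min' hne ⟨v, ht'⟩
      rcases Nat.lt_or_eq_of_le hab with hab | hab
      · exact Or.inr ⟨0, fun i hi => absurd hi (Nat.not_lt_zero _), by simpa using hab⟩
      · rw [← hab] at ht' ⊢
        rcases hmin v ht' with h | ⟨m, hm, hlt⟩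
        · exact Or.inl (by rw [h])
        · refine Or.inr ⟨m + 1, fun i hi => ?_, by simpa using hlt⟩
          cases i with
          | zero => simp
          | succ i => simpa using hm i (by omega)

/-- nondecreasing bounded sequences are eventually constant -/
theorem D1_mono_const (a : ℕ → ℕ) (K B : ℕ) (hB : ∀ k ≥ K, a k ≤ B)
    (h : ∀ k ≥ K, ∀ j ≥ k, a k ≤ a j) : ∃ K' ≥ K, ∀ k ≥ K', a k = a K' := by
  classical
  have hne : ∃ v, ∃ k ≥ K, a k + v = B := by
    refine ⟨B - a K, K, le_rfl, ?_⟩
    have := hB K le_rfl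
    omega
  obtain ⟨k, hk, hv⟩ := Nat.find_spec hne
  refine ⟨k, hk, fun j hj => le_antisymm ?_ (h k hk j hj)⟩
  have h1 := hB j (by omega)
  have h2 : Nat.find hne ≤ B - a j := Nat.find_min' hne ⟨j, by omega, by omega⟩
  omega

/-- comparison at the first index where agreement may fail -/
theorem D1_lle_le {t t' : List ℕ} (h : LLe t t') {n : ℕ} (hn : ∀ i < n, t.getD i 0 = t'.getD i 0) :
    t.getD n 0 ≤ t'.getD n 0 := by
  rcases h with rfl | ⟨m, hm, hlt⟩
  · exact le_rfl
  rcases lt_trichotomy n m with hnm | hnm | hnm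
  · exact (hm n hnm).le
  · subst hnm; exact hlt.le
  · exact absurd (hn m hnm) hlt.ne

theorem D1_pre_congr {f g : ℕ → ℕ} {n : ℕ} (h : ∀ i < n, f i = g i) : pre f n = pre g n := by
  unfold pre
  apply List.map_congr_left
  intro i hi
  exact h i (List.mem_range.1 hi)

/-- take of a list as a `pre` -/
theorem D1_take_eq {t : List ℕ} {f : ℕ → ℕ} {N : ℕ} (hN : N ≤ t.length)
    (h : ∀ i < N, t.getD i 0 = f i) : t.take N = pre f N := by
  apply List.ext_getElem
  · simp [D1_len, hN]
  · intro i h1 h2
    have hi : i < N := by simpa [D1_len] using h2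
    have := h i hi
    have hlt : i < t.length := by omega
    rw [List.getElem_take]
    simp only [pre, List.getElem_map, List.getElem_range]
    rw [← this]
    simp [List.getD, hlt]

theorem D1_getD_take (t : List ℕ) (N i : ℕ) (h : i < N) : (t.take N).getD i 0 = t.getD i 0 := by
  simp [List.getD, List.getElem?_take, h]

theorem D1 : D1S := by
  intro T X hT hP
  obtain ⟨P, hP1, hP2⟩ := hP
  have hex : ∀ n, ∃ t, Adm T (pre X n) t ∧ ∀ t', Adm T (pre X n) t' → LLe t t' := by
    intro n
    obtain ⟨t, ht, hmin⟩ := D1_least n {t | Adm T (pre X n) t} (by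
      refine ⟨pre P n, hP2 n, by rw [D1_len, D1_len], ?_⟩
      intro i hi
      rw [D1_len] at hi
      rw [D1_getD _ _ _ hi, D1_getD _ _ _ hi]
      have := hP1 i
      omega) (by
      intro t ht
      rw [ht.2.1, D1_len])
    exact ⟨t, ht, hmin⟩
  set l : ℕ → List ℕ := fun n => lmf T (pre X n) with hl
  have hspec : ∀ n, Adm T (pre X n) (l n) ∧ ∀ t', Adm T (pre X n) t' → LLe (l n) t' := by
    intro n
    simp only [hl, lmf]
    rw [dif_pos (hex n)]
    exact (hex n).choose_spec
  have hlen : ∀ n, (l n).length = n := by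
    intro n
    rw [(hspec n).1.2.1, D1_len]
  have hbd : ∀ n i, i < n → (l n).getD i 0 ≤ X i + 1 := by
    intro n i hi
    have := (hspec n).1.2.2 i (by rw [hlen]; exact hi)
    rwa [D1_getD _ _ _ hi] at this
  -- restrictions are admissible
  have hres : ∀ n m, n ≤ m → Adm T (pre X n) ((l m).take n) := by
    intro n m hnm
    refine ⟨hT _ (hspec m).1.1 _ (List.take_prefix _ _), ?_, ?_⟩
    · rw [List.length_take, hlen, D1_len]; omega
    · intro i hi
      rw [List.length_take, hlen] at hi
      have hi' : i < n := by omega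
      rw [D1_getD_take _ _ _ hi', D1_getD _ _ _ hi']
      exact hbd m i (by omega)
  have hstab : ∀ n, ∃ K, n ≤ K ∧ ∀ k ≥ K, ∀ i < n, (l k).getD i 0 = (l K).getD i 0 := by
    intro n
    induction n with
    | zero => exact ⟨0, le_rfl, fun k _ i hi => absurd hi (Nat.not_lt_zero _)⟩
    | succ n ih =>
        obtain ⟨K, hnK, hK⟩ := ih
        obtain ⟨K', hK', hc⟩ := D1_mono_const (fun k => (l k).getD n 0) (K + 1) (X n + 1)
          (fun k hk => hbd k n (by omega)) (by
          intro k hk j hj
          have h1 := (hspec k).2 _ (hres k j hj)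
          have h2 : (l k).getD n 0 ≤ ((l j).take k).getD n 0 := by
            refine D1_lle_le h1 ?_
            intro i hi
            rw [D1_getD_take _ _ _ (by omega), hK j (by omega) i hi, hK k (by omega) i hi]
          rwa [D1_getD_take _ _ _ (by omega)] at h2)
        refine ⟨K', by omega, fun k hk i hi => ?_⟩
        rcases Nat.lt_succ_iff_lt_or_eq.1 hi with hi | rfl
        · rw [hK k (by omega) i hi, hK K' (by omega) i hi]
        · exact hc k hk
  choose Kf hKf1 hKf2 using hstab
  set L : ℕ → ℕ := fun n => (l (Kf (n + 1))).getD n 0 with hL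
  have hev : ∀ n, ∀ k ≥ Kf (n + 1), (l k).getD n 0 = L n :=
    fun n k hk => hKf2 (n + 1) k hk n (by omega)
  have hev2 : ∀ n, ∃ K, n ≤ K ∧ ∀ k ≥ K, ∀ i < n, (l k).getD i 0 = L i := by
    intro n
    induction n with
    | zero => exact ⟨0, le_rfl, fun k _ i hi => absurd hi (Nat.not_lt_zero _)⟩
    | succ n ih =>
        obtain ⟨K, hnK, hK⟩ := ih
        refine ⟨max (K + 1) (Kf (n + 1)), by omega, fun k hk i hi => ?_⟩
        rcases Nat.lt_succ_iff_lt_or_eq.1 hi with hi | rfl
        · exact hK k (by omega) i hi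
        · exact hev i k (by omega)
  have htake : ∀ N, ∃ K, N ≤ K ∧ ∀ k ≥ K, (l k).take N = pre L N := by
    intro N
    obtain ⟨K, hNK, hK⟩ := hev2 N
    exact ⟨K, hNK, fun k hk => D1_take_eq (by rw [hlen]; omega) (hK k hk)⟩
  refine ⟨L, ⟨?_, ?_, ?_⟩, hlen, ?_⟩
  · intro n
    obtain ⟨K, hnK, hK⟩ := htake n
    rw [← hK K le_rfl]
    exact (hres n K hnK).1
  · intro n
    have h1 := hKf1 (n + 1)
    exact hbd (Kf (n + 1)) n (by omega)
  · intro L' hL' hb'
    by_cases heq : L = L'
    · exact Or.inl heq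
    right
    classical
    have hne : ∃ n, L n ≠ L' n := by
      by_contra hcon
      push Not at hcon
      exact heq (funext hcon)
    have hmin : ∀ i < Nat.find hne, L i = L' i := by
      intro i hi
      by_contra hcon
      exact Nat.find_min hne hi hcon
    refine ⟨Nat.find hne, hmin, ?_⟩
    obtain ⟨K, hnK, hK⟩ := hev2 (Nat.find hne + 1)
    have hadm : Adm T (pre X K) (pre L' K) := by
      refine ⟨hL' K, by rw [D1_len, D1_len], ?_⟩
      intro i hi
      rw [D1_len] at hi
      rw [D1_getD _ _ _ hi, D1_getD _ _ _ hi]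
      exact hb' i
    have hle : (l K).getD (Nat.find hne) 0 ≤ (pre L' K).getD (Nat.find hne) 0 := by
      refine D1_lle_le ((hspec K).2 _ hadm) ?_
      intro i hi
      rw [hK K le_rfl i (by omega), D1_getD _ _ _ (by omega)]
      exact hmin i hi
    rw [hK K le_rfl _ (by omega), D1_getD _ _ _ (by omega)] at hle
    exact lt_of_le_of_ne hle (Nat.find_spec hne)
  · intro N
    obtain ⟨K, _, hK⟩ := htake N
    exact eventually_atTop.2 ⟨K, hK⟩

end FR
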