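import Pool.Agent.Lib.MP_ec866f_lc.Stmts

set_option autoImplicit false

namespace FR

open Filter Encodable

theorem D2_lex_trans {f g h : ℕ → ℕ} (h1 : LexLe f g) (h2 : LexLe g h) : LexLe f h := by
  rcases h1 with rfl | ⟨n, hn, hlt⟩
  · exact h2
  rcases h2 with rfl | ⟨m, hm, hlt'⟩
  · exact Or.inr ⟨n, hn, hlt⟩
  rcases lt_trichotomy n m with hnm | hnm | hnm
  · exact Or.inr ⟨n, fun i hi => (hn i hi).trans (hm i (by omega)), by rw [← hm n hnm]; exact hlt⟩
  · subst hnm
    exact Or.inr ⟨n, fun i hi => (hn i hi).trans (hm i hi), hlt.trans hlt'⟩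
  · exact Or.inr ⟨m, fun i hi => (hn i (by omega)).trans (hm i hi), by rw [hn m hnm]; exact hlt'⟩

/-- if `LexLe f g` and the values below `n` agree then `f n ≤ g n` -/
theorem D2_lex_le {f g : ℕ → ℕ} (h : LexLe f g) {n : ℕ} (hn : ∀ i < n, f i = g i) : f n ≤ g n := by
  rcases h with rfl | ⟨m, hm, hlt⟩
  · exact le_rfl
  rcases lt_trichotomy n m with hnm | hnm | hnm
  · exact (hm n hnm).le
  · subst hnm; exact hlt.le
  · exact absurd (hn m hnm) hlt.ne

/-- antitone sequences of naturals from `K` on are eventually constant -/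
theorem D2_anti_const (a : ℕ → ℕ) (K : ℕ) (h : ∀ k ≥ K, ∀ j ≥ k, a j ≤ a k) :
    ∃ K' ≥ K, ∀ k ≥ K', a k = a K' := by
  classical
  have hne : ∃ v, ∃ k ≥ K, a k = v := ⟨a K, K, le_rfl, rfl⟩
  obtain ⟨k, hk, hv⟩ := Nat.find_spec hne
  refine ⟨k, hk, fun j hj => le_antisymm (h k hk j hj) ?_⟩
  rw [hv]
  exact Nat.find_min' hne ⟨j, by omega, rfl⟩

theorem D2_pre_congr {f g : ℕ → ℕ} {n : ℕ} (h : ∀ i < n, f i = g i) : pre f n = pre g n := by
  unfold pre
  apply List.map_congr_left
  intro i hi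
  exact h i (List.mem_range.1 hi)

theorem D2 : D2S := by
  intro T X Ls hX hL
  have hstep : ∀ k, LexLe (Ls (k + 1)) (Ls k) := by
    intro k
    refine (hL (k + 1)).2.2 (Ls k) (hL k).1 ?_
    intro n
    refine ((hL k).2.1 n).trans ?_
    have : shk X k n ≤ shk X (k + 1) n := hX.monotone (by omega)
    omega
  have hmono : ∀ k m, LexLe (Ls (k + m)) (Ls k) := by
    intro k m
    induction m with
    | zero => exact Or.inl rfl
    | succ m ih => exact D2_lex_trans (hstep (k + m)) ih
  have hmono' : ∀ k, ∀ j ≥ k, LexLe (Ls j) (Ls k) := by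
    intro k j hj
    obtain ⟨m, rfl⟩ := Nat.exists_eq_add_of_le hj
    exact hmono k m
  have hstab : ∀ n, ∃ K, ∀ k ≥ K, ∀ i < n, Ls k i = Ls K i := by
    intro n
    induction n with
    | zero => exact ⟨0, fun k _ i hi => absurd hi (Nat.not_lt_zero _)⟩
    | succ n ih =>
        obtain ⟨K, hK⟩ := ih
        obtain ⟨K', hK', hc⟩ := D2_anti_const (fun k => Ls k n) K (by
          intro k hk j hj
          refine D2_lex_le (hmono' k j hj) ?_
          intro i hi
          rw [hK j (by omega) i hi, hK k hk i hi])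
        refine ⟨K', fun k hk i hi => ?_⟩
        rcases Nat.lt_succ_iff_lt_or_eq.1 hi with hi | rfl
        · rw [hK k (by omega) i hi, hK K' hK' i hi]
        · exact hc k hk
  choose Kf hKf using hstab
  set Li : ℕ → ℕ := fun n => Ls (Kf (n + 1)) n with hLi
  have hev : ∀ n, ∀ k ≥ Kf (n + 1), Ls k n = Li n := fun n k hk => hKf (n + 1) k hk n (by omega)
  have hev2 : ∀ n, ∃ K, ∀ k ≥ K, ∀ i < n, Ls k i = Li i := by
    intro n
    induction n with
    | zero => exact ⟨0, fun k _ i hi => absurd hi (Nat.not_lt_zero _)⟩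
    | succ n ih =>
        obtain ⟨K, hK⟩ := ih
        refine ⟨max K (Kf (n + 1)), fun k hk i hi => ?_⟩
        rcases Nat.lt_succ_iff_lt_or_eq.1 hi with hi | rfl
        · exact hK k (le_trans (le_max_left _ _) hk) i hi
        · exact hev i k (le_trans (le_max_right _ _) hk)
  refine ⟨Li, ?_, ?_, ?_⟩
  · intro n
    obtain ⟨K, hK⟩ := hev2 n
    rw [← D2_pre_congr (hK K le_rfl)]
    exact (hL K).1 n
  · intro n
    exact eventually_atTop.2 ⟨_, fun k hk => hev n k hk⟩
  · intro k
    by_cases heq : Li = Ls k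
    · exact Or.inl heq
    right
    classical
    have hne : ∃ n, Li n ≠ Ls k n := by
      by_contra hcon
      push Not at hcon
      exact heq (funext hcon)
    have hmin : ∀ i < Nat.find hne, Li i = Ls k i := by
      intro i hi
      by_contra hcon
      exact Nat.find_min hne hi hcon
    refine ⟨Nat.find hne, hmin, ?_⟩
    obtain ⟨K, hK⟩ := hev2 (Nat.find hne + 1)
    have hle : Ls (max K k) (Nat.find hne) ≤ Ls k (Nat.find hne) := by
      refine D2_lex_le (hmono' k _ (le_max_right _ _)) ?_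
      intro i hi
      rw [hK _ (le_max_left _ _) i (by omega)]
      exact hmin i hi
    rw [hK _ (le_max_left _ _) _ (by omega)] at hle
    exact lt_of_le_of_ne hle (Nat.find_spec hne)

end FR
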