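import Pool.Agent.Lib.MP_ec866f_lc.Stmts

set_option autoImplicit false

namespace FR

open Filter Encodable

theorem D3_cp_left : ∀ a b : List ℕ, cp a b <+: a
  | [], b => by simp [cp]
  | x :: u, [] => by simp [cp]
  | x :: u, y :: v => by
      by_cases h : x = y
      · simp only [cp, h, if_true]
        exact (List.prefix_cons_inj y).2 (D3_cp_left u v)
      · simp [cp, h]

theorem D3_cp_right : ∀ a b : List ℕ, cp a b <+: b
  | [], b => by simp [cp]
  | x :: u, [] => by simp [cp]
  | x :: u, y :: v => by
      by_cases h : x = y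
      · simp only [cp, h, if_true]
        exact (List.prefix_cons_inj y).2 (D3_cp_right u v)
      · simp [cp, h]

theorem D3_cp_len : ∀ (N : ℕ) (a b : List ℕ), N ≤ a.length → N ≤ b.length →
    a.take N = b.take N → N ≤ (cp a b).length
  | 0, _, _, _, _, _ => Nat.zero_le _
  | N + 1, [], _, h, _, _ => by simp at h
  | N + 1, x :: u, [], _, h, _ => by simp at h
  | N + 1, x :: u, y :: v, h1, h2, h3 => by
      simp only [List.take_succ_cons, List.cons.injEq] at h3
      simp only [List.length_cons] at h1 h2
      simp only [cp, h3.1, if_true, List.length_cons]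
      exact Nat.succ_le_succ (D3_cp_len N u v (by omega) (by omega) h3.2)

theorem D3 : D3S := by
  intro P g hP hv
  set Q : ℕ → List ℕ := fun k => cp (P k) (P (k + 1)) with hQ
  have hlen : ∀ N, ∀ᶠ k in atTop, N ≤ (Q k).length := by
    intro N
    obtain ⟨K, hK⟩ := eventually_atTop.1 (hP N)
    refine eventually_atTop.2 ⟨K, fun k hk => ?_⟩
    have h1 := hK k hk
    have h2 := hK (k + 1) (by omega)
    exact D3_cp_len N _ _ h1.1 h2.1 (h1.2.trans h2.2.symm)
  obtain ⟨v, hv⟩ := hv
  obtain ⟨K, hK⟩ := eventually_atTop.1 hv
  have hvt : v = true := by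
    by_contra hne
    have hvf : v = false := by simpa using hne
    subst hvf
    have hle : ∀ m, (Q (K + m)).length ≤ (Q K).length := by
      intro m
      induction m with
      | zero => exact le_rfl
      | succ m ih =>
          have := hK (K + m) (by omega)
          simp only [decide_eq_false_iff_not, not_lt] at this
          exact this.trans ih
    obtain ⟨K', hK'⟩ := eventually_atTop.1 (hlen ((Q K).length + 1))
    have h1 := hK' (K + K') (by omega)
    have h2 := hle K'
    omega
  subst hvt
  have hlt : ∀ k ≥ K, (Q k).length < (Q (k + 1)).length := by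
    intro k hk
    have := hK k hk
    simpa using this
  have hpre : ∀ k ≥ K, ∀ m, Q k <+: Q (k + m) := by
    intro k hk m
    induction m with
    | zero => exact List.prefix_rfl
    | succ m ih =>
        refine ih.trans ?_
        exact List.prefix_of_prefix_length_le (D3_cp_right (P (k + m)) (P (k + m + 1)))
          (D3_cp_left (P (k + m + 1)) (P (k + m + 1 + 1))) (hlt (k + m) (by omega)).le
  refine ⟨K, fun k hk => ⟨hlt k hk, ?_⟩⟩
  obtain ⟨K', hK'⟩ := eventually_atTop.1 (hP (Q k).length)
  have h1 := hK' (k + K') (by omega)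
  have h2 : Q k <+: P (k + K') := (hpre k hk K').trans (D3_cp_left _ _)
  rw [← h1.2]
  exact List.prefix_iff_eq_take.1 h2

end FR
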