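import Pool.Agent.Lib.MP_ec866f_lc.Stmts

/-!
# D5 : capture
-/

set_option autoImplicit false

namespace FR

open Filter Encodable

theorem D5_len (Q : ℕ → List ℕ) (K : ℕ) (h : ∀ k ≥ K, (Q k).length < (Q (k + 1)).length) (j : ℕ) :
    j ≤ (Q (K + j)).length := by
  induction j with
  | zero => exact Nat.zero_le _
  | succ j ih =>
    have := h (K + j) (by omega)
    have e : K + (j + 1) = K + j + 1 := rfl
    rw [e]
    omega

theorem D5_getD (g : ℕ → ℕ) (n i : ℕ) (h : i < n) : (pre g n).getD i 0 = g i := by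
  unfold pre
  rw [List.getD_eq_getElem?_getD, List.getElem?_map, List.getElem?_range h]
  rfl

theorem D5 : D5S := by
  classical
  intro Q g h c hQ hh hv
  obtain ⟨K, hK⟩ := hQ
  have hlen := D5_len Q K (fun k hk => (hK k hk).1)
  have hlen' : ∀ M, ∀ᶠ k in atTop, K ≤ k ∧ M ≤ (Q k).length := by
    intro M
    filter_upwards [eventually_ge_atTop (K + M)] with k hk
    have := hlen (k - K)
    rw [Nat.add_sub_cancel' (by omega : K ≤ k)] at this
    exact ⟨by omega, by omega⟩
  have hget : ∀ k ≥ K, ∀ i < (Q k).length, (Q k).getD i 0 = g i := by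
    intro k hk i hi
    rw [(hK k hk).2]
    exact D5_getD g _ i hi
  have hinf : ∀ M, ∀ᶠ k in atTop, M ≤ ec c (Q k) := by
    intro M
    have h1 : ∀ᶠ k in atTop, ∀ m ∈ Finset.range M,
        (K ≤ k ∧ Nat.pair c (Nat.pair m (h m)) + 1 ≤ (Q k).length) :=
      (Filter.eventually_all_finset (Finset.range M)).2 (fun m _ => hlen' _)
    filter_upwards [h1, hlen' M] with k hk hkM
    unfold ec
    refine Nat.le_findGreatest hkM.2 ?_
    intro m hm
    have h2 := (hk m (Finset.mem_range.2 hm)).2
    exact ⟨h m, h2, by rw [hget k hkM.1 _ h2]; exact (hh m (h m)).2 rfl⟩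
  obtain ⟨v, hv⟩ := hv
  have hlt : ∀ᶠ k in atTop, ec c (Q k) < ec c (Q (k + 1)) := by
    cases v with
    | true =>
      filter_upwards [hv] with k hk
      exact of_decide_eq_true hk
    | false =>
      exfalso
      obtain ⟨K2, hK2⟩ := eventually_atTop.1 hv
      have hanti : ∀ j, ec c (Q (K2 + j)) ≤ ec c (Q K2) := by
        intro j
        induction j with
        | zero => exact le_rfl
        | succ j ih =>
          have := of_decide_eq_false (hK2 (K2 + j) (by omega))
          have h2 : K2 + (j + 1) = K2 + j + 1 := rfl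
          rw [h2]
          omega
      obtain ⟨k, hk, hk2⟩ := ((hinf (ec c (Q K2) + 1)).and (eventually_ge_atTop K2)).exists
      have := hanti (k - K2)
      rw [Nat.add_sub_cancel' hk2] at this
      omega
  obtain ⟨K2, hK2⟩ := eventually_atTop.1 hlt
  have hge : ∀ j, j ≤ ec c (Q (K2 + j)) := by
    intro j
    induction j with
    | zero => exact Nat.zero_le _
    | succ j ih =>
      have := hK2 (K2 + j) (by omega)
      have h2 : K2 + (j + 1) = K2 + j + 1 := rfl
      rw [h2]
      omega
  refine ⟨K + K2 + 1, fun m => ?_⟩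
  have h3 : m < ec c (Q (m + (K + K2 + 1))) := by
    have h4 := hge (m + K + 1)
    have h5 : K2 + (m + K + 1) = m + (K + K2 + 1) := by omega
    rw [h5] at h4
    omega
  set k := m + (K + K2 + 1) with hk
  have h6 : (fun l => ∀ m < l, ∃ v, Nat.pair c (Nat.pair m v) < (Q k).length ∧
      (Q k).getD (Nat.pair c (Nat.pair m v)) 0 = 1) (ec c (Q k)) := by
    unfold ec
    refine Nat.findGreatest_spec (P := fun l => ∀ m < l, ∃ v, Nat.pair c (Nat.pair m v) < (Q k).length ∧
      (Q k).getD (Nat.pair c (Nat.pair m v)) 0 = 1) (m := 0) (Nat.zero_le _) ?_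
    intro m hm
    exact absurd hm (Nat.not_lt_zero _)
  obtain ⟨v, hv1, hv2⟩ := h6 m h3
  rw [hget k (by omega) _ hv1] at hv2
  rw [(hh m v).1 hv2]
  exact ((Nat.right_le_pair m v).trans (Nat.right_le_pair c _)).trans hv1.le

end FR
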