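import Pool.Agent.Lib.MP_ec866f_lc.Stmts

set_option autoImplicit false

namespace FR

open Filter Encodable

theorem D6_len (f : ℕ → ℕ) (l : ℕ) : (pre f l).length = l := by simp [pre]

theorem D6_getD (f : ℕ → ℕ) (l n : ℕ) (h : n < l) : (pre f l).getD n 0 = f n := by
  simp [pre, List.getD, h]

theorem D6_op_inj : Function.Injective Op.enc := by
  intro o o' h
  cases o <;> cases o' <;> simp [Op.enc, Nat.pair_eq_pair] at h ⊢
  · exact h
  · exact h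
  · exact h
  · exact h
  · exact ⟨Tm.enc_inj h.1, h.2⟩

theorem D6_val (g : ℕ → ℕ) (i n : ℕ) : Gf rho0 g (i + 1) n = 1 ∨ Gf rho0 g (i + 1) n = 0 := by
  simp only [Gf, Jf]
  split_ifs <;> simp

theorem D6_one (g : ℕ → ℕ) (i : ℕ) (o : Op) (a : ℕ) :
    Gf rho0 g (i + 1) (Nat.pair o.enc a) = 1 ↔ ∃ l, o.sem a (pre (Gf rho0 g i) l) := by
  have key : (∃ l, rho0 (Nat.pair o.enc a) (pre (Gf rho0 g i) l)) ↔
      ∃ l, o.sem a (pre (Gf rho0 g i) l) := by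
    constructor
    · rintro ⟨l, o', ho, hs⟩
      rw [Nat.unpair_pair] at ho hs
      have := D6_op_inj ho
      subst this
      exact ⟨l, hs⟩
    · rintro ⟨l, hl⟩
      refine ⟨l, o, ?_, ?_⟩
      · rw [Nat.unpair_pair]
      · rw [Nat.unpair_pair]; exact hl
  rw [← key]
  rw [show Gf rho0 g (i + 1) = Jf rho0 (Gf rho0 g i) from rfl]
  generalize Gf rho0 g i = f
  unfold Jf
  constructor
  · intro h
    by_contra hc
    rw [if_neg hc] at h
    exact absurd h (by norm_num)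
  · intro h
    rw [if_pos h]

theorem D6_bit1 (f : ℕ → ℕ) (l n : ℕ) : bit1 (pre f l) n ↔ n < l ∧ f n = 1 := by
  unfold bit1
  rw [D6_len]
  constructor
  · rintro ⟨h1, h2⟩
    exact ⟨h1, by rwa [D6_getD f l n h1] at h2⟩
  · rintro ⟨h1, h2⟩
    exact ⟨h1, by rwa [D6_getD f l n h1]⟩

theorem D6_bit0 (f : ℕ → ℕ) (l n : ℕ) : bit0 (pre f l) n ↔ n < l ∧ f n ≠ 1 := by
  unfold bit0
  rw [D6_len]
  constructor
  · rintro ⟨h1, h2⟩
    exact ⟨h1, by rwa [D6_getD f l n h1] at h2⟩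
  · rintro ⟨h1, h2⟩
    exact ⟨h1, by rwa [D6_getD f l n h1]⟩

/-- `A` is column `e` of level `i + 1` -/
def D6_at (g : ℕ → ℕ) (A : Set ℕ) (i e : ℕ) : Prop :=
  ∀ a, a ∈ A ↔ Gf rho0 g (i + 1) (Nat.pair e a) = 1

theorem D6_lift1 {g : ℕ → ℕ} {A : Set ℕ} {i e : ℕ} (h : D6_at g A i e) :
    ∃ e', D6_at g A (i + 1) e' := by
  refine ⟨(Op.inter e e).enc, fun a => ?_⟩
  rw [D6_one, h a]
  simp only [Op.sem, D6_bit1]
  constructor
  · intro h1
    exact ⟨Nat.pair e a + 1, ⟨by omega, h1⟩, by omega, h1⟩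
  · rintro ⟨l, ⟨_, h1⟩, _⟩
    exact h1

theorem D6_lift {g : ℕ → ℕ} {A : Set ℕ} {i e : ℕ} (h : D6_at g A i e) (m : ℕ) :
    ∃ e', D6_at g A (i + m) e' := by
  induction m with
  | zero => exact ⟨e, h⟩
  | succ m ih =>
      obtain ⟨e', he'⟩ := ih
      exact D6_lift1 he'

theorem D6_two {g : ℕ → ℕ} {A B : Set ℕ} (hA : A ∈ LA g) (hB : B ∈ LA g) :
    ∃ i e e', D6_at g A i e ∧ D6_at g B i e' := by
  obtain ⟨i, e, h⟩ := hA
  obtain ⟨j, e', h'⟩ := hB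
  obtain ⟨f, hf⟩ := D6_lift (g := g) (A := A) (i := i) (e := e) h j
  obtain ⟨f', hf'⟩ := D6_lift (g := g) (A := B) (i := j) (e := e') h' i
  rw [Nat.add_comm j i] at hf'
  exact ⟨i + j, f, f', hf, hf'⟩

theorem D6 : D6S := by
  intro Y L
  set g := base Y L with hg
  have hY : Y ∈ LA g := by
    refine ⟨0, Op.yy.enc, fun a => ?_⟩
    rw [D6_one]
    simp only [Op.sem, D6_len]
    have key : ∀ l, a < l → (((pre (Gf rho0 g 0) l).getD a 0).unpair.2 = 1 ↔ a ∈ Y) := by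
      intro l hl
      rw [D6_getD _ _ _ hl]
      simp only [Gf, hg, base, Nat.unpair_pair, ind]
      split_ifs with h
      · simp [h]
      · simp [h]
    constructor
    · intro h
      exact ⟨a + 1, by omega, (key (a + 1) (by omega)).2 h⟩
    · rintro ⟨l, hl, h⟩
      exact (key l hl).1 h
  have hL : gr L ∈ LA g := by
    refine ⟨0, Op.gph.enc, fun a => ?_⟩
    rw [D6_one]
    simp only [Op.sem, D6_len]
    have key : ∀ l, a.unpair.1 < l →
        (((pre (Gf rho0 g 0) l).getD a.unpair.1 0).unpair.1 = a.unpair.2 ↔ a ∈ gr L) := by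
      intro l hl
      rw [D6_getD _ _ _ hl]
      simp only [Gf, hg, base, Nat.unpair_pair, mem_gr]
    constructor
    · intro h
      exact ⟨a.unpair.1 + 1, by omega, (key _ (by omega)).2 h⟩
    · rintro ⟨l, hl, h⟩
      exact (key l hl).1 h
  refine ⟨⟨⟨Y, hY⟩, ?_, ?_, ?_, ?_, ?_⟩, hY, hL⟩
  · intro A B hA hB
    obtain ⟨i, e, e', h, h'⟩ := D6_two hA hB
    refine ⟨i + 1, (Op.join e e').enc, fun a => ?_⟩
    rw [D6_one]
    simp only [Op.sem, D6_bit1, jn, Set.mem_ofPred_eq, h _, h' _]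
    constructor
    · rintro (⟨h1, h2⟩ | ⟨h1, h2⟩)
      · exact ⟨Nat.pair e a.unpair.2 + 1, Or.inl ⟨h1, by omega, h2⟩⟩
      · exact ⟨Nat.pair e' a.unpair.2 + 1, Or.inr ⟨h1, by omega, h2⟩⟩
    · rintro ⟨l, ⟨h1, _, h2⟩ | ⟨h1, _, h2⟩⟩
      · exact Or.inl ⟨h1, h2⟩
      · exact Or.inr ⟨h1, h2⟩
  · intro A hA
    obtain ⟨i, e, h⟩ := hA
    refine ⟨i + 1, (Op.neg e).enc, fun a => ?_⟩
    rw [D6_one]
    simp only [Op.sem, D6_bit0, Set.mem_compl_iff, h a]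
    constructor
    · intro h1
      exact ⟨Nat.pair e a + 1, by omega, h1⟩
    · rintro ⟨l, _, h1⟩
      exact h1
  · intro A B hA hB
    obtain ⟨i, e, e', h, h'⟩ := D6_two hA hB
    refine ⟨i + 1, (Op.inter e e').enc, fun a => ?_⟩
    rw [D6_one]
    simp only [Op.sem, D6_bit1, Set.mem_inter_iff, h _, h' _]
    constructor
    · rintro ⟨h1, h2⟩
      exact ⟨Nat.pair e a + Nat.pair e' a + 1, ⟨by omega, h1⟩, by omega, h2⟩
    · rintro ⟨l, ⟨_, h1⟩, _, h2⟩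
      exact ⟨h1, h2⟩
  · intro A hA
    obtain ⟨i, e, h⟩ := hA
    refine ⟨i + 1, (Op.proj e).enc, fun a => ?_⟩
    rw [D6_one]
    simp only [Op.sem, D6_bit1, Set.mem_ofPred_eq, h _]
    constructor
    · rintro ⟨b, h1⟩
      exact ⟨Nat.pair e (Nat.pair a b) + 1, b, by omega, h1⟩
    · rintro ⟨l, b, _, h1⟩
      exact ⟨b, h1⟩
  · intro A t hA
    obtain ⟨i, e, h⟩ := hA
    refine ⟨i + 1, (Op.tm t e).enc, fun a => ?_⟩
    rw [D6_one]
    simp only [Op.sem, D6_bit1, Set.mem_ofPred_eq, h _]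
    constructor
    · intro h1
      exact ⟨Nat.pair e (t.ev a) + 1, by omega, h1⟩
    · rintro ⟨l, _, h1⟩
      exact h1

end FR
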