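import Pool.Agent.Lib.MP_ec866f_lc.Stmts

/-!
# D7 : convergence of the levels
-/

set_option autoImplicit false

namespace FR

open Filter Encodable

theorem D7_tail (X : ℕ → ℕ) (k n : ℕ) :
    (pre (shk X k) (n + 1)).tail = pre (shk X (k + 1)) n := by
  unfold pre
  rw [List.range_succ_eq_map, List.map_cons, List.tail_cons, List.map_map]
  apply List.map_congr_left
  intro i _
  show shk X k (i + 1) = shk X (k + 1) i
  unfold shk
  congr 1
  omega

theorem D7_head (X : ℕ → ℕ) (k n : ℕ) : (pre (shk X k) (n + 1)).headD 0 = X k := by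
  unfold pre
  rw [List.range_succ_eq_map, List.map_cons, List.headD_cons]
  unfold shk
  simp

theorem D7_phb (T : Set (List ℕ)) (Y : Set ℕ) (L : ℕ → ℕ) (N : ℕ) (s : List ℕ)
    (h : (lmf T s).take N = pre L N) : (phb T Y s).take N = pre (base Y L) N := by
  apply List.ext_getElem?
  intro i
  unfold phb
  rw [List.getElem?_take, List.getElem?_map, List.getElem?_zipIdx]
  unfold pre
  rw [List.getElem?_map]
  have h1 := congrArg (fun l : List ℕ => l[i]?) h
  simp only [List.getElem?_take, pre, List.getElem?_map] at h1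
  by_cases hi : i < N
  · rw [if_pos hi, List.getElem?_range hi] at h1
    rw [if_pos hi, List.getElem?_range hi, h1]
    simp [base]
  · rw [if_neg hi, List.getElem?_eq_none (by simpa using hi)]
    rfl

theorem D7_shift {p : ℕ → Prop} (h : ∀ᶠ n in atTop, p (n + 1)) : ∀ᶠ n in atTop, p n := by
  obtain ⟨N, hN⟩ := eventually_atTop.1 h
  refine eventually_atTop.2 ⟨N + 1, fun n hn => ?_⟩
  have := hN (n - 1) (by omega)
  rwa [Nat.sub_add_cancel (by omega : 1 ≤ n)] at this

theorem D7 : D7S := by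
  intro T Y X Ls _ h2 i
  induction i with
  | zero =>
    intro k
    unfold LimIs
    apply D7_shift
    have ha : ∀ᶠ n in atTop, (lmf T (pre (shk X k) (n + 1))).take (X k) = pre (Ls k) (X k) :=
      (tendsto_add_atTop_nat 1).eventually (h2 k (X k))
    have hb : ∀ᶠ n in atTop, 1 ≤ n := eventually_ge_atTop 1
    filter_upwards [ha, h2 (k + 1) (X (k + 1)), hb] with n hn1 hn2 hn3
    show cp ((phb T Y (pre (shk X k) (n + 1))).take ((pre (shk X k) (n + 1)).headD 0))
      ((phb T Y (pre (shk X k) (n + 1)).tail).take ((pre (shk X k) (n + 1)).tail.headD 0)) =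
      cp (pre (base Y (Ls k)) (X k)) (pre (base Y (Ls (k + 1))) (X (k + 1)))
    obtain ⟨m, rfl⟩ : ∃ m, n = m + 1 := ⟨n - 1, by omega⟩
    rw [D7_tail, D7_head, D7_head, D7_phb T Y _ _ _ hn1, D7_phb T Y _ _ _ hn2]
  | succ i ih =>
    intro k
    unfold LimIs
    apply D7_shift
    have ha : ∀ᶠ n in atTop, Lv rho0 (phb T Y) i (pre (shk X k) (n + 1)) =
        Qv rho0 (fun k => base Y (Ls k)) X i k :=
      (tendsto_add_atTop_nat 1).eventually (ih k)
    filter_upwards [ha, ih (k + 1)] with n hn1 hn2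
    show cp (Jl rho0 (Lv rho0 (phb T Y) i (pre (shk X k) (n + 1))))
      (Jl rho0 (Lv rho0 (phb T Y) i (pre (shk X k) (n + 1)).tail)) =
      cp (Jl rho0 (Qv rho0 (fun k => base Y (Ls k)) X i k))
        (Jl rho0 (Qv rho0 (fun k => base Y (Ls k)) X i (k + 1)))
    rw [D7_tail, hn1, hn2]

end FR
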