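import Pool.Agent.Lib.MP_ec866f_lc.Stmts

/-! module D8 -/

set_option autoImplicit false

namespace FR

open Filter Encodable

theorem D8_fin (m n : ℕ) : {t : List ℕ | t.length = n ∧ ∀ x ∈ t, x < m}.Finite := by
  induction n with
  | zero =>
      refine (Set.finite_singleton ([] : List ℕ)).subset ?_
      rintro t ⟨h1, _⟩
      simpa using h1
  | succ n ih =>
      refine ((Set.finite_Iio m).image2 (fun a t => a :: t) ih).subset ?_
      rintro t ⟨h1, h2⟩
      cases t with
      | nil => simp at h1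
      | cons a t =>
          refine ⟨a, h2 a (by simp), t, ⟨by simpa using h1, fun x hx => h2 x (by simp [hx])⟩, rfl⟩

open Classical in
/-- the leftmost string depends only on the predicate -/
noncomputable def D8_lmfA (P : List ℕ → Prop) : List ℕ :=
  if h : ∃ t, P t ∧ ∀ t', P t' → LLe t t' then h.choose else []

theorem D8_lmf_eq (T : Set (List ℕ)) (s : List ℕ) : lmf T s = D8_lmfA (Adm T s) := rfl

theorem D8_getD_le (s : List ℕ) (i : ℕ) : s.getD i 0 ≤ s.sum := by
  rcases lt_or_ge i s.length with h | h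
  · rw [List.getD_eq_getElem _ _ h]
    exact List.le_sum_of_mem (List.getElem_mem h)
  · rw [List.getD_eq_default _ _ h]; exact Nat.zero_le _

theorem D8_lmf (s : List ℕ) : FU (fun S => lmf (TrOf (col S 0)) s) := by
  classical
  have hf := D8_fin (s.sum + 2) s.length
  obtain ⟨b, hb⟩ : ∃ b : ℕ, ∀ t ∈ {t : List ℕ | t.length = s.length ∧ ∀ x ∈ t, x < s.sum + 2},
      Nat.pair 0 (encode t) < b := by
    obtain ⟨b, hb⟩ := (hf.image (fun t => Nat.pair 0 (encode t))).bddAbove
    exact ⟨b + 1, fun t ht => Nat.lt_succ_of_le (hb ⟨t, ht, rfl⟩)⟩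
  refine ⟨b, fun S S' h => ?_⟩
  have h1 : Adm (TrOf (col S 0)) s = Adm (TrOf (col S' 0)) s := by
    funext t
    apply propext
    have h2 : (t.length = s.length ∧ ∀ i < t.length, t.getD i 0 ≤ s.getD i 0 + 1) →
        (t ∈ TrOf (col S 0) ↔ t ∈ TrOf (col S' 0)) := by
      rintro ⟨h3, h4⟩
      have h5 : Nat.pair 0 (encode t) < b := by
        refine hb t ⟨h3, fun x hx => ?_⟩
        obtain ⟨i, hi, rfl⟩ := List.getElem_of_mem hx
        have h6 := h4 i hi
        rw [List.getD_eq_getElem _ _ hi] at h6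
        have h7 := D8_getD_le s i
        omega
      exact h _ h5
    unfold Adm
    constructor
    · rintro ⟨h3, h4⟩; exact ⟨(h2 h4).1 h3, h4⟩
    · rintro ⟨h3, h4⟩; exact ⟨(h2 h4).2 h3, h4⟩
  change lmf (TrOf (col S 0)) s = lmf (TrOf (col S' 0)) s
  rw [D8_lmf_eq, D8_lmf_eq, h1]

theorem D8_mapl {β γ : Type} (l : List β) (F : β → Set ℕ → γ) (h : ∀ x, FU (F x)) :
    FU (fun S => l.map (fun x => F x S)) := by
  induction l with
  | nil => exact FU.const _
  | cons a l ih => exact (h a).map2 (fun a l => a :: l) ih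

theorem D8_ind (n : ℕ) : FU (fun S => ind (col S 1) n) := by
  classical
  have h := (FU.mem (Nat.pair 1 n)).map (fun p : Prop => if p then 1 else 0)
  exact h

theorem D8_phb (s : List ℕ) : FU (fun S => phb (TrOf (col S 0)) (col S 1) s) := by
  refine FU.bind (H := fun (l : List ℕ) (S : Set ℕ) =>
    l.zipIdx.map (fun p => Nat.pair p.1 (ind (col S 1) p.2))) (D8_lmf s) fun l => ?_
  exact D8_mapl l.zipIdx (fun p S => Nat.pair p.1 (ind (col S 1) p.2))
    fun p => (D8_ind p.2).map (fun v => Nat.pair p.1 v)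

theorem D8_Lv (i : ℕ) : ∀ s : List ℕ, FU (fun S => Lv rho0 (phb (TrOf (col S 0)) (col S 1)) i s) := by
  induction i with
  | zero =>
      intro s
      exact (D8_phb s).map2 (fun a b => cp (a.take (s.headD 0)) (b.take (s.tail.headD 0))) (D8_phb s.tail)
  | succ i ih =>
      intro s
      exact (ih s).map2 (fun a b => cp (Jl rho0 a) (Jl rho0 b)) (ih s.tail)

theorem D8_att (j : ℕ) (s : List ℕ) : FU (fun S => att (phb (TrOf (col S 0)) (col S 1)) j s) := by
  classical
  rcases hj : j.unpair.2 with _ | c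
  · have h := (D8_Lv j.unpair.1 s).map2 (fun a b => decide (a.length < b.length))
      (D8_Lv j.unpair.1 s.tail)
    obtain ⟨b, hb⟩ := h
    refine ⟨b, fun S S' hS => ?_⟩
    have := hb S S' hS
    simp only [att, hj]
    convert this
  · have h := (D8_Lv j.unpair.1 s).map2 (fun a b => decide (ec c a < ec c b))
      (D8_Lv j.unpair.1 s.tail)
    obtain ⟨b, hb⟩ := h
    refine ⟨b, fun S S' hS => ?_⟩
    have := hb S S' hS
    simp only [att, hj]
    convert this

theorem D8 : D8S := by
  have h : Ar (fun (x : ℕ) S => att (phb (TrOf (col S 0)) (col S 1)) x.unpair.1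
      ((decode (α := List ℕ) x.unpair.2).getD []) = true) :=
    Ar.of_FU fun x => (D8_att _ _).map (fun v => v = true)
  filter_upwards [h.set_mem] with G hG M hM hGM S hS Y hY
  refine ⟨_, hG M hM hGM (jn S Y) (hM.jn_mem hS hY), fun j s => ?_⟩
  rw [jn_col_zero, jn_col_one]
  simp only [atr, Set.mem_ofPred_eq, Nat.unpair_pair, encodek, Option.getD_some]
  cases att (phb (TrOf S) Y) j s <;> simp

end FR
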