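import Pool.Agent.Lib.MP_ec866f_lc.Stmts

set_option autoImplicit false

namespace FR

open Filter Encodable

theorem D9_pre_length (X : ℕ → ℕ) (n : ℕ) : (pre X n).length = n := by simp [pre]

theorem D9_pre_getD (X : ℕ → ℕ) (n i : ℕ) (h : i < n) : (pre X n).getD i 0 = X i := by
  simp [pre, List.getD_eq_getElem?_getD, h]

theorem D9_tail_pre (X : ℕ → ℕ) (n : ℕ) : (pre X n).tail = pre (shk X 1) (n - 1) := by
  cases n with
  | zero => simp [pre]
  | succ n =>
      simp only [pre, List.range_succ_eq_map, List.map_cons, List.tail_cons, Nat.add_sub_cancel,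
        List.map_map]
      rfl

theorem D9_shk (X : ℕ → ℕ) (k : ℕ) : shk (shk X k) 1 = shk X (k + 1) := by
  funext n
  simp only [shk]
  congr 1
  omega

theorem D9_lim_unique {β : Type} {f : List ℕ → β} {X : ℕ → ℕ} {v w : β} (h : LimIs f X v)
    (h' : LimIs f X w) : v = w := by
  obtain ⟨n, h1, h2⟩ := (h.and h').exists
  rw [← h1, ← h2]

theorem D9_lim_tail {β : Type} {f : List ℕ → β} {X : ℕ → ℕ} {k : ℕ} {v : β}
    (h : LimIs f (shk X (k + 1)) v) : LimIs (fun s => f s.tail) (shk X k) v := by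
  have h1 := (tendsto_sub_atTop_nat 1).eventually h
  filter_upwards [h1] with n hn
  simp only [D9_tail_pre, D9_shk]
  exact hn

/-- limit values of the attributes -/
noncomputable def D9_attQ (B : ℕ → ℕ → ℕ) (X : ℕ → ℕ) (j k : ℕ) : Bool :=
  match j.unpair.2 with
  | 0 => decide ((Qv rho0 B X j.unpair.1 k).length < (Qv rho0 B X j.unpair.1 (k + 1)).length)
  | c + 1 => decide (ec c (Qv rho0 B X j.unpair.1 k) < ec c (Qv rho0 B X j.unpair.1 (k + 1)))

theorem D9_att_lim {ph : List ℕ → List ℕ} {B : ℕ → ℕ → ℕ} {X : ℕ → ℕ}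
    (h : ∀ i k, LimIs (Lv rho0 ph i) (shk X k) (Qv rho0 B X i k)) (j k : ℕ) :
    LimIs (att ph j) (shk X k) (D9_attQ B X j k) := by
  have h1 := h j.unpair.1 k
  have h2 := D9_lim_tail (h j.unpair.1 (k + 1))
  filter_upwards [h1, h2] with n a b
  simp only [att, D9_attQ]
  rw [a, b]
  cases (Nat.unpair j).2 <;> rfl

theorem D9_cp_length (a b : List ℕ) : (cp a b).length ≤ a.length := by
  induction a generalizing b with
  | nil => simp [cp]
  | cons x a ih =>
      cases b with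
      | nil => simp [cp]
      | cons y b =>
          simp only [cp]
          split_ifs
          · simpa using ih b
          · simp

theorem D9_Q_length (B : ℕ → ℕ → ℕ) (X : ℕ → ℕ) (i k : ℕ) : (Qv rho0 B X i k).length ≤ X k := by
  induction i generalizing k with
  | zero =>
      simp only [Qv]
      exact (D9_cp_length _ _).trans (by simp [pre])
  | succ i ih =>
      simp only [Qv]
      exact (D9_cp_length _ _).trans (by simpa [Jl] using ih k)

theorem D9_lex_trans {f g h : ℕ → ℕ} (h1 : LexLe f g) (h2 : LexLe g h) : LexLe f h := by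
  rcases h1 with rfl | ⟨n, hn, hn'⟩
  · exact h2
  · rcases h2 with rfl | ⟨m, hm, hm'⟩
    · exact Or.inr ⟨n, hn, hn'⟩
    · right
      rcases lt_trichotomy n m with h | h | h
      · exact ⟨n, fun i hi => (hn i hi).trans (hm i (hi.trans h)), by rw [← hm n h]; exact hn'⟩
      · subst h
        exact ⟨n, fun i hi => (hn i hi).trans (hm i hi), hn'.trans hm'⟩
      · exact ⟨m, fun i hi => (hn i (hi.trans h)).trans (hm i hi), by rw [hn m h]; exact hm'⟩

theorem D9_fin (s : List ℕ) :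
    {t : List ℕ | t.length = s.length ∧ ∀ i < t.length, t.getD i 0 ≤ s.getD i 0 + 1}.Finite := by
  have h1 : (Set.pi Set.univ (fun i : Fin s.length => Set.Iic (s.getD i 0 + 1))).Finite :=
    Set.Finite.pi (fun i => Set.finite_Iic _)
  refine (h1.image (fun g : Fin s.length → ℕ => List.ofFn g)).subset ?_
  rintro t ⟨h2, h3⟩
  refine ⟨fun i => t.getD i 0, ?_, ?_⟩
  · intro i _
    exact h3 i (by rw [h2]; exact i.2)
  · apply List.ext_getElem
    · simp [h2]
    · intro i hi hi'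
      simp [List.getD_eq_getElem?_getD, hi']

open Classical in
noncomputable def D9_F (Ad : List ℕ → Prop) : List ℕ :=
  if h : ∃ t, Ad t ∧ ∀ t', Ad t' → LLe t t' then h.choose else []

theorem D9_fu_lmf (s : List ℕ) : FU (fun S => lmf (TrOf S) s) := by
  obtain ⟨b, hb⟩ := ((D9_fin s).image (fun t : List ℕ => encode t)).bddAbove
  refine ⟨b + 1, fun S S' h => ?_⟩
  have h1 : Adm (TrOf S) s = Adm (TrOf S') s := by
    funext t
    apply propext
    simp only [Adm]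
    constructor
    · rintro ⟨h2, h3, h4⟩
      refine ⟨?_, h3, h4⟩
      exact (h _ (Nat.lt_succ_of_le (hb ⟨t, ⟨h3, h4⟩, rfl⟩))).1 h2
    · rintro ⟨h2, h3, h4⟩
      refine ⟨?_, h3, h4⟩
      exact (h _ (Nat.lt_succ_of_le (hb ⟨t, ⟨h3, h4⟩, rfl⟩))).2 h2
  exact congrArg D9_F h1

theorem D9_fu_col {β : Type} {F : Set ℕ → β} (h : FU F) (i : ℕ) : FU (fun S => F (col S i)) := by
  obtain ⟨b, hb⟩ := h
  obtain ⟨c, hc⟩ := ((Finset.range b).image (fun n => Nat.pair i n)).bddAbove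
  refine ⟨c + 1, fun S S' h => hb _ _ fun n hn => ?_⟩
  exact h _ (Nat.lt_succ_of_le (hc (by
    simp only [Finset.coe_image, Finset.coe_range]
    exact ⟨n, hn, rfl⟩)))

/-- definition of the limit path from the tree and the sequence -/
def D9_P (p : ℕ) (R : Set ℕ) : Prop :=
  ∃ K : ℕ, ∀ k : ℕ, K ≤ k → ∃ N : ℕ, ∀ n : ℕ, N ≤ n → ∃ s : List ℕ,
    (s.length = n ∧ (lmf (TrOf (col R 0)) s).getD p.unpair.1 0 = p.unpair.2) ∧
      ∀ i : ℕ, i < n → Nat.pair 1 (Nat.pair (i + k) (s.getD i 0)) ∈ R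

theorem D9_ar : Ar D9_P := by
  refine Ar.ex (P := fun (q : ℕ × ℕ) R => ∀ k : ℕ, q.2 ≤ k → ∃ N : ℕ, ∀ n : ℕ, N ≤ n → ∃ s : List ℕ,
    (s.length = n ∧ (lmf (TrOf (col R 0)) s).getD q.1.unpair.1 0 = q.1.unpair.2) ∧
      ∀ i : ℕ, i < n → Nat.pair 1 (Nat.pair (i + k) (s.getD i 0)) ∈ R) ?_
  refine Ar.all (P := fun (q : (ℕ × ℕ) × ℕ) R => q.1.2 ≤ q.2 → ∃ N : ℕ, ∀ n : ℕ, N ≤ n → ∃ s : List ℕ,
    (s.length = n ∧ (lmf (TrOf (col R 0)) s).getD q.1.1.unpair.1 0 = q.1.1.unpair.2) ∧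
      ∀ i : ℕ, i < n → Nat.pair 1 (Nat.pair (i + q.2) (s.getD i 0)) ∈ R) ?_
  refine (Ar.free _).imp ?_
  refine Ar.ex (P := fun (q : ((ℕ × ℕ) × ℕ) × ℕ) R => ∀ n : ℕ, q.2 ≤ n → ∃ s : List ℕ,
    (s.length = n ∧ (lmf (TrOf (col R 0)) s).getD q.1.1.1.unpair.1 0 = q.1.1.1.unpair.2) ∧
      ∀ i : ℕ, i < n → Nat.pair 1 (Nat.pair (i + q.1.2) (s.getD i 0)) ∈ R) ?_
  refine Ar.all (P := fun (q : (((ℕ × ℕ) × ℕ) × ℕ) × ℕ) R => q.1.2 ≤ q.2 → ∃ s : List ℕ,
    (s.length = q.2 ∧ (lmf (TrOf (col R 0)) s).getD q.1.1.1.1.unpair.1 0 = q.1.1.1.1.unpair.2) ∧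
      ∀ i : ℕ, i < q.2 → Nat.pair 1 (Nat.pair (i + q.1.1.2) (s.getD i 0)) ∈ R) ?_
  refine (Ar.free _).imp ?_
  refine Ar.ex (P := fun (q : ((((ℕ × ℕ) × ℕ) × ℕ) × ℕ) × List ℕ) R =>
    (q.2.length = q.1.2 ∧ (lmf (TrOf (col R 0)) q.2).getD q.1.1.1.1.1.unpair.1 0 = q.1.1.1.1.1.unpair.2) ∧
      ∀ i : ℕ, i < q.1.2 → Nat.pair 1 (Nat.pair (i + q.1.1.1.2) (q.2.getD i 0)) ∈ R) ?_
  refine Ar.and ?_ ?_
  · refine Ar.of_FU fun q => ?_
    exact (FU.const _).and ((D9_fu_col (D9_fu_lmf q.2) 0).map (fun l => l.getD q.1.1.1.1.1.unpair.1 0 = q.1.1.1.1.1.unpair.2))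
  · refine Ar.all (P := fun (q : (((((ℕ × ℕ) × ℕ) × ℕ) × ℕ) × List ℕ) × ℕ) R =>
      q.2 < q.1.1.2 → Nat.pair 1 (Nat.pair (q.2 + q.1.1.1.1.2) (q.1.2.getD q.2 0)) ∈ R) ?_
    exact (Ar.free _).imp (Ar.mem _)

theorem D9 (h1 : D1S) (h2 : D2S) (h3 : D3S) (h4 : D4S) (h5 : D5S) (h6 : D6S) (h7 : D7S)
    (h8 : D8S) : D9S := by
  filter_upwards [h8, D9_ar.set_mem] with G g8 gm M hM hG hSt S hS Y hY htree hP
  obtain ⟨S', hS', hatt⟩ := g8 M hM hG S hS Y hY
  have hatr : ∀ j, atr S' j = att (phb (TrOf S) Y) j := fun j => funext fun s => hatt j s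
  have hLs : ∀ X : ℕ → ℕ, ∃ Ls : ℕ → ℕ → ℕ, (∀ k, LM (TrOf S) (shk X k) (Ls k)) ∧
      (∀ k n, (lmf (TrOf S) (pre (shk X k) n)).length = n) ∧
      (∀ k N, ∀ᶠ n in atTop, (lmf (TrOf S) (pre (shk X k) n)).take N = pre (Ls k) N) := by
    intro X
    choose Ls hl using fun k => h1 (TrOf S) (shk X k) htree hP
    exact ⟨Ls, fun k => (hl k).1, fun k => (hl k).2.1, fun k => (hl k).2.2⟩
  have hlim : ∀ i, ∀ X : ℕ → ℕ, StrictMono X → ∃ v, LimIs (atr S' i) X v := by
    intro j X _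
    obtain ⟨Ls, hl1, hl2, hl3⟩ := hLs X
    have h9 := D9_att_lim (h7 (TrOf S) Y X Ls hl2 hl3) j 0
    rw [hatr]
    exact ⟨_, h9⟩
  obtain ⟨X, hX, hXM, hstab⟩ := hSt S' hS' hlim
  obtain ⟨Ls, hl1, hl2, hl3⟩ := hLs X
  have h9 := D9_att_lim (h7 (TrOf S) Y X Ls hl2 hl3)
  have hst : ∀ j, ∃ v, ∀ᶠ k in atTop, D9_attQ (fun k => base Y (Ls k)) X j k = v := by
    intro j
    obtain ⟨v, hv⟩ := hstab j
    refine ⟨v, ?_⟩
    filter_upwards [hv] with k hk
    rw [hatr] at hk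
    exact D9_lim_unique (h9 j k) hk
  obtain ⟨Li, hLi1, hLi2, hLi3⟩ := h2 (TrOf S) X Ls hX hl1
  have hXk : ∀ k, k ≤ X k := hX.id_le
  have hconv : Conv (fun k => pre (base Y (Ls k)) (X k)) (base Y Li) := by
    intro N
    have h10 : ∀ᶠ k in atTop, ∀ n ∈ Finset.range N, Ls k n = Li n := by
      rw [Filter.eventually_all_finset]
      intro n _
      exact hLi2 n
    filter_upwards [h10, eventually_ge_atTop N] with k hk hk2
    have hN : N ≤ X k := hk2.trans (hXk k)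
    refine ⟨by simpa [pre] using hN, ?_⟩
    simp only [pre]
    rw [← List.map_take, List.take_range, min_eq_left hN]
    apply List.map_congr_left
    intro n hn
    simp only [base]
    rw [hk n (by simpa using hn)]
  have hgrow : ∀ i, Grow (Qv rho0 (fun k => base Y (Ls k)) X i) (Gf rho0 (base Y Li) i) := by
    intro i
    induction i with
    | zero =>
        obtain ⟨v, hv⟩ := hst (Nat.pair 0 0)
        have := h3 _ _ hconv ⟨v, by simpa [D9_attQ, Qv] using hv⟩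
        exact this
    | succ i ih =>
        obtain ⟨v, hv⟩ := hst (Nat.pair (i + 1) 0)
        have h10 := h4 rho0 _ _ ih
        have := h3 _ _ h10 ⟨v, by simpa [D9_attQ, Qv] using hv⟩
        exact this
  obtain ⟨hA1, hA2, hA3⟩ := h6 Y Li
  refine ⟨Li, ?_, hLi1, LA (base Y Li), hA1, hA2, hA3, ?_⟩
  · have h10 := gm M hM hG (jn S (gr X)) (hM.jn_mem hS hXM)
    convert h10 using 1
    ext p
    have hR1 : ∀ i v, Nat.pair 1 (Nat.pair i v) ∈ jn S (gr X) ↔ X i = v := by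
      intro i v; simp [jn]
    simp only [mem_gr, Set.mem_ofPred_eq, D9_P, jn_col_zero, hR1]
    constructor
    · intro hp
      obtain ⟨K, hK⟩ := eventually_atTop.1 (hLi2 p.unpair.1)
      refine ⟨K, fun k hk => ?_⟩
      obtain ⟨N, hN⟩ := eventually_atTop.1 (hl3 k (p.unpair.1 + 1))
      refine ⟨max N (p.unpair.1 + 1), fun n hn => ⟨pre (shk X k) n, ⟨by simp [pre], ?_⟩, ?_⟩⟩
      · have h11 := hN n (le_trans (le_max_left _ _) hn)
        have h12 : ((lmf (TrOf S) (pre (shk X k) n)).take (p.unpair.1 + 1)).getD p.unpair.1 0 =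
            Ls k p.unpair.1 := by
          rw [h11]; exact D9_pre_getD _ _ _ (Nat.lt_succ_self _)
        have h13 : ((lmf (TrOf S) (pre (shk X k) n)).take (p.unpair.1 + 1)).getD p.unpair.1 0 =
            (lmf (TrOf S) (pre (shk X k) n)).getD p.unpair.1 0 := by
          simp [List.getD_eq_getElem?_getD]
        rw [← h13, h12, hK k hk, hp]
      · intro i hi
        rw [D9_pre_getD _ _ _ hi]
        rfl
    · rintro ⟨K, hK⟩
      obtain ⟨K', hK'⟩ := eventually_atTop.1 (hLi2 p.unpair.1)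
      have hk1 := hK (max K K') (le_max_left _ _)
      have hk2 := hK' (max K K') (le_max_right _ _)
      obtain ⟨N, hN⟩ := hk1
      obtain ⟨N', hN'⟩ := eventually_atTop.1 (hl3 (max K K') (p.unpair.1 + 1))
      obtain ⟨s, ⟨hs1, hs2⟩, hs3⟩ := hN (max N (max N' (p.unpair.1 + 1))) (le_max_left _ _)
      have h11 := hN' (max N (max N' (p.unpair.1 + 1))) (le_trans (le_max_left _ _) (le_max_right _ _))
      have hs : s = pre (shk X (max K K')) (max N (max N' (p.unpair.1 + 1))) := by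
        apply List.ext_getElem
        · rw [hs1]; simp [pre]
        · intro i hi hi'
          have := hs3 i (by rw [← hs1]; exact hi)
          rw [List.getD_eq_getElem _ _ hi] at this
          simp only [pre, List.getElem_map, List.getElem_range, shk]
          exact this.symm
      have h12 : ((lmf (TrOf S) s).take (p.unpair.1 + 1)).getD p.unpair.1 0 =
            Ls (max K K') p.unpair.1 := by
        rw [hs, h11]; exact D9_pre_getD _ _ _ (Nat.lt_succ_self _)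
      have h13 : ((lmf (TrOf S) s).take (p.unpair.1 + 1)).getD p.unpair.1 0 =
            (lmf (TrOf S) s).getD p.unpair.1 0 := by
        simp [List.getD_eq_getElem?_getD]
      rw [← hk2, ← h12, h13, hs2]
  · rintro L' ⟨i, e, he⟩ hpath
    obtain ⟨v, hv⟩ := hst (Nat.pair (i + 1) (e + 1))
    obtain ⟨K, hK⟩ := h5 _ _ L' e (hgrow (i + 1)) (fun m v => by
      have := he (Nat.pair m v)
      simp only [mem_gr, Nat.unpair_pair] at this
      exact this.symm) ⟨v, by simpa [D9_attQ] using hv⟩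
    have hb : bnd (shk X K) L' := fun n =>
      (hK n).trans ((D9_Q_length _ _ _ _).trans (Nat.le_succ _))
    exact D9_lex_trans (hLi3 K) ((hl1 K).2.2 L' hpath hb)

end FR
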