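import Pool.Agent.Lib.MP_ec866f_lc.Stmts

set_option autoImplicit false

namespace FR

open Filter Encodable

theorem E1 : E1S := by
  intro O v c
  induction c with
  | mem => intro h a; exact h a
  | neg c ih =>
      intro h a
      have h1 := h.2 a
      have h2 := ih h.1 a
      change v (.neg c) a ≠ 0 ↔ ¬ c.ev O a
      rw [h1, ← h2]
      simp
  | and c d ih1 ih2 =>
      intro h a
      have h3 := h.2.2 a
      change v (.and c d) a ≠ 0 ↔ (c.ev O a ∧ d.ev O a)
      rw [h3, ih1 h.1 a, ih2 h.2.1 a]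
  | ex c ih =>
      intro h a
      obtain ⟨h1, h2⟩ := h.2 a
      change v (.ex c) a ≠ 0 ↔ ∃ b, c.ev O (Nat.pair a b)
      constructor
      · intro hne
        obtain ⟨b, hb⟩ := Nat.exists_eq_succ_of_ne_zero hne
        exact ⟨b, (ih h.1 _).1 (h2 b hb)⟩
      · rintro ⟨b, hb⟩ h0
        exact (ih h.1 _).2 hb (h1 h0 b)
  | sub t c ih =>
      intro h a
      change v (.sub t c) a ≠ 0 ↔ c.ev O (t.ev a)
      rw [h.2 a, ih h.1 _]

end FR
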