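import Pool.Agent.Lib.MP_ec866f_lc.Stmts

/-! module E10: uniqueness of hierarchies inside a closed family. -/

set_option autoImplicit false

namespace FR

open Filter Encodable

/-- the part described by `p` is closed downwards. -/
theorem E10_dom {W : Set ℕ} (hW : IsLO W) {p q r : ℕ} (hq : dom W p q) (hr : Nat.pair r q ∈ W)
    (hne : r ≠ q) : dom W p r := by
  obtain ⟨h1, h2, h3, h4⟩ := hW
  refine ⟨(h1 r q hr).1, fun p0 hp0 => ?_⟩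
  obtain ⟨h5, h6⟩ := hq.2 p0 hp0
  refine ⟨h2 r q p0 hr h5, fun h => ?_⟩
  subst h
  exact hne (h3 r q hr h5)

theorem E10_ar_dom (p : ℕ) : Ar (fun (q : ℕ) (S : Set ℕ) => dom (col S 0) p q) := by
  have h1 : Ar (fun (q : ℕ) (S : Set ℕ) => Nat.pair 0 (Nat.pair q q) ∈ S) :=
    Ar.mem (fun q : ℕ => Nat.pair 0 (Nat.pair q q))
  have h2 : Ar (fun (q : ℕ) (S : Set ℕ) => ∀ p' : ℕ, p = p' + 1 →
      (Nat.pair 0 (Nat.pair q p') ∈ S ∧ q ≠ p')) := by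
    refine Ar.all (P := fun (z : ℕ × ℕ) S => p = z.2 + 1 →
      (Nat.pair 0 (Nat.pair z.1 z.2) ∈ S ∧ z.1 ≠ z.2)) ?_
    exact (Ar.free _).imp ((Ar.mem (fun z : ℕ × ℕ => Nat.pair 0 (Nat.pair z.1 z.2))).and (Ar.free _))
  exact h1.and h2

theorem E10_ar (p p' : ℕ) : Ar (fun (q : ℕ) (S : Set ℕ) => (dom (col S 0) p q ∧ dom (col S 0) p' q) ∧
    ∃ n : ℕ, ¬ (Nat.pair q n ∈ col (col S 1) 0 ↔ Nat.pair q n ∈ col (col S 1) 1)) := by
  refine ((E10_ar_dom p).and (E10_ar_dom p')).and ?_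
  refine Ar.ex (P := fun (z : ℕ × ℕ) S =>
    ¬ (Nat.pair 1 (Nat.pair 0 (Nat.pair z.1 z.2)) ∈ S ↔ Nat.pair 1 (Nat.pair 1 (Nat.pair z.1 z.2)) ∈ S)) ?_
  exact ((Ar.mem (fun z : ℕ × ℕ => Nat.pair 1 (Nat.pair 0 (Nat.pair z.1 z.2)))).iff
    (Ar.mem (fun z : ℕ × ℕ => Nat.pair 1 (Nat.pair 1 (Nat.pair z.1 z.2))))).not

theorem E10 : E10S := by
  filter_upwards [rich_countable (fun z : ℕ × ℕ => (E10_ar z.1 z.2).set_mem)] with G hG A hA hGA W hW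
    hLO hmin c Y p p' H hH H' hH' h1 h2
  by_contra hcon
  push Not at hcon
  obtain ⟨x, hx1, hx2, hx3⟩ := hcon
  have hS : jn W (jn H H') ∈ A := hA.jn_mem hW (hA.jn_mem hH hH')
  have hP := hG (p, p') A hA hGA _ hS
  simp only [jn_col_zero, jn_col_one] at hP
  have hx3' : ¬ (x ∈ H ↔ x ∈ H') := by tauto
  obtain ⟨q, ⟨⟨hq1, hq2⟩, n, hn⟩, hqq, hql⟩ := hmin _ hP
    ⟨x.unpair.1, ⟨⟨hx1, hx2⟩, x.unpair.2, by rwa [Nat.pair_unpair]⟩, hx1.1⟩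
  have hlow : low W H q = low W H' q := by
    ext y
    simp only [low, Set.mem_ofPred_eq]
    refine and_congr_right fun hy1 => and_congr_right fun hy2 => ?_
    by_contra hy3
    have hd1 := E10_dom hLO hq1 hy1 hy2
    have hd2 := E10_dom hLO hq2 hy1 hy2
    have hyP := hql y.unpair.1 ⟨⟨hd1, hd2⟩, y.unpair.2, by rwa [Nat.pair_unpair]⟩ hd1.1
    exact hy2 (hLO.2.2.1 _ _ hy1 hyP)
  apply hn
  rw [h1, h2]
  simp only [Nat.unpair_pair]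
  rw [hlow]
  exact ⟨fun h => ⟨hq2, h.2⟩, fun h => ⟨hq1, h.2⟩⟩

end FR
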