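import Pool.Agent.Lib.MP_ec866f_lc.Stmts

set_option autoImplicit false

namespace FR

open Filter Encodable

open Classical in
/-- the function with graph `S` (total by convention) -/
noncomputable def E11_lof (S : Set ℕ) (x : ℕ) : ℕ :=
  if h : ∃ v, Nat.pair x v ∈ S then Nat.find h else 0

theorem E11_lof_gr (L : ℕ → ℕ) : E11_lof (gr L) = L := by
  classical
  funext x
  have h : ∃ v, Nat.pair x v ∈ gr L := ⟨L x, by simp⟩
  simp only [E11_lof, dif_pos h]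
  have := Nat.find_spec h
  simpa using this.symm

theorem E11_lof_ar : Ar (fun (p : ℕ × ℕ) S => E11_lof S p.1 = p.2) := by
  classical
  have h1 : Ar (fun (p : ℕ × ℕ) S => ∃ v : ℕ, Nat.pair p.1 v ∈ S) :=
    Ar.ex (P := fun (q : (ℕ × ℕ) × ℕ) S => Nat.pair q.1.1 q.2 ∈ S)
      (Ar.mem (fun q : (ℕ × ℕ) × ℕ => Nat.pair q.1.1 q.2))
  have h2 : Ar (fun (p : ℕ × ℕ) S => ∀ v : ℕ, v < p.2 → ¬ Nat.pair p.1 v ∈ S) :=
    Ar.all (P := fun (q : (ℕ × ℕ) × ℕ) S => q.2 < q.1.2 → ¬ Nat.pair q.1.1 q.2 ∈ S)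
      ((Ar.free _).imp (Ar.mem (fun q : (ℕ × ℕ) × ℕ => Nat.pair q.1.1 q.2)).not)
  have h3 : Ar (fun (p : ℕ × ℕ) S => Nat.pair p.1 p.2 ∈ S) := Ar.mem _
  refine ((h1.not.and (Ar.free (fun p : ℕ × ℕ => p.2 = 0))).or (h3.and h2)).congr fun p S => ?_
  by_cases h : ∃ v, Nat.pair p.1 v ∈ S
  · simp only [E11_lof, dif_pos h]
    rw [Nat.find_eq_iff]
    constructor
    · rintro (⟨h4, _⟩ | h4)
      · exact absurd h h4
      · exact h4
    · intro h4; exact Or.inr h4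
  · simp only [E11_lof, dif_neg h]
    constructor
    · rintro (⟨_, h4⟩ | ⟨h4, _⟩)
      · exact h4.symm
      · exact absurd ⟨_, h4⟩ h
    · intro h4; exact Or.inl ⟨h, h4.symm⟩

theorem E11_gg_ar : Ar (fun (p : (ℕ × ℕ) × ℕ) S => gg (E11_lof S) p.1.1 p.1.2 = p.2) := by
  refine (E11_lof_ar.comp (fun p : (ℕ × ℕ) × ℕ =>
    ((if p.1.1 = 0 then Nat.pair 0 p.1.2 else Nat.pair p.1.1 (p.1.2 + 1)), p.2))).congr fun p S => ?_
  obtain ⟨⟨m, n⟩, v⟩ := p
  cases m with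
  | zero => simp [gg]
  | succ m => simp [gg]

/-- nonvanishing of `gg` -/
theorem E11_sup_ar : Ar (fun (p : ℕ × ℕ) S => p.2 ∈ sup (gg (E11_lof S) p.1)) :=
  ((E11_gg_ar.comp (fun p : ℕ × ℕ => ((p.1, p.2), 0))).not)

/-- `p = (w, (p', q))` -/
theorem E11_dom_ar : Ar (fun (p : ℕ × (ℕ × ℕ)) S => dom (sup (gg (E11_lof S) p.1)) p.2.1 p.2.2) := by
  refine Ar.and (E11_sup_ar.comp (fun p : ℕ × (ℕ × ℕ) => (p.1, Nat.pair p.2.2 p.2.2))) ?_
  refine Ar.all (P := fun (q : (ℕ × (ℕ × ℕ)) × ℕ) S => q.1.2.1 = q.2 + 1 →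
    (Nat.pair q.1.2.2 q.2 ∈ sup (gg (E11_lof S) q.1.1) ∧ q.1.2.2 ≠ q.2)) ?_
  exact (Ar.free _).imp ((E11_sup_ar.comp
    (fun q : (ℕ × (ℕ × ℕ)) × ℕ => (q.1.1, Nat.pair q.1.2.2 q.2))).and (Ar.free _))

/-- `p = (c, w, p', m, x)` -/
theorem E11_HS_ar : Ar (fun (p : Code × ℕ × ℕ × ℕ × ℕ) S =>
    p.2.2.2.2 ∈ HS p.1 (sup (gg (E11_lof S) p.2.1)) p.2.2.1 (gg (E11_lof S) p.2.2.2.1)) := by
  refine Ar.and (E11_dom_ar.comp (fun p : Code × ℕ × ℕ × ℕ × ℕ =>
    (p.2.1, (p.2.2.1, p.2.2.2.2.unpair.1)))) ?_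
  exact (E11_gg_ar.comp (fun p : Code × ℕ × ℕ × ℕ × ℕ =>
    ((p.2.2.2.1, Nat.pair p.2.2.2.2.unpair.1 (Nat.pair p.1.enc p.2.2.2.2)), 0))).not

/-- the oracle for `q` -/
noncomputable def E11_O (c : Code) (w w' : ℕ) (L : ℕ → ℕ) (q : ℕ) : Set ℕ :=
  jn (sup (gg L w')) (HS c (sup (gg L w)) (q + 1) (gg L (Rq.hier c w w' (q + 1)).ix))

theorem E11_O_ar (c : Code) (w w' : ℕ) :
    Ar (fun (p : (ℕ × ℕ) × ℕ) S => p.2 ∈ E11_O c w w' (E11_lof S) p.1.1.unpair.1) := by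
  refine Ar.or (Ar.and (Ar.free _) (E11_sup_ar.comp (fun p : (ℕ × ℕ) × ℕ => (w', p.2.unpair.2))))
    (Ar.and (Ar.free _) (E11_HS_ar.comp (fun p : (ℕ × ℕ) × ℕ =>
      (c, w, p.1.1.unpair.1 + 1, (Rq.hier c w w' (p.1.1.unpair.1 + 1)).ix, p.2.unpair.2))))

open Classical in
/-- the function sought -/
noncomputable def E11_F (W : Set ℕ → ℕ → ℕ) (c : Code) (w w' p : ℕ) (L : ℕ → ℕ) (x : ℕ) : ℕ :=
  if dom (sup (gg L w)) p x.unpair.1 then W (E11_O c w w' L x.unpair.1) x.unpair.2 else 0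

theorem E11_F_ar (W : Set ℕ → ℕ → ℕ) (hW : Ar (fun (p : ℕ × ℕ) O => W O p.1 = p.2))
    (c : Code) (w w' p : ℕ) :
    Ar (fun (x : ℕ × ℕ) S => E11_F W c w w' p (E11_lof S) x.1 = x.2) := by
  classical
  have h1 : Ar (fun (x : ℕ × ℕ) S => dom (sup (gg (E11_lof S) w)) p x.1.unpair.1) :=
    E11_dom_ar.comp (fun x : ℕ × ℕ => (w, (p, x.1.unpair.1)))
  have h2 : Ar (fun (x : ℕ × ℕ) S => W (E11_O c w w' (E11_lof S) x.1.unpair.1) x.1.unpair.2 = x.2) :=
    Ar.subst (P := fun (x : ℕ × ℕ) O => W O x.1.unpair.2 = x.2)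
      (hW.comp (fun x : ℕ × ℕ => (x.1.unpair.2, x.2)))
      (B := fun x S => E11_O c w w' (E11_lof S) x.1.unpair.1) (E11_O_ar c w w')
  refine ((h1.and h2).or (h1.not.and (Ar.free (fun x : ℕ × ℕ => x.2 = 0)))).congr fun x S => ?_
  by_cases h : dom (sup (gg (E11_lof S) w)) p x.1.unpair.1
  · simp only [E11_F, if_pos h]
    constructor
    · rintro (⟨_, h4⟩ | ⟨h4, _⟩)
      · exact h4
      · exact absurd h h4
    · intro h4; exact Or.inl ⟨h, h4⟩
  · simp only [E11_F, if_neg h]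
    constructor
    · rintro (⟨h4, _⟩ | ⟨_, h4⟩)
      · exact absurd h4 h
      · exact h4.symm
    · intro h4; exact Or.inr ⟨h, h4.symm⟩

theorem E11_dom_down {W : Set ℕ} (hW : IsLO W) {p q r : ℕ} (hq : dom W p q)
    (h1 : Nat.pair r q ∈ W) : dom W p r := by
  refine ⟨(hW.1 _ _ h1).1, fun p' hp' => ?_⟩
  obtain ⟨h2, h3⟩ := hq.2 p' hp'
  refine ⟨hW.2.1 _ _ _ h1 h2, fun h => h3 ?_⟩
  subst h
  exact hW.2.2.1 _ _ h2 h1

theorem E11 (h1 : E1S) (h2 : E2S) (h8 : E8S) (h9 : E9S) (h10 : E10S) : E11S := by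
  classical
  choose Wc hWc hSk using h2
  have hF : ∀ᶠ G in rich, ∀ i : Code × ℕ × ℕ × ℕ, ∀ M : Set (Set ℕ), ACA M → G ∈ M → ∀ S ∈ M,
      gr (E11_F (Wc i.1) i.1 i.2.1 i.2.2.1 i.2.2.2 (E11_lof S)) ∈ M :=
    rich_countable fun i => (E11_F_ar (Wc i.1) (hWc i.1) i.1 i.2.1 i.2.2.1 i.2.2.2).gr_mem
  have hH : ∀ᶠ G in rich, ∀ i : Code × ℕ × ℕ × ℕ, ∀ M : Set (Set ℕ), ACA M → G ∈ M → ∀ S ∈ M,
      {n | n ∈ HS i.1 (sup (gg (E11_lof S) i.2.1)) i.2.2.1 (gg (E11_lof S) i.2.2.2)} ∈ M :=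
    rich_countable fun i => (E11_HS_ar.comp
      (fun n : ℕ => (i.1, i.2.1, i.2.2.1, i.2.2.2, n))).set_mem
  have hS : ∀ᶠ G in rich, ∀ i : ℕ, ∀ M : Set (Set ℕ), ACA M → G ∈ M → ∀ S ∈ M,
      {n | n ∈ sup (gg (E11_lof S) i)} ∈ M :=
    rich_countable fun i => (E11_sup_ar.comp (fun n : ℕ => (i, n))).set_mem
  filter_upwards [hF, hH, hS, h8, h10] with G gF gH gS g8 g10 L A hSit w hLO hND c w' p hacc
  have hLA := hSit.lA
  have hW : sup (gg L w) ∈ A := by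
    have := gS w A hSit.aca hSit.gA _ hLA
    rw [E11_lof_gr] at this
    exact this
  have hHA : ∀ q m : ℕ, HS c (sup (gg L w)) q (gg L m) ∈ A := by
    intro q m
    have := gH (c, w, q, m) A hSit.aca hSit.gA _ hLA
    simp only [E11_lof_gr] at this
    exact this
  obtain ⟨_, hleast⟩ := g8 L A hSit w hLO hND
  have hcoh := g10 A hSit.aca hSit.gA (sup (gg L w)) hW hLO hleast c (sup (gg L w'))
  have hto : ∀ q, dom (sup (gg L w)) p q → HierTo c (sup (gg L w)) (sup (gg L w')) (q + 1)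
      (HS c (sup (gg L w)) (q + 1) (gg L (Rq.hier c w w' (q + 1)).ix)) :=
    fun q hq => h9 c w w' (q + 1) (gg L) _ (hacc q hq)
  refine ⟨E11_F (Wc c) c w w' p L, ?_, ?_⟩
  · have := gF (c, w, w', p) A hSit.aca hSit.gA _ hLA
    simp only [E11_lof_gr] at this
    exact this
  · set W := sup (gg L w) with hWdef
    set Y := sup (gg L w') with hYdef
    set HQ : ℕ → Set ℕ := fun q => HS c W (q + 1) (gg L (Rq.hier c w w' (q + 1)).ix) with hHQ
    have hO : ∀ q, E11_O c w w' L q = jn Y (HQ q) := fun q => rfl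
    have hval : ∀ q, dom W p q → ∀ y, E11_F (Wc c) c w w' p L (Nat.pair q y) = Wc c (jn Y (HQ q)) y := by
      intro q hq y
      have h3 : dom (sup (gg L w)) p q := hq
      simp only [E11_F, Nat.unpair_pair, if_pos h3]
      rw [hO]
    have hmem : ∀ x, dom W p x.unpair.1 → (x ∈ HS c W p (E11_F (Wc c) c w w' p L) ↔
        c.ev (jn Y (HQ x.unpair.1)) x) := by
      intro x hx
      have h3 := h1 (jn Y (HQ x.unpair.1)) (fun c' a => Wc c (jn Y (HQ x.unpair.1)) (Nat.pair c'.enc a)) c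
        (hSk c _) x
      rw [← h3]
      constructor
      · rintro ⟨_, h4⟩
        rwa [hval _ hx] at h4
      · intro h4
        refine ⟨hx, ?_⟩
        rw [hval _ hx]; exact h4
    -- coherence
    have hlow : ∀ q r, dom W p q → Nat.pair r q ∈ W → r ≠ q → low W (HQ q) r = HQ r := by
      intro q r hq hrq hne
      have hr : dom W p r := E11_dom_down hLO hq hrq
      have hc := hcoh (q + 1) (r + 1) (HQ q) (hHA _ _) (HQ r) (hHA _ _) (hto q hq) (hto r hr)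
      ext y
      constructor
      · rintro ⟨h3, h4, h5⟩
        have h6 := (hto q hq y).1 h5
        have h7 : dom W (r + 1) y.unpair.1 := by
          refine ⟨(hLO.1 _ _ h3).1, fun p' hp' => ?_⟩
          have : r = p' := by omega
          subst this
          exact ⟨h3, h4⟩
        exact (hc y h6.1 h7).1 h5
      · intro h5
        have h6 := (hto r hr y).1 h5
        obtain ⟨h3, h4⟩ := h6.1.2 r rfl
        have h7 : dom W (q + 1) y.unpair.1 := by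
          refine ⟨(hLO.1 _ _ h3).1, fun p' hp' => ?_⟩
          have : q = p' := by omega
          subst this
          refine ⟨hLO.2.1 _ _ _ h3 hrq, fun h8 => ?_⟩
          rw [h8] at h3
          exact hne (hLO.2.2.1 _ _ hrq h3)
        exact ⟨h3, h4, (hc y h7 h6.1).2 h5⟩
    have hmain : ∀ q, dom W p q → low W (HS c W p (E11_F (Wc c) c w w' p L)) q = HQ q := by
      intro q hq
      ext x
      constructor
      · rintro ⟨h3, h4, h5⟩
        have h6 : dom W p x.unpair.1 := h5.1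
        have h7 := (hmem x h6).1 h5
        refine (hto q hq x).2 ⟨?_, ?_⟩
        · refine ⟨(hLO.1 _ _ h3).1, fun p' hp' => ?_⟩
          have : q = p' := by omega
          subst this
          exact ⟨h3, h4⟩
        · have h8 := hlow q x.unpair.1 hq h3 h4
          change c.ev (jn Y (low W (HQ q) x.unpair.1)) x
          rw [h8]; exact h7
      · intro h5
        obtain ⟨h6, h7⟩ := (hto q hq x).1 h5
        obtain ⟨h3, h4⟩ := h6.2 q rfl
        have h9 : dom W p x.unpair.1 := E11_dom_down hLO hq h3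
        refine ⟨h3, h4, (hmem x h9).2 ?_⟩
        have h8 := hlow q x.unpair.1 hq h3 h4
        change c.ev (jn Y (low W (HQ q) x.unpair.1)) x at h7
        rw [h8] at h7; exact h7
    intro q hq
    have hq' : dom W p q := hq
    change Sk (jn Y (low W (HS c W p (E11_F (Wc c) c w w' p L)) q))
      (fun c' a => E11_F (Wc c) c w w' p L (Nat.pair q (Nat.pair c'.enc a))) c
    rw [hmain q hq']
    have h3 := hSk c (jn Y (HQ q))
    have h4 : (fun (c' : Code) (a : ℕ) => E11_F (Wc c) c w w' p L (Nat.pair q (Nat.pair c'.enc a))) =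
        fun c' a => Wc c (jn Y (HQ q)) (Nat.pair c'.enc a) := by
      funext c' a
      exact hval q hq' _
    rw [h4]
    exact h3

end FR
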