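import Pool.Agent.Lib.MP_ec866f_lc.Stmts

set_option autoImplicit false

namespace FR

open Filter Encodable

theorem E12_col (L : ℕ → ℕ) (w : ℕ) : col (zz L) w = sup (gg L w) := by
  ext n
  simp [zz, sup]

/-- a requirement which is not rejected is satisfied -/
theorem E12_acc (h3 : E3S) (L : ℕ → ℕ) (hF : L ∈ FF) (r : Rq) (h0 : L (Nat.pair r.ix 0) = 0) :
    Cn r (gg L) (gg L r.ix) := by
  have hpos : 1 ≤ r.ix := by unfold Rq.ix; omega
  rcases hF r.ix hpos with h | h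
  · exfalso
    have := h.1
    omega
  · obtain ⟨_, r', hr', hC⟩ := h
    rw [h3.1 r' r hr'] at hC
    exact hC

theorem E12 (h3 : E3S) (h6 : E6S) (h7 : E7S) (h8 : E8S) (h9 : E9S) (h11 : E11S) : E12S := by
  have hP : ∀ x : Code × ℕ × ℕ, Ar (fun (q : ℕ) (S : Set ℕ) =>
      ¬ (Nat.pair (Nat.pair (Rq.hier x.1 x.2.1 x.2.2 (q + 1)).ix 0) 0 ∈ S)) :=
    fun x => (Ar.mem _).not
  have hQ : ∀ c : Code, Ar (fun (x : ℕ) (S : Set ℕ) =>
      Nat.pair 0 (Nat.pair x.unpair.1 x.unpair.1) ∈ S ∧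
      ¬ (Nat.pair 1 (Nat.pair (Nat.pair x.unpair.1 (Nat.pair c.enc x)) 0) ∈ S)) :=
    fun c => (Ar.mem _).and (Ar.mem _).not
  filter_upwards [h6, h7, h8, h11, rich_countable (fun x => (hP x).set_mem),
    rich_countable (fun c => (hQ c).set_mem)] with G g6 g7 g8 g11 gP gQ L A hS
  obtain ⟨hZ, hGZ, hgr, hgrA, hsupA⟩ := g7 L A hS
  rintro W ⟨w, rfl⟩ hLO hND Y ⟨w', rfl⟩ c
  rw [E12_col] at hLO hND ⊢
  rw [E12_col]
  obtain ⟨_, hmin⟩ := g8 L A hS w hLO hND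
  have key : ∀ q, Nat.pair q q ∈ sup (gg L w) →
      L (Nat.pair (Rq.hier c w w' (q + 1)).ix 0) = 0 := by
    by_contra hcon
    push Not at hcon
    obtain ⟨q0, hq0, hq0'⟩ := hcon
    have hPA := gP (c, w, w') A hS.aca hS.gA (gr L) hS.lA
    obtain ⟨q, hq1, hq2, hq3⟩ := hmin _ hPA ⟨q0, by
      simpa only [Set.mem_ofPred_eq, mem_gr, Nat.unpair_pair] using hq0', hq0⟩
    have hq1' : ¬ L (Nat.pair (Rq.hier c w w' (q + 1)).ix 0) = 0 := by
      simpa only [Set.mem_ofPred_eq, mem_gr, Nat.unpair_pair] using hq1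
    have hbelow : ∀ q', dom (sup (gg L w)) (q + 1) q' →
        Cn (.hier c w w' (q' + 1)) (gg L) (gg L (Rq.hier c w w' (q' + 1)).ix) := by
      intro q' hq'
      apply E12_acc h3 L hS.ff
      by_contra hne
      have h1 : Nat.pair q q' ∈ sup (gg L w) := hq3 q' (by
        simpa only [Set.mem_ofPred_eq, mem_gr, Nat.unpair_pair] using hne) hq'.1
      obtain ⟨h2, h4⟩ := hq'.2 q rfl
      exact h4 (hLO.2.2.1 q' q h2 h1)
    obtain ⟨h, hh, hC⟩ := g11 L A hS w hLO hND c w' (q + 1) hbelow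
    exact hq1' (g6 L A hS _ h hh hC).1
  have hall : ∀ q, dom (sup (gg L w)) 0 q →
      Cn (.hier c w w' (q + 1)) (gg L) (gg L (Rq.hier c w w' (q + 1)).ix) :=
    fun q hq => E12_acc h3 L hS.ff _ (key q hq.1)
  obtain ⟨h, hh, hC⟩ := g11 L A hS w hLO hND c w' 0 hall
  have hC2 := (g6 L A hS _ h hh hC).2
  set m := (Rq.hier c w w' 0).ix with hm
  have hH := h9 c w w' 0 (gg L) (gg L m) hC2
  refine ⟨HS c (sup (gg L w)) 0 (gg L m), ?_, ?_⟩
  · have hW : sup (gg L w) ∈ cols (zz L) := ⟨w, E12_col L w⟩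
    have h1 := gQ c (cols (zz L)) hZ hGZ (jn (sup (gg L w)) (gr (gg L m)))
      (hZ.jn_mem hW (hgr m))
    convert h1 using 1
    ext x
    simp [HS, jn, dom]
  · intro x
    have h1 := hH x
    rw [h1]
    constructor
    · rintro ⟨hd, hx⟩
      exact ⟨hd.1, hx⟩
    · rintro ⟨hd, hx⟩
      exact ⟨⟨hd, fun p' hp' => absurd hp' (by omega)⟩, hx⟩

end FR
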