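import Pool.Agent.Lib.MP_ec866f_lc.Stmts

set_option autoImplicit false

namespace FR

open Filter Encodable

/-- the position of the value -/
def E13_gi (x : ℕ) : ℕ :=
  if x.unpair.1 = 0 then Nat.pair 0 x.unpair.2 else Nat.pair x.unpair.1 (x.unpair.2 + 1)

theorem E13_gg (L : ℕ → ℕ) (x : ℕ) : gg L x.unpair.1 x.unpair.2 = L (E13_gi x) := by
  unfold E13_gi
  rcases h : x.unpair.1 with _ | m
  · simp [gg]
  · simp [gg]

theorem E13_zz (L : ℕ → ℕ) : zz L = {x | ¬ (Nat.pair (E13_gi x) 0 ∈ gr L)} := by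
  ext x
  simp only [zz, Set.mem_ofPred_eq, mem_gr, Nat.unpair_pair]
  rw [E13_gg]

theorem E13 (h5 : E5S) (h7 : E7S) (h12 : E12S) : E13S := by
  have hAr : Ar (fun (x : ℕ) (S : Set ℕ) => ¬ (Nat.pair (E13_gi x) 0 ∈ S)) := (Ar.mem _).not
  filter_upwards [h5, h7, h12, hAr.set_mem] with G g5 g7 g12 gA M hM hG hR
  obtain ⟨L, hL, A, hS⟩ := g5 M hM hG hR
  obtain ⟨h1, h2, _⟩ := g7 L A hS
  refine ⟨zz L, ?_, h2, h1, g12 L A hS⟩
  rw [E13_zz]
  exact gA M hM hG _ hL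

end FR
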