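import Pool.Agent.Lib.MP_ec866f_lc.Stmts

set_option autoImplicit false

namespace FR

open Filter Encodable

/-- evaluation of a fixed code is arithmetical in the oracle -/
theorem E2_ev (c : Code) : Ar (fun (a : ℕ) (O : Set ℕ) => c.ev O a) := by
  induction c with
  | mem => exact Ar.mem_id
  | neg c ih => exact ih.not
  | and c d ih1 ih2 => exact ih1.and ih2
  | ex c ih =>
      exact Ar.ex (P := fun (p : ℕ × ℕ) O => c.ev O (Nat.pair p.1 p.2))
        (ih.comp (fun p : ℕ × ℕ => Nat.pair p.1 p.2))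
  | sub t c ih => exact ih.comp (fun a : ℕ => t.ev a)

open Classical in
/-- canonical Skolem functions -/
noncomputable def E2_sk (O : Set ℕ) : Code → ℕ → ℕ
  | .ex d, a => if h : ∃ b, Code.ev O d (Nat.pair a b) then Nat.find h + 1 else 0
  | .mem, a => if Code.ev O .mem a then 1 else 0
  | .neg c, a => if Code.ev O (.neg c) a then 1 else 0
  | .and c d, a => if Code.ev O (.and c d) a then 1 else 0
  | .sub t c, a => if Code.ev O (.sub t c) a then 1 else 0

theorem E2_sk_ne (O : Set ℕ) (c : Code) (a : ℕ) : E2_sk O c a ≠ 0 ↔ c.ev O a := by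
  classical
  cases c with
  | mem => by_cases h : Code.ev O .mem a <;> simp [E2_sk, h]
  | neg c => by_cases h : Code.ev O (.neg c) a <;> simp [E2_sk, h]
  | and c d => by_cases h : Code.ev O (.and c d) a <;> simp [E2_sk, h]
  | sub t c => by_cases h : Code.ev O (.sub t c) a <;> simp [E2_sk, h]
  | ex d =>
      by_cases h : ∃ b, Code.ev O d (Nat.pair a b)
      · simp only [E2_sk, dif_pos h]
        exact ⟨fun _ => h, fun _ => Nat.succ_ne_zero _⟩
      · simp only [E2_sk, dif_neg h]
        exact ⟨fun h' => absurd rfl h', fun h' => absurd h' h⟩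

theorem E2_sk_ar_ite {P : ℕ → Set ℕ → Prop} (hP : Ar P) (f : Set ℕ → ℕ → ℕ)
    (hf : ∀ O a, (P a O → f O a = 1) ∧ (¬ P a O → f O a = 0)) :
    Ar (fun (p : ℕ × ℕ) O => f O p.1 = p.2) := by
  refine (((hP.comp Prod.fst).and (Ar.free (fun p : ℕ × ℕ => p.2 = 1))).or
    ((hP.comp Prod.fst).not.and (Ar.free (fun p : ℕ × ℕ => p.2 = 0)))).congr fun p O => ?_
  by_cases h : P p.1 O
  · have h1 := (hf O p.1).1 h
    rw [h1]
    constructor
    · rintro (⟨_, h2⟩ | ⟨h2, _⟩)
      · exact h2.symm
      · exact absurd h h2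
    · intro h2; exact Or.inl ⟨h, h2.symm⟩
  · have h1 := (hf O p.1).2 h
    rw [h1]
    constructor
    · rintro (⟨h2, _⟩ | ⟨_, h2⟩)
      · exact absurd h2 h
      · exact h2.symm
    · intro h2; exact Or.inr ⟨h, h2.symm⟩

theorem E2_sk_ar (c : Code) : Ar (fun (p : ℕ × ℕ) O => E2_sk O c p.1 = p.2) := by
  classical
  cases c with
  | mem =>
      exact E2_sk_ar_ite (E2_ev .mem) (fun O a => E2_sk O .mem a)
        fun O a => ⟨fun h => by simp only [E2_sk, if_pos h], fun h => by simp only [E2_sk, if_neg h]⟩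
  | neg c =>
      exact E2_sk_ar_ite (E2_ev (.neg c)) (fun O a => E2_sk O (.neg c) a)
        fun O a => ⟨fun h => by simp only [E2_sk, if_pos h], fun h => by simp only [E2_sk, if_neg h]⟩
  | and c d =>
      exact E2_sk_ar_ite (E2_ev (.and c d)) (fun O a => E2_sk O (.and c d) a)
        fun O a => ⟨fun h => by simp only [E2_sk, if_pos h], fun h => by simp only [E2_sk, if_neg h]⟩
  | sub t c =>
      exact E2_sk_ar_ite (E2_ev (.sub t c)) (fun O a => E2_sk O (.sub t c) a)
        fun O a => ⟨fun h => by simp only [E2_sk, if_pos h], fun h => by simp only [E2_sk, if_neg h]⟩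
  | ex d =>
      have hd := E2_ev d
      have h1 : Ar (fun (p : ℕ × ℕ) O => ∃ b : ℕ, d.ev O (Nat.pair p.1 b)) :=
        Ar.ex (P := fun (q : (ℕ × ℕ) × ℕ) O => d.ev O (Nat.pair q.1.1 q.2))
          (hd.comp (fun q : (ℕ × ℕ) × ℕ => Nat.pair q.1.1 q.2))
      have h2 : Ar (fun (p : ℕ × ℕ) O => ∀ b : ℕ, b < p.2 - 1 → ¬ d.ev O (Nat.pair p.1 b)) :=
        Ar.all (P := fun (q : (ℕ × ℕ) × ℕ) O => q.2 < q.1.2 - 1 → ¬ d.ev O (Nat.pair q.1.1 q.2))
          ((Ar.free _).imp (hd.comp (fun q : (ℕ × ℕ) × ℕ => Nat.pair q.1.1 q.2)).not)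
      have h3 : Ar (fun (p : ℕ × ℕ) O => d.ev O (Nat.pair p.1 (p.2 - 1))) :=
        hd.comp (fun p : ℕ × ℕ => Nat.pair p.1 (p.2 - 1))
      refine ((h1.not.and (Ar.free (fun p : ℕ × ℕ => p.2 = 0))).or
        ((Ar.free (fun p : ℕ × ℕ => p.2 ≠ 0)).and (h3.and h2))).congr fun p O => ?_
      by_cases h : ∃ b, Code.ev O d (Nat.pair p.1 b)
      · simp only [E2_sk, dif_pos h]
        constructor
        · rintro (⟨h4, _⟩ | ⟨h4, h5, h6⟩)
          · exact absurd h h4
          · have : Nat.find h = p.2 - 1 := by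
              rw [Nat.find_eq_iff]
              exact ⟨h5, fun n hn => h6 n hn⟩
            rw [this]; omega
        · intro h4
          right
          have h5 : p.2 - 1 = Nat.find h := by omega
          refine ⟨by omega, ?_, ?_⟩
          · rw [h5]; exact Nat.find_spec h
          · intro b hb
            rw [h5] at hb
            exact Nat.find_min h hb
      · simp only [E2_sk, dif_neg h]
        constructor
        · rintro (⟨_, h4⟩ | ⟨h4, h5, _⟩)
          · exact h4.symm
          · exact absurd ⟨_, h5⟩ h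
        · intro h4; exact Or.inl ⟨h, h4.symm⟩

/-- list of subcodes -/
def E2_sub : Code → List Code
  | .mem => [.mem]
  | .neg c => .neg c :: E2_sub c
  | .and c d => .and c d :: (E2_sub c ++ E2_sub d)
  | .ex c => .ex c :: E2_sub c
  | .sub t c => .sub t c :: E2_sub c

theorem E2_self (c : Code) : c ∈ E2_sub c := by
  cases c <;> simp [E2_sub]

theorem E2_Sk (O : Set ℕ) (v : Code → ℕ → ℕ) (c : Code)
    (h : ∀ c' ∈ E2_sub c, ∀ a, v c' a = E2_sk O c' a) : Sk O v c := by
  classical
  induction c with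
  | mem =>
      intro a
      rw [h .mem (E2_self _) a]
      exact E2_sk_ne O .mem a
  | neg c ih =>
      refine ⟨ih fun c' hc' => h c' (by simp [E2_sub, hc']), fun a => ?_⟩
      rw [h (.neg c) (E2_self _) a, h c (by simp [E2_sub, E2_self]) a, E2_sk_ne]
      have h1 := E2_sk_ne O c a
      simp only [Code.ev]
      rw [← h1]
      exact not_not
  | and c d ih1 ih2 =>
      refine ⟨ih1 fun c' hc' => h c' (by simp [E2_sub, hc']),
        ih2 fun c' hc' => h c' (by simp [E2_sub, hc']), fun a => ?_⟩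
      rw [h (.and c d) (E2_self _) a, h c (by simp [E2_sub, E2_self]) a,
        h d (by simp [E2_sub, E2_self]) a, E2_sk_ne, E2_sk_ne, E2_sk_ne]
      rfl
  | ex c ih =>
      refine ⟨ih fun c' hc' => h c' (by simp [E2_sub, hc']), fun a => ?_⟩
      rw [h (.ex c) (E2_self _) a]
      have hc : ∀ a, v c a = E2_sk O c a := h c (by simp [E2_sub, E2_self])
      constructor
      · intro h0 b
        rw [hc]
        by_contra h1
        have h2 := (E2_sk_ne O c _).1 h1
        have h3 : Code.ev O (.ex c) a := ⟨b, h2⟩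
        exact ((E2_sk_ne O (.ex c) a).2 h3) h0
      · intro b hb
        rw [hc]
        refine (E2_sk_ne O c _).2 ?_
        by_cases h1 : ∃ b, Code.ev O c (Nat.pair a b)
        · simp only [E2_sk, dif_pos h1] at hb
          have h2 : Nat.find h1 = b := by omega
          rw [← h2]; exact Nat.find_spec h1
        · simp only [E2_sk, dif_neg h1] at hb
          omega
  | sub t c ih =>
      refine ⟨ih fun c' hc' => h c' (by simp [E2_sub, hc']), fun a => ?_⟩
      rw [h (.sub t c) (E2_self _) a, h c (by simp [E2_sub, E2_self]) (t.ev a), E2_sk_ne, E2_sk_ne]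
      rfl

/-- a finite list of functions with arithmetical graphs glued together -/
theorem E2_glue (l : List Code) : ∃ w : Set ℕ → ℕ → ℕ, Ar (fun (p : ℕ × ℕ) O => w O p.1 = p.2) ∧
    ∀ O, ∀ c' ∈ l, ∀ a, w O (Nat.pair c'.enc a) = E2_sk O c' a := by
  classical
  induction l with
  | nil => exact ⟨fun _ _ => 0, Ar.free (fun p : ℕ × ℕ => 0 = p.2), by simp⟩
  | cons c l ih =>
      obtain ⟨w, hw, hw'⟩ := ih
      refine ⟨fun O n => if n.unpair.1 = c.enc then E2_sk O c n.unpair.2 else w O n, ?_, ?_⟩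
      · have h1 : Ar (fun (p : ℕ × ℕ) O => E2_sk O c p.1.unpair.2 = p.2) :=
          (E2_sk_ar c).comp (fun p : ℕ × ℕ => (p.1.unpair.2, p.2))
        refine (((Ar.free (fun p : ℕ × ℕ => p.1.unpair.1 = c.enc)).and h1).or
          ((Ar.free (fun p : ℕ × ℕ => ¬ p.1.unpair.1 = c.enc)).and hw)).congr fun p O => ?_
        by_cases h : p.1.unpair.1 = c.enc
        · simp [h]
        · simp [h]
      · intro O c' hc' a
        by_cases h : c'.enc = c.enc
        · have := Code.enc_inj h
          subst this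
          simp
        · have h2 : c' ∈ l := by
            rcases List.mem_cons.1 hc' with h3 | h3
            · exact absurd (congrArg Code.enc h3) h
            · exact h3
          simp only [Nat.unpair_pair]
          rw [if_neg h]
          exact hw' O c' h2 a

theorem E2 : E2S := by
  intro c
  obtain ⟨w, hw, hw'⟩ := E2_glue (E2_sub c)
  exact ⟨w, hw, fun O => E2_Sk O _ c fun c' hc' a => hw' O c' hc' a⟩

end FR
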