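import Pool.Agent.Lib.MP_ec866f_lc.Stmts

set_option autoImplicit false

namespace FR

open Filter Encodable

theorem E3_enc (r r' : Rq) (h : r.enc = r'.enc) : r = r' := by
  cases r <;> cases r' <;> simp only [Rq.enc, Nat.pair_eq_pair] at h <;>
    first
    | (exfalso; omega)
    | skip
  · rw [h.2]
  · rw [h.2.1, h.2.2]
  · rw [h.2.1, h.2.2]
  · rw [h.2]
  · rw [Tm.enc_inj h.2.1, h.2.2]
  · rw [h.2]
  · rw [h.2]
  · rw [Code.enc_inj h.2.1, h.2.2.1, h.2.2.2.1, h.2.2.2.2]

theorem E3_loc (r : Rq) (A A' : ℕ → ℕ → ℕ) (h : ℕ → ℕ) (hA : ∀ w ≤ r.mx, A w = A' w)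
    (hC : Cn r A h) : Cn r A' h := by
  cases r with
  | compl w => simp only [Cn, Rq.mx] at *; rw [← hA w le_rfl]; exact hC
  | inter w w' =>
      simp only [Cn, Rq.mx] at *
      rw [← hA w (le_max_left _ _), ← hA w' (le_max_right _ _)]; exact hC
  | join w w' =>
      simp only [Cn, Rq.mx] at *
      rw [← hA w (le_max_left _ _), ← hA w' (le_max_right _ _)]; exact hC
  | proj w => simp only [Cn, Rq.mx] at *; rw [← hA w le_rfl]; exact hC
  | tm t w => simp only [Cn, Rq.mx] at *; rw [← hA w le_rfl]; exact hC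
  | graph w => simp only [Cn, Rq.mx] at *; rw [← hA w le_rfl]; exact hC
  | desc w => simp only [Cn, Rq.mx] at *; rw [← hA w le_rfl]; exact hC
  | hier c w w' p =>
      simp only [Cn, Rq.mx] at *
      rw [← hA w (le_max_left _ _), ← hA w' (le_max_right _ _)]; exact hC

theorem E3 : E3S := by
  refine ⟨?_, ?_, E3_loc⟩
  · intro r r' h
    unfold Rq.ix at h
    have h1 : Nat.pair r.mx r.enc = Nat.pair r'.mx r'.enc := by omega
    rw [Nat.pair_eq_pair] at h1
    exact E3_enc r r' h1.2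
  · intro r
    unfold Rq.ix
    have := Nat.left_le_pair r.mx r.enc
    omega

end FR
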