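import Pool.Agent.Lib.MP_ec866f_lc.Stmts

/-! module E4: the set of functions satisfying the requirements is closed -/

set_option autoImplicit false

namespace FR

open Filter Encodable

/-- locally constant functionals -/
def E4_LC {β : Type} (F : (ℕ → ℕ) → β) : Prop :=
  ∀ L, ∃ l, ∀ L', pre L' l = pre L l → F L' = F L

/-- closed predicates -/
def E4_C (P : (ℕ → ℕ) → Prop) : Prop :=
  ∀ L, (∀ l, ∃ L', pre L' l = pre L l ∧ P L') → P L

theorem E4_pre_mono {L L' : ℕ → ℕ} {l l' : ℕ} (h : l ≤ l') (he : pre L' l' = pre L l') :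
    pre L' l = pre L l := by
  have h1 : ∀ M : ℕ → ℕ, pre M l = (pre M l').take l := by
    intro M
    unfold pre
    rw [← List.map_take, List.take_range, min_eq_left h]
  rw [h1, h1, he]

theorem E4_pre_eval {L L' : ℕ → ℕ} {l x : ℕ} (h : x < l) (he : pre L' l = pre L l) :
    L' x = L x := by
  have h1 : ∀ M : ℕ → ℕ, (pre M l)[x]? = some (M x) := by
    intro M
    unfold pre
    rw [List.getElem?_map, List.getElem?_range h]
    rfl
  have h2 := h1 L'
  rw [he, h1 L] at h2
  exact (Option.some.inj h2).symm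

section
variable {β γ δ : Type}

theorem E4_LC.const (v : β) : E4_LC (fun _ => v) := fun _ => ⟨0, fun _ _ => rfl⟩

theorem E4_LC.eval (x : ℕ) : E4_LC (fun L => L x) := fun _ =>
  ⟨x + 1, fun _ h => E4_pre_eval (Nat.lt_succ_self x) h⟩

theorem E4_LC.map {F : (ℕ → ℕ) → β} (f : β → γ) (hF : E4_LC F) : E4_LC (fun L => f (F L)) := by
  intro L
  obtain ⟨l, hl⟩ := hF L
  exact ⟨l, fun L' h => congrArg f (hl L' h)⟩

theorem E4_LC.map2 {F : (ℕ → ℕ) → β} {H : (ℕ → ℕ) → γ} (f : β → γ → δ) (hF : E4_LC F)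
    (hH : E4_LC H) : E4_LC (fun L => f (F L) (H L)) := by
  intro L
  obtain ⟨l, hl⟩ := hF L
  obtain ⟨l', hl'⟩ := hH L
  refine ⟨max l l', fun L' h => ?_⟩
  exact congrArg₂ f (hl L' (E4_pre_mono (le_max_left _ _) h))
    (hl' L' (E4_pre_mono (le_max_right _ _) h))

theorem E4_LC.bind {F : (ℕ → ℕ) → β} {H : β → (ℕ → ℕ) → γ} (hF : E4_LC F)
    (hH : ∀ v, E4_LC (H v)) : E4_LC (fun L => H (F L) L) := by
  intro L
  obtain ⟨l, hl⟩ := hF L
  obtain ⟨l', hl'⟩ := hH (F L) L
  refine ⟨max l l', fun L' h => ?_⟩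
  show H (F L') L' = H (F L) L
  rw [hl L' (E4_pre_mono (le_max_left _ _) h)]
  exact hl' L' (E4_pre_mono (le_max_right _ _) h)

end

theorem E4_LC.and {P Q : (ℕ → ℕ) → Prop} (hP : E4_LC P) (hQ : E4_LC Q) :
    E4_LC (fun L => P L ∧ Q L) := hP.map2 (fun p q => p ∧ q) hQ

theorem E4_LC.or {P Q : (ℕ → ℕ) → Prop} (hP : E4_LC P) (hQ : E4_LC Q) :
    E4_LC (fun L => P L ∨ Q L) := hP.map2 (fun p q => p ∨ q) hQ

theorem E4_LC.iff {P Q : (ℕ → ℕ) → Prop} (hP : E4_LC P) (hQ : E4_LC Q) :
    E4_LC (fun L => (P L ↔ Q L)) := hP.map2 (fun p q => (p ↔ q)) hQ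

theorem E4_LC.imp {P Q : (ℕ → ℕ) → Prop} (hP : E4_LC P) (hQ : E4_LC Q) :
    E4_LC (fun L => (P L → Q L)) := hP.map2 (fun p q => (p → q)) hQ

theorem E4_LC.closed {P : (ℕ → ℕ) → Prop} (hP : E4_LC P) : E4_C P := by
  intro L h
  obtain ⟨l, hl⟩ := hP L
  obtain ⟨L', h1, h2⟩ := h l
  have h3 : P L' = P L := hl L' h1
  rw [← h3]; exact h2

theorem E4_C.all {ι : Sort*} {P : ι → (ℕ → ℕ) → Prop} (h : ∀ i, E4_C (P i)) :
    E4_C (fun L => ∀ i, P i L) := by
  intro L hL i
  apply h i L
  intro l
  obtain ⟨L', h1, h2⟩ := hL l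
  exact ⟨L', h1, h2 i⟩

theorem E4_C.and {P Q : (ℕ → ℕ) → Prop} (hP : E4_C P) (hQ : E4_C Q) :
    E4_C (fun L => P L ∧ Q L) := by
  intro L hL
  constructor
  · apply hP L
    intro l
    obtain ⟨L', h1, h2⟩ := hL l
    exact ⟨L', h1, h2.1⟩
  · apply hQ L
    intro l
    obtain ⟨L', h1, h2⟩ := hL l
    exact ⟨L', h1, h2.2⟩

theorem E4_C.or {P Q : (ℕ → ℕ) → Prop} (hP : E4_C P) (hQ : E4_C Q) :
    E4_C (fun L => P L ∨ Q L) := by
  intro L hL
  by_cases hc : ∀ l, ∃ L', pre L' l = pre L l ∧ P L'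
  · exact Or.inl (hP L hc)
  · right
    push Not at hc
    obtain ⟨l0, hl0⟩ := hc
    apply hQ L
    intro l
    obtain ⟨L', h1, h2⟩ := hL (max l0 l)
    refine ⟨L', E4_pre_mono (le_max_right _ _) h1, ?_⟩
    rcases h2 with h2 | h2
    · exact absurd h2 (hl0 L' (E4_pre_mono (le_max_left _ _) h1))
    · exact h2

theorem E4_C.imp {P Q : (ℕ → ℕ) → Prop} (hP : E4_LC P) (hQ : E4_C Q) :
    E4_C (fun L => P L → Q L) := by
  have h1 : E4_C (fun L => ¬ P L ∨ Q L) := E4_C.or (E4_LC.closed (hP.map Not)) hQ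
  intro L hL
  have h2 := h1 L (fun l => by
    obtain ⟨L', h1, h2⟩ := hL l
    refine ⟨L', h1, ?_⟩
    by_cases h3 : P L'
    · exact Or.inr (h2 h3)
    · exact Or.inl h3)
  intro h3
  rcases h2 with h2 | h2
  · exact absurd h3 h2
  · exact h2

theorem E4_gg (w n : ℕ) : E4_LC (fun L => gg L w n) := by
  cases w with
  | zero => exact E4_LC.eval _
  | succ w => exact E4_LC.eval _

theorem E4_sup (w n : ℕ) : E4_LC (fun L => n ∈ sup (gg L w)) :=
  (E4_gg w n).map (fun v => v ≠ 0)

theorem E4_sk {O : (ℕ → ℕ) → Set ℕ} {v : (ℕ → ℕ) → Code → ℕ → ℕ}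
    (hO : ∀ a, E4_LC (fun L => a ∈ O L)) (hv : ∀ c a, E4_LC (fun L => v L c a)) (c : Code) :
    E4_C (fun L => Sk (O L) (v L) c) := by
  have hne : ∀ c a, E4_LC (fun L => v L c a ≠ 0) := fun c a => (hv c a).map (fun x => x ≠ 0)
  have heq : ∀ c a, E4_LC (fun L => v L c a = 0) := fun c a => (hv c a).map (fun x => x = 0)
  induction c with
  | mem =>
      simp only [Sk]
      exact E4_C.all fun a => ((hne _ a).iff (hO a)).closed
  | neg c ih =>
      simp only [Sk]
      exact ih.and (E4_C.all fun a => ((hne _ a).iff (heq _ a)).closed)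
  | and c d ih1 ih2 =>
      simp only [Sk]
      exact ih1.and (ih2.and (E4_C.all fun a => ((hne _ a).iff ((hne _ a).and (hne _ a))).closed))
  | ex c ih =>
      simp only [Sk]
      refine ih.and (E4_C.all fun a => E4_C.and ?_ ?_)
      · exact E4_C.imp (heq _ a) (E4_C.all fun b => (heq _ _).closed)
      · exact E4_C.all fun b => E4_C.imp ((hv _ a).map (fun x => x = b + 1)) ((hne _ _).closed)
  | sub t c ih =>
      simp only [Sk]
      exact ih.and (E4_C.all fun a => ((hne _ a).iff (hne _ _)).closed)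

theorem E4_dom {W : (ℕ → ℕ) → Set ℕ} (hW : ∀ a, E4_LC (fun L => a ∈ W L)) (p q : ℕ) :
    E4_LC (fun L => dom (W L) p q) := by
  unfold dom
  cases p with
  | zero =>
      have h1 : (fun L => Nat.pair q q ∈ W L ∧ ∀ p', 0 = p' + 1 → (Nat.pair q p' ∈ W L ∧ q ≠ p'))
          = fun L => Nat.pair q q ∈ W L := by
        funext L
        apply propext
        constructor
        · exact fun h => h.1
        · exact fun h => ⟨h, fun p' hp => by omega⟩
      rw [h1]
      exact hW _
  | succ p =>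
      have h1 : (fun L => Nat.pair q q ∈ W L ∧ ∀ p', p + 1 = p' + 1 → (Nat.pair q p' ∈ W L ∧ q ≠ p'))
          = fun L => Nat.pair q q ∈ W L ∧ (Nat.pair q p ∈ W L ∧ q ≠ p) := by
        funext L
        apply propext
        constructor
        · exact fun h => ⟨h.1, h.2 p rfl⟩
        · refine fun h => ⟨h.1, fun p' hp => ?_⟩
          have : p = p' := by omega
          rw [← this]; exact h.2
      rw [h1]
      exact (hW _).and ((hW _).and (E4_LC.const _))

theorem E4_cn (r : Rq) (m : ℕ) : E4_C (fun L => Cn r (gg L) (gg L m)) := by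
  have hne : ∀ w a, E4_LC (fun L => gg L w a ≠ 0) := fun w a => (E4_gg w a).map (fun x => x ≠ 0)
  have heq : ∀ w a, E4_LC (fun L => gg L w a = 0) := fun w a => (E4_gg w a).map (fun x => x = 0)
  cases r with
  | compl w =>
      simp only [Cn]
      exact E4_C.all fun n => ((hne _ n).iff (heq _ n)).closed
  | inter w w' =>
      simp only [Cn]
      exact E4_C.all fun n => ((hne _ n).iff ((hne _ n).and (hne _ n))).closed
  | join w w' =>
      simp only [Cn]
      exact E4_C.all fun n => ((hne _ n).iff (((E4_LC.const _).and (hne _ _)).or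
        ((E4_LC.const _).and (hne _ _)))).closed
  | proj w =>
      simp only [Cn]
      refine E4_C.all fun n => E4_C.and ?_ ?_
      · exact E4_C.imp (heq _ n) (E4_C.all fun b => (heq _ _).closed)
      · exact E4_C.all fun b => E4_C.imp ((E4_gg _ n).map (fun x => x = b + 1)) ((hne _ _).closed)
  | tm t w =>
      simp only [Cn]
      exact E4_C.all fun n => ((hne _ n).iff (hne _ _)).closed
  | graph w =>
      simp only [Cn]
      exact E4_C.all fun n => ((hne _ n).iff ((E4_gg w n.unpair.1).map (fun x => x = n.unpair.2))).closed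
  | desc w =>
      simp only [Cn]
      refine E4_C.all fun n => (E4_LC.and ?_ ?_).closed
      · have h1 : E4_LC (fun L => Nat.pair (gg L m (n + 1)) (gg L m n)) :=
          (E4_gg m (n + 1)).map2 Nat.pair (E4_gg m n)
        exact E4_LC.bind (H := fun v L => gg L w v ≠ 0) h1 (fun v => hne w v)
      · exact (E4_gg m (n + 1)).map2 (fun x y => x ≠ y) (E4_gg m n)
  | hier c w w' p =>
      simp only [Cn]
      refine E4_C.all fun q => E4_C.imp (E4_dom (fun a => E4_sup w a) p q) ?_
      apply E4_sk (v := fun L c' a => gg L m (Nat.pair q (Nat.pair c'.enc a)))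
      · intro a
        have h1 : E4_LC (fun L => a.unpair.2 ∈ low (sup (gg L w)) (HS c (sup (gg L w)) p (gg L m)) q) := by
          refine (E4_sup w _).and ((E4_LC.const _).and ?_)
          exact (E4_dom (fun a => E4_sup w a) p _).and (hne m _)
        exact ((E4_LC.const _).and (E4_sup w' _)).or ((E4_LC.const _).and h1)
      · intro c' a
        exact E4_gg m _

theorem E4 (h3 : E3S) : E4S := by
  intro L hL
  have hC : E4_C (fun L => L ∈ FF) := by
    have h1 : ∀ m : ℕ, E4_C (fun L => 1 ≤ m → (Rej L m ∨ Acc L m)) := by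
      intro m
      refine E4_C.imp (E4_LC.const _) (E4_C.or ?_ ?_)
      · refine E4_C.and ((E4_LC.eval _).map (fun x => x = 1)).closed
          (E4_C.all fun n => ((E4_LC.eval _).map (fun x => x = 0)).closed)
      · by_cases hr : ∃ r : Rq, r.ix = m
        · obtain ⟨r, hr⟩ := hr
          have h2 : (fun L => Acc L m) = fun L => L (Nat.pair m 0) = 0 ∧ Cn r (gg L) (gg L m) := by
            funext L
            apply propext
            constructor
            · rintro ⟨h1, r', hr', h2⟩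
              have : r' = r := h3.1 r' r (hr'.trans hr.symm)
              rw [this] at h2
              exact ⟨h1, h2⟩
            · rintro ⟨h1, h2⟩
              exact ⟨h1, r, hr, h2⟩
          rw [h2]
          exact E4_C.and ((E4_LC.eval _).map (fun x => x = 0)).closed (E4_cn r m)
        · have h2 : (fun L => Acc L m) = fun _ => False := by
            funext L
            apply propext
            constructor
            · rintro ⟨h1, r', hr', h2⟩
              exact hr ⟨r', hr'⟩
            · exact fun h => h.elim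
          rw [h2]
          exact (E4_LC.const False).closed
    exact E4_C.all h1
  apply hC L
  intro l
  obtain ⟨L', h1, h2⟩ := hL l
  exact ⟨L', h2, h1⟩

end FR
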