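import Pool.Agent.Lib.MP_ec866f_lc.Stmts

/-! module E5 -/

set_option autoImplicit false

namespace FR

open Filter Encodable

theorem E5_pre_length (L : ℕ → ℕ) (n : ℕ) : (pre L n).length = n := by
  simp [pre]

theorem E5_pre_getD (L : ℕ → ℕ) (n i : ℕ) (h : i < n) : (pre L n).getD i 0 = L i := by
  simp [pre, List.getD_eq_getElem?_getD, h]

theorem E5_pre_take (L : ℕ → ℕ) (n m : ℕ) (h : m ≤ n) : (pre L n).take m = pre L m := by
  simp [pre, ← List.map_take, List.take_range, Nat.min_eq_left h]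

theorem E5_ar : Ar (fun (t : List ℕ) G => t ∈ TT G) := by
  have h1 : Ar (fun (t : List ℕ) G => ∀ n, Nat.pair 0 n < t.length →
      t.getD (Nat.pair 0 n) 0 = ind G n) := by
    refine Ar.all (P := fun (p : List ℕ × ℕ) G => Nat.pair 0 p.2 < p.1.length →
      p.1.getD (Nat.pair 0 p.2) 0 = ind G p.2) ?_
    refine (Ar.free _).imp ?_
    refine (((Ar.mem (fun p : List ℕ × ℕ => p.2)).imp
      (Ar.free (fun p : List ℕ × ℕ => p.1.getD (Nat.pair 0 p.2) 0 = 1))).and
      ((Ar.mem (fun p : List ℕ × ℕ => p.2)).not.imp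
      (Ar.free (fun p : List ℕ × ℕ => p.1.getD (Nat.pair 0 p.2) 0 = 0)))).congr ?_
    intro p G
    by_cases h : p.2 ∈ G <;> simp [ind, h]
  exact (Ar.free (fun t : List ℕ => ∃ L ∈ FF, pre L t.length = t)).and h1

theorem E5_tree (G : Set ℕ) : IsTree (TT G) := by
  intro t ht s hs
  obtain ⟨⟨L, hL, hLt⟩, hb⟩ := ht
  have hlen : s.length ≤ t.length := hs.length_le
  have hst : s = t.take s.length := List.prefix_iff_eq_take.mp hs
  have hsL : pre L s.length = s := by
    rw [← E5_pre_take L t.length s.length hlen, hLt]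
    exact hst.symm
  refine ⟨⟨L, hL, hsL⟩, ?_⟩
  intro n hn
  have := hb n (lt_of_lt_of_le hn hlen)
  rw [← this, ← hsL, ← hLt]
  rw [E5_pre_getD _ _ _ (by simpa [E5_pre_length] using hn),
    E5_pre_getD _ _ _ (by simpa [E5_pre_length] using lt_of_lt_of_le hn hlen)]

theorem E5_path (h4 : E4S) (G : Set ℕ) (L : ℕ → ℕ) :
    Path (TT G) L ↔ (L ∈ FF ∧ ∀ n, L (Nat.pair 0 n) = ind G n) := by
  constructor
  · intro h
    constructor
    · refine h4 L fun l => ?_
      obtain ⟨⟨L', hL', h'⟩, _⟩ := h l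
      refine ⟨L', hL', ?_⟩
      rwa [E5_pre_length] at h'
    · intro n
      have := (h (Nat.pair 0 n + 1)).2 n (by rw [E5_pre_length]; exact Nat.lt_succ_self _)
      rwa [E5_pre_getD _ _ _ (Nat.lt_succ_self _)] at this
  · rintro ⟨h, hb⟩ n
    refine ⟨⟨L, h, by rw [E5_pre_length]⟩, ?_⟩
    intro k hk
    rw [E5_pre_length] at hk
    rw [E5_pre_getD _ _ _ hk]
    exact hb k

theorem E5 (h4 : E4S) : E5S := by
  filter_upwards [E5_ar.enS_mem] with G hE M hM hG hR
  have hS := hE M hM hG G hG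
  have hT : TrOf (enS (fun t : List ℕ => t ∈ TT G)) = TT G := by
    ext t
    simp only [TrOf, enS]
    constructor
    · rintro ⟨x, hx, h⟩
      rwa [← encode_injective hx]
    · intro h
      exact ⟨t, rfl, h⟩
  have hR' := hR _ hS G hG
  rw [hT] at hR'
  obtain ⟨L, hL, hp, A, hA, hGA, hLA, hl⟩ := hR' (E5_tree G) (by
    refine ⟨fun x => if x.unpair.1 = 0 then ind G x.unpair.2 else
      if x.unpair.2 = 0 then 1 else 0, ?_, ?_⟩
    · intro n
      dsimp only
      split_ifs <;> simp [ind]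
      split_ifs <;> simp
    · rw [E5_path h4]
      constructor
      · intro m hm
        left
        have hm0 : m ≠ 0 := by omega
        constructor
        · simp [hm0]
        · intro n
          simp [hm0]
      · intro n
        simp)
  rw [E5_path h4] at hp
  refine ⟨L, hL, A, hA, hGA, hLA, hp.1, hp.2, ?_⟩
  intro L' h1 h2 h3
  exact hl L' h1 ((E5_path h4 G L').mpr ⟨h2, h3⟩)

end FR
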