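import Pool.Agent.Lib.MP_ec866f_lc.Stmts

/-! module E7: the columns form a closed family -/

set_option autoImplicit false

namespace FR

open Filter Encodable

open Classical in
/-- least witness plus one -/
noncomputable def E7_mu (S : Set ℕ) (n : ℕ) : ℕ :=
  if h : ∃ b, Nat.pair n b ∈ S then Nat.find h + 1 else 0

theorem E7_mu_ar : Ar (fun (p : ℕ × ℕ) S => E7_mu S p.1 = p.2) := by
  have h1 : Ar (fun (p : ℕ × ℕ) S => ((p.2 = 0) ∧ ∀ b : ℕ, ¬ Nat.pair p.1 b ∈ S) ∨
      (p.2 ≠ 0 ∧ (Nat.pair p.1 (p.2 - 1) ∈ S ∧ ∀ b : ℕ, (b < p.2 - 1 → ¬ Nat.pair p.1 b ∈ S)))) := by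
    refine Ar.or (Ar.and (Ar.free _) ?_) (Ar.and (Ar.free _) (Ar.and (Ar.mem _) ?_))
    · exact Ar.all (P := fun (q : (ℕ × ℕ) × ℕ) S => ¬ Nat.pair q.1.1 q.2 ∈ S) (Ar.not (Ar.mem _))
    · exact Ar.all (P := fun (q : (ℕ × ℕ) × ℕ) S => (q.2 < q.1.2 - 1 → ¬ Nat.pair q.1.1 q.2 ∈ S))
        ((Ar.free _).imp (Ar.not (Ar.mem _)))
  refine h1.congr ?_
  rintro ⟨n, v⟩ S
  simp only
  unfold E7_mu
  classical
  by_cases h : ∃ b, Nat.pair n b ∈ S
  · rw [dif_pos h]
    constructor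
    · rintro (⟨h2, h3⟩ | ⟨h2, h3, h4⟩)
      · obtain ⟨b, hb⟩ := h
        exact absurd hb (h3 b)
      · have h5 : Nat.find h = v - 1 := by
          rw [Nat.find_eq_iff]
          exact ⟨h3, h4⟩
        omega
    · intro h2
      right
      have h5 : v - 1 = Nat.find h := by omega
      refine ⟨by omega, ?_, ?_⟩
      · rw [h5]; exact Nat.find_spec h
      · intro b hb
        rw [h5] at hb
        exact Nat.find_min h hb
  · rw [dif_neg h]
    constructor
    · rintro (⟨h2, h3⟩ | ⟨h2, h3, h4⟩)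
      · exact h2.symm
      · exact absurd ⟨_, h3⟩ h
    · intro h2
      left
      exact ⟨h2.symm, fun b hb => h ⟨b, hb⟩⟩

theorem E7_ind_ar : Ar (fun (p : ℕ × ℕ) S => ind S p.1 = p.2) := by
  have h1 : Ar (fun (p : ℕ × ℕ) S => (p.1 ∈ S ∧ p.2 = 1) ∨ (¬ p.1 ∈ S ∧ p.2 = 0)) :=
    ((Ar.mem _).and (Ar.free _)).or ((Ar.not (Ar.mem _)).and (Ar.free _))
  refine h1.congr ?_
  rintro ⟨n, v⟩ S
  simp only
  unfold ind
  by_cases h : n ∈ S
  · simp only [h, true_and, not_true_eq_false, false_and, or_false, if_true]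
    exact eq_comm
  · simp only [h, false_and, not_false_eq_true, true_and, false_or, if_false]
    exact eq_comm

/-- position of the value of `gg L w` -/
def E7_pos (w n : ℕ) : ℕ := match w with
  | 0 => Nat.pair 0 n
  | w + 1 => Nat.pair (w + 1) (n + 1)

theorem E7_gg (L : ℕ → ℕ) (w n : ℕ) : gg L w n = L (E7_pos w n) := by
  cases w <;> rfl

theorem E7_gr_ar (w : ℕ) : Ar (fun (p : ℕ) S =>
    Nat.pair (E7_pos w p.unpair.1) p.unpair.2 ∈ S) := Ar.mem _

theorem E7_sup_ar (w : ℕ) : Ar (fun (n : ℕ) S => ¬ Nat.pair (E7_pos w n) 0 ∈ S) :=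
  Ar.not (Ar.mem _)

theorem E7_col (L : ℕ → ℕ) (w : ℕ) : col (zz L) w = sup (gg L w) := by
  ext n
  simp [zz, sup]

theorem E7_ind_ne (S : Set ℕ) (n : ℕ) : ind S n ≠ 0 ↔ n ∈ S := by
  unfold ind
  by_cases h : n ∈ S <;> simp [h]

theorem E7_sup_ind (S : Set ℕ) : sup (ind S) = S := by
  ext n
  exact E7_ind_ne S n

theorem E7 (h6 : E6S) : E7S := by
  filter_upwards [h6, rich_countable (fun w : ℕ => (E7_gr_ar w).set_mem),
    rich_countable (fun w : ℕ => (E7_sup_ar w).set_mem), E7_mu_ar.gr_mem, E7_ind_ar.gr_mem]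
    with G h6 hgr hsup hmu hind L A hS
  have hgrA : ∀ w, gr (gg L w) ∈ A := by
    intro w
    have h1 := hgr w A hS.aca hS.gA _ hS.lA
    have h2 : gr (gg L w) = {p | Nat.pair (E7_pos w p.unpair.1) p.unpair.2 ∈ gr L} := by
      ext p
      simp [E7_gg]
    rw [h2]; exact h1
  have hsupA : ∀ w, sup (gg L w) ∈ A := by
    intro w
    have h1 := hsup w A hS.aca hS.gA _ hS.lA
    have h2 : sup (gg L w) = {n | ¬ Nat.pair (E7_pos w n) 0 ∈ gr L} := by
      ext p
      simp [E7_gg, sup]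
    rw [h2]; exact h1
  have hind' : ∀ S ∈ A, gr (ind S) ∈ A := fun S hS' => hind A hS.aca hS.gA S hS'
  have hmu' : ∀ S ∈ A, gr (E7_mu S) ∈ A := fun S hS' => hmu A hS.aca hS.gA S hS'
  have hcol : ∀ w, sup (gg L w) ∈ cols (zz L) := fun w => ⟨w, E7_col L w⟩
  have hcols : ∀ B ∈ cols (zz L), ∃ w, B = sup (gg L w) := by
    rintro B ⟨w, rfl⟩
    exact ⟨w, E7_col L w⟩
  -- the basic use of E6 with indicator functions
  have key : ∀ (r : Rq) (B : Set ℕ), B ∈ A → Cn r (gg L) (ind B) →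
      (∀ h : ℕ → ℕ, Cn r (gg L) h → sup h = B) → B ∈ cols (zz L) := by
    intro r B hB hC hu
    have h1 := (h6 L A hS r (ind B) (hind' B hB) hC).2
    have h2 := hu _ h1
    rw [← h2]
    exact hcol _
  have hcompl : ∀ w, (sup (gg L w))ᶜ ∈ cols (zz L) := by
    intro w
    apply key (.compl w) _ (hS.aca.compl_mem (hsupA w))
    · intro n
      rw [E7_ind_ne]
      show ¬ (gg L w n ≠ 0) ↔ gg L w n = 0
      exact not_not
    · intro h hC
      ext n
      show h n ≠ 0 ↔ ¬ (gg L w n ≠ 0)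
      rw [hC n, not_not]
  have hinter : ∀ w w', sup (gg L w) ∩ sup (gg L w') ∈ cols (zz L) := by
    intro w w'
    apply key (.inter w w') _ (hS.aca.inter_mem (hsupA w) (hsupA w'))
    · intro n
      rw [E7_ind_ne]
      exact Iff.rfl
    · intro h hC
      ext n
      exact hC n
  have hjoin : ∀ w w', jn (sup (gg L w)) (sup (gg L w')) ∈ cols (zz L) := by
    intro w w'
    apply key (.join w w') _ (hS.aca.jn_mem (hsupA w) (hsupA w'))
    · intro n
      rw [E7_ind_ne]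
      exact Iff.rfl
    · intro h hC
      ext n
      exact hC n
  have htm : ∀ w (t : Tm), {a | t.ev a ∈ sup (gg L w)} ∈ cols (zz L) := by
    intro w t
    apply key (.tm t w) _ (hS.aca.tm_mem t (hsupA w))
    · intro n
      rw [E7_ind_ne]
      exact Iff.rfl
    · intro h hC
      ext n
      exact hC n
  have hproj : ∀ w, {a | ∃ b, Nat.pair a b ∈ sup (gg L w)} ∈ cols (zz L) := by
    intro w
    have h1 : Cn (.proj w) (gg L) (E7_mu (sup (gg L w))) := by
      intro n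
      classical
      unfold E7_mu
      by_cases h : ∃ b, Nat.pair n b ∈ sup (gg L w)
      · rw [dif_pos h]
        refine ⟨fun h2 => by omega, fun b hb => ?_⟩
        have h3 : b = Nat.find h := by omega
        rw [h3]
        exact Nat.find_spec h
      · rw [dif_neg h]
        refine ⟨fun _ b => ?_, fun b hb => by omega⟩
        by_contra hc
        exact h ⟨b, hc⟩
    have h2 := (h6 L A hS (.proj w) _ (hmu' _ (hsupA w)) h1).2
    have h3 : sup (gg L (Rq.proj w).ix) = {a | ∃ b, Nat.pair a b ∈ sup (gg L w)} := by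
      ext n
      obtain ⟨h4, h5⟩ := h2 n
      constructor
      · intro h6
        have h7 : gg L (Rq.proj w).ix n ≠ 0 := h6
        obtain ⟨b, hb⟩ : ∃ b, gg L (Rq.proj w).ix n = b + 1 :=
          ⟨gg L (Rq.proj w).ix n - 1, by omega⟩
        exact ⟨b, h5 b hb⟩
      · rintro ⟨b, hb⟩ hc
        exact hb (h4 hc b)
    rw [← h3]
    exact hcol _
  refine ⟨⟨⟨_, hcol 0⟩, ?_, ?_, ?_, ?_, ?_⟩, ?_, ?_, hgrA, hsupA⟩
  · intro B B' hB hB'
    obtain ⟨w, rfl⟩ := hcols B hB
    obtain ⟨w', rfl⟩ := hcols B' hB'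
    exact hjoin w w'
  · intro B hB
    obtain ⟨w, rfl⟩ := hcols B hB
    exact hcompl w
  · intro B B' hB hB'
    obtain ⟨w, rfl⟩ := hcols B hB
    obtain ⟨w', rfl⟩ := hcols B' hB'
    exact hinter w w'
  · intro B hB
    obtain ⟨w, rfl⟩ := hcols B hB
    exact hproj w
  · intro B t hB
    obtain ⟨w, rfl⟩ := hcols B hB
    exact htm w t
  · refine ⟨0, ?_⟩
    rw [E7_col]
    ext n
    show L (Nat.pair 0 n) ≠ 0 ↔ n ∈ G
    rw [hS.base n]
    exact E7_ind_ne G n
  · intro w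
    apply key (.graph w) _ (hgrA w)
    · intro n
      rw [E7_ind_ne]
      exact Iff.rfl
    · intro h hC
      ext n
      exact hC n

end FR
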