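import Pool.Agent.Lib.MP_ec866f_lc.Stmts

/-! module E8: descending sequences -/

set_option autoImplicit false

namespace FR

open Filter Encodable

theorem E8_I : Ar (fun (p : ℕ) S => p ∈ col S 0 ∧ Nat.pair p p ∈ col S 1) :=
  (Ar.mem (fun p : ℕ => Nat.pair 0 p)).and (Ar.mem (fun p : ℕ => Nat.pair 1 (Nat.pair p p)))

theorem E8_R : Ar (fun (p : ℕ × ℕ) S => Nat.pair p.2 p.1 ∈ col S 1 ∧ p.2 ≠ p.1) :=
  (Ar.mem (fun p : ℕ × ℕ => Nat.pair 1 (Nat.pair p.2 p.1))).and (Ar.free _)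

theorem E8 (h6 : E6S) (h7 : E7S) : E8S := by
  filter_upwards [h6, h7, seq_exists E8_I E8_R] with G h6 h7 hseq L A hS w hLO hND
  have hnd : NoDesc A (sup (gg L w)) := by
    rintro ⟨f, hf, hd⟩
    have h1 : Cn (.desc w) (gg L) f := hd
    have h2 := (h6 L A hS (.desc w) f hf h1).2
    have h3 := (h7 L A hS).2.2.1 (Rq.desc w).ix
    exact hND ⟨gg L (Rq.desc w).ix, h3, h2⟩
  refine ⟨hnd, ?_⟩
  intro P hP hex
  by_contra hc
  push Not at hc
  obtain ⟨p0, hp0, hp0W⟩ := hex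
  set W := sup (gg L w) with hW
  have hWA : W ∈ A := (h7 L A hS).2.2.2.2 w
  have hS' : jn P W ∈ A := hS.aca.jn_mem hP hWA
  obtain ⟨q, hq0, hqI, hqR, hqA⟩ := hseq A hS.aca hS.gA (jn P W) hS' p0
    (by rw [jn_col_zero, jn_col_one]; exact ⟨hp0, hp0W⟩)
    (by
      intro x hx
      rw [jn_col_zero, jn_col_one] at hx
      obtain ⟨y, hyP, hyW, hxy⟩ := hc x hx.1 hx.2
      refine ⟨y, ?_, ?_⟩
      · rw [jn_col_zero, jn_col_one]; exact ⟨hyP, hyW⟩
      · rw [jn_col_one]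
        refine ⟨?_, ?_⟩
        · rcases hLO.2.2.2 x y hx.2 hyW with h | h
          · exact absurd h hxy
          · exact h
        · intro he
          have he' : y = x := he
          rw [he'] at hxy
          exact hxy hx.2)
  apply hnd
  refine ⟨q, ?_, ?_⟩
  · simpa using hqA
  · intro n
    have h1 := hqR n
    rw [jn_col_one] at h1
    exact h1

end FR
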