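import Pool.Agent.Lib.MP_ec866f_lc.Stmts

set_option autoImplicit false

namespace FR

open Filter Encodable

theorem E9 (h1 : E1S) : E9S := by
  intro c w w' p A h hC x
  constructor
  · rintro ⟨hd, hx⟩
    exact ⟨hd, (h1 _ _ c (hC _ hd) x).1 hx⟩
  · rintro ⟨hd, hx⟩
    exact ⟨hd, (h1 _ _ c (hC _ hd) x).2 hx⟩

end FR
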