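import Pool.Agent.Lib.MP_ec866f_lc.Stmts

/-! module G1 -/

set_option autoImplicit false

namespace FR

theorem G1_sat_mem (O : Set ℕ) (c : Code) (a : ℕ) :
    Nat.pair c.enc a ∈ Sat O ↔ c.ev O a := by
  simp only [Sat, Set.mem_ofPred_eq, Nat.unpair_pair]
  constructor
  · rintro ⟨d, h1, h2⟩
    rwa [← Code.enc_inj h1]
  · intro h
    exact ⟨c, rfl, h⟩

theorem G1 : G1S := by
  intro O T
  constructor
  · rintro ⟨h0, hm, hn, ha, he, hs⟩
    have key : ∀ (c : Code) (a : ℕ), Nat.pair c.enc a ∈ T ↔ c.ev O a := by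
      intro c
      induction c with
      | mem => intro a; exact hm a
      | neg c ih => intro a; rw [hn, ih]; rfl
      | and c d ih1 ih2 => intro a; rw [ha, ih1, ih2]; rfl
      | ex c ih =>
          intro a; rw [he]
          exact exists_congr fun b => ih _
      | sub t c ih => intro a; rw [hs, ih]; rfl
    ext x
    constructor
    · intro hx
      obtain ⟨c, hc⟩ := h0 x hx
      refine ⟨c, hc, ?_⟩
      rw [← key, hc, Nat.pair_unpair]
      exact hx
    · rintro ⟨c, hc, h⟩
      rw [← key, hc, Nat.pair_unpair] at h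
      exact h
  · rintro rfl
    refine ⟨fun x hx => ?_, fun a => G1_sat_mem O .mem a, fun c a => ?_, fun c d a => ?_,
      fun c a => ?_, fun t c a => ?_⟩
    · obtain ⟨c, hc, _⟩ := hx
      exact ⟨c, hc⟩
    · rw [G1_sat_mem, G1_sat_mem]; rfl
    · rw [G1_sat_mem, G1_sat_mem, G1_sat_mem]; rfl
    · rw [G1_sat_mem]
      exact exists_congr fun b => (G1_sat_mem O c _).symm
    · rw [G1_sat_mem, G1_sat_mem]; rfl

end FR
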