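import Pool.Agent.Lib.MP_ec866f_lc.Stmts

/-! module G2 -/

set_option autoImplicit false

namespace FR

open Filter Encodable

theorem G2 : G2S := by
  have mT : ∀ {α : Type} [Encodable α] (f : α → ℕ), Ar (fun (x : α) (S : Set ℕ) => f x ∈ col S 1) :=
    fun f => Ar.mem (fun x => Nat.pair 1 (f x))
  have mO : ∀ {α : Type} [Encodable α] (f : α → ℕ), Ar (fun (x : α) (S : Set ℕ) => f x ∈ col S 0) :=
    fun f => Ar.mem (fun x => Nat.pair 0 (f x))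
  have h1 : Ar (fun (_ : ℕ) (S : Set ℕ) => ∀ x : ℕ, x ∈ col S 1 → ∃ c : Code, c.enc = x.unpair.1) := by
    refine Ar.all (P := fun (p : ℕ × ℕ) S => p.2 ∈ col S 1 → ∃ c : Code, c.enc = p.2.unpair.1) ?_
    exact (mT _).imp (Ar.free _)
  have h2 : Ar (fun (_ : ℕ) (S : Set ℕ) => ∀ a : ℕ, Nat.pair Code.mem.enc a ∈ col S 1 ↔ a ∈ col S 0) := by
    refine Ar.all (P := fun (p : ℕ × ℕ) S => (Nat.pair Code.mem.enc p.2 ∈ col S 1 ↔ p.2 ∈ col S 0)) ?_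
    exact (mT _).iff (mO _)
  have h3 : Ar (fun (_ : ℕ) (S : Set ℕ) => ∀ (c : Code) (a : ℕ),
      Nat.pair c.neg.enc a ∈ col S 1 ↔ Nat.pair c.enc a ∉ col S 1) := by
    refine Ar.all (P := fun (p : ℕ × Code) S => ∀ a : ℕ,
      (Nat.pair p.2.neg.enc a ∈ col S 1 ↔ Nat.pair p.2.enc a ∉ col S 1)) ?_
    refine Ar.all (P := fun (p : (ℕ × Code) × ℕ) S =>
      (Nat.pair p.1.2.neg.enc p.2 ∈ col S 1 ↔ Nat.pair p.1.2.enc p.2 ∉ col S 1)) ?_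
    exact (mT _).iff (mT _).not
  have h4 : Ar (fun (_ : ℕ) (S : Set ℕ) => ∀ (c d : Code) (a : ℕ),
      Nat.pair (c.and d).enc a ∈ col S 1 ↔ (Nat.pair c.enc a ∈ col S 1 ∧ Nat.pair d.enc a ∈ col S 1)) := by
    refine Ar.all (P := fun (p : ℕ × Code) S => ∀ (d : Code) (a : ℕ),
      (Nat.pair (p.2.and d).enc a ∈ col S 1 ↔ (Nat.pair p.2.enc a ∈ col S 1 ∧ Nat.pair d.enc a ∈ col S 1))) ?_
    refine Ar.all (P := fun (p : (ℕ × Code) × Code) S => ∀ (a : ℕ),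
      (Nat.pair (p.1.2.and p.2).enc a ∈ col S 1 ↔
        (Nat.pair p.1.2.enc a ∈ col S 1 ∧ Nat.pair p.2.enc a ∈ col S 1))) ?_
    refine Ar.all (P := fun (p : ((ℕ × Code) × Code) × ℕ) S =>
      (Nat.pair (p.1.1.2.and p.1.2).enc p.2 ∈ col S 1 ↔
        (Nat.pair p.1.1.2.enc p.2 ∈ col S 1 ∧ Nat.pair p.1.2.enc p.2 ∈ col S 1))) ?_
    exact (mT _).iff ((mT _).and (mT _))
  have h5 : Ar (fun (_ : ℕ) (S : Set ℕ) => ∀ (c : Code) (a : ℕ),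
      Nat.pair c.ex.enc a ∈ col S 1 ↔ ∃ b, Nat.pair c.enc (Nat.pair a b) ∈ col S 1) := by
    refine Ar.all (P := fun (p : ℕ × Code) S => ∀ a : ℕ,
      (Nat.pair p.2.ex.enc a ∈ col S 1 ↔ ∃ b, Nat.pair p.2.enc (Nat.pair a b) ∈ col S 1)) ?_
    refine Ar.all (P := fun (p : (ℕ × Code) × ℕ) S =>
      (Nat.pair p.1.2.ex.enc p.2 ∈ col S 1 ↔ ∃ b, Nat.pair p.1.2.enc (Nat.pair p.2 b) ∈ col S 1)) ?_
    refine (mT _).iff ?_
    exact Ar.ex (P := fun (p : ((ℕ × Code) × ℕ) × ℕ) S =>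
      Nat.pair p.1.1.2.enc (Nat.pair p.1.2 p.2) ∈ col S 1) (mT _)
  have h6 : Ar (fun (_ : ℕ) (S : Set ℕ) => ∀ (t : Tm) (c : Code) (a : ℕ),
      Nat.pair (Code.sub t c).enc a ∈ col S 1 ↔ Nat.pair c.enc (t.ev a) ∈ col S 1) := by
    refine Ar.all (P := fun (p : ℕ × Tm) S => ∀ (c : Code) (a : ℕ),
      (Nat.pair (Code.sub p.2 c).enc a ∈ col S 1 ↔ Nat.pair c.enc (p.2.ev a) ∈ col S 1)) ?_
    refine Ar.all (P := fun (p : (ℕ × Tm) × Code) S => ∀ (a : ℕ),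
      (Nat.pair (Code.sub p.1.2 p.2).enc a ∈ col S 1 ↔ Nat.pair p.2.enc (p.1.2.ev a) ∈ col S 1)) ?_
    refine Ar.all (P := fun (p : ((ℕ × Tm) × Code) × ℕ) S =>
      (Nat.pair (Code.sub p.1.1.2 p.1.2).enc p.2 ∈ col S 1 ↔
        Nat.pair p.1.2.enc (p.1.1.2.ev p.2) ∈ col S 1)) ?_
    exact (mT _).iff (mT _)
  exact h1.and (h2.and (h3.and (h4.and (h5.and h6))))

end FR
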