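import Pool.Agent.Lib.MP_ec866f_lc.Stmts

/-! module G3 -/

set_option autoImplicit false

namespace FR

open Filter Encodable

/-- Tarski's clauses; `R` is the truth set of the codes of smaller number -/
def G3_step (S R : Set ℕ) (x : ℕ) : Prop :=
  (x.unpair.1 = Code.mem.enc ∧ x.unpair.2 ∈ S) ∨
  (∃ c : Code, x.unpair.1 = c.neg.enc ∧ Nat.pair c.enc x.unpair.2 ∉ R) ∨
  (∃ c d : Code, x.unpair.1 = (c.and d).enc ∧ (Nat.pair c.enc x.unpair.2 ∈ R ∧
    Nat.pair d.enc x.unpair.2 ∈ R)) ∨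
  (∃ c : Code, x.unpair.1 = c.ex.enc ∧ ∃ b, Nat.pair c.enc (Nat.pair x.unpair.2 b) ∈ R) ∨
  (∃ (t : Tm) (c : Code), x.unpair.1 = (Code.sub t c).enc ∧ Nat.pair c.enc (t.ev x.unpair.2) ∈ R)

theorem G3_ar : Ar (fun (x : ℕ) (O : Set ℕ) => G3_step (col (col O 0) 1) (col O 1) x) := by
  have mR : ∀ {α : Type} [Encodable α] (f : α → ℕ), Ar (fun (x : α) (O : Set ℕ) => f x ∈ col O 1) :=
    fun f => Ar.mem (fun x => Nat.pair 1 (f x))
  have mS : ∀ {α : Type} [Encodable α] (f : α → ℕ),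
      Ar (fun (x : α) (O : Set ℕ) => f x ∈ col (col O 0) 1) :=
    fun f => Ar.mem (fun x => Nat.pair 0 (Nat.pair 1 (f x)))
  unfold G3_step
  refine Ar.or ((Ar.free _).and (mS _)) (Ar.or ?_ (Ar.or ?_ (Ar.or ?_ ?_)))
  · refine Ar.ex (P := fun (p : ℕ × Code) O => p.1.unpair.1 = p.2.neg.enc ∧
      Nat.pair p.2.enc p.1.unpair.2 ∉ col O 1) ?_
    exact (Ar.free _).and (mR _).not
  · refine Ar.ex (P := fun (p : ℕ × Code) O => ∃ d : Code, p.1.unpair.1 = (p.2.and d).enc ∧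
      (Nat.pair p.2.enc p.1.unpair.2 ∈ col O 1 ∧ Nat.pair d.enc p.1.unpair.2 ∈ col O 1)) ?_
    refine Ar.ex (P := fun (p : (ℕ × Code) × Code) O => p.1.1.unpair.1 = (p.1.2.and p.2).enc ∧
      (Nat.pair p.1.2.enc p.1.1.unpair.2 ∈ col O 1 ∧ Nat.pair p.2.enc p.1.1.unpair.2 ∈ col O 1)) ?_
    exact (Ar.free _).and ((mR _).and (mR _))
  · refine Ar.ex (P := fun (p : ℕ × Code) O => p.1.unpair.1 = p.2.ex.enc ∧
      ∃ b, Nat.pair p.2.enc (Nat.pair p.1.unpair.2 b) ∈ col O 1) ?_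
    refine (Ar.free _).and ?_
    exact Ar.ex (P := fun (p : (ℕ × Code) × ℕ) O =>
      Nat.pair p.1.2.enc (Nat.pair p.1.1.unpair.2 p.2) ∈ col O 1) (mR _)
  · refine Ar.ex (P := fun (p : ℕ × Tm) O => ∃ c : Code, p.1.unpair.1 = (Code.sub p.2 c).enc ∧
      Nat.pair c.enc (p.2.ev p.1.unpair.2) ∈ col O 1) ?_
    refine Ar.ex (P := fun (p : (ℕ × Tm) × Code) O => p.1.1.unpair.1 = (Code.sub p.1.2 p.2).enc ∧
      Nat.pair p.2.enc (p.1.2.ev p.1.1.unpair.2) ∈ col O 1) ?_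
    exact (Ar.free _).and (mR _)

theorem G3_lt_neg (c : Code) : c.enc < c.neg.enc := by
  have := Nat.right_le_pair 1 c.enc
  simp only [Code.enc]; omega
theorem G3_lt_and1 (c d : Code) : c.enc < (c.and d).enc := by
  have h1 := Nat.right_le_pair 2 (Nat.pair c.enc d.enc)
  have h2 := Nat.left_le_pair c.enc d.enc
  simp only [Code.enc]; omega
theorem G3_lt_and2 (c d : Code) : d.enc < (c.and d).enc := by
  have h1 := Nat.right_le_pair 2 (Nat.pair c.enc d.enc)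
  have h2 := Nat.right_le_pair c.enc d.enc
  simp only [Code.enc]; omega
theorem G3_lt_ex (c : Code) : c.enc < c.ex.enc := by
  have := Nat.right_le_pair 3 c.enc
  simp only [Code.enc]; omega
theorem G3_lt_sub (t : Tm) (c : Code) : c.enc < (Code.sub t c).enc := by
  have h1 := Nat.right_le_pair 4 (Nat.pair t.enc c.enc)
  have h2 := Nat.right_le_pair t.enc c.enc
  simp only [Code.enc]; omega

theorem G3_isSat (S H : Set ℕ)
    (h : ∀ x, x ∈ H ↔ G3_step S {y | y.unpair.1 < x.unpair.1 ∧ y ∈ H} x) : IsSat S H := by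
  refine ⟨fun x hx => ?_, fun a => ?_, fun c a => ?_, fun c d a => ?_, fun c a => ?_, fun t c a => ?_⟩
  · rcases (h x).1 hx with h1 | ⟨c, h1, _⟩ | ⟨c, d, h1, _⟩ | ⟨c, h1, _⟩ | ⟨t, c, h1, _⟩
    · exact ⟨_, h1.1.symm⟩
    · exact ⟨_, h1.symm⟩
    · exact ⟨_, h1.symm⟩
    · exact ⟨_, h1.symm⟩
    · exact ⟨_, h1.symm⟩
  · rw [h]
    simp only [G3_step, Nat.unpair_pair]
    constructor
    · rintro (h1 | ⟨c, h1, _⟩ | ⟨c, d, h1, _⟩ | ⟨c, h1, _⟩ | ⟨t, c, h1, _⟩)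
      · exact h1.2
      all_goals cases Code.enc_inj h1
    · intro h1; exact Or.inl ⟨trivial, h1⟩
  · rw [h]
    simp only [G3_step, Nat.unpair_pair]
    constructor
    · rintro (h1 | ⟨c', h1, h2⟩ | ⟨c, d, h1, _⟩ | ⟨c, h1, _⟩ | ⟨t, c, h1, _⟩)
      · cases Code.enc_inj h1.1
      · cases Code.enc_inj h1
        intro h3
        refine h2 ⟨?_, h3⟩
        simpa using G3_lt_neg c
      all_goals cases Code.enc_inj h1
    · intro h1
      refine Or.inr (Or.inl ⟨c, rfl, fun h2 => h1 h2.2⟩)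
  · rw [h]
    simp only [G3_step, Nat.unpair_pair]
    constructor
    · rintro (h1 | ⟨c', h1, h2⟩ | ⟨c', d', h1, h2, h3⟩ | ⟨c, h1, _⟩ | ⟨t, c, h1, _⟩)
      · cases Code.enc_inj h1.1
      · cases Code.enc_inj h1
      · cases Code.enc_inj h1
        exact ⟨h2.2, h3.2⟩
      all_goals cases Code.enc_inj h1
    · intro h1
      refine Or.inr (Or.inr (Or.inl ⟨c, d, rfl, ⟨?_, h1.1⟩, ⟨?_, h1.2⟩⟩))
      · simpa using G3_lt_and1 c d
      · simpa using G3_lt_and2 c d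
  · rw [h]
    simp only [G3_step, Nat.unpair_pair]
    constructor
    · rintro (h1 | ⟨c', h1, h2⟩ | ⟨c', d', h1, h2⟩ | ⟨c', h1, b, h2⟩ | ⟨t, c, h1, _⟩)
      · cases Code.enc_inj h1.1
      · cases Code.enc_inj h1
      · cases Code.enc_inj h1
      · cases Code.enc_inj h1
        exact ⟨b, h2.2⟩
      all_goals cases Code.enc_inj h1
    · rintro ⟨b, h1⟩
      refine Or.inr (Or.inr (Or.inr (Or.inl ⟨c, rfl, b, ?_, h1⟩)))
      simpa using G3_lt_ex c
  · rw [h]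
    simp only [G3_step, Nat.unpair_pair]
    constructor
    · rintro (h1 | ⟨c', h1, h2⟩ | ⟨c', d', h1, h2⟩ | ⟨c', h1, b, h2⟩ | ⟨t', c', h1, h2⟩)
      · cases Code.enc_inj h1.1
      · cases Code.enc_inj h1
      · cases Code.enc_inj h1
      · cases Code.enc_inj h1
      · cases Code.enc_inj h1
        exact h2.2
    · intro h1
      refine Or.inr (Or.inr (Or.inr (Or.inr ⟨t, c, rfl, ?_, h1⟩)))
      simpa using G3_lt_sub t c

theorem G3 (h1 : G1S) : G3S := by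
  have hW := (Ar.free (fun x : ℕ => x.unpair.1 ≤ x.unpair.2)).set_mem
  filter_upwards [hW, G3_ar.code_in] with G hW ⟨c, hc⟩ M hM hG hA S hS
  have hWM : {x : ℕ | x.unpair.1 ≤ x.unpair.2} ∈ M := hW M hM hG S hS
  set W : Set ℕ := {x : ℕ | x.unpair.1 ≤ x.unpair.2} with hWdef
  have hWm : ∀ p q, Nat.pair p q ∈ W ↔ p ≤ q := by
    intro p q; simp [hWdef]
  have hLO : IsLO W := by
    refine ⟨fun p q _ => ⟨?_, ?_⟩, fun p q r h1 h2 => ?_, fun p q h1 h2 => ?_, fun p q _ _ => ?_⟩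
    · rw [hWm]
    · rw [hWm]
    · rw [hWm] at *; exact le_trans h1 h2
    · rw [hWm] at *; exact le_antisymm h1 h2
    · rw [hWm, hWm]; exact le_total p q
  have hND : NoDesc M W := by
    rintro ⟨f, _, hf⟩
    have h2 : ∀ n, f (n + 1) < f n := fun n =>
      lt_of_le_of_ne ((hWm _ _).1 (hf n).1) (hf n).2
    have h3 : ∀ n, f n + n ≤ f 0 := by
      intro n
      induction n with
      | zero => simp
      | succ n ih => have := h2 n; omega
    have := h3 (f 0 + 1)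
    omega
  obtain ⟨H, hHM, hH⟩ := hA W hWM hLO hND (jn G S) (hM.jn_mem hG hS) c
  have h4 : IsSat S H := by
    refine G3_isSat S H fun x => ?_
    rw [hH x]
    have h5 := hc S (low W H x.unpair.1) x
    simp only [encode_nat] at h5
    rw [h5, jn_col_zero, jn_col_one, jn_col_one]
    have h6 : low W H x.unpair.1 = {y | y.unpair.1 < x.unpair.1 ∧ y ∈ H} := by
      ext y
      simp only [low, Set.mem_ofPred_eq, hWm]
      constructor
      · rintro ⟨h7, h8, h9⟩; exact ⟨lt_of_le_of_ne h7 h8, h9⟩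
      · rintro ⟨h7, h9⟩; exact ⟨h7.le, h7.ne, h9⟩
    rw [h6, hWm]
    simp
  rw [h1] at h4
  rw [← h4]; exact hHM

end FR
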