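import Pool.Agent.Lib.MP_ec866f_lc.Stmts

set_option autoImplicit false

namespace FR

open Filter Encodable

theorem G5 : G5S := by
  intro c W Y hW hD
  have hwf : WellFounded (fun q p : ℕ => Nat.pair q p ∈ W ∧ q ≠ p) := by
    rw [wellFounded_iff_isEmpty_descending_chain]
    refine ⟨fun f => hD ⟨f.1, Set.mem_univ _, fun n => ?_⟩⟩
    exact f.2 n
  let K : ℕ → Set ℕ := hwf.fix (C := fun _ => Set ℕ) (fun p ih =>
    {x | Nat.pair p p ∈ W ∧ c.ev (jn Y {y | ∃ h : Nat.pair y.unpair.1 p ∈ W ∧ y.unpair.1 ≠ p,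
      y ∈ ih y.unpair.1 h}) x})
  have hK : ∀ p, K p = {x | Nat.pair p p ∈ W ∧
      c.ev (jn Y {y | ∃ _ : Nat.pair y.unpair.1 p ∈ W ∧ y.unpair.1 ≠ p, y ∈ K y.unpair.1}) x} := by
    intro p
    show hwf.fix _ p = _
    rw [WellFounded.fix_eq]
  refine ⟨{x | x ∈ K x.unpair.1}, fun x => ?_⟩
  have h1 : x ∈ {x | x ∈ K x.unpair.1} ↔ x ∈ K x.unpair.1 := Iff.rfl
  rw [h1, hK]
  have h2 : {y | ∃ _ : Nat.pair y.unpair.1 x.unpair.1 ∈ W ∧ y.unpair.1 ≠ x.unpair.1,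
      y ∈ K y.unpair.1} = low W {x | x ∈ K x.unpair.1} x.unpair.1 := by
    ext y
    simp only [low, Set.mem_ofPred_eq, exists_prop, and_assoc]
  rw [h2]
  exact Iff.rfl

end FR
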