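import Pool.Agent.Lib.MP_ec866f_lc.Stmts

set_option autoImplicit false

namespace FR

open Filter Encodable

/-- names -/
inductive G6_Nm : Type
  | g : G6_Nm
  | jn (a b : G6_Nm) : G6_Nm
  | compl (a : G6_Nm) : G6_Nm
  | inter (a b : G6_Nm) : G6_Nm
  | proj (a : G6_Nm) : G6_Nm
  | tm (t : Tm) (a : G6_Nm) : G6_Nm
  | sat (a : G6_Nm) : G6_Nm
  | hier (c : Code) (a b : G6_Nm) : G6_Nm
  | desc (a : G6_Nm) : G6_Nm

def G6_Nm.enc : G6_Nm → ℕ
  | .g => 0
  | .jn a b => Nat.pair 1 (Nat.pair a.enc b.enc) + 1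
  | .compl a => Nat.pair 2 a.enc + 1
  | .inter a b => Nat.pair 3 (Nat.pair a.enc b.enc) + 1
  | .proj a => Nat.pair 4 a.enc + 1
  | .tm t a => Nat.pair 5 (Nat.pair t.enc a.enc) + 1
  | .sat a => Nat.pair 6 a.enc + 1
  | .hier c a b => Nat.pair 7 (Nat.pair c.enc (Nat.pair a.enc b.enc)) + 1
  | .desc a => Nat.pair 8 a.enc + 1

theorem G6_Nm.enc_inj : Function.Injective G6_Nm.enc := by
  intro t
  induction t with
  | g => intro u h; cases u <;> simp [G6_Nm.enc] at h ⊢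
  | jn a b ih1 ih2 =>
      intro w h; cases w <;> simp [G6_Nm.enc, Nat.pair_eq_pair] at h ⊢; exact ⟨ih1 h.1, ih2 h.2⟩
  | compl a ih => intro u h; cases u <;> simp [G6_Nm.enc, Nat.pair_eq_pair] at h ⊢; exact ih h
  | inter a b ih1 ih2 =>
      intro w h; cases w <;> simp [G6_Nm.enc, Nat.pair_eq_pair] at h ⊢; exact ⟨ih1 h.1, ih2 h.2⟩
  | proj a ih => intro u h; cases u <;> simp [G6_Nm.enc, Nat.pair_eq_pair] at h ⊢; exact ih h
  | tm t a ih =>
      intro w h; cases w <;> simp [G6_Nm.enc, Nat.pair_eq_pair] at h ⊢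
      exact ⟨Tm.enc_inj h.1, ih h.2⟩
  | sat a ih => intro u h; cases u <;> simp [G6_Nm.enc, Nat.pair_eq_pair] at h ⊢; exact ih h
  | hier c a b ih1 ih2 =>
      intro w h; cases w <;> simp [G6_Nm.enc, Nat.pair_eq_pair] at h ⊢
      exact ⟨Code.enc_inj h.1, ih1 h.2.1, ih2 h.2.2⟩
  | desc a ih => intro u h; cases u <;> simp [G6_Nm.enc, Nat.pair_eq_pair] at h ⊢; exact ih h

open Classical in
/-- interpretation -/
noncomputable def G6_I (G : Set ℕ) : G6_Nm → Set ℕ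
  | .g => G
  | .jn a b => FR.jn (G6_I G a) (G6_I G b)
  | .compl a => (G6_I G a)ᶜ
  | .inter a b => G6_I G a ∩ G6_I G b
  | .proj a => {n | ∃ b, Nat.pair n b ∈ G6_I G a}
  | .tm t a => {n | t.ev n ∈ G6_I G a}
  | .sat a => Sat (G6_I G a)
  | .hier c a b => if h : ∃ H, Hier c (G6_I G a) (G6_I G b) H then h.choose else ∅
  | .desc a => if h : ∃ f : ℕ → ℕ, ∀ n, Nat.pair (f (n + 1)) (f n) ∈ G6_I G a ∧ f (n + 1) ≠ f n
      then gr h.choose else ∅

theorem G6 (h5 : G5S) : G6S := by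
  intro G
  let y : Set ℕ := {x | ∃ a : G6_Nm, a.enc = x.unpair.1 ∧ x.unpair.2 ∈ G6_I G a}
  have hcol : ∀ a : G6_Nm, col y a.enc = G6_I G a := by
    intro a
    ext n
    show (∃ a' : G6_Nm, a'.enc = (Nat.pair a.enc n).unpair.1 ∧ (Nat.pair a.enc n).unpair.2 ∈ G6_I G a') ↔ _
    simp only [Nat.unpair_pair]
    constructor
    · rintro ⟨a', h1, h2⟩
      rwa [G6_Nm.enc_inj h1] at h2
    · intro h
      exact ⟨a, rfl, h⟩
  have hmem : ∀ a : G6_Nm, G6_I G a ∈ cols y := fun a => ⟨a.enc, hcol a⟩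
  have hsurj : ∀ A ∈ cols y, ∃ a : G6_Nm, G6_I G a = A := by
    rintro A ⟨i, rfl⟩
    by_cases h : ∃ a : G6_Nm, a.enc = i
    · obtain ⟨a, rfl⟩ := h
      exact ⟨a, (hcol a).symm⟩
    · refine ⟨.inter .g (.compl .g), ?_⟩
      show G ∩ Gᶜ = _
      rw [Set.inter_compl_self]
      symm
      rw [Set.eq_empty_iff_forall_notMem]
      rintro n ⟨a, h1, _⟩
      apply h
      refine ⟨a, ?_⟩
      rw [h1, Nat.unpair_pair]
  have haca : ACA (cols y) := by
    refine ⟨⟨_, hmem .g⟩, ?_, ?_, ?_, ?_, ?_⟩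
    · intro A B hA hB
      obtain ⟨a, rfl⟩ := hsurj A hA
      obtain ⟨b, rfl⟩ := hsurj B hB
      exact hmem (.jn a b)
    · intro A hA
      obtain ⟨a, rfl⟩ := hsurj A hA
      exact hmem (.compl a)
    · intro A B hA hB
      obtain ⟨a, rfl⟩ := hsurj A hA
      obtain ⟨b, rfl⟩ := hsurj B hB
      exact hmem (.inter a b)
    · intro A hA
      obtain ⟨a, rfl⟩ := hsurj A hA
      exact hmem (.proj a)
    · intro A t hA
      obtain ⟨a, rfl⟩ := hsurj A hA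
      exact hmem (.tm t a)
  refine ⟨y, hmem .g, haca, ?_, ?_⟩
  · intro A hA
    obtain ⟨a, rfl⟩ := hsurj A hA
    exact hmem (.sat a)
  · intro W hW hLO hD Y hY c
    obtain ⟨a, rfl⟩ := hsurj W hW
    obtain ⟨b, rfl⟩ := hsurj Y hY
    have hD' : NoDesc Set.univ (G6_I G a) := by
      rintro ⟨f, _, hf⟩
      have hex : ∃ f : ℕ → ℕ, ∀ n, Nat.pair (f (n + 1)) (f n) ∈ G6_I G a ∧ f (n + 1) ≠ f n :=
        ⟨f, hf⟩
      apply hD
      refine ⟨hex.choose, ?_, hex.choose_spec⟩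
      have h1 : G6_I G (.desc a) = gr hex.choose := by
        simp only [G6_I]
        rw [dif_pos hex]
      rw [← h1]
      exact hmem _
    have hex := h5 c (G6_I G a) (G6_I G b) hLO hD'
    refine ⟨hex.choose, ?_, hex.choose_spec⟩
    have h1 : G6_I G (.hier c a b) = hex.choose := by
      simp only [G6_I]
      rw [dif_pos hex]
    rw [← h1]
    exact hmem _

end FR
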