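import Pool.Agent.Lib.MP_ec866f_lc.Stmts

set_option autoImplicit false

namespace FR

open Filter Encodable

theorem G7_fu_jn {x : ℕ} {A B : Set ℕ → Set ℕ} (hA : ∀ n, FU (fun S => n ∈ A S))
    (hB : ∀ n, FU (fun S => n ∈ B S)) : FU (fun S => x ∈ jn (A S) (B S)) := by
  have : (fun S => x ∈ jn (A S) (B S)) = (fun S =>
      ((x.unpair.1 = 0 ∧ x.unpair.2 ∈ A S) ∨ (x.unpair.1 = 1 ∧ x.unpair.2 ∈ B S))) := rfl
  rw [this]
  exact ((FU.const _).and (hA _)).or ((FU.const _).and (hB _))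

theorem G7 (h1 : G1S) (h2 : G2S) (h4 : G4S) (h6 : G6S) : G7S := by
  obtain ⟨Q, hQ, hQG⟩ := h4
  let P : ℕ → Set ℕ → Prop := fun n S => ∀ i j : ℕ,
    (IsSat (jn (col S 0) (jn (col S 0) (col (col S 1) i))) (col (col S 1) j) ∧
      Q (jn (col S 0) (col (col S 1) i))) → Nat.pair n n ∉ col (col S 1) j
  have hP : Ar P := by
    refine Ar.all (P := fun (p : ℕ × ℕ) S => ∀ j : ℕ,
      (IsSat (jn (col S 0) (jn (col S 0) (col (col S 1) p.2))) (col (col S 1) j) ∧
      Q (jn (col S 0) (col (col S 1) p.2))) → Nat.pair p.1 p.1 ∉ col (col S 1) j) ?_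
    refine Ar.all (P := fun (p : (ℕ × ℕ) × ℕ) S =>
      (IsSat (jn (col S 0) (jn (col S 0) (col (col S 1) p.1.2))) (col (col S 1) p.2) ∧
      Q (jn (col S 0) (col (col S 1) p.1.2))) → Nat.pair p.1.1 p.1.1 ∉ col (col S 1) p.2) ?_
    refine Ar.imp (Ar.and ?_ ?_) ?_
    · have e1 : Ar (fun (p : (ℕ × ℕ) × ℕ) S => IsSat (col S 0) (col S 1)) :=
        Ar.comp h2 (fun _ => 0)
      have e2 := Ar.subst e1 (B := fun p S => jn (jn (col S 0) (jn (col S 0) (col (col S 1) p.1.2)))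
        (col (col S 1) p.2)) (by
          refine Ar.of_FU fun q => ?_
          refine G7_fu_jn (fun n => G7_fu_jn (fun n => FU.mem _) (fun n => G7_fu_jn (fun n => FU.mem _)
            (fun n => FU.mem _))) (fun n => FU.mem _))
      refine e2.congr fun p S => ?_
      rw [jn_col_zero, jn_col_one]
    · have e1 : Ar (fun (p : (ℕ × ℕ) × ℕ) S => Q S) := Ar.comp hQ (fun _ => 0)
      exact Ar.subst e1 (B := fun p S => jn (col S 0) (col (col S 1) p.1.2)) (by
          refine Ar.of_FU fun q => ?_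
          refine G7_fu_jn (fun n => FU.mem _) (fun n => FU.mem _))
    · exact (Ar.mem (fun p : (ℕ × ℕ) × ℕ => Nat.pair 1 (Nat.pair p.2 (Nat.pair p.1.1 p.1.1)))).not
  filter_upwards [hP, hQG] with G ⟨d, hd⟩ hq
  by_contra hno
  have hno' : ∀ y, QQ G y → ∃ i, QQ G (col y i) := by
    intro y hy
    by_contra h
    exact hno ⟨y, hy, fun i hi => h ⟨i, hi⟩⟩
  let R : Set ℕ → Prop := fun y => P d.enc (jn G y)
  have hsat : ∀ y, Nat.pair d.enc d.enc ∈ Sat (jn G (jn G y)) ↔ R y := by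
    intro y
    constructor
    · rintro ⟨c, hc, hc'⟩
      simp only [Nat.unpair_pair] at hc hc'
      have := Code.enc_inj hc
      subst this
      exact (hd _ _).1 hc'
    · intro h
      refine ⟨d, by simp, ?_⟩
      simp only [Nat.unpair_pair]
      exact (hd _ _).2 h
  have hRdef : ∀ y, R y ↔ ∀ i j : ℕ, (IsSat (jn G (jn G (col y i))) (col y j) ∧
      Q (jn G (col y i))) → Nat.pair d.enc d.enc ∉ col y j := by
    intro y
    change (∀ i j : ℕ, _) ↔ _
    simp only [jn_col_zero, jn_col_one]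
  have key : ∀ y, QQ G y → (R y ↔ ∀ i, QQ G (col y i) → ¬ R (col y i)) := by
    intro y hy
    obtain ⟨hG, haca, hsc, hatr⟩ := hy
    rw [hRdef]
    constructor
    · intro h i hi hR
      have h3 : jn G (jn G (col y i)) ∈ cols y := haca.jn_mem hG (haca.jn_mem hG ⟨i, rfl⟩)
      obtain ⟨j, hj⟩ := hsc _ h3
      refine h i j ⟨(h1 _ _).2 hj, (hq _).1 hi⟩ ?_
      rw [hj, hsat]; exact hR
    · rintro h i j ⟨h3, h4⟩ h5
      rw [h1] at h3
      rw [h3, hsat] at h5
      exact h i ((hq _).2 h4) h5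
  have hneg : ∀ y, QQ G y → ¬ R y := by
    intro y hy hR
    obtain ⟨i, hi⟩ := hno' y hy
    have h3 := (key y hy).1 hR
    have h4 : ¬ R (col y i) := h3 i hi
    rw [key _ hi] at h4
    push Not at h4
    obtain ⟨j, hj, hRj⟩ := h4
    obtain ⟨k, hk⟩ := hy.2.1.col_mem (S := col y i) ⟨i, rfl⟩ j
    rw [← hk] at hj hRj
    exact h3 k hj hRj
  obtain ⟨y, hy⟩ := h6 G
  exact hneg y hy ((key y hy).2 fun i hi => hneg _ hi)

end FR
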