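import Pool.Agent.Lib.MP_ec866f_lc.Stmts

set_option autoImplicit false

namespace FR

open Filter Encodable

/-- update of a list -/
def G8_upd (i : ℕ) (x : List ℕ) (n : ℕ) : List ℕ :=
  (List.range (max x.length (i + 1))).map (fun j => if j = i then n else x.getD j 0)

theorem G8_upd_getD (i : ℕ) (x : List ℕ) (n : ℕ) :
    (fun j => (G8_upd i x n).getD j 0) = Function.update (fun j => x.getD j 0) i n := by
  funext j
  unfold G8_upd
  by_cases hj : j < max x.length (i + 1)
  · rw [List.getD_eq_getElem?_getD, List.getElem?_map, List.getElem?_range hj]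
    simp only [Option.map_some, Option.getD_some]
    by_cases h : j = i
    · subst h
      simp
    · rw [if_neg h, Function.update_of_ne h]
  · have h1 : x.length ≤ j := by omega
    have h2 : j ≠ i := by omega
    rw [Function.update_of_ne h2, List.getD_eq_default _ _ h1, List.getD_eq_default]
    simp only [List.length_map, List.length_range]
    omega

theorem G8 : G8S := by
  intro p
  induction p with
  | eq s t => exact Ar.free _
  | lt s t => exact Ar.free _
  | mem t i => exact Ar.mem (fun x : List ℕ => Nat.pair i (t.val (fun i => x.getD i 0)))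
  | neg p ih => exact ih.not
  | and p q ih1 ih2 => exact ih1.and ih2
  | all i p ih =>
    have h1 : Ar (fun (x : List ℕ) (S : Set ℕ) => ∀ n : ℕ,
        p.tr (fun i => col S i) (fun j => (G8_upd i x n).getD j 0)) := by
      refine Ar.all (P := fun (z : List ℕ × ℕ) (S : Set ℕ) =>
        p.tr (fun i => col S i) (fun j => (G8_upd i z.1 z.2).getD j 0)) ?_
      exact ih.comp (fun z : List ℕ × ℕ => G8_upd i z.1 z.2)
    refine h1.congr fun x S => ?_
    show _ ↔ ∀ n, p.tr _ _
    refine forall_congr' fun n => ?_
    rw [G8_upd_getD]

end FR
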