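import Pool.Agent.Lib.MP_ec866f_lc.Stmts

set_option autoImplicit false

namespace FR

open Filter Encodable

def G9_tenc : NTm → ℕ
  | .var i => Nat.pair 0 i
  | .zero => Nat.pair 1 0
  | .one => Nat.pair 2 0
  | .add s t => Nat.pair 3 (Nat.pair (G9_tenc s) (G9_tenc t))
  | .mul s t => Nat.pair 4 (Nat.pair (G9_tenc s) (G9_tenc t))

theorem G9_tenc_inj : Function.Injective G9_tenc := by
  intro t
  induction t with
  | var i => intro u h; cases u <;> simp [G9_tenc, Nat.pair_eq_pair] at h ⊢; exact h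
  | zero => intro u h; cases u <;> simp [G9_tenc, Nat.pair_eq_pair] at h ⊢
  | one => intro u h; cases u <;> simp [G9_tenc, Nat.pair_eq_pair] at h ⊢
  | add s t ih1 ih2 =>
      intro u h; cases u <;> simp [G9_tenc, Nat.pair_eq_pair] at h ⊢; exact ⟨ih1 h.1, ih2 h.2⟩
  | mul s t ih1 ih2 =>
      intro u h; cases u <;> simp [G9_tenc, Nat.pair_eq_pair] at h ⊢; exact ⟨ih1 h.1, ih2 h.2⟩

def G9_enc : Fm → ℕ
  | .eq s t => Nat.pair 0 (Nat.pair (G9_tenc s) (G9_tenc t))
  | .lt s t => Nat.pair 1 (Nat.pair (G9_tenc s) (G9_tenc t))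
  | .mem t i => Nat.pair 2 (Nat.pair (G9_tenc t) i)
  | .neg p => Nat.pair 3 (G9_enc p)
  | .and p q => Nat.pair 4 (Nat.pair (G9_enc p) (G9_enc q))
  | .all i p => Nat.pair 5 (Nat.pair i (G9_enc p))

theorem G9_enc_inj : Function.Injective G9_enc := by
  intro t
  induction t with
  | eq s t =>
      intro u h; cases u <;> simp [G9_enc, Nat.pair_eq_pair] at h ⊢
      exact ⟨G9_tenc_inj h.1, G9_tenc_inj h.2⟩
  | lt s t =>
      intro u h; cases u <;> simp [G9_enc, Nat.pair_eq_pair] at h ⊢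
      exact ⟨G9_tenc_inj h.1, G9_tenc_inj h.2⟩
  | mem t i =>
      intro u h; cases u <;> simp [G9_enc, Nat.pair_eq_pair] at h ⊢
      exact ⟨G9_tenc_inj h.1, h.2⟩
  | neg p ih => intro u h; cases u <;> simp [G9_enc, Nat.pair_eq_pair] at h ⊢; exact ih h
  | and p q ih1 ih2 =>
      intro u h; cases u <;> simp [G9_enc, Nat.pair_eq_pair] at h ⊢; exact ⟨ih1 h.1, ih2 h.2⟩
  | all i p ih =>
      intro u h; cases u <;> simp [G9_enc, Nat.pair_eq_pair] at h ⊢; exact ⟨h.1, ih h.2⟩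

instance G9_countable : Countable Fm := G9_enc_inj.countable

theorem G9_tm (t : NTm) : ∃ N : ℕ, ∀ v v' : ℕ → ℕ, (∀ i < N, v i = v' i) → t.val v = t.val v' := by
  induction t with
  | var i => exact ⟨i + 1, fun v v' h => h i (Nat.lt_succ_self i)⟩
  | zero => exact ⟨0, fun v v' h => rfl⟩
  | one => exact ⟨0, fun v v' h => rfl⟩
  | add s t ih1 ih2 =>
    obtain ⟨N1, h1⟩ := ih1
    obtain ⟨N2, h2⟩ := ih2
    refine ⟨max N1 N2, fun v v' h => ?_⟩
    show s.val v + t.val v = s.val v' + t.val v'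
    rw [h1 v v' fun i hi => h i (lt_of_lt_of_le hi (le_max_left _ _)),
      h2 v v' fun i hi => h i (lt_of_lt_of_le hi (le_max_right _ _))]
  | mul s t ih1 ih2 =>
    obtain ⟨N1, h1⟩ := ih1
    obtain ⟨N2, h2⟩ := ih2
    refine ⟨max N1 N2, fun v v' h => ?_⟩
    show s.val v * t.val v = s.val v' * t.val v'
    rw [h1 v v' fun i hi => h i (lt_of_lt_of_le hi (le_max_left _ _)),
      h2 v v' fun i hi => h i (lt_of_lt_of_le hi (le_max_right _ _))]

theorem G9_fm (p : Fm) : ∃ N : ℕ, ∀ (V V' : ℕ → Set ℕ) (v v' : ℕ → ℕ), (∀ i < N, V i = V' i) →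
    (∀ i < N, v i = v' i) → (p.tr V v ↔ p.tr V' v') := by
  induction p with
  | eq s t =>
    obtain ⟨N1, h1⟩ := G9_tm s
    obtain ⟨N2, h2⟩ := G9_tm t
    refine ⟨max N1 N2, fun V V' v v' _ h => ?_⟩
    show s.val v = t.val v ↔ s.val v' = t.val v'
    rw [h1 v v' fun i hi => h i (lt_of_lt_of_le hi (le_max_left _ _)),
      h2 v v' fun i hi => h i (lt_of_lt_of_le hi (le_max_right _ _))]
  | lt s t =>
    obtain ⟨N1, h1⟩ := G9_tm s
    obtain ⟨N2, h2⟩ := G9_tm t
    refine ⟨max N1 N2, fun V V' v v' _ h => ?_⟩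
    show s.val v < t.val v ↔ s.val v' < t.val v'
    rw [h1 v v' fun i hi => h i (lt_of_lt_of_le hi (le_max_left _ _)),
      h2 v v' fun i hi => h i (lt_of_lt_of_le hi (le_max_right _ _))]
  | mem t i =>
    obtain ⟨N1, h1⟩ := G9_tm t
    refine ⟨max N1 (i + 1), fun V V' v v' hV h => ?_⟩
    show t.val v ∈ V i ↔ t.val v' ∈ V' i
    rw [h1 v v' fun i hi => h i (lt_of_lt_of_le hi (le_max_left _ _)),
      hV i (lt_of_lt_of_le (Nat.lt_succ_self i) (le_max_right _ _))]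
  | neg p ih =>
    obtain ⟨N, h⟩ := ih
    exact ⟨N, fun V V' v v' hV hv => not_congr (h V V' v v' hV hv)⟩
  | and p q ih1 ih2 =>
    obtain ⟨N1, h1⟩ := ih1
    obtain ⟨N2, h2⟩ := ih2
    exact ⟨max N1 N2, fun V V' v v' hV hv => and_congr
      (h1 V V' v v' (fun i hi => hV i (lt_of_lt_of_le hi (le_max_left _ _)))
        (fun i hi => hv i (lt_of_lt_of_le hi (le_max_left _ _))))
      (h2 V V' v v' (fun i hi => hV i (lt_of_lt_of_le hi (le_max_right _ _)))
        (fun i hi => hv i (lt_of_lt_of_le hi (le_max_right _ _))))⟩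
  | all i p ih =>
    obtain ⟨N, h⟩ := ih
    refine ⟨N, fun V V' v v' hV hv => ?_⟩
    show (∀ n, p.tr V (Function.update v i n)) ↔ ∀ n, p.tr V' (Function.update v' i n)
    refine forall_congr' fun n => h V V' _ _ hV fun j hj => ?_
    by_cases hji : j = i
    · subst hji; simp
    · rw [Function.update_of_ne hji, Function.update_of_ne hji, hv j hj]

/-- coding of finitely many parameters -/
theorem G9_param : ∀ᶠ G in rich, ∀ M, ACA M → G ∈ M → ∀ V : ℕ → Set ℕ, (∀ i, V i ∈ M) → ∀ N : ℕ,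
    ∃ S ∈ M, ∀ i < N, col S i = V i := by
  have h1 : ∀ N : ℕ, Ar (fun (x : ℕ) (S : Set ℕ) =>
      (x.unpair.1 < N ∧ Nat.pair 0 x ∈ S) ∨ (x.unpair.1 = N ∧ Nat.pair 1 x.unpair.2 ∈ S)) := by
    intro N
    exact ((Ar.free _).and (Ar.mem _)).or ((Ar.free _).and (Ar.mem _))
  filter_upwards [rich_countable (fun N : ℕ => (h1 N).set_mem)] with G hG M hM hGM V hV N
  induction N with
  | zero => exact ⟨G, hGM, fun i hi => absurd hi (Nat.not_lt_zero i)⟩
  | succ N ih =>
    obtain ⟨S, hS, h⟩ := ih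
    refine ⟨_, hG N M hM hGM (jn S (V N)) (hM.jn_mem hS (hV N)), fun i hi => ?_⟩
    ext n
    simp only [mem_col, Set.mem_ofPred_eq, Nat.unpair_pair]
    have e0 : Nat.pair 0 (Nat.pair i n) ∈ jn S (V N) ↔ n ∈ col S i := by simp [jn]
    have e1 : Nat.pair 1 n ∈ jn S (V N) ↔ n ∈ V N := by simp [jn]
    rw [e0, e1]
    rcases Nat.lt_succ_iff_lt_or_eq.1 hi with hi' | rfl
    · rw [h i hi']
      constructor
      · rintro (⟨_, h2⟩ | ⟨h2, _⟩)
        · exact h2
        · omega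
      · intro h2
        exact Or.inl ⟨hi', h2⟩
    · constructor
      · rintro (⟨h2, _⟩ | ⟨_, h2⟩)
        · omega
        · exact h2
      · intro h2
        exact Or.inr ⟨rfl, h2⟩

/-- the list of the first values -/
def G9_l (v : ℕ → ℕ) (N : ℕ) : List ℕ := (List.range N).map v

theorem G9_l_getD (v : ℕ → ℕ) (N i : ℕ) (hi : i < N) : (G9_l v N).getD i 0 = v i := by
  unfold G9_l
  rw [List.getD_eq_getElem?_getD, List.getElem?_map, List.getElem?_range hi]
  rfl

theorem G9_set_getD (l : List ℕ) (k n i : ℕ) (hk : k < l.length) :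
    (l.set k n).getD i 0 = Function.update (fun i => l.getD i 0) k n i := by
  rw [List.getD_eq_getElem?_getD, List.getElem?_set]
  by_cases h : k = i
  · subst h
    simp [hk]
  · rw [if_neg h, Function.update_of_ne (Ne.symm h), List.getD_eq_getElem?_getD]

theorem G9_aca (h8 : G8S) : ∀ᶠ G in rich, ∀ M, ACA M → G ∈ M →
    ∀ (p : Fm) (V : ℕ → Set ℕ) (v : ℕ → ℕ), (∀ i, V i ∈ M) →
      {n | p.tr V (Function.update v 0 n)} ∈ M := by
  have h1 : ∀ z : Fm × List ℕ, Ar (fun (n : ℕ) (S : Set ℕ) =>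
      z.1.tr (fun i => col S i) (fun i => (z.2.set 0 n).getD i 0)) := fun z =>
    (h8 z.1).comp (fun n : ℕ => z.2.set 0 n)
  filter_upwards [G9_param, rich_countable (fun z : Fm × List ℕ => (h1 z).set_mem)]
    with G hG1 hG2 M hM hGM p V v hV
  obtain ⟨N0, hN0⟩ := G9_fm p
  let N := N0 + 1
  obtain ⟨S, hS, hcol⟩ := hG1 M hM hGM V hV N
  have h2 := hG2 (p, G9_l v N) M hM hGM S hS
  convert h2 using 1
  ext n
  simp only [Set.mem_ofPred_eq]
  refine hN0 _ _ _ _ (fun i hi => (hcol i (by omega)).symm) fun i hi => ?_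
  rw [G9_set_getD _ _ _ _ (by simp [G9_l, N])]
  by_cases h : i = 0
  · subst h; simp
  · rw [Function.update_of_ne h, Function.update_of_ne h, G9_l_getD v N i (by omega)]

/-- the oracle for the step -/
def G9_B (O : Set ℕ) : Set ℕ :=
  {z | (z.unpair.1 = 0 ∧ Nat.pair 1 (Nat.pair z.unpair.2.unpair.2 z.unpair.2.unpair.1) ∈ O) ∨
    (z.unpair.1 ≠ 0 ∧ Nat.pair 0 (Nat.pair 1 z) ∈ O)}

theorem G9_atr (h8 : G8S) : ∀ᶠ G in rich, ∀ M, ACA M → G ∈ M → ATR M →
    ∀ (p : Fm) (V : ℕ → Set ℕ) (v : ℕ → ℕ), (∀ i, V i ∈ M) →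
    ∀ W ∈ M, IsLO W → NoDesc M W →
      ∃ H ∈ M, ∀ n j, (Nat.pair n j ∈ H ↔ (Nat.pair j j ∈ W ∧
        p.tr (Function.update V 0 {x | Nat.pair x.unpair.2 j ∈ W ∧ x.unpair.2 ≠ j ∧ x ∈ H})
          (Function.update (Function.update v 0 n) 1 j))) := by
  have h1 : ∀ z : Fm × List ℕ, Ar (fun (x : ℕ) (O : Set ℕ) =>
      z.1.tr (fun i => col (G9_B O) i)
        (fun i => (((z.2.set 0 x.unpair.2).set 1 x.unpair.1)).getD i 0)) := by
    intro z
    refine Ar.subst (P := fun (x : ℕ) (O : Set ℕ) => z.1.tr (fun i => col O i)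
        (fun i => (((z.2.set 0 x.unpair.2).set 1 x.unpair.1)).getD i 0)) (B := fun _ O => G9_B O)
      ((h8 z.1).comp (fun x : ℕ => ((z.2.set 0 x.unpair.2).set 1 x.unpair.1))) ?_
    exact ((Ar.free _).and (Ar.mem _)).or ((Ar.free _).and (Ar.mem _))
  filter_upwards [G9_param, rich_countable (fun z : Fm × List ℕ => (h1 z).code_in)]
    with G hG1 hG2 M hM hGM hATR p V v hV W hW hLO hD
  obtain ⟨N0, hN0⟩ := G9_fm p
  let N := N0 + 2
  obtain ⟨S, hS, hcol⟩ := hG1 M hM hGM V hV N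
  obtain ⟨c, hc⟩ := hG2 (p, G9_l v N)
  obtain ⟨H', hH', hH⟩ := hATR W hW hLO hD (jn G S) (hM.jn_mem hGM hS) c
  refine ⟨{y | (Tm.pr (.snd .id) (.fst .id)).ev y ∈ H'}, hM.tm_mem _ hH', fun n j => ?_⟩
  have e1 : Nat.pair n j ∈ {y | (Tm.pr (.snd .id) (.fst .id)).ev y ∈ H'} ↔ Nat.pair j n ∈ H' := by
    simp [Tm.ev]
  rw [e1, hH]
  simp only [Nat.unpair_pair]
  refine and_congr_right fun _ => ?_
  have h2 := hc S (low W H' j) (Nat.pair j n)
  rw [Encodable.encode_nat] at h2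
  rw [h2]
  simp only [Nat.unpair_pair]
  refine hN0 _ _ _ _ (fun i hi => ?_) fun i hi => ?_
  · by_cases h : i = 0
    · subst h
      rw [Function.update_self]
      ext x
      simp only [mem_col, G9_B, Set.mem_ofPred_eq, Nat.unpair_pair, true_and, ne_eq,
        not_true_eq_false, false_and, or_false]
      simp [jn, low, Tm.ev]
    · rw [Function.update_of_ne h, ← hcol i (by omega)]
      ext x
      simp only [mem_col, G9_B, Set.mem_ofPred_eq, Nat.unpair_pair, h, false_and, false_or, ne_eq,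
        not_false_eq_true, true_and]
      simp [jn]
  · rw [G9_set_getD _ _ _ _ (by simp [G9_l, N])]
    by_cases h : i = 1
    · subst h; simp
    · rw [Function.update_of_ne h, Function.update_of_ne h,
        G9_set_getD _ _ _ _ (by simp [G9_l, N])]
      by_cases h' : i = 0
      · subst h'; simp
      · rw [Function.update_of_ne h', Function.update_of_ne h', G9_l_getD v N i (by omega)]

theorem G9 (h8 : G8S) : G9S := by
  filter_upwards [G9_aca h8, G9_atr h8] with G h1 h2 M hM hG hA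
  exact ⟨hM.ne, h1 M hM hG, h2 M hM hG hA⟩

end FR
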