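import Pool.Agent.Lib.MP_ec866f_lc.M_Main
import Pool.Agent.Lib.MP_ec866f_lc.M_A1
import Pool.Agent.Lib.MP_ec866f_lc.M_A2
import Pool.Agent.Lib.MP_ec866f_lc.M_A3
import Pool.Agent.Lib.MP_ec866f_lc.M_A4
import Pool.Agent.Lib.MP_ec866f_lc.M_A5
import Pool.Agent.Lib.MP_ec866f_lc.M_A6
import Pool.Agent.Lib.MP_ec866f_lc.M_A7
import Pool.Agent.Lib.MP_ec866f_lc.M_A8
import Pool.Agent.Lib.MP_ec866f_lc.M_A9
import Pool.Agent.Lib.MP_ec866f_lc.M_B1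
import Pool.Agent.Lib.MP_ec866f_lc.M_B2
import Pool.Agent.Lib.MP_ec866f_lc.M_B3
import Pool.Agent.Lib.MP_ec866f_lc.M_C1
import Pool.Agent.Lib.MP_ec866f_lc.M_C2
import Pool.Agent.Lib.MP_ec866f_lc.M_C3
import Pool.Agent.Lib.MP_ec866f_lc.M_C4
import Pool.Agent.Lib.MP_ec866f_lc.M_C5
import Pool.Agent.Lib.MP_ec866f_lc.M_D1
import Pool.Agent.Lib.MP_ec866f_lc.M_D2
import Pool.Agent.Lib.MP_ec866f_lc.M_D3
import Pool.Agent.Lib.MP_ec866f_lc.M_D4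
import Pool.Agent.Lib.MP_ec866f_lc.M_D5
import Pool.Agent.Lib.MP_ec866f_lc.M_D6
import Pool.Agent.Lib.MP_ec866f_lc.M_D7
import Pool.Agent.Lib.MP_ec866f_lc.M_D8
import Pool.Agent.Lib.MP_ec866f_lc.M_D9
import Pool.Agent.Lib.MP_ec866f_lc.M_E1
import Pool.Agent.Lib.MP_ec866f_lc.M_E2
import Pool.Agent.Lib.MP_ec866f_lc.M_E3
import Pool.Agent.Lib.MP_ec866f_lc.M_E4
import Pool.Agent.Lib.MP_ec866f_lc.M_E5
import Pool.Agent.Lib.MP_ec866f_lc.M_E6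
import Pool.Agent.Lib.MP_ec866f_lc.M_E7
import Pool.Agent.Lib.MP_ec866f_lc.M_E8
import Pool.Agent.Lib.MP_ec866f_lc.M_E9
import Pool.Agent.Lib.MP_ec866f_lc.M_E10
import Pool.Agent.Lib.MP_ec866f_lc.M_E11
import Pool.Agent.Lib.MP_ec866f_lc.M_E12
import Pool.Agent.Lib.MP_ec866f_lc.M_E13
import Pool.Agent.Lib.MP_ec866f_lc.M_G1
import Pool.Agent.Lib.MP_ec866f_lc.M_G2
import Pool.Agent.Lib.MP_ec866f_lc.M_G3
import Pool.Agent.Lib.MP_ec866f_lc.M_G4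
import Pool.Agent.Lib.MP_ec866f_lc.M_G5
import Pool.Agent.Lib.MP_ec866f_lc.M_G6
import Pool.Agent.Lib.MP_ec866f_lc.M_G7
import Pool.Agent.Lib.MP_ec866f_lc.M_G8
import Pool.Agent.Lib.MP_ec866f_lc.M_G9

/-! assembly of all modules -/

set_option autoImplicit false

namespace FR

theorem final : ∃ M : Set (Set ℕ), ModelATR0 M ∧ ¬ FRA M := by
  have hA8 : A8S := A8 A1 A5 A6 (A7 A1)
  have hA9 : A9S := A9 A1 A2 A3 (A4 A3) hA8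
  have hB3 : B3S := B3 B1 (B2 A1)
  have hC5 : C5S := C5 C1 C2 C3 C4
  have hD9 : D9S := D9 D1 D2 D3 D4 D5 D6 D7 D8
  have hE6 : E6S := E6 E3
  have hE7 : E7S := E7 hE6
  have hE8 : E8S := E8 hE6 hE7
  have hE9 : E9S := E9 E1
  have hE11 : E11S := E11 E1 E2 hE8 hE9 E10
  have hE12 : E12S := E12 E3 hE6 hE7 hE8 hE9 hE11
  have hE13 : E13S := E13 (E5 (E4 E3)) hE7 hE12
  have hG4 : G4S := G4 G1 G2
  have hG7 : G7S := G7 G1 G2 hG4 (G6 G5)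
  exact Main hA9 hB3 hC5 hD9 hE13 (G3 G1) hG7 (G9 G8)

end FR
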