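import Pool.Agent.Lib.MP_ec866f_lc.Calc

/-! finite use, dependent choice in closed families -/

set_option autoImplicit false

namespace FR

open Filter Encodable

section FU
variable {β γ δ : Type}

theorem FU.const (v : β) : FU (fun _ : Set ℕ => v) := ⟨0, fun _ _ _ => rfl⟩

theorem FU.mem (n : ℕ) : FU (fun S : Set ℕ => n ∈ S) :=
  ⟨n + 1, fun S S' h => propext (h n (Nat.lt_succ_self n))⟩

theorem FU.map {F : Set ℕ → β} (f : β → γ) (hF : FU F) : FU (fun S => f (F S)) := by
  obtain ⟨b, hb⟩ := hF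
  exact ⟨b, fun S S' h => congrArg f (hb S S' h)⟩

theorem FU.map2 {F : Set ℕ → β} {H : Set ℕ → γ} (f : β → γ → δ) (hF : FU F) (hH : FU H) :
    FU (fun S => f (F S) (H S)) := by
  obtain ⟨b, hb⟩ := hF
  obtain ⟨c, hc⟩ := hH
  refine ⟨max b c, fun S S' h => ?_⟩
  exact congrArg₂ f (hb S S' (fun n hn => h n (lt_of_lt_of_le hn (le_max_left _ _))))
    (hc S S' (fun n hn => h n (lt_of_lt_of_le hn (le_max_right _ _))))

theorem FU.common {ι : Type} (A : Finset ι) {F : ι → Set ℕ → β} (h : ∀ t ∈ A, FU (F t)) :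
    ∃ b : ℕ, ∀ t ∈ A, ∀ S S' : Set ℕ, (∀ n < b, (n ∈ S ↔ n ∈ S')) → F t S = F t S' := by
  classical
  induction A using Finset.induction_on with
  | empty => exact ⟨0, by simp⟩
  | insert a A ha ih =>
      obtain ⟨b, hb⟩ := ih (fun t ht => h t (Finset.mem_insert_of_mem ht))
      obtain ⟨c, hc⟩ := h a (Finset.mem_insert_self _ _)
      refine ⟨max b c, fun t ht S S' hS => ?_⟩
      rcases Finset.mem_insert.1 ht with rfl | ht
      · exact hc S S' (fun n hn => hS n (lt_of_lt_of_le hn (le_max_right _ _)))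
      · exact hb t ht S S' (fun n hn => hS n (lt_of_lt_of_le hn (le_max_left _ _)))

/-- finite families -/
theorem FU.pi {ι : Type} (A : Finset ι) {F : ι → Set ℕ → β} (h : ∀ t ∈ A, FU (F t)) :
    FU (fun S => fun t : A => F t S) := by
  obtain ⟨b, hb⟩ := FU.common A h
  exact ⟨b, fun S S' hS => funext fun t => hb t t.2 S S' hS⟩

theorem FU.bind {F : Set ℕ → β} {H : β → Set ℕ → γ} (hF : FU F) (hH : ∀ v, FU (H v)) :
    FU (fun S => H (F S) S) := by
  classical
  obtain ⟨b, hb⟩ := hF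
  obtain ⟨c, hc⟩ := FU.common (F := fun (σ : Finset ℕ) S => H (F (σ : Set ℕ)) S)
    (Finset.powerset (Finset.range b)) (fun σ _ => hH _)
  refine ⟨max b c, fun S S' h => ?_⟩
  have h1 : F S = F S' := hb S S' (fun n hn => h n (lt_of_lt_of_le hn (le_max_left _ _)))
  set σ : Finset ℕ := (Finset.range b).filter (· ∈ S) with hσ
  have h2 : F (σ : Set ℕ) = F S := hb _ _ (fun n hn => by simp [hσ, hn])
  have h3 := hc σ (by simp [hσ]) S S' (fun n hn => h n (lt_of_lt_of_le hn (le_max_right _ _)))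
  simp only [h2] at h3
  change H (F S) S = H (F S') S'
  rw [← h1]; exact h3

theorem FU.not {p : Set ℕ → Prop} (hp : FU p) : FU (fun S => ¬ p S) := hp.map _
theorem FU.and {p q : Set ℕ → Prop} (hp : FU p) (hq : FU q) : FU (fun S => p S ∧ q S) := hp.map2 _ hq
theorem FU.or {p q : Set ℕ → Prop} (hp : FU p) (hq : FU q) : FU (fun S => p S ∨ q S) := hp.map2 _ hq

/-- a function with finite-use values in an encodable type is arithmetical -/
theorem FU.ar_fun {α : Type} [Encodable α] [Encodable β] {F : α → Set ℕ → β} (h : ∀ x, FU (F x)) :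
    Ar (fun (p : α × β) S => F p.1 S = p.2) :=
  Ar.of_FU fun p => (h p.1).map (fun v => v = p.2)

end FU

/-- dependent choice inside a closed family -/
theorem seq_exists {β : Type} [Encodable β] {I : β → Set ℕ → Prop} {R : β × β → Set ℕ → Prop}
    (hI : Ar I) (hR : Ar R) :
    ∀ᶠ G in rich, ∀ M : Set (Set ℕ), ACA M → G ∈ M → ∀ S ∈ M, ∀ x0 : β, I x0 S →
      (∀ x, I x S → ∃ y, I y S ∧ R (x, y) S) →
      ∃ q : ℕ → β, q 0 = x0 ∧ (∀ n, I (q n) S) ∧ (∀ n, R (q n, q (n + 1)) S) ∧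
        gr (fun n => encode (q n)) ∈ M := by
  classical
  -- minimal step
  let Mn : β × β → Set ℕ → Prop := fun p S => (I p.2 S ∧ R p S) ∧
    ∀ z : β, encode z < encode p.2 → ¬ (I z S ∧ R (p.1, z) S)
  have hMn : Ar Mn := by
    refine Ar.and (Ar.and (hI.comp Prod.snd) hR) ?_
    refine Ar.all (P := fun (q : (β × β) × β) S => encode q.2 < encode q.1.2 →
      ¬ (I q.2 S ∧ R (q.1.1, q.2) S)) ?_
    exact (Ar.free _).imp (((hI.comp Prod.snd).and (hR.comp (fun q : (β × β) × β => (q.1.1, q.2)))).not)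
  -- the iteration: p = ((x0, n), k) with k the code of the n-th term
  let It : (β × ℕ) × ℕ → Set ℕ → Prop := fun p S => ∃ l : List β,
    (l.length = p.1.2 + 1 ∧ l[0]? = some p.1.1 ∧ (∃ y, l[p.1.2]? = some y ∧ encode y = p.2)) ∧
      ∀ i : ℕ, ∀ y z : β, (l[i]? = some y ∧ l[i+1]? = some z) → Mn (y, z) S
  have hIt : Ar It := by
    refine Ar.ex (P := fun (p : ((β × ℕ) × ℕ) × List β) S =>
      (p.2.length = p.1.1.2 + 1 ∧ p.2[0]? = some p.1.1.1 ∧ (∃ y, p.2[p.1.1.2]? = some y ∧ encode y = p.1.2)) ∧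
      ∀ i : ℕ, ∀ y z : β, (p.2[i]? = some y ∧ p.2[i+1]? = some z) → Mn (y, z) S) ?_
    refine (Ar.free _).and ?_
    refine Ar.all (P := fun (p : (((β × ℕ) × ℕ) × List β) × ℕ) S =>
      ∀ y z : β, (p.1.2[p.2]? = some y ∧ p.1.2[p.2+1]? = some z) → Mn (y, z) S) ?_
    refine Ar.all (P := fun (p : ((((β × ℕ) × ℕ) × List β) × ℕ) × β) S =>
      ∀ z : β, (p.1.1.2[p.1.2]? = some p.2 ∧ p.1.1.2[p.1.2+1]? = some z) → Mn (p.2, z) S) ?_
    refine Ar.all (P := fun (p : (((((β × ℕ) × ℕ) × List β) × ℕ) × β) × β) S =>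
      (p.1.1.1.2[p.1.1.2]? = some p.1.2 ∧ p.1.1.1.2[p.1.1.2+1]? = some p.2) → Mn (p.1.2, p.2) S) ?_
    exact (Ar.free _).imp (hMn.comp (fun p : (((((β × ℕ) × ℕ) × List β) × ℕ) × β) × β => (p.1.2, p.2)))
  have h2 : ∀ x0 : β, Ar (fun (n : ℕ) S => It ((x0, n.unpair.1), n.unpair.2) S) := fun x0 =>
    hIt.comp (fun n : ℕ => ((x0, n.unpair.1), n.unpair.2))
  filter_upwards [rich_countable (fun x0 : β => (h2 x0).set_mem)] with G hG M hM hGM S hS x0 hx0 hstep
  have hmin : ∀ x, I x S → ∃ y, Mn (x, y) S := by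
    intro x hx
    have hex : ∃ n : ℕ, ∃ y : β, encode y = n ∧ (I y S ∧ R (x, y) S) := by
      obtain ⟨y, hy⟩ := hstep x hx
      exact ⟨_, y, rfl, hy⟩
    obtain ⟨y, hy1, hy2⟩ := Nat.find_spec hex
    refine ⟨y, hy2, fun z hz hz' => ?_⟩
    have hz2 : encode z < Nat.find hex := lt_of_lt_of_le hz (le_of_eq hy1)
    exact Nat.find_min hex hz2 ⟨z, rfl, hz'⟩
  have huniq : ∀ x y y', Mn (x, y) S → Mn (x, y') S → y = y' := by
    intro x y y' h h'
    apply encode_injective
    rcases lt_trichotomy (encode y) (encode y') with h1 | h1 | h1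
    · exact absurd h.1 (h'.2 y h1)
    · exact h1
    · exact absurd h'.1 (h.2 y' h1)
  choose! f hf using hmin
  let q : ℕ → β := fun n => Nat.rec x0 (fun _ x => f x) n
  have hq0 : q 0 = x0 := rfl
  have hqs : ∀ n, q (n + 1) = f (q n) := fun n => rfl
  have hqI : ∀ n, I (q n) S := by
    intro n
    induction n with
    | zero => exact hx0
    | succ n ih => rw [hqs]; exact (hf _ ih).1.1
  have hqM : ∀ n, Mn (q n, q (n + 1)) S := fun n => by rw [hqs]; exact hf _ (hqI n)
  refine ⟨q, rfl, hqI, fun n => (hqM n).1.2, ?_⟩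
  have h3 := hG x0 M hM hGM S hS
  convert h3 using 1
  ext p
  simp only [mem_gr, Set.mem_ofPred_eq]
  constructor
  · intro hp
    refine ⟨(List.range (p.unpair.1 + 1)).map q, ⟨by simp, ?_, ⟨q p.unpair.1, ?_, hp⟩⟩, ?_⟩
    · simp [hq0]
    · simp
    · rintro i y z ⟨h1, h2⟩
      rw [List.getElem?_map] at h1 h2
      rcases lt_or_ge (i + 1) (p.unpair.1 + 1) with hi | hi
      · rw [List.getElem?_range (by omega)] at h1
        rw [List.getElem?_range hi] at h2
        simp only [Option.map_some, Option.some.injEq] at h1 h2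
        subst h1; subst h2
        exact hqM i
      · rw [List.getElem?_eq_none (by simpa using hi)] at h2
        simp at h2
  · rintro ⟨l, ⟨h1, h2, y, h3, h4⟩, h5⟩
    have hl : ∀ i, i ≤ p.unpair.1 → l[i]? = some (q i) := by
      intro i
      induction i with
      | zero => intro _; rw [h2, hq0]
      | succ i ih =>
          intro hi
          have h6 := ih (by omega)
          have h1' : l.length = p.unpair.1 + 1 := h1
          have h7 : i + 1 < l.length := by omega
          have h8 : l[i+1]? = some l[i+1] := List.getElem?_eq_getElem h7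
          have h9 := h5 i _ _ ⟨h6, h8⟩
          rw [h8, huniq _ _ _ h9 (hqM i)]
    rw [hl _ le_rfl] at h3
    rw [← h4, ← Option.some.inj h3]

end FR
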