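import Pool.Agent.Lib.MP_ec866f_lc.Stmts

set_option autoImplicit false

namespace FR

open Encodable

theorem B1_col3 (s : List ℕ) : FU (fun S => col3 S s) :=
  FU.map2 (fun (p q : Prop) => @ite _ p (Classical.propDecidable p) 0
    (@ite _ q (Classical.propDecidable q) 1 2)) (FU.mem (Nat.pair (encode s) 0))
    (FU.mem (Nat.pair (encode s) 1))

theorem B1_par {N N' : List ℕ → Prop} (s t : List ℕ)
    (h : ∀ t', t' <+: s → t' ≠ s → (N t' ↔ N' t')) : IsPar N s t ↔ IsPar N' s t := by
  constructor
  · rintro ⟨h1, h2, h3, h4⟩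
    exact ⟨h1, h2, (h t h1 h2).1 h3, fun t' a b c => h4 t' a b ((h t' a b).2 c)⟩
  · rintro ⟨h1, h2, h3, h4⟩
    exact ⟨h1, h2, (h t h1 h2).2 h3, fun t' a b c => h4 t' a b ((h t' a b).1 c)⟩

theorem B1_par_unique {N : List ℕ → Prop} {s t t' : List ℕ} (h : IsPar N s t)
    (h' : IsPar N s t') : t = t' := by
  have h1 := h'.2.2.2 t h.1 h.2.1 h.2.2.1
  have h2 := h.2.2.2 t' h'.1 h'.2.1 h'.2.2.1
  exact h1.eq_of_length (le_antisymm h1.length_le h2.length_le)

/-- locality of nodes -/
theorem B1_loc {lam lam' : List ℕ → Bool} {s : List ℕ} (h : ∀ u, u.Sublist s → lam u = lam' u) :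
    ∀ (j : ℕ) (t : List ℕ), t.Sublist s → (Nd lam j t ↔ Nd lam' j t) := by
  intro j
  induction j with
  | zero => intro t _; exact Iff.rfl
  | succ j ih =>
    intro t ht
    have htail : t.tail.Sublist s := (List.tail_sublist t).trans ht
    have h4 : (∃ t', IsPar (Nd lam j) t t' ∧ lam t' = lam t.tail) ↔
        (∃ t', IsPar (Nd lam' j) t t' ∧ lam' t' = lam' t.tail) := by
      refine exists_congr fun t' => ?_
      rw [B1_par t t' fun u hu _ => ih u (hu.sublist.trans ht)]
      refine and_congr_right fun h5 => ?_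
      rw [h t' (h5.1.sublist.trans ht), h _ htail]
    simp only [Nd]
    rw [ih t ht, ih _ htail, h4]

theorem B1_node {lam lam' : List ℕ → Bool} {s : List ℕ} (h : ∀ u, u.Sublist s → lam u = lam' u)
    (t : List ℕ) (ht : t.Sublist s) : node lam t ↔ node lam' t := B1_loc h _ t ht

open Classical in
/-- the value at `s` computed from the values at shorter lists -/
noncomputable def B1_st (f : List ℕ → ℕ) (l : List ℕ → Bool) (s : List ℕ) : Bool :=
  if f s = 0 then true else if f s = 1 then false
  else decide (∀ t, IsPar (node l) s t → l t = false)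

/-- stages -/
noncomputable def B1_L (f : List ℕ → ℕ) : ℕ → List ℕ → Bool
  | 0 => fun s => B1_st f (fun _ => true) s
  | k + 1 => fun s => if s.length ≤ k then B1_L f k s else B1_st f (B1_L f k) s

theorem B1_L_le (f : List ℕ → ℕ) (s : List ℕ) (k : ℕ) (hk : s.length ≤ k) :
    B1_L f k s = B1_L f s.length s := by
  induction k, hk using Nat.le_induction with
  | base => rfl
  | succ k hk ih =>
    rw [← ih]
    simp only [B1_L]
    rw [if_pos hk]

theorem B1_lt {s t : List ℕ} (h : t <+: s) (h' : t ≠ s) : t.length < s.length := by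
  rcases Nat.lt_or_ge t.length s.length with h1 | h1
  · exact h1
  · exact absurd (h.eq_of_length (le_antisymm h.length_le h1)) h'

theorem B1_eq (f : List ℕ → ℕ) (s : List ℕ) (k : ℕ) (hk : s.length = k + 1) (t : List ℕ) :
    IsPar (node (B1_L f k)) s t ↔ IsPar (node (fun u => B1_L f u.length u)) s t := by
  refine B1_par s t fun t' h1 h2 => ?_
  have h3 := B1_lt h1 h2
  refine B1_node (s := t') (fun u hu => ?_) t' (List.Sublist.refl _)
  have := hu.length_le
  exact B1_L_le f u k (by omega)

theorem B1_lamEq (f : List ℕ → ℕ) : lamEq f (fun s => B1_L f s.length s) := by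
  classical
  have hst : ∀ s, ∃ l, B1_L f s.length s = B1_st f l s ∧
      ∀ k, s.length = k + 1 → l = B1_L f k := by
    intro s
    obtain ⟨n, hn⟩ : ∃ n, n = s.length := ⟨_, rfl⟩
    rw [← hn]
    cases n with
    | zero => exact ⟨fun _ => true, rfl, fun k hk => by omega⟩
    | succ k =>
      refine ⟨B1_L f k, ?_, fun k' hk' => by
        have : k' = k := by omega
        rw [this]⟩
      simp only [B1_L]
      rw [if_neg (by omega)]
  intro s
  obtain ⟨l, hl, hl2⟩ := hst s
  refine ⟨fun h => ?_, fun h => ?_, fun h0 h1 t ht => ?_⟩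
  · show B1_L f s.length s = true
    rw [hl, B1_st, if_pos h]
  · show B1_L f s.length s = false
    rw [hl, B1_st, if_neg (by omega), if_pos h]
  · have hlt := B1_lt ht.1 ht.2.1
    obtain ⟨k, hk⟩ : ∃ k, s.length = k + 1 := ⟨s.length - 1, by omega⟩
    have hlk := hl2 k hk
    show B1_L f s.length s = !B1_L f t.length t
    rw [hl, B1_st, if_neg h0, if_neg h1, hlk]
    have e1 : (∀ t', IsPar (node (B1_L f k)) s t' → B1_L f k t' = false) ↔
        B1_L f t.length t = false := by
      constructor
      · intro h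
        have h2 := h t ((B1_eq f s k hk t).2 ht)
        rwa [B1_L_le f t k (by omega)] at h2
      · intro h t' ht'
        have h2 := B1_par_unique ((B1_eq f s k hk t').1 ht') ht
        rw [h2, B1_L_le f t k (by omega)]
        exact h
    by_cases hv : B1_L f t.length t = false
    · rw [decide_eq_true (e1.mpr hv), hv]
      rfl
    · rw [decide_eq_false (fun h => hv (e1.mp h))]
      rw [Bool.not_eq_false] at hv
      rw [hv]
      rfl

theorem B1_st_FU (s : List ℕ) {l : Set ℕ → List ℕ → Bool} (hl : ∀ t, FU (fun S => l S t)) :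
    FU (fun S => B1_st (col3 S) (l S) s) := by
  classical
  obtain ⟨b, hb⟩ := FU.common (s.sublists.toFinset) (F := fun t S => l S t) (fun t _ => hl t)
  obtain ⟨c, hc⟩ := B1_col3 s
  refine ⟨max b c, fun S S' h => ?_⟩
  have h1 : col3 S s = col3 S' s := hc S S' fun n hn => h n (lt_of_lt_of_le hn (le_max_right _ _))
  have h2 : ∀ u, u.Sublist s → l S u = l S' u := fun u hu =>
    hb u (by rw [List.mem_toFinset, List.mem_sublists]; exact hu) S S' fun n hn =>
      h n (lt_of_lt_of_le hn (le_max_left _ _))
  have h3 : (∀ t, IsPar (node (l S)) s t → l S t = false) ↔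
      (∀ t, IsPar (node (l S')) s t → l S' t = false) := by
    refine forall_congr' fun t => ?_
    rw [B1_par s t fun u hu _ => B1_node h2 u hu.sublist]
    refine imp_congr_right fun h5 => ?_
    rw [h2 t h5.1.sublist]
  show B1_st (col3 S) (l S) s = B1_st (col3 S') (l S') s
  unfold B1_st
  rw [h1, decide_eq_decide.mpr h3]

theorem B1_L_FU : ∀ (k : ℕ) (s : List ℕ), FU (fun S => B1_L (col3 S) k s) := by
  intro k
  induction k with
  | zero => intro s; exact B1_st_FU s (l := fun _ _ => true) fun t => FU.const true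
  | succ k ih =>
    intro s
    by_cases h : s.length ≤ k
    · have e1 : (fun S => B1_L (col3 S) (k + 1) s) = fun S => B1_L (col3 S) k s := by
        funext S
        simp only [B1_L]
        rw [if_pos h]
      rw [e1]
      exact ih s
    · have e1 : (fun S => B1_L (col3 S) (k + 1) s) =
          fun S => B1_st (col3 S) (B1_L (col3 S) k) s := by
        funext S
        simp only [B1_L]
        rw [if_neg h]
      rw [e1]
      exact B1_st_FU s (l := fun S => B1_L (col3 S) k) ih

theorem B1 : B1S :=
  ⟨fun S s => B1_L (col3 S) s.length s, fun s => B1_L_FU s.length s, fun S => B1_lamEq (col3 S)⟩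

end FR
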