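import Pool.Agent.Lib.MP_ec866f_lc.Stmts

/-!
# D4 : convergence of the jumps
-/

set_option autoImplicit false

namespace FR

open Filter Encodable

theorem D4_pre_length (g : ℕ → ℕ) (n : ℕ) : (pre g n).length = n := by
  simp [pre]

theorem D4_take_pre (g : ℕ → ℕ) (l n : ℕ) (h : l ≤ n) : (pre g n).take l = pre g l := by
  unfold pre
  rw [← List.map_take, List.take_range, min_eq_left h]

theorem D4_len (Q : ℕ → List ℕ) (K : ℕ) (h : ∀ k ≥ K, (Q k).length < (Q (k + 1)).length) (j : ℕ) :
    j ≤ (Q (K + j)).length := by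
  induction j with
  | zero => exact Nat.zero_le _
  | succ j ih =>
    have := h (K + j) (by omega)
    have e : K + (j + 1) = K + j + 1 := rfl
    rw [e]
    omega

theorem D4 : D4S := by
  classical
  intro rho Q g hQ N
  obtain ⟨K, hK⟩ := hQ
  have hlen := D4_len Q K (fun k hk => (hK k hk).1)
  have htk : ∀ k ≥ K, ∀ l ≤ (Q k).length, (Q k).take l = pre g l := by
    intro k hk l hl
    rw [(hK k hk).2]
    exact D4_take_pre g l _ hl
  have h1 : ∀ n, ∀ᶠ k in atTop, ((∃ l, l ≤ (Q k).length ∧ rho n ((Q k).take l)) ↔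
      ∃ l, rho n (pre g l)) := by
    intro n
    by_cases hex : ∃ l, rho n (pre g l)
    · obtain ⟨l, hl⟩ := hex
      filter_upwards [eventually_ge_atTop (K + l)] with k hk
      refine ⟨fun _ => ⟨l, hl⟩, fun _ => ?_⟩
      have h2 : l ≤ (Q k).length := by
        have := hlen (k - K)
        rw [Nat.add_sub_cancel' (by omega : K ≤ k)] at this
        omega
      exact ⟨l, h2, by rw [htk k (by omega) l h2]; exact hl⟩
    · filter_upwards [eventually_ge_atTop K] with k hk
      refine ⟨?_, fun h => absurd h hex⟩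
      rintro ⟨l, hl, hl'⟩
      rw [htk k hk l hl] at hl'
      exact ⟨l, hl'⟩
  have h2 : ∀ᶠ k in atTop, ∀ n < N, ((∃ l, l ≤ (Q k).length ∧ rho n ((Q k).take l)) ↔
      ∃ l, rho n (pre g l)) := by
    have := (Filter.eventually_all_finset (Finset.range N)).2 (fun n _ => h1 n)
    filter_upwards [this] with k hk n hn
    exact hk n (Finset.mem_range.2 hn)
  filter_upwards [h2, eventually_ge_atTop (K + N)] with k hk hkN
  have h3 : N ≤ (Q k).length := by
    have := hlen (k - K)
    rw [Nat.add_sub_cancel' (by omega : K ≤ k)] at this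
    omega
  refine ⟨by simpa [Jl] using h3, ?_⟩
  unfold Jl pre
  rw [← List.map_take, List.take_range, min_eq_left h3]
  refine List.map_congr_left ?_
  intro n hn
  rw [List.mem_range] at hn
  unfold Jf
  have h4 := hk n hn
  by_cases hex : ∃ l, rho n (pre g l)
  · rw [if_pos hex, if_pos (h4.2 hex)]
  · rw [if_neg hex, if_neg (fun h => hex (h4.1 h))]

end FR
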