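import Pool.Agent.Lib.MP_ec866f_lc.Stmts

/-! module E6: acceptance of requirements -/

set_option autoImplicit false
set_option linter.unusedSimpArgs false

namespace FR

open Filter Encodable

open Classical in
/-- the function obtained from `L` by accepting requirement number `m` with `h` -/
noncomputable def E6_L (L h : ℕ → ℕ) (m : ℕ) (x : ℕ) : ℕ :=
  if x.unpair.1 < m then L x
  else if x.unpair.1 = m then (if x.unpair.2 = 0 then 0 else h (x.unpair.2 - 1))
  else (if x.unpair.2 = 0 then 1 else 0)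

theorem E6_lt (L h : ℕ → ℕ) (m a b : ℕ) (ha : a < m) :
    E6_L L h m (Nat.pair a b) = L (Nat.pair a b) := by
  unfold E6_L
  rw [Nat.unpair_pair, if_pos ha]

theorem E6_eq0 (L h : ℕ → ℕ) (m : ℕ) : E6_L L h m (Nat.pair m 0) = 0 := by
  unfold E6_L
  rw [Nat.unpair_pair, if_neg (lt_irrefl _), if_pos rfl, if_pos rfl]

theorem E6_eqs (L h : ℕ → ℕ) (m n : ℕ) : E6_L L h m (Nat.pair m (n + 1)) = h n := by
  unfold E6_L
  rw [Nat.unpair_pair, if_neg (lt_irrefl _), if_pos rfl, if_neg (Nat.succ_ne_zero n)]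
  rfl

theorem E6_gt0 (L h : ℕ → ℕ) (m a : ℕ) (ha : m < a) : E6_L L h m (Nat.pair a 0) = 1 := by
  unfold E6_L
  rw [Nat.unpair_pair]
  have h1 : ¬ a < m := by omega
  have h2 : ¬ a = m := by omega
  simp only [h1, h2, if_false, if_true]

theorem E6_gts (L h : ℕ → ℕ) (m a n : ℕ) (ha : m < a) : E6_L L h m (Nat.pair a (n + 1)) = 0 := by
  unfold E6_L
  rw [Nat.unpair_pair]
  have h1 : ¬ a < m := by omega
  have h2 : ¬ a = m := by omega
  have h3 : ¬ (n + 1 = 0) := by omega
  simp only [h1, h2, h3, if_false]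

/-- the graph of the new function -/
def E6_P (m : ℕ) (p : ℕ) (S : Set ℕ) : Prop :=
  (p.unpair.1.unpair.1 < m ∧ Nat.pair 0 p ∈ S) ∨
  ((p.unpair.1.unpair.1 = m ∧ p.unpair.1.unpair.2 = 0 ∧ p.unpair.2 = 0) ∨
  ((p.unpair.1.unpair.1 = m ∧ p.unpair.1.unpair.2 ≠ 0) ∧
    Nat.pair 1 (Nat.pair (p.unpair.1.unpair.2 - 1) p.unpair.2) ∈ S) ∨
  (m < p.unpair.1.unpair.1 ∧ p.unpair.1.unpair.2 = 0 ∧ p.unpair.2 = 1) ∨
  (m < p.unpair.1.unpair.1 ∧ p.unpair.1.unpair.2 ≠ 0 ∧ p.unpair.2 = 0))

theorem E6_ar (m : ℕ) : Ar (E6_P m) := by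
  unfold E6_P
  exact ((Ar.free _).and (Ar.mem _)).or ((Ar.free _).or (((Ar.free _).and (Ar.mem _)).or
    ((Ar.free _).or (Ar.free _))))

theorem E6_graph (L h : ℕ → ℕ) (m : ℕ) :
    gr (E6_L L h m) = {p | E6_P m p (jn (gr L) (gr h))} := by
  ext p
  have e1 : Nat.pair 0 p ∈ jn (gr L) (gr h) ↔ L p.unpair.1 = p.unpair.2 := by
    simp [jn]
  have e2 : Nat.pair 1 (Nat.pair (p.unpair.1.unpair.2 - 1) p.unpair.2) ∈ jn (gr L) (gr h) ↔
      h (p.unpair.1.unpair.2 - 1) = p.unpair.2 := by
    simp [jn]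
  rw [mem_gr, Set.mem_ofPred_eq]
  unfold E6_P E6_L
  rw [e1, e2]
  rcases lt_trichotomy p.unpair.1.unpair.1 m with h1 | h1 | h1
  · have h2 : ¬ p.unpair.1.unpair.1 = m := by omega
    have h3 : ¬ m < p.unpair.1.unpair.1 := by omega
    simp [h1, h2, h3]
  · have h2 : ¬ p.unpair.1.unpair.1 < m := by omega
    have h3 : ¬ m < p.unpair.1.unpair.1 := by omega
    by_cases h4 : p.unpair.1.unpair.2 = 0
    · simp only [h2, h3, h1, h4, lt_irrefl, if_true, if_false, false_and, true_and, or_false,
        false_or, and_false, ne_eq, not_true_eq_false, not_false_eq_true]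
      exact eq_comm
    · simp only [h2, h3, h1, h4, lt_irrefl, if_true, if_false, false_and, true_and, or_false,
        false_or, and_false, ne_eq, not_true_eq_false, not_false_eq_true]
  · have h2 : ¬ p.unpair.1.unpair.1 < m := by omega
    have h3 : ¬ p.unpair.1.unpair.1 = m := by omega
    by_cases h4 : p.unpair.1.unpair.2 = 0
    · simp only [h2, h3, h1, h4, lt_irrefl, if_true, if_false, false_and, true_and, or_false,
        false_or, and_false, ne_eq, not_true_eq_false, not_false_eq_true]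
      exact eq_comm
    · simp only [h2, h3, h1, h4, lt_irrefl, if_true, if_false, false_and, true_and, or_false,
        false_or, and_false, ne_eq, not_true_eq_false, not_false_eq_true]
      exact eq_comm

theorem E6_below (m x : ℕ) (hx : x < Nat.pair m 0) : x.unpair.1 < m := by
  by_contra hc
  have h1 : m ≤ x.unpair.1 := by omega
  have h2 : Nat.pair m 0 ≤ Nat.pair x.unpair.1 0 := by
    rcases Nat.eq_or_lt_of_le h1 with h | h
    · rw [← h]
    · exact (Nat.pair_lt_pair_left 0 h).le
  have h3 : Nat.pair x.unpair.1 0 ≤ Nat.pair x.unpair.1 x.unpair.2 := by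
    rcases Nat.eq_zero_or_pos x.unpair.2 with h | h
    · rw [h]
    · exact (Nat.pair_lt_pair_right _ h).le
  rw [Nat.pair_unpair] at h3
  omega

theorem E6_gg (L h : ℕ → ℕ) (m w : ℕ) (hw : w < m) : gg (E6_L L h m) w = gg L w := by
  funext n
  cases w with
  | zero => exact E6_lt L h m 0 n hw
  | succ w => exact E6_lt L h m (w + 1) (n + 1) hw

theorem E6 (h3 : E3S) : E6S := by
  filter_upwards [rich_countable (fun m : ℕ => (E6_ar m).set_mem)] with G hG L A hS r h hh hC
  obtain ⟨hinj, hmx, hloc⟩ := h3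
  have hm1 : 1 ≤ r.ix := by
    have := hmx r
    omega
  rcases hS.ff r.ix hm1 with hrej | hacc
  · exfalso
    set m := r.ix with hmdef
    have hgr : gr (E6_L L h m) ∈ A := by
      rw [E6_graph]
      exact hG m A hS.aca hS.gA _ (hS.aca.jn_mem hS.lA hh)
    have hff : E6_L L h m ∈ FF := by
      intro m' hm'
      rcases lt_trichotomy m' m with hlt | heq | hgt
      · rcases hS.ff m' hm' with hr | ha
        · left
          exact ⟨by rw [E6_lt L h m m' 0 hlt]; exact hr.1, fun n => by
            rw [E6_lt L h m m' (n + 1) hlt]; exact hr.2 n⟩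
        · right
          obtain ⟨ha1, r', hr', ha2⟩ := ha
          refine ⟨by rw [E6_lt L h m m' 0 hlt]; exact ha1, r', hr', ?_⟩
          rw [E6_gg L h m m' hlt]
          refine hloc r' (gg L) (gg (E6_L L h m)) (gg L m') (fun w hw => ?_) ha2
          have h5 := hmx r'
          exact (E6_gg L h m w (by omega)).symm
      · right
        rw [heq]
        refine ⟨E6_eq0 L h m, r, hmdef.symm, ?_⟩
        have h6 : gg (E6_L L h m) m = h := by
          funext n
          obtain ⟨k, hk⟩ : ∃ k, m = k + 1 := ⟨m - 1, by omega⟩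
          have h7 := E6_eqs L h m n
          rw [hk] at h7 ⊢
          exact h7
        rw [h6]
        refine hloc r (gg L) (gg (E6_L L h m)) h (fun w hw => ?_) hC
        have h5 := hmx r
        exact (E6_gg L h m w (by omega)).symm
      · left
        exact ⟨E6_gt0 L h m m' hgt, fun n => E6_gts L h m m' n hgt⟩
    have hbase : ∀ n, E6_L L h m (Nat.pair 0 n) = ind G n := by
      intro n
      rw [E6_lt L h m 0 n (by omega)]
      exact hS.base n
    have hlex := hS.left _ hgr hff hbase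
    have e1 : L (Nat.pair m 0) = 1 := hrej.1
    have e2 : E6_L L h m (Nat.pair m 0) = 0 := E6_eq0 L h m
    rcases hlex with heq | ⟨n, hn1, hn2⟩
    · rw [← heq, e1] at e2
      omega
    · rcases lt_trichotomy n (Nat.pair m 0) with h1 | h1 | h1
      · have h2 := E6_below m n h1
        have h3 := E6_lt L h m n.unpair.1 n.unpair.2 h2
        rw [Nat.pair_unpair] at h3
        omega
      · rw [h1, e1, e2] at hn2
        omega
      · have h2 := hn1 _ h1
        rw [e1, e2] at h2
        omega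
  · obtain ⟨h1, r', hr', h2⟩ := hacc
    have : r' = r := hinj r' r hr'
    rw [this] at h2
    exact ⟨h1, h2⟩

end FR
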