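import Pool.Agent.Lib.MP_ec866f_lc.Stmts

/-! module G4 -/

set_option autoImplicit false

namespace FR

open Filter Encodable

/-- no descending sequence with graph among the columns of `z` -/
def G4_ND (z : Set ℕ) (w : ℕ) : Prop :=
  ¬ ∃ k : ℕ, (∀ n : ℕ, ∃ v : ℕ, Nat.pair n v ∈ col z k) ∧
    (∀ n v v' : ℕ, Nat.pair n v ∈ col z k → Nat.pair n v' ∈ col z k → v = v') ∧
    (∀ n v u : ℕ, Nat.pair n v ∈ col z k → Nat.pair (n + 1) u ∈ col z k →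
      (Nat.pair u v ∈ col z w ∧ u ≠ v))

theorem G4_ND_iff (z : Set ℕ) (w : ℕ) : NoDesc (cols z) (col z w) ↔ G4_ND z w := by
  unfold NoDesc G4_ND
  refine not_congr ⟨?_, ?_⟩
  · rintro ⟨f, ⟨k, hk⟩, hf⟩
    have h1 : ∀ n v, Nat.pair n v ∈ col z k ↔ f n = v := by
      intro n v; rw [hk]; simp
    refine ⟨k, fun n => ⟨f n, (h1 _ _).2 rfl⟩, fun n v v' h2 h3 => ?_, fun n v u h2 h3 => ?_⟩
    · rw [← (h1 _ _).1 h2, ← (h1 _ _).1 h3]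
    · rw [← (h1 _ _).1 h2, ← (h1 _ _).1 h3]
      exact hf n
  · rintro ⟨k, h1, h2, h3⟩
    choose f hf using h1
    refine ⟨f, ⟨k, ?_⟩, fun n => h3 n _ _ (hf n) (hf (n + 1))⟩
    ext p
    rw [mem_gr]
    constructor
    · intro hp
      rw [← Nat.pair_unpair p] at hp
      exact h2 _ _ _ (hf _) hp
    · intro hp
      have := hf p.unpair.1
      rwa [hp, Nat.pair_unpair] at this

/-- the arithmetical form of `QQ` -/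
def G4_Q (S : Set ℕ) : Prop :=
  (∃ i : ℕ, ∀ n : ℕ, (n ∈ col (col S 1) i ↔ n ∈ col S 0)) ∧
  ((∀ i j : ℕ, ∃ k : ℕ, ∀ n : ℕ, (n ∈ col (col S 1) k ↔ n ∈ jn (col (col S 1) i) (col (col S 1) j))) ∧
   (∀ i : ℕ, ∃ k : ℕ, ∀ n : ℕ, (n ∈ col (col S 1) k ↔ n ∉ col (col S 1) i)) ∧
   (∀ i j : ℕ, ∃ k : ℕ, ∀ n : ℕ, (n ∈ col (col S 1) k ↔ (n ∈ col (col S 1) i ∧ n ∈ col (col S 1) j))) ∧
   (∀ i : ℕ, ∃ k : ℕ, ∀ n : ℕ, (n ∈ col (col S 1) k ↔ ∃ b : ℕ, Nat.pair n b ∈ col (col S 1) i)) ∧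
   (∀ (t : Tm) (i : ℕ), ∃ k : ℕ, ∀ n : ℕ, (n ∈ col (col S 1) k ↔ t.ev n ∈ col (col S 1) i))) ∧
  (∀ i : ℕ, ∃ j : ℕ, IsSat (col (col S 1) i) (col (col S 1) j)) ∧
  (∀ w : ℕ, IsLO (col (col S 1) w) → G4_ND (col S 1) w → ∀ (y : ℕ) (c : Code), ∃ k : ℕ, ∀ x : ℕ,
    (x ∈ col (col S 1) k ↔ (Nat.pair x.unpair.1 x.unpair.1 ∈ col (col S 1) w ∧ ∃ i j : ℕ,
      (∀ n : ℕ, (n ∈ col (col S 1) i ↔
        n ∈ jn (col (col S 1) y) (low (col (col S 1) w) (col (col S 1) k) x.unpair.1))) ∧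
      IsSat (col (col S 1) i) (col (col S 1) j) ∧ Nat.pair c.enc x ∈ col (col S 1) j)))

section
variable {α : Type} [Encodable α]

theorem G4_m (f g : α → ℕ) : Ar (fun (x : α) (S : Set ℕ) => f x ∈ col (col S 1) (g x)) :=
  Ar.mem (fun x => Nat.pair 1 (Nat.pair (g x) (f x)))

theorem G4_jn (f g h : α → ℕ) :
    Ar (fun (x : α) (S : Set ℕ) => f x ∈ jn (col (col S 1) (g x)) (col (col S 1) (h x))) := by
  have : Ar (fun (x : α) (S : Set ℕ) =>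
      (((f x).unpair.1 = 0 ∧ (f x).unpair.2 ∈ col (col S 1) (g x)) ∨
        ((f x).unpair.1 = 1 ∧ (f x).unpair.2 ∈ col (col S 1) (h x)))) :=
    ((Ar.free _).and (G4_m _ _)).or ((Ar.free _).and (G4_m _ _))
  exact this

theorem G4_sat (h2 : G2S) (g h : α → ℕ) :
    Ar (fun (x : α) (S : Set ℕ) => IsSat (col (col S 1) (g x)) (col (col S 1) (h x))) := by
  have h3 : Ar (fun (_ : α) (S : Set ℕ) => IsSat (col S 0) (col S 1)) := Ar.comp h2 (fun _ : α => 0)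
  have h4 := h3.subst (B := fun (x : α) (S : Set ℕ) => jn (col (col S 1) (g x)) (col (col S 1) (h x)))
    (G4_jn (fun p : α × ℕ => p.2) (fun p => g p.1) (fun p => h p.1))
  refine h4.congr fun x S => ?_
  rw [jn_col_zero, jn_col_one]

theorem G4_LO (g : α → ℕ) : Ar (fun (x : α) (S : Set ℕ) => IsLO (col (col S 1) (g x))) := by
  unfold IsLO
  refine Ar.and ?_ (Ar.and ?_ (Ar.and ?_ ?_))
  · refine Ar.all (P := fun (p : α × ℕ) S => ∀ q : ℕ, Nat.pair p.2 q ∈ col (col S 1) (g p.1) →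
      Nat.pair p.2 p.2 ∈ col (col S 1) (g p.1) ∧ Nat.pair q q ∈ col (col S 1) (g p.1)) ?_
    refine Ar.all (P := fun (p : (α × ℕ) × ℕ) S => Nat.pair p.1.2 p.2 ∈ col (col S 1) (g p.1.1) →
      Nat.pair p.1.2 p.1.2 ∈ col (col S 1) (g p.1.1) ∧ Nat.pair p.2 p.2 ∈ col (col S 1) (g p.1.1)) ?_
    exact (G4_m _ _).imp ((G4_m _ _).and (G4_m _ _))
  · refine Ar.all (P := fun (p : α × ℕ) S => ∀ q r : ℕ, Nat.pair p.2 q ∈ col (col S 1) (g p.1) →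
      Nat.pair q r ∈ col (col S 1) (g p.1) → Nat.pair p.2 r ∈ col (col S 1) (g p.1)) ?_
    refine Ar.all (P := fun (p : (α × ℕ) × ℕ) S => ∀ r : ℕ, Nat.pair p.1.2 p.2 ∈ col (col S 1) (g p.1.1) →
      Nat.pair p.2 r ∈ col (col S 1) (g p.1.1) → Nat.pair p.1.2 r ∈ col (col S 1) (g p.1.1)) ?_
    refine Ar.all (P := fun (p : ((α × ℕ) × ℕ) × ℕ) S =>
      Nat.pair p.1.1.2 p.1.2 ∈ col (col S 1) (g p.1.1.1) →
      Nat.pair p.1.2 p.2 ∈ col (col S 1) (g p.1.1.1) → Nat.pair p.1.1.2 p.2 ∈ col (col S 1) (g p.1.1.1)) ?_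
    exact (G4_m _ _).imp ((G4_m _ _).imp (G4_m _ _))
  · refine Ar.all (P := fun (p : α × ℕ) S => ∀ q : ℕ, Nat.pair p.2 q ∈ col (col S 1) (g p.1) →
      Nat.pair q p.2 ∈ col (col S 1) (g p.1) → p.2 = q) ?_
    refine Ar.all (P := fun (p : (α × ℕ) × ℕ) S => Nat.pair p.1.2 p.2 ∈ col (col S 1) (g p.1.1) →
      Nat.pair p.2 p.1.2 ∈ col (col S 1) (g p.1.1) → p.1.2 = p.2) ?_
    exact (G4_m _ _).imp ((G4_m _ _).imp (Ar.free _))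
  · refine Ar.all (P := fun (p : α × ℕ) S => ∀ q : ℕ, Nat.pair p.2 p.2 ∈ col (col S 1) (g p.1) →
      Nat.pair q q ∈ col (col S 1) (g p.1) →
        (Nat.pair p.2 q ∈ col (col S 1) (g p.1) ∨ Nat.pair q p.2 ∈ col (col S 1) (g p.1))) ?_
    refine Ar.all (P := fun (p : (α × ℕ) × ℕ) S => Nat.pair p.1.2 p.1.2 ∈ col (col S 1) (g p.1.1) →
      Nat.pair p.2 p.2 ∈ col (col S 1) (g p.1.1) →
        (Nat.pair p.1.2 p.2 ∈ col (col S 1) (g p.1.1) ∨ Nat.pair p.2 p.1.2 ∈ col (col S 1) (g p.1.1))) ?_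
    exact (G4_m _ _).imp ((G4_m _ _).imp ((G4_m _ _).or (G4_m _ _)))

theorem G4_arND (g : α → ℕ) : Ar (fun (x : α) (S : Set ℕ) => G4_ND (col S 1) (g x)) := by
  unfold G4_ND
  refine Ar.not ?_
  refine Ar.ex (P := fun (p : α × ℕ) S => (∀ n : ℕ, ∃ v : ℕ, Nat.pair n v ∈ col (col S 1) p.2) ∧
    (∀ n v v' : ℕ, Nat.pair n v ∈ col (col S 1) p.2 → Nat.pair n v' ∈ col (col S 1) p.2 → v = v') ∧
    (∀ n v u : ℕ, Nat.pair n v ∈ col (col S 1) p.2 → Nat.pair (n + 1) u ∈ col (col S 1) p.2 →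
      (Nat.pair u v ∈ col (col S 1) (g p.1) ∧ u ≠ v))) ?_
  refine Ar.and ?_ (Ar.and ?_ ?_)
  · refine Ar.all (P := fun (p : (α × ℕ) × ℕ) S => ∃ v : ℕ, Nat.pair p.2 v ∈ col (col S 1) p.1.2) ?_
    exact Ar.ex (P := fun (p : ((α × ℕ) × ℕ) × ℕ) S => Nat.pair p.1.2 p.2 ∈ col (col S 1) p.1.1.2)
      (G4_m _ _)
  · refine Ar.all (P := fun (p : (α × ℕ) × ℕ) S => ∀ v v' : ℕ,
      Nat.pair p.2 v ∈ col (col S 1) p.1.2 → Nat.pair p.2 v' ∈ col (col S 1) p.1.2 → v = v') ?_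
    refine Ar.all (P := fun (p : ((α × ℕ) × ℕ) × ℕ) S => ∀ v' : ℕ,
      Nat.pair p.1.2 p.2 ∈ col (col S 1) p.1.1.2 → Nat.pair p.1.2 v' ∈ col (col S 1) p.1.1.2 →
        p.2 = v') ?_
    refine Ar.all (P := fun (p : (((α × ℕ) × ℕ) × ℕ) × ℕ) S =>
      Nat.pair p.1.1.2 p.1.2 ∈ col (col S 1) p.1.1.1.2 → Nat.pair p.1.1.2 p.2 ∈ col (col S 1) p.1.1.1.2 →
        p.1.2 = p.2) ?_
    exact (G4_m _ _).imp ((G4_m _ _).imp (Ar.free _))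
  · refine Ar.all (P := fun (p : (α × ℕ) × ℕ) S => ∀ v u : ℕ,
      Nat.pair p.2 v ∈ col (col S 1) p.1.2 → Nat.pair (p.2 + 1) u ∈ col (col S 1) p.1.2 →
        (Nat.pair u v ∈ col (col S 1) (g p.1.1) ∧ u ≠ v)) ?_
    refine Ar.all (P := fun (p : ((α × ℕ) × ℕ) × ℕ) S => ∀ u : ℕ,
      Nat.pair p.1.2 p.2 ∈ col (col S 1) p.1.1.2 → Nat.pair (p.1.2 + 1) u ∈ col (col S 1) p.1.1.2 →
        (Nat.pair u p.2 ∈ col (col S 1) (g p.1.1.1) ∧ u ≠ p.2)) ?_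
    refine Ar.all (P := fun (p : (((α × ℕ) × ℕ) × ℕ) × ℕ) S =>
      Nat.pair p.1.1.2 p.1.2 ∈ col (col S 1) p.1.1.1.2 →
        Nat.pair (p.1.1.2 + 1) p.2 ∈ col (col S 1) p.1.1.1.2 →
        (Nat.pair p.2 p.1.2 ∈ col (col S 1) (g p.1.1.1.1) ∧ p.2 ≠ p.1.2)) ?_
    exact (G4_m _ _).imp ((G4_m _ _).imp ((G4_m _ _).and (Ar.free _)))

end

theorem G4_ar (h2 : G2S) : Ar (fun (_ : ℕ) (S : Set ℕ) => G4_Q S) := by
  unfold G4_Q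
  refine Ar.and ?_ (Ar.and (Ar.and ?_ (Ar.and ?_ (Ar.and ?_ (Ar.and ?_ ?_)))) (Ar.and ?_ ?_))
  · refine Ar.ex (P := fun (p : ℕ × ℕ) S => ∀ n : ℕ, (n ∈ col (col S 1) p.2 ↔ n ∈ col S 0)) ?_
    refine Ar.all (P := fun (p : (ℕ × ℕ) × ℕ) S => (p.2 ∈ col (col S 1) p.1.2 ↔ p.2 ∈ col S 0)) ?_
    exact (G4_m _ _).iff (Ar.mem (fun p : (ℕ × ℕ) × ℕ => Nat.pair 0 p.2))
  · refine Ar.all (P := fun (p : ℕ × ℕ) S => ∀ j : ℕ, ∃ k : ℕ, ∀ n : ℕ,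
      (n ∈ col (col S 1) k ↔ n ∈ jn (col (col S 1) p.2) (col (col S 1) j))) ?_
    refine Ar.all (P := fun (p : (ℕ × ℕ) × ℕ) S => ∃ k : ℕ, ∀ n : ℕ,
      (n ∈ col (col S 1) k ↔ n ∈ jn (col (col S 1) p.1.2) (col (col S 1) p.2))) ?_
    refine Ar.ex (P := fun (p : ((ℕ × ℕ) × ℕ) × ℕ) S => ∀ n : ℕ,
      (n ∈ col (col S 1) p.2 ↔ n ∈ jn (col (col S 1) p.1.1.2) (col (col S 1) p.1.2))) ?_
    refine Ar.all (P := fun (p : (((ℕ × ℕ) × ℕ) × ℕ) × ℕ) S =>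
      (p.2 ∈ col (col S 1) p.1.2 ↔ p.2 ∈ jn (col (col S 1) p.1.1.1.2) (col (col S 1) p.1.1.2))) ?_
    exact (G4_m _ _).iff (G4_jn _ _ _)
  · refine Ar.all (P := fun (p : ℕ × ℕ) S => ∃ k : ℕ, ∀ n : ℕ,
      (n ∈ col (col S 1) k ↔ n ∉ col (col S 1) p.2)) ?_
    refine Ar.ex (P := fun (p : (ℕ × ℕ) × ℕ) S => ∀ n : ℕ,
      (n ∈ col (col S 1) p.2 ↔ n ∉ col (col S 1) p.1.2)) ?_
    refine Ar.all (P := fun (p : ((ℕ × ℕ) × ℕ) × ℕ) S =>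
      (p.2 ∈ col (col S 1) p.1.2 ↔ p.2 ∉ col (col S 1) p.1.1.2)) ?_
    exact (G4_m _ _).iff (G4_m _ _).not
  · refine Ar.all (P := fun (p : ℕ × ℕ) S => ∀ j : ℕ, ∃ k : ℕ, ∀ n : ℕ,
      (n ∈ col (col S 1) k ↔ (n ∈ col (col S 1) p.2 ∧ n ∈ col (col S 1) j))) ?_
    refine Ar.all (P := fun (p : (ℕ × ℕ) × ℕ) S => ∃ k : ℕ, ∀ n : ℕ,
      (n ∈ col (col S 1) k ↔ (n ∈ col (col S 1) p.1.2 ∧ n ∈ col (col S 1) p.2))) ?_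
    refine Ar.ex (P := fun (p : ((ℕ × ℕ) × ℕ) × ℕ) S => ∀ n : ℕ,
      (n ∈ col (col S 1) p.2 ↔ (n ∈ col (col S 1) p.1.1.2 ∧ n ∈ col (col S 1) p.1.2))) ?_
    refine Ar.all (P := fun (p : (((ℕ × ℕ) × ℕ) × ℕ) × ℕ) S =>
      (p.2 ∈ col (col S 1) p.1.2 ↔ (p.2 ∈ col (col S 1) p.1.1.1.2 ∧ p.2 ∈ col (col S 1) p.1.1.2))) ?_
    exact (G4_m _ _).iff ((G4_m _ _).and (G4_m _ _))
  · refine Ar.all (P := fun (p : ℕ × ℕ) S => ∃ k : ℕ, ∀ n : ℕ,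
      (n ∈ col (col S 1) k ↔ ∃ b : ℕ, Nat.pair n b ∈ col (col S 1) p.2)) ?_
    refine Ar.ex (P := fun (p : (ℕ × ℕ) × ℕ) S => ∀ n : ℕ,
      (n ∈ col (col S 1) p.2 ↔ ∃ b : ℕ, Nat.pair n b ∈ col (col S 1) p.1.2)) ?_
    refine Ar.all (P := fun (p : ((ℕ × ℕ) × ℕ) × ℕ) S =>
      (p.2 ∈ col (col S 1) p.1.2 ↔ ∃ b : ℕ, Nat.pair p.2 b ∈ col (col S 1) p.1.1.2)) ?_
    refine (G4_m _ _).iff ?_
    exact Ar.ex (P := fun (p : (((ℕ × ℕ) × ℕ) × ℕ) × ℕ) S =>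
      Nat.pair p.1.2 p.2 ∈ col (col S 1) p.1.1.1.2) (G4_m _ _)
  · refine Ar.all (P := fun (p : ℕ × Tm) S => ∀ i : ℕ, ∃ k : ℕ, ∀ n : ℕ,
      (n ∈ col (col S 1) k ↔ p.2.ev n ∈ col (col S 1) i)) ?_
    refine Ar.all (P := fun (p : (ℕ × Tm) × ℕ) S => ∃ k : ℕ, ∀ n : ℕ,
      (n ∈ col (col S 1) k ↔ p.1.2.ev n ∈ col (col S 1) p.2)) ?_
    refine Ar.ex (P := fun (p : ((ℕ × Tm) × ℕ) × ℕ) S => ∀ n : ℕ,
      (n ∈ col (col S 1) p.2 ↔ p.1.1.2.ev n ∈ col (col S 1) p.1.2)) ?_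
    refine Ar.all (P := fun (p : (((ℕ × Tm) × ℕ) × ℕ) × ℕ) S =>
      (p.2 ∈ col (col S 1) p.1.2 ↔ p.1.1.1.2.ev p.2 ∈ col (col S 1) p.1.1.2)) ?_
    exact (G4_m _ _).iff (G4_m _ _)
  · refine Ar.all (P := fun (p : ℕ × ℕ) S => ∃ j : ℕ, IsSat (col (col S 1) p.2) (col (col S 1) j)) ?_
    exact Ar.ex (P := fun (p : (ℕ × ℕ) × ℕ) S => IsSat (col (col S 1) p.1.2) (col (col S 1) p.2))
      (G4_sat h2 _ _)
  · refine Ar.all (P := fun (p : ℕ × ℕ) S => IsLO (col (col S 1) p.2) → G4_ND (col S 1) p.2 →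
      ∀ (y : ℕ) (c : Code), ∃ k : ℕ, ∀ x : ℕ,
      (x ∈ col (col S 1) k ↔ (Nat.pair x.unpair.1 x.unpair.1 ∈ col (col S 1) p.2 ∧ ∃ i j : ℕ,
        (∀ n : ℕ, (n ∈ col (col S 1) i ↔
          n ∈ jn (col (col S 1) y) (low (col (col S 1) p.2) (col (col S 1) k) x.unpair.1))) ∧
        IsSat (col (col S 1) i) (col (col S 1) j) ∧ Nat.pair c.enc x ∈ col (col S 1) j))) ?_
    refine Ar.imp (G4_LO _) (Ar.imp (G4_arND _) ?_)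
    refine Ar.all (P := fun (p : (ℕ × ℕ) × ℕ) S => ∀ (c : Code), ∃ k : ℕ, ∀ x : ℕ,
      (x ∈ col (col S 1) k ↔ (Nat.pair x.unpair.1 x.unpair.1 ∈ col (col S 1) p.1.2 ∧ ∃ i j : ℕ,
        (∀ n : ℕ, (n ∈ col (col S 1) i ↔
          n ∈ jn (col (col S 1) p.2) (low (col (col S 1) p.1.2) (col (col S 1) k) x.unpair.1))) ∧
        IsSat (col (col S 1) i) (col (col S 1) j) ∧ Nat.pair c.enc x ∈ col (col S 1) j))) ?_
    refine Ar.all (P := fun (p : ((ℕ × ℕ) × ℕ) × Code) S => ∃ k : ℕ, ∀ x : ℕ,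
      (x ∈ col (col S 1) k ↔ (Nat.pair x.unpair.1 x.unpair.1 ∈ col (col S 1) p.1.1.2 ∧ ∃ i j : ℕ,
        (∀ n : ℕ, (n ∈ col (col S 1) i ↔
          n ∈ jn (col (col S 1) p.1.2) (low (col (col S 1) p.1.1.2) (col (col S 1) k) x.unpair.1))) ∧
        IsSat (col (col S 1) i) (col (col S 1) j) ∧ Nat.pair p.2.enc x ∈ col (col S 1) j))) ?_
    refine Ar.ex (P := fun (p : (((ℕ × ℕ) × ℕ) × Code) × ℕ) S => ∀ x : ℕ,
      (x ∈ col (col S 1) p.2 ↔ (Nat.pair x.unpair.1 x.unpair.1 ∈ col (col S 1) p.1.1.1.2 ∧ ∃ i j : ℕ,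
        (∀ n : ℕ, (n ∈ col (col S 1) i ↔
          n ∈ jn (col (col S 1) p.1.1.2) (low (col (col S 1) p.1.1.1.2) (col (col S 1) p.2) x.unpair.1))) ∧
        IsSat (col (col S 1) i) (col (col S 1) j) ∧ Nat.pair p.1.2.enc x ∈ col (col S 1) j))) ?_
    refine Ar.all (P := fun (p : ((((ℕ × ℕ) × ℕ) × Code) × ℕ) × ℕ) S =>
      (p.2 ∈ col (col S 1) p.1.2 ↔
        (Nat.pair p.2.unpair.1 p.2.unpair.1 ∈ col (col S 1) p.1.1.1.1.2 ∧ ∃ i j : ℕ,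
        (∀ n : ℕ, (n ∈ col (col S 1) i ↔
          n ∈ jn (col (col S 1) p.1.1.1.2)
            (low (col (col S 1) p.1.1.1.1.2) (col (col S 1) p.1.2) p.2.unpair.1))) ∧
        IsSat (col (col S 1) i) (col (col S 1) j) ∧ Nat.pair p.1.1.2.enc p.2 ∈ col (col S 1) j))) ?_
    refine Ar.iff (G4_m _ _) (Ar.and (G4_m _ _) ?_)
    refine Ar.ex (P := fun (p : (((((ℕ × ℕ) × ℕ) × Code) × ℕ) × ℕ) × ℕ) S => ∃ j : ℕ,
        (∀ n : ℕ, (n ∈ col (col S 1) p.2 ↔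
          n ∈ jn (col (col S 1) p.1.1.1.1.2)
            (low (col (col S 1) p.1.1.1.1.1.2) (col (col S 1) p.1.1.2) p.1.2.unpair.1))) ∧
        IsSat (col (col S 1) p.2) (col (col S 1) j) ∧
          Nat.pair p.1.1.1.2.enc p.1.2 ∈ col (col S 1) j) ?_
    refine Ar.ex (P := fun (p : ((((((ℕ × ℕ) × ℕ) × Code) × ℕ) × ℕ) × ℕ) × ℕ) S =>
        (∀ n : ℕ, (n ∈ col (col S 1) p.1.2 ↔
          n ∈ jn (col (col S 1) p.1.1.1.1.1.2)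
            (low (col (col S 1) p.1.1.1.1.1.1.2) (col (col S 1) p.1.1.1.2) p.1.1.2.unpair.1))) ∧
        IsSat (col (col S 1) p.1.2) (col (col S 1) p.2) ∧
          Nat.pair p.1.1.1.1.2.enc p.1.1.2 ∈ col (col S 1) p.2) ?_
    refine Ar.and ?_ (Ar.and (G4_sat h2 _ _) (G4_m _ _))
    refine Ar.all (P := fun (p : (((((((ℕ × ℕ) × ℕ) × Code) × ℕ) × ℕ) × ℕ) × ℕ) × ℕ) S =>
        (p.2 ∈ col (col S 1) p.1.1.2 ↔
          p.2 ∈ jn (col (col S 1) p.1.1.1.1.1.1.2)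
            (low (col (col S 1) p.1.1.1.1.1.1.1.2) (col (col S 1) p.1.1.1.1.2) p.1.1.1.2.unpair.1))) ?_
    refine Ar.iff (G4_m _ _) ?_
    have h5 : Ar (fun (p : (((((((ℕ × ℕ) × ℕ) × Code) × ℕ) × ℕ) × ℕ) × ℕ) × ℕ) S =>
        ((p.2.unpair.1 = 0 ∧ p.2.unpair.2 ∈ col (col S 1) p.1.1.1.1.1.1.2) ∨
         (p.2.unpair.1 = 1 ∧ (Nat.pair p.2.unpair.2.unpair.1 p.1.1.1.2.unpair.1 ∈
            col (col S 1) p.1.1.1.1.1.1.1.2 ∧ p.2.unpair.2.unpair.1 ≠ p.1.1.1.2.unpair.1 ∧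
            p.2.unpair.2 ∈ col (col S 1) p.1.1.1.1.2)))) :=
      ((Ar.free _).and (G4_m _ _)).or ((Ar.free _).and ((G4_m _ _).and ((Ar.free _).and (G4_m _ _))))
    exact h5

theorem G4 (h1 : G1S) (h2 : G2S) : G4S := by
  refine ⟨G4_Q, G4_ar h2, ?_⟩
  have hq := rich_countable (fun q : ℕ => (Ar.free (fun x : ℕ => x.unpair.1 ≠ q)).set_mem)
  filter_upwards [hq] with G hq z
  unfold QQ G4_Q
  rw [jn_col_zero, jn_col_one]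
  have e0 : ∀ X : Set ℕ, X ∈ cols z ↔ ∃ k : ℕ, ∀ n : ℕ, (n ∈ col z k ↔ n ∈ X) := by
    intro X
    constructor
    · rintro ⟨k, rfl⟩; exact ⟨k, fun n => Iff.rfl⟩
    · rintro ⟨k, hk⟩; exact ⟨k, Set.ext hk⟩
  have eA : ACA (cols z) ↔
      ((∀ i j : ℕ, ∃ k : ℕ, ∀ n : ℕ, (n ∈ col z k ↔ n ∈ jn (col z i) (col z j))) ∧
       (∀ i : ℕ, ∃ k : ℕ, ∀ n : ℕ, (n ∈ col z k ↔ n ∉ col z i)) ∧
       (∀ i j : ℕ, ∃ k : ℕ, ∀ n : ℕ, (n ∈ col z k ↔ (n ∈ col z i ∧ n ∈ col z j))) ∧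
       (∀ i : ℕ, ∃ k : ℕ, ∀ n : ℕ, (n ∈ col z k ↔ ∃ b : ℕ, Nat.pair n b ∈ col z i)) ∧
       (∀ (t : Tm) (i : ℕ), ∃ k : ℕ, ∀ n : ℕ, (n ∈ col z k ↔ t.ev n ∈ col z i))) := by
    constructor
    · intro hA
      refine ⟨fun i j => ?_, fun i => ?_, fun i j => ?_, fun i => ?_, fun t i => ?_⟩
      · exact (e0 _).1 (hA.jn_mem ⟨i, rfl⟩ ⟨j, rfl⟩)
      · exact (e0 _).1 (hA.compl_mem ⟨i, rfl⟩)
      · exact (e0 _).1 (hA.inter_mem ⟨i, rfl⟩ ⟨j, rfl⟩)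
      · exact (e0 _).1 (hA.proj_mem ⟨i, rfl⟩)
      · exact (e0 _).1 (hA.tm_mem t ⟨i, rfl⟩)
    · rintro ⟨a1, a2, a3, a4, a5⟩
      refine ⟨⟨_, ⟨0, rfl⟩⟩, ?_, ?_, ?_, ?_, ?_⟩
      · rintro _ _ ⟨i, rfl⟩ ⟨j, rfl⟩; exact (e0 _).2 (a1 i j)
      · rintro _ ⟨i, rfl⟩; exact (e0 _).2 (a2 i)
      · rintro _ _ ⟨i, rfl⟩ ⟨j, rfl⟩; exact (e0 _).2 (a3 i j)
      · rintro _ ⟨i, rfl⟩; exact (e0 _).2 (a4 i)
      · rintro _ t ⟨i, rfl⟩; exact (e0 _).2 (a5 t i)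
  have eS : SatC (cols z) ↔ ∀ i : ℕ, ∃ j : ℕ, IsSat (col z i) (col z j) := by
    constructor
    · intro h i
      obtain ⟨j, hj⟩ := h _ ⟨i, rfl⟩
      exact ⟨j, (h1 _ _).2 hj⟩
    · rintro h _ ⟨i, rfl⟩
      obtain ⟨j, hj⟩ := h i
      exact ⟨j, (h1 _ _).1 hj⟩
  rw [← eA, ← eS, ← e0 G]
  refine and_congr_right fun hG => and_congr_right fun hA => and_congr_right fun hS => ?_
  have hlow : ∀ w k q : ℕ, low (col z w) (col z k) q ∈ cols z := by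
    intro w k q
    have b1 := hA.tm_mem (.pr (.fst .id) (.cst q)) (A := col z w) ⟨w, rfl⟩
    have b2 := hq q (cols z) hA hG _ ⟨0, rfl⟩
    have b3 := hA.inter_mem b1 (hA.inter_mem b2 (B := col z k) ⟨k, rfl⟩)
    exact b3
  have hkey : ∀ (w k y : ℕ) (c : Code) (x : ℕ),
      (∃ i j : ℕ, (∀ n : ℕ, (n ∈ col z i ↔ n ∈ jn (col z y) (low (col z w) (col z k) x.unpair.1))) ∧
        IsSat (col z i) (col z j) ∧ Nat.pair c.enc x ∈ col z j) ↔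
      c.ev (jn (col z y) (low (col z w) (col z k) x.unpair.1)) x := by
    intro w k y c x
    have hsat : ∀ O : Set ℕ, Nat.pair c.enc x ∈ Sat O ↔ c.ev O x := by
      intro O
      simp only [Sat, Set.mem_ofPred_eq, Nat.unpair_pair]
      constructor
      · rintro ⟨d, h3, h4⟩
        rwa [← Code.enc_inj h3]
      · intro h; exact ⟨c, rfl, h⟩
    constructor
    · rintro ⟨i, j, h3, h4, h5⟩
      have h6 : col z i = jn (col z y) (low (col z w) (col z k) x.unpair.1) := Set.ext h3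
      rw [h1, h6] at h4
      rw [h4, hsat] at h5
      exact h5
    · intro h3
      obtain ⟨i, hi⟩ := hA.jn_mem (A := col z y) ⟨y, rfl⟩ (hlow w k x.unpair.1)
      obtain ⟨j, hj⟩ := hS _ (hA.jn_mem (A := col z y) ⟨y, rfl⟩ (hlow w k x.unpair.1))
      refine ⟨i, j, fun n => by rw [hi], ?_, ?_⟩
      · rw [h1, hi, hj]
      · rw [hj, hsat]; exact h3
  constructor
  · intro h w hLO hND y c
    obtain ⟨_, ⟨k, rfl⟩, hk⟩ := h _ ⟨w, rfl⟩ hLO ((G4_ND_iff z w).2 hND) _ ⟨y, rfl⟩ c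
    refine ⟨k, fun x => ?_⟩
    rw [hkey]; exact hk x
  · rintro h _ ⟨w, rfl⟩ hLO hND _ ⟨y, rfl⟩ c
    obtain ⟨k, hk⟩ := h w hLO ((G4_ND_iff z w).1 hND) y c
    refine ⟨_, ⟨k, rfl⟩, fun x => ?_⟩
    rw [hk x, hkey]

end FR
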