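import Pool.Agent.Lib.MP_ec866f_lc.Stmts

set_option autoImplicit false

namespace FR

open Filter Encodable

theorem Main (hA9 : A9S) (hB3 : B3S) (hC5 : C5S) (hD9 : D9S) (hE13 : E13S) (hG3 : G3S) (hG7 : G7S)
    (hG9 : G9S) : MainS := by
  haveI := rich_neBot
  have h : ∀ᶠ G in rich, MainS := by
    filter_upwards [hA9, hB3, hC5, hD9, hE13, hG3, hG7, hG9] with G a b c d e g3 g7 g9
    obtain ⟨y, ⟨hGy, haca, hsat, hatr⟩, hno⟩ := g7
    refine ⟨cols y, g9 _ haca hGy hatr, fun hfra => ?_⟩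
    obtain ⟨z, ⟨i, rfl⟩, hGz, hz1, hz2⟩ := e _ haca hGy (d _ haca hGy (c _ haca hGy
      (b _ haca hGy (a _ haca hGy hfra))))
    exact hno i ⟨hGz, hz1, g3 _ hz1 hGz hz2, hz2⟩
  exact h.exists.choose_spec

end FR
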