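import Mathlib

/-!
# Omega-models of ATR_0 and Fraisse's conjecture: the definitions used in the final statement

An omega-model of second-order arithmetic has the standard natural numbers as its first-order
part, so it is given by the family `M : Set (Set ℕ)` of its sets. The axioms for `0, 1, +, ·, <`
and induction hold in every omega-model.
-/

set_option autoImplicit false

namespace FR

/-! ### arithmetical formulas of second-order arithmetic -/

/-- number terms: variables `x_i`, `0`, `1`, sums and products -/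
inductive NTm : Type
  | var (i : ℕ) : NTm
  | zero : NTm
  | one : NTm
  | add (s t : NTm) : NTm
  | mul (s t : NTm) : NTm

/-- value of a term in the standard model -/
def NTm.val (v : ℕ → ℕ) : NTm → ℕ
  | .var i => v i
  | .zero => 0
  | .one => 1
  | .add s t => s.val v + t.val v
  | .mul s t => s.val v * t.val v

/-- arithmetical formulas: atomic formulas `s = t`, `s < t`, `t ∈ X_i`, negation, conjunction and
number quantifiers `∀ x_i`; no set quantifiers -/
inductive Fm : Type
  | eq (s t : NTm) : Fm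
  | lt (s t : NTm) : Fm
  | mem (t : NTm) (i : ℕ) : Fm
  | neg (p : Fm) : Fm
  | and (p q : Fm) : Fm
  | all (i : ℕ) (p : Fm) : Fm

/-- truth, for the values `v` of the number variables and `V` of the set variables -/
def Fm.tr (V : ℕ → Set ℕ) : Fm → (ℕ → ℕ) → Prop
  | .eq s t, v => s.val v = t.val v
  | .lt s t, v => s.val v < t.val v
  | .mem t i, v => t.val v ∈ V i
  | .neg p, v => ¬ p.tr V v
  | .and p q, v => p.tr V v ∧ q.tr V v
  | .all i p, v => ∀ n, p.tr V (Function.update v i n)

/-! ### coded functions and linear orders -/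

/-- the graph of a function, as a set of numbers -/
def gr (f : ℕ → ℕ) : Set ℕ := {p | f p.unpair.1 = p.unpair.2}

/-- the `i`-th column of a set: `{n | ⟨i, n⟩ ∈ S}` -/
def col (S : Set ℕ) (i : ℕ) : Set ℕ := {n | Nat.pair i n ∈ S}

/-- `W` codes a (reflexive) linear order on its field `{p | ⟨p, p⟩ ∈ W}` -/
def IsLO (W : Set ℕ) : Prop :=
  (∀ p q, Nat.pair p q ∈ W → Nat.pair p p ∈ W ∧ Nat.pair q q ∈ W) ∧
  (∀ p q r, Nat.pair p q ∈ W → Nat.pair q r ∈ W → Nat.pair p r ∈ W) ∧
  (∀ p q, Nat.pair p q ∈ W → Nat.pair q p ∈ W → p = q) ∧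
  (∀ p q, Nat.pair p p ∈ W → Nat.pair q q ∈ W → (Nat.pair p q ∈ W ∨ Nat.pair q p ∈ W))

/-- `f` is an embedding of the linear order `W` into the linear order `W'` -/
def LOEmb (W W' : Set ℕ) (f : ℕ → ℕ) : Prop :=
  ∀ p q, Nat.pair p p ∈ W → Nat.pair q q ∈ W →
    (Nat.pair p q ∈ W ↔ Nat.pair (f p) (f q) ∈ W')

/-- **Fraisse's conjecture holds in `M`**: for every sequence (coded by `Z ∈ M`) of linear orders
`L_n = col Z n` there are `m < n` and an embedding of `L_m` into `L_n` which belongs to `M` -/
def FRA (M : Set (Set ℕ)) : Prop :=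
  ∀ Z ∈ M, (∀ n, IsLO (col Z n)) →
    ∃ m n, m < n ∧ ∃ f : ℕ → ℕ, gr f ∈ M ∧ LOEmb (col Z m) (col Z n) f

/-- `W` has no infinite descending sequence in `M` -/
def NoDesc (M : Set (Set ℕ)) (W : Set ℕ) : Prop :=
  ¬ ∃ f : ℕ → ℕ, gr f ∈ M ∧ ∀ n, Nat.pair (f (n + 1)) (f n) ∈ W ∧ f (n + 1) ≠ f n

/-! ### omega-models of ATR_0 -/

/-- `M` is (the second-order part of) an omega-model of `ATR_0`. It satisfies arithmetical
comprehension and arithmetical transfinite recursion, for all arithmetical formulas with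
parameters from `M`: along every linear order `W` of `M` which is a well-order in the sense of
`M` there is a set `H` in `M` with columns `H_j = {n | ⟨n, j⟩ ∈ H}`, `j` in the field of `W`,
such that `n ∈ H_j` iff `p(n, j, H restricted to the columns strictly below j)`; here `x_0 = n`,
`x_1 = j` and the set variable `X_0` is the restriction of `H` -/
structure ModelATR0 (M : Set (Set ℕ)) : Prop where
  ne : M.Nonempty
  aca : ∀ (p : Fm) (V : ℕ → Set ℕ) (v : ℕ → ℕ), (∀ i, V i ∈ M) →
    {n | p.tr V (Function.update v 0 n)} ∈ M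
  atr : ∀ (p : Fm) (V : ℕ → Set ℕ) (v : ℕ → ℕ), (∀ i, V i ∈ M) →
    ∀ W ∈ M, IsLO W → NoDesc M W →
      ∃ H ∈ M, ∀ n j, (Nat.pair n j ∈ H ↔ (Nat.pair j j ∈ W ∧
        p.tr (Function.update V 0 {x | Nat.pair x.unpair.2 j ∈ W ∧ x.unpair.2 ≠ j ∧ x ∈ H})
          (Function.update (Function.update v 0 n) 1 j)))

end FR
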