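import Pool.Agent.Lib.MP_ec866f_lc.Defs2

/-!
# Statements of the modules (MP_ec866f_lc: ATR_0 does not prove Fraisse's conjecture)

Paper proof: /team-store/FRA_PROOF.md.

General remarks.
* `Ar P` (P : α → Set ℕ → Prop): arithmetical in the set variable, boldface, so EVERY parameter-free
  predicate is allowed (`Ar.free`), and `f x ∈ S` for every parameter-free f (`Ar.mem`). Closure:
  `Ar.not/and/or/imp/iff/ex/all/comp/subst/congr`. For `Ar.ex`, `Ar.all` give `P` explicitly as a function on the
  product type (see the proofs in Fu.lean for the pattern).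
* `FU F` : finite use (F S depends only on `S` below some bound); `FU.const/mem/map/map2/bind/pi/common`,
  `Ar.of_FU`, `FU.ar_fun`.
* membership in closed families: `Ar.set_mem`, `Ar.enS_mem`, `Ar.gr_mem` (all of the form
  `∀ᶠ G in rich, ∀ M, ACA M → G ∈ M → ∀ S ∈ M, ... ∈ M`); several set parameters are given as
  columns of one set: `jn A B`, with `jn_col_zero`, `jn_col_one`, `ACA.col_mem`.
* `Ar.code_in`: a code for P with oracle `jn (jn G Y) R` (needed for ATR, G3 and G9).
* dependent choice in `M`: `seq_exists`.
* combine `∀ᶠ G in rich` statements with `filter_upwards [h1, h2] with G g1 g2`.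
-/

set_option autoImplicit false

namespace FR

open Filter Encodable

/-! ## Block A: FRA M → SFRA M -/

/-- A1. node recursion; parents exist. PROOF. Show by induction on `k` (strong) that for `s.length ≤ k`,
`Nd lam k s ↔ node lam s` (nodes of length ≤ k), nonempty. `IsPar (Nd lam k) s t ↔ IsPar (node lam) s t` when
`s.length ≤ k + 1` (only proper prefixes matter, they have length ≤ k). Second part: `[a]` (first element) is a node
prefix; take the longest proper prefix which is a node (prefixes of `s` are the `s.take i`). -/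
def A1S : Prop :=
  (∀ (lam : List ℕ → Bool) (s : List ℕ), node lam s ↔ (s.length = 1 ∨
    (2 ≤ s.length ∧ node lam s.tail ∧ ∃ t, IsPar (node lam) s t ∧ lam t = lam s.tail))) ∧
  (∀ (lam : List ℕ → Bool) (s : List ℕ), 2 ≤ s.length → ∃ t, IsPar (node lam) s t)

/-- A2. `L_n` is a linear order. PROOF. First for every `s`: `leL lam s` is reflexive, transitive, antisymmetric,
total on ALL lists (induction on the list, generalizing `s`; `lam s` is true or false). Then unfold `LZ`, using
injectivity of `Nat.pair` and `encode`. -/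
def A2S : Prop := ∀ (lam : List ℕ → Bool) (n : ℕ), IsLO (col (LZ lam) n)

/-- A3. finite use of nodes. PROOF. Induction on `k`: `Nd (lamOf S) k s` has finite use: only finitely many prefixes t of
`s` (the `s.take i`), `IsPar` is a finite Boolean combination. Write `∃ t, IsPar ..` as `∃ i ≤ s.length, IsPar .. (s.take i)`
and use `FU.pi`/`FU.common`, or directly: get a common bound from the induction hypothesis for the finitely many lists
s.tail, s.take i, and the codes of s.tail, s.take i, and show the predicate does not change. Then child, Pt, leL, Adr by recursion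
on the list (FU.and, FU.or, FU.map, FU.mem). -/
def A3S : Prop :=
  (∀ s, FU (fun S => node (lamOf S) s)) ∧ (∀ s s', FU (fun S => child (lamOf S) s s')) ∧
  (∀ s u, FU (fun S => Pt (lamOf S) s u)) ∧ (∀ s u u', FU (fun S => leL (lamOf S) s u u')) ∧
  (∀ s u s', FU (fun S => Adr (lamOf S) s u s'))

/-- A4. the code of the sequence of orders is in `M`. PROOF. From A3: `x ∈ LZ (lamOf S)` is Ar as a predicate of `x` and `S`
(Ar.ex over n, u, u' ; Ar.free for the equation; Ar.of_FU for the rest); then `Ar.set_mem`. -/
def A4S : Prop := ∀ᶠ G in rich, ∀ M, ACA M → G ∈ M → ∀ S ∈ M, LZ (lamOf S) ∈ M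

/-- A5. growing when the signs differ. PROOF (FRA_PROOF.md A(1)). Let `beta b` be the entry of `E (u ++ [b])` at index
`v.length` (b ≥ B). For `B ≤ b < b'`: `leL [m] (u++[b]) (u++[b'])` and not conversely if `lam s = true` (reversed if
false); comparing `v ++ x :: w` and `v ++ x' :: w'` in `L_n` at the address `v` of the node `w` gives `x ≤ x'` if
`lam w = true`, `x' ≤ x` if false (useful lemma: `Adr s v w → (leL s (v++y) (v++y') ↔ leL w y y')`). As the signs differ,
`beta` is nonincreasing for `b ≥ B`, so eventually constant `= β`. Then `E (u ++ [b]) = v ++ β :: w_b`, and `w_b = []` for at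
most one `b` (E is injective on points since leL is antisymmetric: from EmbL both directions), so for large `b` `w_b` is nonempty,
hence `β` codes a child of `w` (Pt) : `Adr (v ++ [β]) (dcl β)`, and Land E u (v ++ [β]). Points: `Adr [m] u s` implies
`Pt [m] (u ++ [b])` for every `b`, and `Pt [m] (u ++ [b] ++ y)` iff Pt s (b :: y). -/
def A5S : Prop :=
  ∀ (lam : List ℕ → Bool) (m n : ℕ) (E : List ℕ → List ℕ) (u v s w : List ℕ),
    EmbL lam m n E → Adr lam [m] u s → Adr lam [n] v w → Land E u v → lam s ≠ lam w →
    ∃ β w', Adr lam [n] (v ++ [β]) w' ∧ Land E u (v ++ [β])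

/-- A6. child step. PROOF (FRA_PROOF.md A(2)). Take `B` from Land, `b ≥ B + 1` with `dcl b = s'` (b = pair k (encode s') for
large k). The points `u ++ [b, x]` lie strictly between `u ++ [b]` and `u ++ [b+1]` (if lam s = true) or `u ++ [b-1]` (false).
Their images: the set of points properly extending `v` is convex for leL, so `E (u ++ [b, x]) = v ++ y_x :: z_x` with `y_x` between
beta(b) and beta(b ± 1), and `y_x` is monotone in `x` (direction given by lam s' and lam w), so eventually constant `= β`;
at most one `x` has `z_x = []`. So Land E (u ++ [b]) (v ++ [β]) and `β` codes a child of `w`. -/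
def A6S : Prop :=
  ∀ (lam : List ℕ → Bool) (m n : ℕ) (E : List ℕ → List ℕ) (u v s w s' : List ℕ),
    EmbL lam m n E → Adr lam [m] u s → Adr lam [n] v w → Land E u v → child lam s s' →
    ∃ b β w', Adr lam [m] (u ++ [b]) s' ∧ Adr lam [n] (v ++ [β]) w' ∧ Land E (u ++ [b]) (v ++ [β])

/-- A7. the chain lemma. PROOF (FRA_PROOF.md A(3)). Let `t'` be the shortest list with `t <+: t'`, `t' ≠ t`, `t' <+: w`, `node t'`,
`lam t' = lam (m :: t)` (w qualifies; shortest = least length). `m :: t'` is increasing. A proper prefix of `m :: t'` which is a node and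
not a prefix of `m :: t` is `m :: t''` with t proper prefix of t'', t'' proper prefix of t'; take the shortest such; then
`IsPar (node lam) (m :: t'') (m :: t)`, so (A1) `node t''` and `lam t'' = lam (m :: t)`, contradicting minimality of `t'`. So
`IsPar (node lam) (m :: t') (m :: t)` and by A1 `node (m :: t')`. (`t` may be empty: then `m :: t = [m]`.) -/
def A7S : Prop :=
  ∀ (lam : List ℕ → Bool) (m : ℕ) (t w : List ℕ), node lam (m :: t) → node lam w →
    w.Pairwise (· < ·) → (∀ x ∈ w, m < x) → t <+: w → t ≠ w → lam (m :: t) = lam w →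
    ∃ t', t <+: t' ∧ t' ≠ t ∧ t' <+: w ∧ child lam (m :: t) (m :: t')

/-- A8. one step of the construction: `v` grows by one entry. PROOF. From Inv get t, w. By induction along the address, `Adr [n] v w`
gives: node w, w.Pairwise (<), head of w is n (so all entries ≥ n > m), similarly node (m :: t). If lam (m :: t) ≠ lam w: A5,
the new `w'` is a child of `w` (so `w <+: w'`, w ≠ w'; t stays a proper prefix). If equal: A7 gives t', then A6 with
`s' = m :: t'`, t' <+: w, w proper prefix of w'. -/
def A8S : Prop :=
  ∀ (lam : List ℕ → Bool) (m n : ℕ) (E : List ℕ → List ℕ) (u v : List ℕ), m < n →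
    EmbL lam m n E → Inv lam m n E u v → ∃ u' β, Inv lam m n E u' (v ++ [β])

/-- A9. PROOF. Given `S ∈ M`, `lam = lamOf S`, `Z = LZ lam ∈ M` (A4), IsLO (A2). FRA gives m < n and e with gr e ∈ M,
LOEmb. Let `E u = decoding of e (encode u)` ; EmbL lam m n E (from LOEmb; reflexivity of leL on points gives the Pt part).
Inv lam m n E [] [] (t = [], w = [n]; Land with B = 0 as points are nonempty). `Inv` is Ar in (S, gr e) (columns of `jn S (gr e)`):
Adr by A3 (Ar.subst or Ar.of_FU after restricting), Land: `E (u ++ [b]) = y` is `e (encode (u++[b])) = encode y`-type membership in gr e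
(define E directly from the set gr e; it may help to use in Ar form: ∃ k y, pair (encode (u++[b])) k ∈ gr e ∧ k = encode y ∧ ...).
`seq_exists` with β = List ℕ × List ℕ, I = Inv, R ((u,v),(u',v')) = ∃ β, v' = v ++ [β] gives q with graph in M. The node w_k of v_k := (q k).2
is `w_k` with Adr [n] v_k w_k; w_k is a proper prefix of w_{k+1}, length w_k ≥ k + 1. X i = entry i of w_i; StrictMono, gr X ∈ M
(Ar in S and the graph of q), and w_k = pre X (length w_k) are nodes. -/
def A9S : Prop := ∀ᶠ G in rich, ∀ M, ACA M → G ∈ M → FRA M → SFRA M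

/-! ## Block B: SFRA M → NoBad M -/

/-- B1. PROOF. Define `Λ S s` by well-founded recursion on `s.length`:
if col3 S s = 0 then true else if col3 S s = 1 then false else (if there is t with IsPar (node lam') s t, where lam' is Λ S on lists
shorter than s and (say) true elsewhere, then not (Λ S t) for that t else true). Locality: `node lam s`, and IsPar (node lam) s t, only use
lam on lists shorter than s (in fact on proper infixes of s) (lemma by induction: if lam, lam' agree on all lists u which are
infixes of s with u ≠ s then node lam s ↔ node lam' s). t is unique (IsPar). Finite use of Λ S s by strong induction on the length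
(finitely many infixes). -/
def B1S : Prop :=
  ∃ La : Set ℕ → List ℕ → Bool, (∀ s, FU (fun S => La S s)) ∧ ∀ S, lamEq (col3 S) (La S)

/-- B2. PROOF (FRA_PROOF.md B). If node lam s and s.length ≥ 2 then node lam s.tail (A1), so shk X 1, shk X 2 have infinitely many nodes too
((pre X (n+1)).tail = pre (shk X 1) n). r1 or r2 is not 2; let i ∈ {1,2} with r_i ∈ {0,1}, sign σ (true if 0, false if 1). For large node
prefixes t of X_{i-1} with next node s of X_{i-1}: IsPar s t, so lam t = lam s.tail = σ by A1 and lamEq (f (s.tail) = r_i). Hence all large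
nodes t of X_{i-1} have lam t = σ. If r_{i-1} = 0 or 1: lamEq gives lam t, so r_{i-1} = r_i, contradiction. If r_{i-1} = 2: f t = 2 and
lam t = !lam (parent of t), both = σ, contradiction. -/
def B2S : Prop :=
  ∀ (f : List ℕ → ℕ) (lam : List ℕ → Bool) (X : ℕ → ℕ) (r0 r1 r2 : ℕ), (∀ s, f s ≤ 2) → lamEq f lam →
    StrictMono X → (∀ N, ∃ n ≥ N, node lam (pre X n)) →
    LimIs f X r0 → LimIs f (shk X 1) r1 → LimIs f (shk X 2) r2 → r0 ≠ r1 → r1 ≠ r2 → False

/-- B3. PROOF. Let S ∈ M be a counterexample to NoBad. S' = enS (fun s => La S s = true) ∈ M (B1, Ar.enS_mem, FU.ar_fun), lamOf S' = La S.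
SFRA gives X. Apply the hypothesis to X and to shk X 1 (gr (shk X 1) ∈ M), limits are unique; B2. -/
def B3S : Prop := ∀ᶠ G in rich, ∀ M, ACA M → G ∈ M → SFRA M → NoBad M

/-! ## Block C: NoBad M → Stab M -/

/-- C1. markers are never consecutive. PROOF: case analysis (FRA_PROOF.md C). -/
def C1S : Prop :=
  ∀ (I : ℕ → ℕ∞) (av : ℕ → ℕ → Bool), (∀ k (i : ℕ), I k = (i : ℕ∞) → av k i ≠ av (k + 1) i) →
    ∀ k, MkS I av k → ¬ MkS I av (k + 1)

/-- C2. markers recur. PROOF: if I k = ⊤ infinitely often, also I k < ⊤ infinitely often, use the first kind of marker at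
the last finite place before an infinite one. Otherwise I k < ⊤ eventually; i* = liminf (least i with ∃ᶠ k, I k = i; then
∀ᶠ k, i* ≤ I k). If eventually I k = i*, then av k i* alternates and there are infinitely many k with av k i* = true: marker (c).
Otherwise infinitely often I k > I (k+1) = i* ≤ I (k+2) < ⊤ (last k before a place with value i* with larger value):
either cC holds at k+1 (marker at k+1) or marker (d) at k. -/
def C2S : Prop :=
  ∀ (I : ℕ → ℕ∞) (av : ℕ → ℕ → Bool), (∀ k (i : ℕ), I k = (i : ℕ∞) → av k i ≠ av (k + 1) i) →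
    (∃ i : ℕ, ∃ᶠ k in atTop, I k ≤ (i : ℕ∞)) → ∃ᶠ k in atTop, MkS I av k

/-- C3. convergence of the finite approximations. PROOF. For s = pre X n and n → ∞: s.drop k = pre (shk X k) (n - k), headD = X k;
IL a (s.drop k) depends only on a i for i ≤ X k, so it is eventually seqI X av k; hence MkL a (s.drop k) ↔ MkS (seqI X av) av k
for large n, for each fixed k (apply for k ≤ N simultaneously). Then Nat.find is N. -/
def C3S : Prop :=
  ∀ (a : ℕ → List ℕ → Bool) (X : ℕ → ℕ) (av : ℕ → ℕ → Bool) (N : ℕ), StrictMono X →
    (∀ k i, LimIs (a i) (shk X k) (av k i)) → MkS (seqI X av) av N →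
    (∀ m < N, ¬ MkS (seqI X av) av m) → LimIs (fmk a) X (if N = 0 then 2 else N % 2)

/-- C4. the colouring is in M. PROOF. FU (fun S => fmk (atr S) s) for each s (finitely many bits: the attributes atr S i (s.drop k)
with i ≤ head of s.drop k, k ≤ s.length, and i = I values, which are ≤ the same bound); S' = {x | ∃ s, encode s = x.unpair.1 ∧
fmk (atr S) s = x.unpair.2}, values ≤ 2. -/
def C4S : Prop := ∀ᶠ G in rich, ∀ M, ACA M → G ∈ M → ∀ S ∈ M, ∃ S' ∈ M, ∀ s, col3 S' s = fmk (atr S) s

/-- C5. PROOF. Suppose S ∈ M, all limits exist, no stable X in M. S' from C4; NoBad gives X in M for which the colouring is not bad. Choose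
av k i = limit for shk X k (exists by hypothesis; shk X k is StrictMono). I = seqI X av. X is not stable: some i for which av k i is not
eventually constant, so av k i ≠ av (k+1) i infinitely often and X k ≥ i for large k, so I k ≤ i infinitely often. By C2 let N
be the least marker of X, and N' the least marker of shk X 1 (whose sequences are the shifted ones): N' = N - 1 if N ≥ 1; if N = 0, N' ≥ 1
by C1. C3 gives both limits; they differ: N = 0: 2 vs N' % 2 (N' ≥ 1); N = 1: 1 vs 2; N ≥ 2: N % 2 ≠ (N-1) % 2. -/
def C5S : Prop := ∀ᶠ G in rich, ∀ M, ACA M → G ∈ M → NoBad M → Stab M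

/-! ## Block D: Stab M → RLP M -/

/-- D1. leftmost bounded path and its approximations. PROOF. T a tree with a path bounded by 1, hence bounded by X for every X. For every n the set
of admissible strings for pre X n is finite and nonempty, so lmf T (pre X n) is its LLe-least element. Its restriction to N is
nondecreasing (LLe) in n ≥ N and takes finitely many values so is eventually constant; the limit L is a path (T closed under prefixes),
bounded, and leftmost (if L' is another bounded path then lmf ≤ pre L' n for each n). -/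
def D1S : Prop :=
  ∀ (T : Set (List ℕ)) (X : ℕ → ℕ), IsTree T → (∃ P : ℕ → ℕ, (∀ n, P n ≤ 1) ∧ Path T P) →
    ∃ L, LM T X L ∧ (∀ n, (lmf T (pre X n)).length = n) ∧
      ∀ N, ∀ᶠ n in atTop, (lmf T (pre X n)).take N = pre L N

/-- D2. limit along tails. PROOF. LM T (shk X (k+1)) (Ls (k+1)), and Ls k is bounded by shk X k ≤ shk X (k+1), so LexLe (Ls (k+1)) (Ls k).
A LexLe-nonincreasing sequence converges pointwise (induction on n: once the values below n are constant, the value at n is
nonincreasing). The limit is a path, and LexLe Li (Ls k). -/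
def D2S : Prop :=
  ∀ (T : Set (List ℕ)) (X : ℕ → ℕ) (Ls : ℕ → ℕ → ℕ), StrictMono X → (∀ k, LM T (shk X k) (Ls k)) →
    ∃ Li, Path T Li ∧ (∀ n, ∀ᶠ k in atTop, Ls k n = Li n) ∧ ∀ k, LexLe Li (Ls k)

/-- D3. PROOF. (FRA_PROOF.md D, i = 0.) cp a b is a prefix of both and contains every common prefix. Conv P g implies Conv (cp (P k)
(P (k+1))) g (first part), so lengths tend to infinity, so the Boolean is eventually true. Then Q k <+: P (k+1), Q (k+1) <+: P (k+1) and
lengths increase so Q k <+: Q (k+1) <+: ..., Q k <+: Q j <+: P j for large j, so Q k = pre g (length). -/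
def D3S : Prop :=
  ∀ (P : ℕ → List ℕ) (g : ℕ → ℕ), Conv P g →
    (∃ v : Bool, ∀ᶠ k in atTop, decide ((cp (P k) (P (k + 1))).length <
      (cp (P (k + 1)) (P (k + 2))).length) = v) →
    Grow (fun k => cp (P k) (P (k + 1))) g

/-- D4. PROOF. For fixed n: ∃ l ≤ (Q k).length, rho n ((Q k).take l), i.e. rho n (pre g l), is monotone in k (for k ≥ K) and
eventually equivalent to ∃ l, rho n (pre g l). -/
def D4S : Prop :=
  ∀ (rho : ℕ → List ℕ → Prop) (Q : ℕ → List ℕ) (g : ℕ → ℕ), Grow Q g → Conv (fun k => Jl rho (Q k)) (Jf rho g)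

/-- D5. capture. PROOF. ec c (Q k) → ∞ since Q k is an initial segment of g with length → ∞ and h is total, so the Boolean is eventually true,
so ec c (Q k) ≥ k - K. For m < ec c (Q k) there is v with pair c (pair m v) < length and the bit 1 there, so v = h m and
h m ≤ pair c (pair m v) < (Q k).length. Take k = m + K + 1. -/
def D5S : Prop :=
  ∀ (Q : ℕ → List ℕ) (g h : ℕ → ℕ) (c : ℕ), Grow Q g →
    (∀ m v, g (Nat.pair c (Nat.pair m v)) = 1 ↔ h m = v) →
    (∃ v : Bool, ∀ᶠ k in atTop, decide (ec c (Q k) < ec c (Q (k + 1))) = v) →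
    ∃ K, ∀ m, h m ≤ (Q (m + K)).length

/-- the family of all columns of the limit functions of level at least one -/
def LA (g : ℕ → ℕ) : Set (Set ℕ) :=
  {A | ∃ i e, ∀ a, a ∈ A ↔ Gf rho0 g (i + 1) (Nat.pair e a) = 1}

/-- D6. PROOF. Gf (i+2) (pair e a) = 1 iff ∃ l, rho0 (pair e a) (pre (Gf (i+1)) l); for e = o.enc this is ∃ l, o.sem a (pre .. l)
(Op.enc is injective). Level lifting with Op.inter e e. compl: Op.neg, etc. Level 1: Op.gph gives gr L, Op.yy gives Y
(base Y L n = pair (L n) (ind Y n)). All values of Gf (i+1) are 0 or 1. -/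
def D6S : Prop := ∀ (Y : Set ℕ) (L : ℕ → ℕ), ACA (LA (base Y L)) ∧ Y ∈ LA (base Y L) ∧ gr L ∈ LA (base Y L)

/-- D7. convergence of the levels. PROOF. Induction on i, for all k. (pre (shk X k) (n+1)).tail = pre (shk X (k+1)) n; headD = X k.
For i = 0: phb T Y (pre (shk X k) n) truncated at X k is eventually pre (base Y (Ls k)) (X k) by hypothesis (zipIdx adds the index). -/
def D7S : Prop :=
  ∀ (T : Set (List ℕ)) (Y : Set ℕ) (X : ℕ → ℕ) (Ls : ℕ → ℕ → ℕ),
    (∀ k n, (lmf T (pre (shk X k) n)).length = n) →
    (∀ k N, ∀ᶠ n in atTop, (lmf T (pre (shk X k) n)).take N = pre (Ls k) N) →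
    ∀ i k, LimIs (Lv rho0 (phb T Y) i) (shk X k) (Qv rho0 (fun k => base Y (Ls k)) X i k)

/-- D8. the attributes are in M. PROOF. FU (fun S => att (phb (TrOf (col S 0)) (col S 1)) j s) for all j s: lmf (TrOf S) s has finite use since
Adm only concerns the finitely many strings t with t.length = s.length and entries ≤ s_i + 1 (if S, S' agree on the codes of those strings then the predicates
Adm (TrOf S) s and Adm (TrOf S') s are equal, so lmf is the same by congruence); phb needs ind Y below the length; Lv by induction (map2). Then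
S' = {x | att .. x.unpair.1 (decoded x.unpair.2) = true}, with atr S' j s = att .. j s. -/
def D8S : Prop :=
  ∀ᶠ G in rich, ∀ M, ACA M → G ∈ M → ∀ S ∈ M, ∀ Y ∈ M, ∃ S' ∈ M,
    ∀ j s, atr S' j s = att (phb (TrOf S) Y) j s

/-- D9. PROOF. Given the tree S, Y. S' from D8; attributes have limits for all X (D1 for all tails shk X k, then D7: Lv i s and Lv i s.tail
converge, hence att converges: LimIs (att ph j) (shk X k) (value from Qv i k, Qv i (k+1))). Stab gives X stable, gr X ∈ M. Ls k from D1 for shk X k, Li
from D2. B k = base Y (Ls k), P k = pre (B k) (X k) satisfies Conv P (base Y Li) (D2 and X k → ∞). Q i = Qv rho0 B X i. By induction on i: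
Grow (Q i) (Gf rho0 (base Y Li) i): D3 with stability of attribute pair i 0, and D4. A = LA (base Y Li): D6. If gr L' ∈ A and Path L':
gr L' is column e of Gf (i+1): D5 with attribute pair (i+1) (e+1): L' m ≤ (Q (i+1) (m+K)).length ≤ X (m+K) (lengths of Qv i k are ≤ X k), so
bnd (shk X K) L', so LexLe (Ls K) L' and LexLe Li (Ls K): LexLe Li L'. gr Li ∈ M: Li is Ar in (X, S): Li n = v iff for all large k, for all
large n', (lmf T (pre (shk X k) n')).getD n 0 = v. -/
def D9S : Prop := ∀ᶠ G in rich, ∀ M, ACA M → G ∈ M → Stab M → RLP M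

/-! ## Block E: RLP M → a coded omega-model -/

/-- E1. Skolem conditions. PROOF: induction on the code. -/
def E1S : Prop :=
  ∀ (O : Set ℕ) (v : Code → ℕ → ℕ) (c : Code), Sk O v c → ∀ a, (v c a ≠ 0 ↔ c.ev O a)

/-- E2. existence of Skolem functions for the subcodes of a fixed code, arithmetical in the oracle. PROOF. Canonical function
sk O c a = if c.ev O a then (if c = ex d then (least b with d.ev O (pair a b)) + 1 else 1) else 0. By induction on c there is w_c : Set ℕ → ℕ → ℕ
(w_c O (pair c'.enc a) = sk O c' a if c' is a subcode of c, 0 otherwise) whose graph predicate is Ar; note c.ev O a is Ar in O for a fixed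
code c (induction: Ar.mem, not, and, ex, comp). -/
def E2S : Prop :=
  ∀ c : Code, ∃ w : Set ℕ → ℕ → ℕ, Ar (fun (p : ℕ × ℕ) O => w O p.1 = p.2) ∧
    ∀ O, Sk O (fun c' a => w O (Nat.pair c'.enc a)) c

/-- E3. requirements: numbers and locality. PROOF: pair injectivity, Tm.enc_inj, Code.enc_inj; Nat.left_le_pair; case by case. -/
def E3S : Prop :=
  (∀ r r' : Rq, r.ix = r'.ix → r = r') ∧ (∀ r : Rq, r.mx < r.ix) ∧
  (∀ (r : Rq) (A A' : ℕ → ℕ → ℕ) (h : ℕ → ℕ), (∀ w ≤ r.mx, A w = A' w) → Cn r A h → Cn r A' h)

/-- E4. FF is closed. PROOF. For fixed m, r the set {L | Cn r (gg L) (gg L m)} is closed (product topology of discrete ℕ): each clause is an intersection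
of clopen conditions (finitely many values of L); for hier: `dom` and membership in the oracle are clopen, Sk is closed by recursion on the
code. For m only one r is possible. Rej closed. Formulated with approximations; one may use Mathlib's IsClosed in ℕ → ℕ
(isClosed_iInter, IsClosed.union, continuous evaluation, discrete topology), and then: L in the closure since every basic neighbourhood
{L' | pre L' l = pre L l} meets FF. -/
def E4S : Prop := ∀ L : ℕ → ℕ, (∀ l, ∃ L' ∈ FF, pre L' l = pre L l) → L ∈ FF

/-- E5. from RLP to the situation. PROOF. S = enS (· ∈ TT G) ∈ M: t ∈ TT G is Ar in (t, G) (the first clause is parameter-free). TrOf S = TT G. IsTree. The path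
P x = if x.unpair.1 = 0 then ind G x.unpair.2 else if x.unpair.2 = 0 then 1 else 0 is in FF (all rejected) and bounded by 1. Path (TT G) L iff
L ∈ FF (E4) and the base condition (lists pre L n). Apply RLP with Y = G. -/
def E5S : Prop :=
  ∀ᶠ G in rich, ∀ M, ACA M → G ∈ M → RLP M → ∃ L : ℕ → ℕ, gr L ∈ M ∧ ∃ A, Situ G L A

/-- E6. acceptance. PROOF (FRA_PROOF.md E (*)). m = r.ix ≥ 1. If L (pair m 0) = 0 then Acc (as Rej needs 1), and r is the only requirement with number m: done.
Otherwise Rej, L (pair m 0) = 1. L' x = L x if x.unpair.1 < m; for x.unpair.1 = m: 0 if x.unpair.2 = 0, h (x.unpair.2 - 1) otherwise; for x.unpair.1 > m: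
1 if x.unpair.2 = 0, 0 otherwise. gr L' ∈ A (Ar in gr L, gr h), L' ∈ FF (E3 locality), base condition. LexLe L L' is false:
they agree below pair m 0 (positions x < pair m 0 with x.unpair.1 > m do not exist: pair m' n ≥ pair m' 0 = m'^2 + m' > m^2 + m = pair m 0;
with x.unpair.1 = m neither, as pair m n > pair m 0 for n > 0) and L' is smaller there. -/
def E6S : Prop :=
  ∀ᶠ G in rich, ∀ (L : ℕ → ℕ) (A : Set (Set ℕ)), Situ G L A → ∀ (r : Rq) (h : ℕ → ℕ), gr h ∈ A →
    Cn r (gg L) h → L (Nat.pair r.ix 0) = 0 ∧ Cn r (gg L) (gg L r.ix)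

/-- E7. the columns form a closed family. PROOF. cols (zz L) = {sup (gg L w)}. For each elementary operation apply E6 with the obvious h in A
(indicator functions; for proj: h n = (least b with A w (pair n b) ≠ 0) + 1 or 0), arithmetical in gr L. G is column 0. -/
def E7S : Prop :=
  ∀ᶠ G in rich, ∀ (L : ℕ → ℕ) (A : Set (Set ℕ)), Situ G L A →
    ACA (cols (zz L)) ∧ G ∈ cols (zz L) ∧ (∀ w, gr (gg L w) ∈ cols (zz L)) ∧
    (∀ w, gr (gg L w) ∈ A) ∧ (∀ w, sup (gg L w) ∈ A)

/-- E8. descending sequences. PROOF. If f with gr f ∈ A descends in W = sup (gg L w) then Cn (.desc w) (gg L) f, so by E6 gg L (ix) descends in W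
and its graph is in cols (zz L) by E7: contradiction. Second part: if P ∈ A is a nonempty subset of the field without W-least element, seq_exists
(β = ℕ, I p = p ∈ P, R (p, q) = pair q p ∈ W ∧ q ≠ p) gives a descending sequence in A. -/
def E8S : Prop :=
  ∀ᶠ G in rich, ∀ (L : ℕ → ℕ) (A : Set (Set ℕ)), Situ G L A → ∀ w, IsLO (sup (gg L w)) →
    NoDesc (cols (zz L)) (sup (gg L w)) →
    NoDesc A (sup (gg L w)) ∧
    ∀ P ∈ A, (∃ p, p ∈ P ∧ Nat.pair p p ∈ sup (gg L w)) →
      ∃ p, p ∈ P ∧ Nat.pair p p ∈ sup (gg L w) ∧
        ∀ q ∈ P, Nat.pair q q ∈ sup (gg L w) → Nat.pair p q ∈ sup (gg L w)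

/-- `H` is the hierarchy along the part of `W` described by `p` -/
def HierTo (c : Code) (W Y : Set ℕ) (p : ℕ) (H : Set ℕ) : Prop :=
  ∀ x, x ∈ H ↔ (dom W p x.unpair.1 ∧ c.ev (jn Y (low W H x.unpair.1)) x)

/-- E9. PROOF. ⇒: E1 applied to the Skolem conditions for each q with dom W p q. ⇐ not needed. -/
def E9S : Prop :=
  ∀ (c : Code) (w w' p : ℕ) (A : ℕ → ℕ → ℕ) (h : ℕ → ℕ), Cn (.hier c w w' p) A h →
    HierTo c (sup (A w)) (sup (A w')) p (HS c (sup (A w)) p h)

/-- E10. uniqueness of hierarchies inside a closed family in which W has least elements. PROOF. If they differ below some common q, the set of q in both domains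
such that some x with x.unpair.1 = q is in exactly one of H, H' is in A (Ar in W, H, H'; dom W p is Ar) and nonempty; at its least element q the sets
low W H q and low W H' q are equal (elements r < q of the domain are in both domains by transitivity), so the defining equivalences give equality. -/
def E10S : Prop :=
  ∀ᶠ G in rich, ∀ A : Set (Set ℕ), ACA A → G ∈ A → ∀ W ∈ A, IsLO W →
    (∀ P ∈ A, (∃ p, p ∈ P ∧ Nat.pair p p ∈ W) →
      ∃ p, p ∈ P ∧ Nat.pair p p ∈ W ∧ ∀ q ∈ P, Nat.pair q q ∈ W → Nat.pair p q ∈ W) →
    ∀ (c : Code) (Y : Set ℕ) (p p' : ℕ), ∀ H ∈ A, ∀ H' ∈ A, HierTo c W Y p H → HierTo c W Y p' H' →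
      ∀ x, dom W p x.unpair.1 → dom W p' x.unpair.1 → (x ∈ H ↔ x ∈ H')

/-- E11. extension: if all hierarchies below the elements of dom W p are accepted then the one for p exists in A. PROOF. For q in dom W p let
m_q = (Rq.hier c w w' (q+1)).ix, H^q = HS c W (q+1) (gg L m_q), a hierarchy to q+1 (E9). Define h (pair q (pair k a)) = w_c (O_q) (pair k a) where w_c is
from E2, O_q = jn Y (H^q) if dom W p q, and 0 otherwise. Graph of h is Ar in gr L (Ar.subst with the parameter q), so in A. Let
H = HS c W p h. For q in dom W p: x ∈ H with x.unpair.1 = q iff c.ev O_q x (E1). Claim low W H q = H^q (as a set: elements x of H^q have x.unpair.1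
strictly below q): for r strictly below q: x ∈ H with x.unpair.1 = r iff c.ev (jn Y H^r) x; and x ∈ H^q iff c.ev (jn Y (low W H^q r)) x, and
low W H^q r = H^r by E10 (coherence). So the Skolem conditions for O_q are those required by Cn (.hier c w w' p). -/
def E11S : Prop :=
  ∀ᶠ G in rich, ∀ (L : ℕ → ℕ) (A : Set (Set ℕ)), Situ G L A → ∀ w, IsLO (sup (gg L w)) →
    NoDesc (cols (zz L)) (sup (gg L w)) → ∀ (c : Code) (w' p : ℕ),
    (∀ q, dom (sup (gg L w)) p q → Cn (.hier c w w' (q + 1)) (gg L) (gg L (Rq.hier c w w' (q + 1)).ix)) →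
    ∃ h : ℕ → ℕ, gr h ∈ A ∧ Cn (.hier c w w' p) (gg L) h

/-- E12. PROOF. Let W = sup (gg L w) etc. (elements of cols (zz L) are of this form). P = {q | L (pair (ix (hier c w w' (q+1))) 0) ≠ 0} ∈ A. If P meets the field of W
take the least q there (E8); all q' strictly below q (dom W (q+1) q') are accepted with Cn (as FF: Acc, and ix injective E3), so E11 and E6 give
that q is accepted, contradiction. So all are accepted, E11 with p = 0 and E6 give Cn (.hier c w w' 0) (gg L) (gg L m), E9: the set HS c W 0 (gg L m) is a
hierarchy, Hier c W Y; it is in cols (zz L) because that family is ACA, contains G and gr (gg L m), W (E7) and HS is Ar in these. -/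
def E12S : Prop :=
  ∀ᶠ G in rich, ∀ (L : ℕ → ℕ) (A : Set (Set ℕ)), Situ G L A → ATR (cols (zz L))

/-- E13. PROOF: E5, E7, E12; zz L ∈ M as it is Ar in gr L. -/
def E13S : Prop :=
  ∀ᶠ G in rich, ∀ M, ACA M → G ∈ M → RLP M → ∃ z ∈ M, G ∈ cols z ∧ ACA (cols z) ∧ ATR (cols z)

/-! ## Block G: truth sets, the diagonal argument, standard form -/

/-- G1. PROOF. Tarski conditions determine the truth set: induction on the code; Code.enc_inj. -/
def G1S : Prop := ∀ O T : Set ℕ, IsSat O T ↔ T = Sat O

/-- G2. PROOF: Ar calculus; quantify over x : ℕ, c : Code, t : Tm, a b : ℕ (all Encodable). -/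
def G2S : Prop := Ar (fun (_ : ℕ) (S : Set ℕ) => IsSat (col S 0) (col S 1))

/-- G3. truth sets from ATR. PROOF. W = {x | x.unpair.1 ≤ x.unpair.2} ∈ M (parameter-free), a linear order without descending sequence. Step: x = pair k a is put into H iff
k = c.enc for a code c and Tarski's clause for c at a holds, where truth of the immediate subcodes d (d.enc < k) is read off from the lower part;
with oracle O = jn Y (low W H k), Y = jn G S, this is an Ar predicate P x O, and by `Ar.code_in` there is a code c with
c.ev (jn (jn G S) R) x ↔ P x (jn (jn G S) R). Use ATR with parameter Y = jn G S. Then H = Sat S by strong induction on the code. -/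
def G3S : Prop := ∀ᶠ G in rich, ∀ M, ACA M → G ∈ M → ATR M → SatC M

/-- G4. PROOF. QQ (col S 0) (col S 1), with G = col S 0, z = col S 1: G ∈ cols z, ACA (cols z), SatC (cols z) [∀ i ∃ j IsSat (col z i) (col z j), by G1] and ATR (cols z) are
Ar; in ATR the condition c.ev (jn (col z y) (low (col z w) (col z k) q)) x is replaced, under ACA and SatC of cols z (there are i, j with
col z i = jn (col z y) (low ..) and col z j = Sat (col z i)), by: ∃ i j, col z i = jn (col z y) (low (col z w) (col z k) q) ∧ IsSat (col z i) (col z j) ∧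
pair c.enc x ∈ col z j. (low W H q = {x | pair x.1 q ∈ W} ∩ {x | x.1 ≠ q} ∩ H is in cols z by `Ar.set_mem` for
rich G since G ∈ cols z; this is why the equivalence is only claimed for G in a rich set. -/
def G4S : Prop :=
  ∃ Q : Set ℕ → Prop, Ar (fun (_ : ℕ) (S : Set ℕ) => Q S) ∧ ∀ᶠ G in rich, ∀ z, QQ G z ↔ Q (jn G z)

/-- G5. true hierarchies along true well orders exist. PROOF. Well-founded recursion along the strict part of W. -/
def G5S : Prop :=
  ∀ (c : Code) (W Y : Set ℕ), IsLO W → NoDesc Set.univ W → ∃ H, Hier c W Y H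

/-- G6. countable models. PROOF. Inductive type of names: g | jn | compl | inter | proj | tm t | sat | hier c W Y | desc W, with interpretation
I (hier c a b) = some H with Hier c (I a) (I b) H if there is one, ∅ otherwise; I (desc a) = graph of some descending sequence of I a if there is one. Names are countable
(injection into ℕ); y = {x | ∃ name n, enc n = x.unpair.1 ∧ x.unpair.2 ∈ I n}; cols y = range I ∪ {∅}, and ∅ is in range I. NoDesc (cols y) W implies
NoDesc Set.univ W (the name desc), so G5 applies. -/
def G6S : Prop := ∀ G : Set ℕ, ∃ y, QQ G y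

/-- G7. the diagonal argument. PROOF (FRA_PROOF.md G). Q from G4. P (n, S) : for all i j, IsSat (jn G (jn G (col y i))) (col y j) ∧ Q (jn G (col y i)) → pair n n ∉ col y j, where G = col S 0,
y = col S 1. It is Ar (G2, G4, Ar.subst). For rich G there is a code d with d.ev (jn G S) n ↔ P n S. R y := P d.enc (jn G y), i.e. d.ev (jn G (jn G y)) d.enc.
For QQ G y: for every i, col y i ∈ cols y and jn G (jn G (col y i)) ∈ cols y and its Sat is in cols y, so R y ↔ ∀ i, QQ G (col y i) → ¬ R (col y i). Suppose every y with QQ G y has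
i with QQ G (col y i). Then ¬ R y for all y with QQ G y (if R y, z = col y i with QQ G z, ¬ R z, so there is j with QQ G (col z j), R (col z j); col z j ∈ cols y
by ACA.col_mem; contradiction with R y). Then R y holds by the equivalence; contradiction. y exists by G6. -/
def G7S : Prop := ∀ᶠ G in rich, ∃ y, QQ G y ∧ ∀ i, ¬ QQ G (col y i)

/-- G8. formulas are arithmetical. PROOF. Induction on p; valuations: number variables v i = the i-th entry of the list x (List ℕ, default 0); the set variable i is col S i.
For `all i p` : update: quantify over n : ℕ and use the list x updated at i (x.getD, after padding: (List.range (max x.length (i+1))).map ...). -/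
def G8S : Prop :=
  ∀ p : Fm, Ar (fun (x : List ℕ) (S : Set ℕ) => p.tr (fun i => col S i) (fun i => x.getD i 0))

/-- G9. standard form of ATR_0. PROOF. For V with V i ∈ M: a formula p only uses finitely many set and number variables: for N large, p.tr V v = p.tr V' v' where V' i = V i for i < N and
∅ for i ≥ N, v' similarly; S = {x | x.unpair.1 < N ∧ x.unpair.2 ∈ V x.unpair.1} ∈ M (finite union; ∅ ∈ M). Comprehension by G8. For the recursion: translate H ∋ pair n j (standard) to pair j n (Hier);
the step predicate P x O with O = jn (jn G S) R (R the lower part) is Ar and has a code by `Ar.code_in`. Then swap the coordinates (tm_mem). -/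
def G9S : Prop := ∀ᶠ G in rich, ∀ M, ACA M → G ∈ M → ATR M → ModelATR0 M

/-- the theorem -/
def MainS : Prop := ∃ M : Set (Set ℕ), ModelATR0 M ∧ ¬ FRA M

end FR
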